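import Pool.Agent.MP_538dc4_an.Spec

/-! PROJECT FURST: elementary lemmas (geometry, cells, weights, sizes). -/

open MeasureTheory Finset
open scoped ENNReal FourierTransform ComplexConjugate RealInnerProductSpace

namespace Pool.Agent.MP_538dc4_an

@[simp] theorem v2_0 (a b : ℝ) : v2 a b 0 = a := rfl
@[simp] theorem v2_1 (a b : ℝ) : v2 a b 1 = b := rfl
@[simp] theorem v3_0 (a b c : ℝ) : v3 a b c 0 = a := rfl
@[simp] theorem v3_1 (a b c : ℝ) : v3 a b c 1 = b := rfl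
@[simp] theorem v3_2 (a b c : ℝ) : v3 a b c 2 = c := rfl

theorem E2_ext {y z : E2} (h0 : y 0 = z 0) (h1 : y 1 = z 1) : y = z := by
  ext i; fin_cases i <;> simpa

theorem E3_ext {y z : E3} (h0 : y 0 = z 0) (h1 : y 1 = z 1) (h2 : y 2 = z 2) : y = z := by
  ext i; fin_cases i <;> simpa

theorem v2_eta (z : E2) : v2 (z 0) (z 1) = z := E2_ext rfl rfl

theorem v3_eta (z : E3) : v3 (z 0) (z 1) (z 2) = z := E3_ext rfl rfl rfl

theorem continuous_v2 {α : Type*} [TopologicalSpace α] {f g : α → ℝ} (hf : Continuous f)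
    (hg : Continuous g) : Continuous fun x => v2 (f x) (g x) := by
  unfold v2
  refine (PiLp.continuous_toLp 2 _).comp (continuous_pi fun i => ?_)
  fin_cases i <;> simpa

theorem continuous_v3 {α : Type*} [TopologicalSpace α] {f g h : α → ℝ} (hf : Continuous f)
    (hg : Continuous g) (hh : Continuous h) : Continuous fun x => v3 (f x) (g x) (h x) := by
  unfold v3
  refine (PiLp.continuous_toLp 2 _).comp (continuous_pi fun i => ?_)
  fin_cases i <;> simpa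

theorem inner_E2 (y z : E2) : ⟪y, z⟫ = y 0 * z 0 + y 1 * z 1 := by
  simp [PiLp.inner_apply, Fin.sum_univ_two, mul_comm]

theorem inner_E3 (y z : E3) : ⟪y, z⟫ = y 0 * z 0 + y 1 * z 1 + y 2 * z 2 := by
  simp [PiLp.inner_apply, Fin.sum_univ_three, mul_comm]

theorem abs_coord_le_dist (y z : E2) (i : Fin 2) : |y i - z i| ≤ dist y z := by
  have := PiLp.dist_apply_le y z i
  rwa [Real.dist_eq] at this

theorem inner_fr (e a α β : ℝ) (z : E2) : ⟪z, fr e a α β⟫ = α * N0 e a z + β * N1 e a z := by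
  simp only [inner_E2, fr, v2_0, v2_1, N0, N1]; ring

theorem inner_fr3 (a α β γ : ℝ) (X : E3) :
    ⟪X, fr3 a α β γ⟫ = α * L0 a X + β * L1 a X + γ * X 2 := by
  simp only [inner_E3, fr3, v3_0, v3_1, v3_2, L0, L1]; ring

theorem fr3_eta (a : ℝ) (ξ : E3) : fr3 a (ξ 0) (l1 a ξ) (l2 a ξ) = ξ := by
  refine E3_ext ?_ ?_ ?_ <;> simp only [fr3, v3_0, v3_1, v3_2, l1, l2] <;> ring

@[simp] theorem fr3_0 (a α β γ : ℝ) : fr3 a α β γ 0 = α := rfl

@[simp] theorem l1_fr3 (a α β γ : ℝ) : l1 a (fr3 a α β γ) = β := by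
  simp only [fr3, v3_0, v3_1, l1]; ring

@[simp] theorem l2_fr3 (a α β γ : ℝ) : l2 a (fr3 a α β γ) = γ := by
  simp only [fr3, v3_0, v3_1, v3_2, l2]; ring

theorem dt_fr (e b a α β : ℝ) : dt e b (fr e a α β) =
    α * ((a - b) * (1 + e * a * b)) + β * (1 - e * b ^ 2 + 2 * e * a * b) := by
  simp only [dt, fr, v2_0, v2_1]; ring

theorem fr_eta {e : ℝ} (he : 0 ≤ e) (a : ℝ) (ξ : E2) :
    fr e a ((ξ 0 + 2 * e * a * ξ 1) / (1 + e * a ^ 2)) (dt e a ξ / (1 + e * a ^ 2)) = ξ := by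
  have h : (1 + e * a ^ 2) ≠ 0 := by positivity
  refine E2_ext ?_ ?_ <;> simp only [fr, v2_0, v2_1, dt] <;> field_simp <;> ring

theorem N0_sub (e a : ℝ) (y z : E2) : N0 e a (y - z) = N0 e a y - N0 e a z := by
  simp only [N0, PiLp.sub_apply]; ring

theorem N1_sub (e a : ℝ) (y z : E2) : N1 e a (y - z) = N1 e a y - N1 e a z := by
  simp only [N1, PiLp.sub_apply]; ring

theorem L0_sub (a : ℝ) (X Y : E3) : L0 a (X - Y) = L0 a X - L0 a Y := by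
  simp only [L0, PiLp.sub_apply]; ring

theorem L1_sub (a : ℝ) (X Y : E3) : L1 a (X - Y) = L1 a X - L1 a Y := by
  simp only [L1, PiLp.sub_apply]; ring

theorem l1_sub (a : ℝ) (X Y : E3) : l1 a (X - Y) = l1 a X - l1 a Y := by
  simp only [l1, PiLp.sub_apply]; ring

theorem l2_sub (a : ℝ) (X Y : E3) : l2 a (X - Y) = l2 a X - l2 a Y := by
  simp only [l2, PiLp.sub_apply]; ring

theorem l1_add (a : ℝ) (X Y : E3) : l1 a (X + Y) = l1 a X + l1 a Y := by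
  simp only [l1, PiLp.add_apply]; ring

theorem l2_add (a : ℝ) (X Y : E3) : l2 a (X + Y) = l2 a X + l2 a Y := by
  simp only [l2, PiLp.add_apply]; ring

theorem N0_shift (e a b : ℝ) (z : E2) :
    N0 e a z = N0 e b z + (a - b) * N1 e b z - e * (a - b) ^ 2 * z 0 := by
  simp only [N0, N1]; ring

theorem N1_shift (e a b : ℝ) (z : E2) : N1 e a z = N1 e b z - 2 * e * (a - b) * z 0 := by
  simp only [N1]; ring

theorem L0_shift (a b : ℝ) (X : E3) :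
    L0 a X = L0 b X + (a - b) * L1 b X + (a - b) ^ 2 * X 2 := by
  simp only [L0, L1]; ring

theorem L1_shift (a b : ℝ) (X : E3) : L1 a X = L1 b X + 2 * (a - b) * X 2 := by
  simp only [L1]; ring

theorem l1_shift (a b : ℝ) (ξ : E3) : l1 b ξ = l1 a ξ + (a - b) * ξ 0 := by
  simp only [l1]; ring

theorem l2_shift (a b : ℝ) (ξ : E3) :
    l2 b ξ = l2 a ξ + 2 * (a - b) * l1 a ξ + (a - b) ^ 2 * ξ 0 := by
  simp only [l1, l2]; ring

theorem cone_inv (a : ℝ) (ξ : E3) : ξ 0 * l2 a ξ - l1 a ξ ^ 2 = ξ 0 * ξ 2 - ξ 1 ^ 2 := by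
  simp only [l1, l2]; ring

theorem coord0_eq (e b : ℝ) (z : E2) : (1 + e * b ^ 2) * z 0 = N0 e b z - b * N1 e b z := by
  simp only [N0, N1]; ring

theorem abs_coord0_le {e b : ℝ} (he : 0 ≤ e) (hb : |b| ≤ 1) (z : E2) :
    |z 0| ≤ |N0 e b z| + |N1 e b z| := by
  have h1 : (1 : ℝ) ≤ 1 + e * b ^ 2 := by nlinarith [sq_nonneg b, mul_nonneg he (sq_nonneg b)]
  calc |z 0| ≤ |(1 + e * b ^ 2) * z 0| := by
        rw [abs_mul, abs_of_nonneg (by linarith : (0 : ℝ) ≤ 1 + e * b ^ 2)]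
        nlinarith [abs_nonneg (z 0)]
    _ = |N0 e b z - b * N1 e b z| := by rw [coord0_eq]
    _ ≤ |N0 e b z| + |b * N1 e b z| := abs_sub _ _
    _ ≤ _ := by rw [abs_mul]; nlinarith [abs_nonneg (N1 e b z), abs_nonneg b]

theorem continuous_N0 (e a : ℝ) : Continuous (N0 e a) := by unfold N0; fun_prop
theorem continuous_N1 (e a : ℝ) : Continuous (N1 e a) := by unfold N1; fun_prop
theorem continuous_L0 (a : ℝ) : Continuous (L0 a) := by unfold L0; fun_prop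
theorem continuous_L1 (a : ℝ) : Continuous (L1 a) := by unfold L1; fun_prop
theorem continuous_l1 (a : ℝ) : Continuous (l1 a) := by unfold l1; fun_prop
theorem continuous_l2 (a : ℝ) : Continuous (l2 a) := by unfold l2; fun_prop
theorem continuous_dt (e a : ℝ) : Continuous (dt e a) := by unfold dt; fun_prop

/-- With D = X - lift z: the incidence quantities are the polynomial D and its derivative. -/
theorem inc0_shift (e a b : ℝ) (X : E3) (z : E2) :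
    L0 a X - N0 e a z = (L0 b X - N0 e b z) + (a - b) * (L1 b X - N1 e b z) +
      (a - b) ^ 2 * (X 2 + e * z 0) := by
  simp only [L0, L1, N0, N1]; ring

theorem inc1_shift (e a b : ℝ) (X : E3) (z : E2) :
    L1 a X - N1 e a z = (L1 b X - N1 e b z) + 2 * (a - b) * (X 2 + e * z 0) := by
  simp only [L1, N1]; ring

theorem inc2_eq (e a : ℝ) (X : E3) (z : E2) :
    (1 + e * a ^ 2) * (X 2 + e * z 0) =
      (X 2 + e * X 0) - e * ((L0 a X - N0 e a z) - a * (L1 a X - N1 e a z)) := by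
  simp only [L0, L1, N0, N1]; ring

theorem L0_zpt {e : ℝ} (he : 0 ≤ e) (a φ : ℝ) (X : E3) :
    L0 a X - N0 e a (zpt e X φ) = cc e X φ * (a - φ) ^ 2 := by
  have h : (1 + e * φ ^ 2) ≠ 0 := by positivity
  simp only [L0, N0, zpt, v2_0, v2_1, cc]; field_simp; ring

theorem L1_zpt {e : ℝ} (he : 0 ≤ e) (a φ : ℝ) (X : E3) :
    L1 a X - N1 e a (zpt e X φ) = 2 * cc e X φ * (a - φ) := by
  have h : (1 + e * φ ^ 2) ≠ 0 := by positivity
  simp only [L1, N1, zpt, v2_0, v2_1, cc]; field_simp; ring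

theorem cc_bounds {e R φ : ℝ} {X : E3} (he : 0 ≤ e) (he1 : e ≤ 1) (hR : 1 ≤ R)
    (hX : GoodX e R X) (h0 : 0 ≤ φ) (h1 : φ ≤ 1) : 1 / (2 * R) ≤ cc e X φ ∧ cc e X φ ≤ 2 * R := by
  obtain ⟨hx0, -, hx2, hI⟩ := hX
  have hφ : e * φ ^ 2 ≤ 1 := by nlinarith [mul_nonneg h0 h0, mul_le_one₀ h1 h0 h1]
  have hφ0 : 0 ≤ e * φ ^ 2 := by positivity
  have hRp : 0 < 1 / R := by positivity
  have hup : X 2 + e * X 0 ≤ 2 * R := by
    have := abs_le.1 hx0; have := abs_le.1 hx2; nlinarith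
  unfold cc
  constructor
  · rw [le_div_iff₀ (by linarith)]
    have : 1 / (2 * R) = 1 / R / 2 := by field_simp
    rw [this]; nlinarith
  · rw [div_le_iff₀ (by linarith)]; nlinarith

/-! ### Cells -/

theorem mem_ch {b j q n p : ℕ} : p ∈ ch b j q n ↔ p < b ^ n ∧ p / b ^ (n - j) = q := by
  simp [ch]

theorem div_pow_lt {b j n p : ℕ} (hb : 0 < b) (hj : j ≤ n) (hp : p < b ^ n) :
    p / b ^ (n - j) < b ^ j := by
  rw [Nat.div_lt_iff_lt_mul (pow_pos hb _), ← pow_add, Nat.add_sub_cancel' hj]; exact hp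

theorem div_pow_div_pow (b p : ℕ) {j i n : ℕ} (h1 : j ≤ i) (h2 : i ≤ n) :
    p / b ^ (n - i) / b ^ (i - j) = p / b ^ (n - j) := by
  rw [Nat.div_div_eq_div_mul, ← pow_add]; congr 2; omega

theorem ch_zero (b n : ℕ) : ch b 0 0 n = range (b ^ n) := by
  ext p; simp only [mem_ch, mem_range, Nat.sub_zero, and_iff_left_iff_imp]
  exact fun h => Nat.div_eq_of_lt h

theorem ch_self {b j q : ℕ} (hq : q < b ^ j) : ch b j q j = {q} := by
  ext p; simp only [mem_ch, Nat.sub_self, pow_zero, Nat.div_one, mem_singleton]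
  exact ⟨fun h => h.2, fun h => ⟨h ▸ hq, h⟩⟩

theorem lt_of_mem_ch {b j q n p : ℕ} (hb : 0 < b) (hj : j ≤ n) (hp : p ∈ ch b j q n) :
    q < b ^ j := by
  obtain ⟨h1, h2⟩ := mem_ch.1 hp; exact h2 ▸ div_pow_lt hb hj h1

theorem mem_ch_trans {b j q i q' n p : ℕ} (h1 : j ≤ i) (h2 : i ≤ n) (hq : q' ∈ ch b j q i)
    (hp : p ∈ ch b i q' n) : p ∈ ch b j q n := by
  rw [mem_ch] at *
  exact ⟨hp.1, by rw [← div_pow_div_pow b p h1 h2, hp.2, hq.2]⟩

theorem div_mem_ch {b j q i n p : ℕ} (hb : 0 < b) (h1 : j ≤ i) (h2 : i ≤ n)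
    (hp : p ∈ ch b j q n) : p / b ^ (n - i) ∈ ch b j q i := by
  rw [mem_ch] at *
  exact ⟨div_pow_lt hb h2 hp.1, by rw [div_pow_div_pow b p h1 h2, hp.2]⟩

theorem sum_ch {M : Type*} [AddCommMonoid M] {b j i n : ℕ} (hb : 0 < b) (h1 : j ≤ i)
    (h2 : i ≤ n) (q : ℕ) (F : ℕ → M) :
    ∑ p ∈ ch b j q n, F p = ∑ q' ∈ ch b j q i, ∑ p ∈ ch b i q' n, F p := by
  rw [← Finset.sum_fiberwise_of_maps_to (s := ch b j q n) (t := ch b j q i)
    (g := fun p => p / b ^ (n - i)) (fun p hp => div_mem_ch hb h1 h2 hp)]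
  refine Finset.sum_congr rfl fun q' hq' => Finset.sum_congr ?_ fun _ _ => rfl
  ext p
  simp only [mem_filter]
  constructor
  · rintro ⟨hp, h⟩; exact mem_ch.2 ⟨(mem_ch.1 hp).1, h⟩
  · intro hp; exact ⟨mem_ch_trans h1 h2 hq' hp, (mem_ch.1 hp).2⟩

theorem card_ch_le (b j q n : ℕ) (hb : 0 < b) : (ch b j q n).card ≤ b ^ (n - j) := by
  have : ch b j q n ⊆ Ico (q * b ^ (n - j)) (q * b ^ (n - j) + b ^ (n - j)) := by
    intro p hp
    obtain ⟨-, h⟩ := mem_ch.1 hp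
    have hB : 0 < b ^ (n - j) := pow_pos hb _
    have h1 := Nat.div_add_mod p (b ^ (n - j))
    have h2 := Nat.mod_lt p hB
    rw [h, mul_comm] at h1
    rw [mem_Ico]
    generalize p % b ^ (n - j) = r at h1 h2
    generalize q * b ^ (n - j) = s at h1
    omega
  simpa using card_le_card this

theorem bs_nonneg (b l p : ℕ) : 0 ≤ bs b l p := by unfold bs; positivity

theorem bs_lt_one {b l p : ℕ} (hp : p < b ^ l) : bs b l p < 1 := by
  have h : (0 : ℝ) < (b : ℝ) ^ l := by exact_mod_cast (Nat.zero_le p).trans_lt hp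
  unfold bs; rw [div_lt_one h]; exact_mod_cast hp

theorem bs_sub_div {b j n : ℕ} (hb : 0 < b) (hj : j ≤ n) (p : ℕ) :
    0 ≤ bs b n p - bs b j (p / b ^ (n - j)) ∧
      bs b n p - bs b j (p / b ^ (n - j)) < ((b : ℝ) ^ j)⁻¹ := by
  have hB : 0 < b ^ (n - j) := pow_pos hb _
  have h1 := Nat.div_add_mod p (b ^ (n - j))
  have h2 := Nat.mod_lt p hB
  have hb' : (0 : ℝ) < b := by exact_mod_cast hb
  have hn : (b : ℝ) ^ n = (b : ℝ) ^ j * (b : ℝ) ^ (n - j) := by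
    rw [← pow_add, Nat.add_sub_cancel' hj]
  have h1' : ((b : ℝ) ^ (n - j)) * ((p / b ^ (n - j) : ℕ) : ℝ) + ((p % b ^ (n - j) : ℕ) : ℝ) = p := by
    exact_mod_cast h1
  have h2' : ((p % b ^ (n - j) : ℕ) : ℝ) < (b : ℝ) ^ (n - j) := by exact_mod_cast h2
  have key : bs b n p - bs b j (p / b ^ (n - j)) =
      ((p % b ^ (n - j) : ℕ) : ℝ) / (b : ℝ) ^ (n - j) * ((b : ℝ) ^ j)⁻¹ := by
    unfold bs; rw [hn]; nth_rewrite 1 [← h1']; field_simp; ring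
  rw [key]
  refine ⟨by positivity, ?_⟩
  have : ((p % b ^ (n - j) : ℕ) : ℝ) / (b : ℝ) ^ (n - j) < 1 := (div_lt_one (by positivity)).2 h2'
  have h3 : (0 : ℝ) < ((b : ℝ) ^ j)⁻¹ := by positivity
  nlinarith

theorem bs_sub_of_mem_ch {b j q n p : ℕ} (hb : 0 < b) (hj : j ≤ n) (hp : p ∈ ch b j q n) :
    0 ≤ bs b n p - bs b j q ∧ bs b n p - bs b j q < ((b : ℝ) ^ j)⁻¹ :=
  (mem_ch.1 hp).2 ▸ bs_sub_div hb hj p

/-- The cell of level l that contains φ. -/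
theorem floor_cell {b : ℕ} (hb : 0 < b) {φ : ℝ} (h0 : 0 ≤ φ) (h1 : φ < 1) (l : ℕ) :
    ⌊φ * (b : ℝ) ^ l⌋₊ < b ^ l ∧ 0 ≤ φ - bs b l ⌊φ * (b : ℝ) ^ l⌋₊ ∧
      φ - bs b l ⌊φ * (b : ℝ) ^ l⌋₊ < ((b : ℝ) ^ l)⁻¹ := by
  have hB : (0 : ℝ) < (b : ℝ) ^ l := by positivity
  have hx : 0 ≤ φ * (b : ℝ) ^ l := by positivity
  have f1 := Nat.floor_le hx
  have f2 := Nat.lt_floor_add_one (φ * (b : ℝ) ^ l)
  refine ⟨?_, ?_, ?_⟩
  · rw [Nat.floor_lt hx]; push_cast; nlinarith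
  · unfold bs; rw [sub_nonneg, div_le_iff₀ hB]; exact f1
  · unfold bs; rw [sub_lt_iff_lt_add, inv_eq_one_div, ← add_div, lt_div_iff₀ hB]; linarith

theorem floor_cell_div {b : ℕ} (φ : ℝ) {l j : ℕ} (hb : 0 < b) (h : l ≤ j) :
    ⌊φ * (b : ℝ) ^ j⌋₊ / b ^ (j - l) = ⌊φ * (b : ℝ) ^ l⌋₊ := by
  have hb' : (0 : ℝ) < b := by exact_mod_cast hb
  rw [← Nat.floor_div_natCast]
  congr 1
  push_cast
  rw [show (b : ℝ) ^ j = (b : ℝ) ^ l * (b : ℝ) ^ (j - l) by rw [← pow_add, Nat.add_sub_cancel' h]]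
  field_simp

/-! ### Weights -/

section cw

variable {K : ℕ} {χ : ℕ → ℕ → ℕ → E2 → ℝ}

theorem cw_nonneg (h0 : ∀ J l p z, 0 ≤ χ J l p z) (J l j p : ℕ) (z : E2) :
    0 ≤ cw K χ J l j p z :=
  prod_nonneg fun _ _ => prod_nonneg fun _ _ => h0 _ _ _ _

theorem cw_le_one (h0 : ∀ J l p z, 0 ≤ χ J l p z) (h1 : ∀ J l p z, χ J l p z ≤ 1)
    (J l j p : ℕ) (z : E2) : cw K χ J l j p z ≤ 1 :=
  prod_le_one (fun _ _ => prod_nonneg fun _ _ => h0 _ _ _ _)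
    fun _ _ => prod_le_one (fun _ _ => h0 _ _ _ _) fun _ _ => h1 _ _ _ _

theorem cw_zero (J j p : ℕ) (z : E2) : cw K χ J 0 j p z = 1 := by simp [cw]

theorem cw_succ (J l j p : ℕ) (z : E2) : cw K χ J (l + 1) j p z =
    cw K χ J l j p z * ∏ J' ∈ Ioc l J, χ J' l (p / K ^ (j - l)) z := by
  simp [cw, prod_range_succ]

/-- The weight only depends on an ancestor of the cell. -/
theorem cw_parent (J : ℕ) {l j j1 : ℕ} (h1 : l ≤ j1 + 1) (h2 : j1 ≤ j) (p : ℕ) (z : E2) :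
    cw K χ J l j p z = cw K χ J l j1 (p / K ^ (j - j1)) z := by
  unfold cw
  refine prod_congr rfl fun l' hl' => prod_congr rfl fun J' _ => ?_
  rw [div_pow_div_pow K p (by have := mem_range.1 hl'; omega) h2]

theorem cw_anti (h0 : ∀ J l p z, 0 ≤ χ J l p z) (h1 : ∀ J l p z, χ J l p z ≤ 1)
    {J J1 l l1 : ℕ} (hJ : J1 ≤ J) (hl : l1 ≤ l) (j p : ℕ) (z : E2) :
    cw K χ J l j p z ≤ cw K χ J1 l1 j p z := by
  unfold cw
  calc _ ≤ ∏ l' ∈ range l1, ∏ J' ∈ Ioc l' J, χ J' l' (p / K ^ (j - l')) z :=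
        prod_le_prod_of_subset_of_le_one (range_subset_range.2 hl)
          (fun _ _ => prod_nonneg fun _ _ => h0 _ _ _ _)
          fun _ _ _ => prod_le_one (fun _ _ => h0 _ _ _ _) fun _ _ => h1 _ _ _ _
    _ ≤ _ := prod_le_prod (fun _ _ => prod_nonneg fun _ _ => h0 _ _ _ _) fun _ _ =>
        prod_le_prod_of_subset_of_le_one (Ioc_subset_Ioc_right hJ) (fun _ _ => h0 _ _ _ _)
          fun _ _ _ => h1 _ _ _ _

theorem cw_mono (h0 : ∀ J l p z, 0 ≤ χ J l p z) (h1 : ∀ J l p z, χ J l p z ≤ 1)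
    {J J1 l l1 j j1 : ℕ} (hJ : J1 ≤ J) (hl : l1 ≤ l) (hl1 : l1 ≤ j1 + 1) (hj : j1 ≤ j) (p : ℕ)
    (z : E2) : cw K χ J l j p z ≤ cw K χ J1 l1 j1 (p / K ^ (j - j1)) z := by
  rw [← cw_parent J1 hl1 hj]; exact cw_anti h0 h1 hJ hl j p z

/-- The weight is dominated by the weight that appears in Prune.heavy. -/
theorem cw_le_heavy (h0 : ∀ J l p z, 0 ≤ χ J l p z) (h1 : ∀ J l p z, χ J l p z ≤ 1)
    {J J1 l l2 j : ℕ} (hJ : J1 ≤ J) (hl : l2 < l) (hlJ : l2 < J1) (hj : l2 ≤ j) (p : ℕ) (z : E2) :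
    cw K χ J l j p z ≤
      χ J1 l2 (p / K ^ (j - l2)) z * cw K χ J1 l2 l2 (p / K ^ (j - l2)) z := by
  calc _ ≤ cw K χ J1 (l2 + 1) j p z := cw_anti h0 h1 hJ hl j p z
    _ = cw K χ J1 l2 l2 (p / K ^ (j - l2)) z * ∏ J' ∈ Ioc l2 J1, χ J' l2 (p / K ^ (j - l2)) z := by
        rw [cw_succ, cw_parent J1 (Nat.le_succ l2) hj]
    _ ≤ cw K χ J1 l2 l2 (p / K ^ (j - l2)) z * ∏ J' ∈ {J1}, χ J' l2 (p / K ^ (j - l2)) z := by
        refine mul_le_mul_of_nonneg_left ?_ (cw_nonneg h0 _ _ _ _ _)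
        exact prod_le_prod_of_subset_of_le_one (by simp [hlJ]) (fun _ _ => h0 _ _ _ _)
          fun _ _ _ => h1 _ _ _ _
    _ = _ := by rw [prod_singleton, mul_comm]

end cw

/-! ### Scales -/

theorem tt_pos {K : ℕ} (hK : 0 < K) (J : ℕ) : 0 < tt K J := by unfold tt; positivity

theorem rr_pos {K : ℕ} (hK : 0 < K) (J l : ℕ) : 0 < rr K J l := by
  unfold rr; have := tt_pos hK J; positivity

theorem tt_add {K : ℕ} (hK : 0 < K) (J i : ℕ) : tt K J = (K : ℝ) ^ (2 * i) * tt K (J + i) := by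
  have : (0 : ℝ) < K := by exact_mod_cast hK
  unfold tt; rw [mul_add, pow_add]; field_simp

theorem tt_eq_sq (K J : ℕ) : tt K J = ((K : ℝ) ^ J)⁻¹ ^ 2 := by
  unfold tt; rw [inv_pow, ← pow_mul, mul_comm]

theorem tt_anti {K : ℕ} (hK : 0 < K) {J J' : ℕ} (h : J ≤ J') : tt K J' ≤ tt K J := by
  have : (1 : ℝ) ≤ K := by exact_mod_cast hK
  unfold tt
  exact inv_anti₀ (by positivity) (pow_le_pow_right₀ this (by omega))

theorem tt_le_one {K : ℕ} (hK : 0 < K) (J : ℕ) : tt K J ≤ 1 := by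
  have := tt_anti hK (Nat.zero_le J); simpa [tt] using this

theorem tt_le_rr {K : ℕ} (hK : 0 < K) (J l : ℕ) : tt K J ≤ rr K J l := by
  have h1 : (1 : ℝ) ≤ (K : ℝ) ^ l := one_le_pow₀ (by exact_mod_cast hK)
  have := tt_pos hK J
  unfold rr; nlinarith

theorem one_le_Lam {K N J : ℕ} (hK : 0 < K) {u : ℝ} (hu : 0 ≤ u) (hJ : J ≤ N) (l : ℕ) :
    1 ≤ Lam K N u J l := by
  have h0 := tt_pos hK N
  have h1 : 1 ≤ tt K J / tt K N := (one_le_div h0).2 (tt_anti hK hJ)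
  have h2 : 1 ≤ rr K J l / tt K N := (one_le_div h0).2 ((tt_anti hK hJ).trans (tt_le_rr hK J l))
  exact one_le_mul_of_one_le_of_one_le h1 (Real.one_le_rpow h2 hu)

theorem Lam_nonneg (K N : ℕ) (u : ℝ) (J l : ℕ) : 0 ≤ Lam K N u J l := by
  unfold Lam rr tt; positivity

namespace Dat.Ok

variable {D : Dat}

theorem pow_N_ge (h : D.Ok) : (1000 : ℝ) * D.N ^ 2 ≤ 1000 ^ D.N := by
  have hN := h.N_ge
  have : ∀ n : ℕ, 1000 * (n + 1) ^ 2 ≤ 1000 ^ (n + 1) := by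
    intro n
    induction n with
    | zero => simp
    | succ n ih => rw [pow_succ 1000 (n + 1)]; nlinarith [Nat.zero_le n]
  obtain ⟨n, hn⟩ : ∃ n, D.N = n + 1 := ⟨D.N - 1, by omega⟩
  rw [hn]; exact_mod_cast this n

/-- The main size inequality in a convenient form. -/
theorem K_big (h : D.Ok) : 1000 * (D.N : ℝ) ^ 2 * D.R ^ 2 * D.L ^ 2 ≤ D.c ^ 2 * D.K := by
  refine le_trans ?_ h.K_ge
  have := h.pow_N_ge
  gcongr

theorem K_big' (h : D.Ok) : 1000 * D.R ^ 2 * D.L ^ 2 ≤ D.c ^ 2 * D.K := by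
  refine le_trans ?_ h.K_big
  have : (1 : ℝ) ≤ (D.N : ℝ) ^ 2 := one_le_pow₀ (by exact_mod_cast h.N_ge)
  have h2 : 0 ≤ D.R ^ 2 * D.L ^ 2 := by positivity
  nlinarith

theorem c_sq_le (h : D.Ok) : D.c ^ 2 * D.K ≤ D.c * D.K ∧ D.c * D.K ≤ D.K := by
  have h1 := h.ker.c_pos; have h2 := h.ker.c_le
  have h3 : (0 : ℝ) ≤ D.K := Nat.cast_nonneg _
  constructor <;> nlinarith [mul_nonneg h1.le h3]

theorem K_ge_pow (h : D.Ok) : (1000 : ℝ) ^ D.N ≤ D.K := by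
  have h1 : (1 : ℝ) ≤ D.R ^ 2 := one_le_pow₀ h.R_ge
  have h2 : (1 : ℝ) ≤ D.L ^ 2 := one_le_pow₀ h.L_ge
  have h3 : (0 : ℝ) < 1000 ^ D.N := by positivity
  have := h.K_ge; have := h.c_sq_le
  nlinarith [mul_le_mul h1 h2 zero_le_one (by linarith)]

theorem K_ge_N (h : D.Ok) : 1000 * (D.N : ℝ) ^ 2 ≤ D.K := h.pow_N_ge.trans h.K_ge_pow

theorem K_ge_1000 (h : D.Ok) : (1000 : ℝ) ≤ D.K := by
  have : (1 : ℝ) ≤ (D.N : ℝ) ^ 2 := one_le_pow₀ (by exact_mod_cast h.N_ge)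
  have := h.K_ge_N; linarith

theorem K_pos (h : D.Ok) : 0 < D.K := by
  have := h.K_ge_1000; exact_mod_cast (by linarith : (0 : ℝ) < D.K)

/-- 1000 R L / c is at most K. -/
theorem RL_le (h : D.Ok) : 1000 * D.R * D.L ≤ D.c * D.K := by
  have h1 := h.R_ge; have h2 := h.L_ge
  have := h.K_big'; have := h.c_sq_le
  have h3 : 1 ≤ D.R * D.L := one_le_mul_of_one_le_of_one_le h1 h2
  nlinarith

theorem δ_pos (h : D.Ok) : 0 < D.δ := tt_pos h.K_pos _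

theorem δ_le_one (h : D.Ok) : D.δ ≤ 1 := tt_le_one h.K_pos _

theorem δ_inv (D : Dat) : D.δ⁻¹ = (D.K : ℝ) ^ (2 * D.N) := by simp [Dat.δ, tt]

theorem card_le_pow (h : D.Ok) : (D.P.card : ℝ) ≤ (D.K : ℝ) ^ (4 * D.N) := by
  have h1 : (1 : ℝ) ≤ D.δ⁻¹ := one_le_inv_iff₀.2 ⟨h.δ_pos, h.δ_le_one⟩
  have h2 : D.δ⁻¹ ^ D.u ≤ D.δ⁻¹ := by
    simpa using Real.rpow_le_rpow_of_exponent_le h1 h.u_le
  calc (D.P.card : ℝ) ≤ D.δ⁻¹ * D.δ⁻¹ := h.card_le.trans (by gcongr)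
    _ = _ := by rw [δ_inv, ← pow_add]; congr 1; ring

/-- η times any power K^a with a at most 20 N is at most 1. -/
theorem η_mul_pow_le (h : D.Ok) {a : ℕ} (ha : a ≤ 20 * D.N) : D.η * (D.K : ℝ) ^ a ≤ 1 := by
  refine le_trans ?_ h.η_le
  have : (1 : ℝ) ≤ D.K := by have := h.K_ge_1000; linarith
  exact mul_le_mul_of_nonneg_left (pow_le_pow_right₀ this ha) h.η_nonneg

theorem η_card_le (h : D.Ok) : D.η * D.P.card ≤ 1 :=
  (mul_le_mul_of_nonneg_left h.card_le_pow h.η_nonneg).trans (h.η_mul_pow_le (by omega))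

theorem wt_nonneg (h : D.Ok) (j p : ℕ) (z : E2) : 0 ≤ D.wt j p z :=
  cw_nonneg h.prune.nonneg _ _ _ _ _

theorem wt_le_one (h : D.Ok) (j p : ℕ) (z : E2) : D.wt j p z ≤ 1 :=
  cw_le_one h.prune.nonneg h.prune.le_one _ _ _ _ _

theorem om_pos (h : D.Ok) (j : ℕ) : 0 < D.om j := by
  have := tt_pos h.K_pos (j - 1); have := h.L_ge
  unfold Dat.om; positivity

theorem om_eq (D : Dat) (j : ℕ) : D.om j = D.L * (D.K : ℝ) ^ (2 * (j - 1)) := by
  simp [Dat.om, tt]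

theorem be_pos (h : D.Ok) (j : ℕ) : 0 < D.be j := by
  have := h.ker.c_pos; have := h.R_ge; have := h.K_pos
  unfold Dat.be; positivity

end Dat.Ok

end Pool.Agent.MP_538dc4_an
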