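import Pool.Agent.MP_538dc4_an.Basic

/-! PROJECT FURST, module CIRC: the circular statement from the reduced statement. -/

open MeasureTheory
open scoped ENNReal

namespace Pool.Agent.MP_538dc4_an

namespace Circ

noncomputable section

/-- The sign attached to a boolean. -/
def sg (b : Bool) : ℝ := if b then 1 else -1

theorem sg_sq (b : Bool) : sg b * sg b = 1 := by
  cases b <;> simp [sg]

/-- The parameter change in space. -/
def T (s : Bool × Bool) (x : E3) : E3 :=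
  v3 (sg s.1 * x 0 + x 2) (2 * sg s.2 * x 1) (x 2 - sg s.1 * x 0)

/-- The inverse of the parameter change. -/
def Ti (s : Bool × Bool) (X : E3) : E3 :=
  v3 (sg s.1 * (X 0 - X 2) / 2) (sg s.2 * X 1 / 2) ((X 0 + X 2) / 2)

/-- The change of coordinates in the plane. -/
def S (s : Bool × Bool) (p : E2) : E2 := v2 (sg s.1 * p 0) (2 * sg s.2 * p 1)

/-- The rational parametrization of a quarter of the circle. -/
def gam (s : Bool × Bool) (x : E3) (φ : ℝ) : E2 :=
  v2 (x 0 + sg s.1 * (x 2 * ((1 - φ ^ 2) / (1 + φ ^ 2))))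
    (x 1 + sg s.2 * (x 2 * (2 * φ / (1 + φ ^ 2))))

theorem Ti_T (s : Bool × Bool) (x : E3) : Ti s (T s x) = x := by
  have h1 := sg_sq s.1
  have h2 := sg_sq s.2
  refine E3_ext ?_ ?_ ?_
  · simp only [Ti, T, v3_0, v3_2]
    linear_combination x 0 * h1
  · simp only [Ti, T, v3_1]
    linear_combination x 1 * h2
  · simp only [Ti, T, v3_0, v3_2]
    ring

theorem contDiff_v2 {α : Type*} [NormedAddCommGroup α] [NormedSpace ℝ α] {f g : α → ℝ}
    (hf : ContDiff ℝ 1 f) (hg : ContDiff ℝ 1 g) : ContDiff ℝ 1 fun x => v2 (f x) (g x) := by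
  rw [contDiff_euclidean]
  intro i
  fin_cases i
  · exact hf
  · exact hg

theorem contDiff_v3 {α : Type*} [NormedAddCommGroup α] [NormedSpace ℝ α] {f g h : α → ℝ}
    (hf : ContDiff ℝ 1 f) (hg : ContDiff ℝ 1 g) (hh : ContDiff ℝ 1 h) :
    ContDiff ℝ 1 fun x => v3 (f x) (g x) (h x) := by
  rw [contDiff_euclidean]
  intro i
  fin_cases i
  · exact hf
  · exact hg
  · exact hh

theorem contDiff_Ti (s : Bool × Bool) : ContDiff ℝ 1 (Ti s) := by
  unfold Ti
  apply contDiff_v3 <;> fun_prop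

theorem contDiff_S (s : Bool × Bool) : ContDiff ℝ 1 (S s) := by
  unfold S
  apply contDiff_v2 <;> fun_prop

theorem contDiff_gam (s : Bool × Bool) (x : E3) : ContDiff ℝ 1 (gam s x) := by
  have h : ∀ φ : ℝ, 1 + φ ^ 2 ≠ 0 := fun φ => by positivity
  have h1 : ContDiff ℝ 1 fun φ : ℝ => (1 - φ ^ 2) / (1 + φ ^ 2) :=
    ContDiff.div (by fun_prop) (by fun_prop) h
  have h2 : ContDiff ℝ 1 fun φ : ℝ => 2 * φ / (1 + φ ^ 2) :=
    ContDiff.div (by fun_prop) (by fun_prop) h
  unfold gam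
  exact contDiff_v2 (contDiff_const.add (contDiff_const.mul (contDiff_const.mul h1)))
    (contDiff_const.add (contDiff_const.mul (contDiff_const.mul h2)))

theorem dimH_le {α β : Type*} [NormedAddCommGroup α] [NormedSpace ℝ α] [NormedAddCommGroup β]
    [NormedSpace ℝ β] [FiniteDimensional ℝ α] {f : α → β} (hf : ContDiff ℝ 1 f)
    (t : Set α) : dimH (f '' t) ≤ dimH t :=
  hf.contDiffOn.dimH_image_le convex_univ (Set.subset_univ t)

theorem dimH_T (s : Bool × Bool) (E : Set E3) : dimH E ≤ dimH (T s '' E) := by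
  have h : E = Ti s '' (T s '' E) := by
    rw [Set.image_image]
    simp only [Ti_T, Set.image_id']
  conv_lhs => rw [h]
  exact dimH_le (contDiff_Ti s) _

theorem zpt_T (s : Bool × Bool) (x : E3) (φ : ℝ) : zpt 1 (T s x) φ = S s (gam s x φ) := by
  have h1 := sg_sq s.1
  have h2 := sg_sq s.2
  have h : 1 + φ ^ 2 ≠ 0 := by positivity
  refine E2_ext ?_ ?_
  · simp only [zpt, cc, T, S, gam, v2_0, v3_0, v3_2, one_mul]
    rw [mul_add (sg s.1), ← mul_assoc (sg s.1), h1]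
    field_simp
    ring
  · simp only [zpt, cc, T, S, gam, v2_1, v3_0, v3_1, v3_2, one_mul]
    rw [mul_assoc 2 (sg s.2) (x 1 + _), mul_add (sg s.2), ← mul_assoc (sg s.2), h2]
    field_simp
    ring

theorem mem_circ {x : E3} {p : E2} (hp : p ∈ circ x) :
    (p 0 - x 0) ^ 2 + (p 1 - x 1) ^ 2 = x 2 ^ 2 := by
  have h : dist p (WithLp.toLp 2 ![x 0, x 1] : E2) = x 2 := hp
  rw [← h, EuclideanSpace.dist_sq_eq, Fin.sum_univ_two, Real.dist_eq, Real.dist_eq, sq_abs, sq_abs]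
  rfl

theorem exists_sg (y : ℝ) : ∃ b : Bool, sg b * y = |y| := by
  rcases le_total 0 y with h | h
  · exact ⟨true, by simp [sg, abs_of_nonneg h]⟩
  · exact ⟨false, by simp [sg, abs_of_nonpos h]⟩

/-- Every point of the circle off the vertical diameter is on one of the four arcs. -/
theorem exists_gam {x : E3} (hx : 0 < x 2) {p : E2} (hp : p ∈ circ x) (h0 : p 0 ≠ x 0) :
    ∃ s : Bool × Bool, ∃ φ ∈ Set.Ico (0 : ℝ) 1, gam s x φ = p := by
  have hc := mem_circ hp
  obtain ⟨b0, hb0⟩ := exists_sg (p 0 - x 0)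
  obtain ⟨b1, hb1⟩ := exists_sg (p 1 - x 1)
  set a := |p 0 - x 0| with ha
  set b := |p 1 - x 1| with hb
  set t := x 2 with ht
  have ha0 : 0 < a := abs_pos.2 (sub_ne_zero.2 h0)
  have hb0' : 0 ≤ b := abs_nonneg _
  have hab : a ^ 2 + b ^ 2 = t ^ 2 := by rw [ha, hb, sq_abs, sq_abs]; exact hc
  have hbt : b ≤ t := by nlinarith
  have hta : 0 < t + a := by linarith
  have hq : 1 + (b / (t + a)) ^ 2 = 2 * t / (t + a) := by
    field_simp
    linear_combination hab
  have e1 : t * ((1 - (b / (t + a)) ^ 2) / (1 + (b / (t + a)) ^ 2)) = a := by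
    have hq' : 1 - (b / (t + a)) ^ 2 = 2 * a / (t + a) := by
      field_simp
      linear_combination -hab
    rw [hq, hq']
    field_simp
  have e2 : t * (2 * (b / (t + a)) / (1 + (b / (t + a)) ^ 2)) = b := by
    rw [hq]
    field_simp
  refine ⟨(b0, b1), b / (t + a), ⟨by positivity, (div_lt_one hta).2 (by linarith)⟩, E2_ext ?_ ?_⟩
  · simp only [gam, v2_0]
    rw [← ht, e1, ← hb0, ← mul_assoc, sg_sq]
    ring
  · simp only [gam, v2_1]
    rw [← ht, e2, ← hb1, ← mul_assoc, sg_sq]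
    ring

/-- The angle set of the arc s. -/
def A (s : Bool × Bool) (F : Set E2) (x : E3) : Set ℝ :=
  {φ | φ ∈ Set.Ico (0 : ℝ) 1 ∧ zpt 1 (T s x) φ ∈ S s '' F}

theorem cover {x : E3} (hx : 0 < x 2) (F : Set E2) :
    circ x ∩ F ⊆ {v2 (x 0) (x 1 + x 2), v2 (x 0) (x 1 - x 2)} ∪ ⋃ s, gam s x '' A s F x := by
  rintro p ⟨hp, hF⟩
  by_cases h0 : p 0 = x 0
  · left
    have hc := mem_circ hp
    rw [h0, sub_self] at hc
    have h1 : (p 1 - (x 1 + x 2)) * (p 1 - (x 1 - x 2)) = 0 := by linear_combination hc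
    rcases mul_eq_zero.1 h1 with h | h
    · left
      exact E2_ext h0 (sub_eq_zero.1 h)
    · right
      exact E2_ext h0 (sub_eq_zero.1 h)
  · right
    obtain ⟨s, φ, hφ, he⟩ := exists_gam hx hp h0
    refine Set.mem_iUnion.2 ⟨s, φ, ⟨hφ, p, hF, ?_⟩, he⟩
    rw [zpt_T, he]

theorem exists_arc {x : E3} (hx : 0 < x 2) (F : Set E2) {d : ℝ≥0∞} (h : d < dimH (circ x ∩ F)) :
    ∃ s, d < dimH (A s F x) := by
  have h1 := h.trans_le (dimH_mono (cover hx F))
  rw [dimH_union, (Set.toFinite _).dimH_zero, dimH_iUnion, max_eq_right zero_le,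
    lt_iSup_iff] at h1
  obtain ⟨s, hs⟩ := h1
  exact ⟨s, hs.trans_le (dimH_le (contDiff_gam s x) _)⟩

end

end Circ

open Circ in
theorem circ_stmt (h : RedStmt) : CircStmt := by
  intro u v E F hu hu1 hv hv3 hE hdim hF
  have hc : E ⊆ ⋃ s : Bool × Bool, {x | x ∈ E ∧ ENNReal.ofReal u < dimH (A s F x)} := by
    intro x hx
    obtain ⟨s, hs⟩ := exists_arc (hE x hx) F (hF x hx)
    exact Set.mem_iUnion.2 ⟨s, hx, hs⟩
  have h1 := hdim.trans_le (dimH_mono hc)
  rw [dimH_iUnion, lt_iSup_iff] at h1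
  obtain ⟨s, hs⟩ := h1
  refine (h 1 u v _ (S s '' F) zero_le_one le_rfl hu hu1 hv hv3 ?_ (hs.trans_le (dimH_T s _))
    ?_).trans (dimH_le (contDiff_S s) F)
  · rintro X ⟨x, hx, rfl⟩
    have := hE x hx.1
    simp only [T, v3_0, v3_2]
    linarith
  · rintro X ⟨x, hx, rfl⟩
    exact hx.2

end Pool.Agent.MP_538dc4_an
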