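import Pool.Agent.MP_538dc4_an.Shear

/-! PROJECT FURST, module CONT: lemmas on the Hausdorff content. -/

open MeasureTheory Finset
open scoped ENNReal NNReal

namespace Pool.Agent.MP_538dc4_an

namespace Cont

/-- A finite cover by sets of diameter at most d bounds the content. -/
theorem le_card {X ι : Type*} [MetricSpace X] {s d κ : ℝ} (hs : 0 < s) (hd : 0 ≤ d)
    (I : Finset ι) (U : ι → Set X) {A : Set X} (hA : A ⊆ ⋃ i ∈ I, U i)
    (hU : ∀ i ∈ I, ∀ x ∈ U i, ∀ y ∈ U i, dist x y ≤ d) (h : ENNReal.ofReal κ ≤ hc s A) :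
    κ ≤ I.card * d ^ s := by
  have h1 : hc s A ≤ ENNReal.ofReal (I.card * d ^ s) :=
    calc hc s A ≤ hc s (⋃ i ∈ I, U i) := measure_mono hA
      _ ≤ ∑ i ∈ I, hc s (U i) := measure_biUnion_finset_le I U
      _ ≤ ∑ _i ∈ I, ENNReal.ofReal (d ^ s) := sum_le_sum fun i hi => by
          refine (OuterMeasure.boundedBy_le _).trans ?_
          rw [← ENNReal.ofReal_rpow_of_nonneg hd hs.le]
          exact ENNReal.rpow_le_rpow (Metric.ediam_le_of_forall_dist_le (hU i hi)) hs.le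
      _ = _ := by
          rw [sum_const, nsmul_eq_mul, ENNReal.ofReal_mul (Nat.cast_nonneg _),
            ENNReal.ofReal_natCast]
  exact (ENNReal.ofReal_le_ofReal_iff (by positivity)).1 (h.trans h1)

/-- Separated subsets of the unit interval are small. -/
theorem card_sep {σ : ℝ} (hσ : 0 < σ) (Φ : Finset ℝ) (h1 : (↑Φ : Set ℝ) ⊆ Set.Icc 0 1)
    (h2 : ∀ x ∈ Φ, ∀ y ∈ Φ, x ≠ y → σ < |x - y|) : Φ.card ≤ (Icc (0 : ℤ) ⌊1 / σ⌋).card := by
  refine card_le_card_of_injOn (fun x => ⌊x / σ⌋) (fun x hx => ?_) fun x hx y hy e => ?_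
  · obtain ⟨a, b⟩ := h1 hx
    exact mem_coe.2 (mem_Icc.2 ⟨Int.floor_nonneg.2 (by positivity), Int.floor_mono (by gcongr)⟩)
  · by_contra hne
    have a := Int.abs_sub_lt_one_of_floor_eq_floor e
    rw [← sub_div, abs_div, abs_of_pos hσ, div_lt_one hσ] at a
    exact (h2 x hx y hy hne).not_gt a

/-- The grid cube with index n. -/
def cube (t : ℝ) (n : Fin 3 → ℤ) : Set E3 := {X | ∀ i, ⌊X i / t⌋ = n i}

theorem cube_eq {t : ℝ} (ht : 0 < t) (n : Fin 3 → ℤ) : cube t n =
    WithLp.ofLp ⁻¹' Set.pi Set.univ fun i => Set.Ico ((n i : ℝ) * t) ((n i + 1) * t) := by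
  ext X
  simp only [cube, Set.mem_ofPred_eq, Set.mem_preimage, Set.mem_pi, Set.mem_univ, true_imp_iff,
    Set.mem_Ico, Int.floor_eq_iff, le_div_iff₀ ht, div_lt_iff₀ ht]

theorem cube_meas {t : ℝ} (ht : 0 < t) (n : Fin 3 → ℤ) : MeasurableSet (cube t n) := by
  rw [cube_eq ht]
  exact (PiLp.volume_preserving_ofLp (Fin 3)).measurable
    (MeasurableSet.univ_pi fun _ => measurableSet_Ico)

theorem cube_vol {t : ℝ} (ht : 0 < t) (n : Fin 3 → ℤ) :
    volume (cube t n) = ENNReal.ofReal (t ^ 3) := by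
  rw [cube_eq ht, (PiLp.volume_preserving_ofLp (Fin 3)).measure_preimage
    (MeasurableSet.univ_pi fun _ => measurableSet_Ico).nullMeasurableSet, Real.volume_pi_Ico,
    prod_congr rfl fun i _ => by rw [show ((n i : ℝ) + 1) * t - n i * t = t by ring]]
  rw [prod_const, card_univ, Fintype.card_fin, ENNReal.ofReal_pow ht.le]

theorem cube_near {t : ℝ} (ht : 0 < t) {n : Fin 3 → ℤ} {X Y : E3} (hX : X ∈ cube t n)
    (hY : Y ∈ cube t n) (i : Fin 3) : |X i - Y i| < t := by
  have a := Int.abs_sub_lt_one_of_floor_eq_floor ((hX i).trans (hY i).symm)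
  rwa [← sub_div, abs_div, abs_of_pos ht, div_lt_one ht] at a

theorem cube_dist {t : ℝ} (ht : 0 < t) {n : Fin 3 → ℤ} {X Y : E3} (hX : X ∈ cube t n)
    (hY : Y ∈ cube t n) : dist X Y ≤ 2 * t := by
  rw [EuclideanSpace.dist_eq, Real.sqrt_le_left (by positivity), Fin.sum_univ_three]
  have h : ∀ i, dist (X i) (Y i) ^ 2 ≤ t ^ 2 := fun i =>
    pow_le_pow_left₀ dist_nonneg (cube_near ht hX hY i).le 2
  nlinarith [h 0, h 1, h 2, sq_nonneg t]

end Cont

open Cont

theorem sep : SepStmt := by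
  classical
  intro u σ κ A hu hσ _ hA h
  have hb : BddAbove {n | ∃ Φ : Finset ℝ, (↑Φ : Set ℝ) ⊆ A ∧
      (∀ x ∈ Φ, ∀ y ∈ Φ, x ≠ y → σ < |x - y|) ∧ Φ.card = n} :=
    ⟨_, fun n ⟨Φ, h1, h2, h3⟩ => h3 ▸ card_sep hσ Φ (h1.trans hA) h2⟩
  obtain ⟨Φ, h1, h2, h3⟩ := Nat.sSup_mem (by exact ⟨0, ∅, by simp, by simp, rfl⟩) hb
  refine ⟨Φ, h1, h2, le_card hu (by positivity) Φ (fun y => Metric.closedBall y σ)
    (fun x hx => ?_) (fun y _ a ha b hb => ?_) h⟩
  · by_contra hn
    simp only [Set.mem_iUnion, Metric.mem_closedBall, Real.dist_eq, not_exists, not_le] at hn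
    have h4 : x ∉ Φ := fun k => by
      have := hn x k
      rw [sub_self, abs_zero] at this
      linarith
    have h5 := le_csSup hb ⟨insert x Φ, by
      rw [coe_insert]; exact Set.insert_subset hx h1, fun a ha b hb hne => by
      rcases mem_insert.1 ha with rfl | ka <;> rcases mem_insert.1 hb with rfl | kb
      · exact absurd rfl hne
      · exact hn b kb
      · rw [abs_sub_comm]; exact hn a ka
      · exact h2 a ka b kb hne, rfl⟩
    rw [card_insert_of_notMem h4, h3] at h5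
    omega
  · have := dist_triangle_right a b y
    rw [Metric.mem_closedBall] at ha hb
    linarith

theorem vol : VolStmt := by
  classical
  intro v t κ R E hv ht _ hE h
  have hf : ((fun (X : E3) (i : Fin 3) => ⌊X i / t⌋) '' E).Finite := by
    refine (Set.finite_Icc (fun _ => ⌊-R / t⌋) fun _ => ⌊R / t⌋).subset ?_
    rintro _ ⟨X, hX, rfl⟩
    exact ⟨fun i => Int.floor_mono (by gcongr; exact (abs_le.1 (hE X hX i)).1),
      fun i => Int.floor_mono (by gcongr; exact (abs_le.1 (hE X hX i)).2)⟩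
  have h1 := le_card hv (by positivity) hf.toFinset (cube t) (fun X hX => Set.mem_biUnion
    (hf.mem_toFinset.2 ⟨X, hX, rfl⟩) fun _ => rfl) (fun _ _ _ hx _ hy => cube_dist ht hx hy) h
  calc ENNReal.ofReal (κ * t ^ 3 / (2 * t) ^ v)
      ≤ ENNReal.ofReal (hf.toFinset.card * t ^ 3) := by
        refine ENNReal.ofReal_le_ofReal ?_
        rw [div_le_iff₀ (by positivity), mul_right_comm]
        gcongr
    _ = ∑ n ∈ hf.toFinset, volume (cube t n) := by
        rw [sum_congr rfl fun n _ => cube_vol ht n, sum_const, nsmul_eq_mul,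
          ENNReal.ofReal_mul (Nat.cast_nonneg _), ENNReal.ofReal_natCast]
    _ = volume (⋃ n ∈ hf.toFinset, cube t n) :=
        (measure_biUnion_finset (fun n _ m _ hne => Set.disjoint_left.2 fun X hn hm =>
          hne (funext fun i => (hn i).symm.trans (hm i))) fun n _ => cube_meas ht n).symm
    _ ≤ _ := by
        refine measure_mono (Set.iUnion₂_subset fun n hn X' hX' => ?_)
        obtain ⟨X, hX, rfl⟩ := hf.mem_toFinset.1 hn
        exact ⟨X, hX, cube_near ht hX' fun _ => rfl⟩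

theorem hcPos : HcPosStmt := by
  intro X _ s A hs h
  refine pos_iff_ne_zero.2 fun h0 => h.not_ge ?_
  borelize X
  refine dimH_le_of_hausdorffMeasure_ne_top (d := s.toNNReal) (ne_top_of_le_ne_top (b := 1)
    ENNReal.one_ne_top ?_)
  rw [Real.coe_toNNReal s hs.le, Measure.hausdorffMeasure_apply]
  refine iSup₂_le fun r hr => ?_
  have h1 : hc s A < min 1 (r ^ s) := h0 ▸ lt_min one_pos (ENNReal.rpow_pos_of_nonneg hr hs.le)
  rw [hc, OuterMeasure.boundedBy_apply] at h1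
  simp only [iInf_lt_iff] at h1
  obtain ⟨t, h2, h3⟩ := h1
  refine iInf_le_of_le t (iInf_le_of_le h2 (iInf_le_of_le (fun n => ?_)
    (h3.le.trans (min_le_left _ _))))
  rcases (t n).eq_empty_or_nonempty with e | e
  · simp [e]
  · have h4 := ((ENNReal.le_tsum n).trans_lt h3).trans_le (min_le_right _ _)
    rw [iSup_pos e] at h4
    exact ((ENNReal.rpow_lt_rpow_iff hs).1 h4).le

theorem cover : CoverStmt := by
  intro F s r hs hr h
  have h0 := hausdorffMeasure_of_dimH_lt (d := s.toNNReal) h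
  rw [Real.coe_toNNReal s hs.le, Measure.hausdorffMeasure_apply] at h0
  have h1 := ((le_iSup₂ (f := fun (ρ : ℝ≥0∞) (_ : 0 < ρ) => ⨅ (t : ℕ → Set E2) (_ : F ⊆ ⋃ n, t n)
    (_ : ∀ n, Metric.ediam (t n) ≤ ρ), ∑' n, ⨆ _ : (t n).Nonempty, Metric.ediam (t n) ^ s)
    (ENNReal.ofReal r) (ENNReal.ofReal_pos.2 hr)).trans h0.le).trans_lt one_pos
  simp only [iInf_lt_iff] at h1
  obtain ⟨t, h2, h3, h4⟩ := h1
  have h5 : ∀ n, Metric.ediam (t n) ≠ ⊤ := fun n => ne_top_of_le_ne_top ENNReal.ofReal_ne_top (h3 n)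
  have h6 : ∀ n, (⨆ _ : (t n).Nonempty, Metric.ediam (t n) ^ s) =
      ENNReal.ofReal (Metric.diam (t n) ^ s) := fun n => by
    rcases (t n).eq_empty_or_nonempty with e | e
    · simp [e, hs.ne']
    · rw [iSup_pos e, ← ENNReal.ofReal_rpow_of_nonneg Metric.diam_nonneg hs.le, Metric.diam,
        ENNReal.ofReal_toReal (h5 n)]
  simp only [h6] at h4
  have h7 : ∀ n, 0 ≤ Metric.diam (t n) ^ s := fun n => Real.rpow_nonneg Metric.diam_nonneg s
  have h8 : Summable fun n => Metric.diam (t n) ^ s := by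
    simpa [ENNReal.toReal_ofReal (h7 _)] using ENNReal.summable_toReal h4.ne_top
  rw [← ENNReal.ofReal_tsum_of_nonneg h7 h8, ENNReal.ofReal_lt_one] at h4
  have h9 : ∀ n, ∃ x : E2, t n ⊆ Metric.closedBall x (Metric.diam (t n)) := fun n => by
    rcases (t n).eq_empty_or_nonempty with e | ⟨x, e⟩
    · exact ⟨0, by simp [e]⟩
    · exact ⟨x, fun y hy => Metric.dist_le_diam_of_mem' (h5 n) hy e⟩
  choose x hx using h9
  have k1 : ∀ n : ℕ, max (Metric.diam (t n)) (min r ((1 / 2 / 2 ^ n : ℝ) ^ s⁻¹)) ^ s ≤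
      Metric.diam (t n) ^ s + 1 / 2 / 2 ^ n := fun n => by
    have a : (0 : ℝ) < 1 / 2 / 2 ^ n := by positivity
    rcases max_choice (Metric.diam (t n)) (min r ((1 / 2 / 2 ^ n : ℝ) ^ s⁻¹)) with e | e <;> rw [e]
    · linarith
    · have b := Real.rpow_le_rpow (le_min hr.le (Real.rpow_nonneg a.le _))
        (min_le_right r ((1 / 2 / 2 ^ n : ℝ) ^ s⁻¹)) hs.le
      rw [Real.rpow_inv_rpow a.le hs.ne'] at b
      linarith [h7 n]
  have k2 := h8.add (summable_geometric_two' 1)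
  have k3 : Summable fun n : ℕ =>
      max (Metric.diam (t n)) (min r ((1 / 2 / 2 ^ n : ℝ) ^ s⁻¹)) ^ s :=
    k2.of_nonneg_of_le (fun n => Real.rpow_nonneg (le_max_of_le_left Metric.diam_nonneg) s) k1
  refine ⟨x, fun n => max (Metric.diam (t n)) (min r ((1 / 2 / 2 ^ n : ℝ) ^ s⁻¹)),
    fun n => ⟨lt_max_of_lt_right (lt_min hr (by positivity)), max_le ?_ (min_le_left _ _)⟩, k3,
    (k3.tsum_le_tsum k1 k2).trans ?_, h2.trans (Set.iUnion_mono fun n =>
      (hx n).trans (Metric.closedBall_subset_closedBall (le_max_left _ _)))⟩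
  · exact ENNReal.toReal_le_of_le_ofReal hr.le (h3 n)
  · rw [h8.tsum_add (summable_geometric_two' 1), tsum_geometric_two']
    linarith

end Pool.Agent.MP_538dc4_an
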