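import Pool.Agent.MP_538dc4_an.Shear

/-! PROJECT FURST, module COUNT: some pruned incidence count is large. -/

open MeasureTheory Finset
open scoped ENNReal

namespace Pool.Agent.MP_538dc4_an

namespace Count

variable {D : Dat} {X : E3}

/-- The cell of level l that contains φ. -/
noncomputable def pc (D : Dat) (l : ℕ) (φ : ℝ) : ℕ := ⌊φ * (D.K : ℝ) ^ l⌋₊

/-- The condition (J, l) is active at the angle φ. -/
def act (D : Dat) (X : E3) (J l : ℕ) (φ : ℝ) : Prop :=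
  Lam D.K D.N D.u J l ≤ mass D.e D.K D.χ D.P J l (pc D l φ) (5 * D.L) (zpt D.e X φ)

theorem pow_le_prod {ι : Type*} {s : Finset ι} {f : ι → ℝ} {c : ℝ} {n : ℕ} (h0 : 0 ≤ c)
    (h1 : c ≤ 1) (hs : s.card ≤ n) (h : ∀ i ∈ s, c ≤ f i) : c ^ n ≤ ∏ i ∈ s, f i := by
  calc c ^ n ≤ c ^ s.card := pow_le_pow_of_le_one h0 h1 hs
    _ = ∏ _i ∈ s, c := (prod_const c).symm
    _ ≤ _ := prod_le_prod (fun _ _ => h0) h

theorem act_top (h : D.Ok) {φ : ℝ} (h1 : φ < 1) {z : E2} (hz : z ∈ D.P)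
    (hd : dist z (zpt D.e X φ) ≤ D.δ) : act D X D.N 0 φ := by
  classical
  have t0 := tt_pos h.K_pos D.N
  have e1 : rr D.K D.N 0 = tt D.K D.N := by simp [rr]
  have e2 : Lam D.K D.N D.u D.N 0 = 1 := by simp [Lam, e1, t0.ne']
  have e3 : bs D.K 0 (pc D 0 φ) = 0 := by simp [bs, pc, h1]
  have k : ∀ i, |(z - zpt D.e X φ) i| ≤ 5 * D.L * tt D.K D.N := fun i => by
    have := (abs_coord_le_dist z (zpt D.e X φ) i).trans hd
    have := h.L_ge
    rw [PiLp.sub_apply]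
    unfold Dat.δ at *
    nlinarith
  rw [act, e2, mass]
  simp only [cw_zero, sum_const, nsmul_eq_mul, mul_one, Nat.one_le_cast]
  refine card_pos.2 ⟨z, mem_filter.2 ⟨hz, ?_, ?_⟩⟩
  · simpa [e3, N0] using k 0
  · simpa [e3, e1, N1] using k 1

theorem bs_pc (h : D.Ok) {l l' : ℕ} (hl : l ≤ l') (φ : ℝ) :
    |bs D.K l' (pc D l' φ) - bs D.K l (pc D l φ)| ≤ ((D.K : ℝ) ^ l)⁻¹ := by
  have := bs_sub_div h.K_pos hl (pc D l' φ)
  rw [pc, floor_cell_div φ h.K_pos hl] at this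
  exact (abs_of_nonneg this.1).trans_le this.2.le

/-- Size of the displacement inside a rectangle, seen from other directions. -/
theorem rect_size (h : D.Ok) {J l : ℕ} {φ : ℝ} (h0 : 0 ≤ φ) (h1 : φ < 1) {y z : E2}
    (hr : Rect D.e D.K J l (pc D l φ) (5 * D.L) y z) (a : ℝ) :
    (|a - bs D.K l (pc D l φ)| ≤ 1 → |N1 D.e a (z - y)| ≤ 25 * (D.L * rr D.K J l)) ∧
      (|a - bs D.K l (pc D l φ)| ≤ ((D.K : ℝ) ^ l)⁻¹ →
        |N0 D.e a (z - y)| ≤ 20 * (D.L * tt D.K J)) := by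
  obtain ⟨r0, r1⟩ := hr
  set b := bs D.K l (pc D l φ)
  have hb : |b| ≤ 1 := by
    rw [abs_of_nonneg (bs_nonneg _ _ _)]
    exact (bs_lt_one (floor_cell h.K_pos h0 h1 l).1).le
  have hL := h.L_ge
  have t0 := tt_pos h.K_pos J
  have t1 := tt_le_rr h.K_pos J l
  have t2 : D.L * tt D.K J ≤ D.L * rr D.K J l := by gcongr
  have c0 : |(z - y) 0| ≤ 10 * (D.L * rr D.K J l) := by
    have := abs_coord0_le h.e_nonneg hb (z - y)
    linarith
  have e0 := h.e_nonneg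
  have e1 := h.e_le
  have K1 : (1 : ℝ) ≤ (D.K : ℝ) ^ l := one_le_pow₀ (by exact_mod_cast h.K_pos)
  refine ⟨fun ha => ?_, fun ha => ?_⟩
  · rw [N1_shift D.e a b]
    refine (abs_sub _ _).trans ?_
    have : |2 * D.e * (a - b) * (z - y) 0| ≤ 2 * 1 * 1 * (10 * (D.L * rr D.K J l)) := by
      rw [abs_mul, abs_mul, abs_mul, abs_of_nonneg e0, abs_two]
      gcongr
    linarith
  · have s1 : ((D.K : ℝ) ^ l)⁻¹ ≤ 1 := inv_le_one_of_one_le₀ K1
    have s2 : ((D.K : ℝ) ^ l)⁻¹ * (D.L * rr D.K J l) = D.L * tt D.K J := by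
      unfold rr; field_simp
    rw [N0_shift D.e a b]
    refine (abs_sub _ _).trans ((add_le_add_left (abs_add_le _ _) _).trans ?_)
    have k1 : |(a - b) * N1 D.e b (z - y)| ≤ ((D.K : ℝ) ^ l)⁻¹ * (5 * D.L * rr D.K J l) := by
      rw [abs_mul]; gcongr
    have k2 : |D.e * (a - b) ^ 2 * (z - y) 0| ≤
        1 * (1 * ((D.K : ℝ) ^ l)⁻¹) * (10 * (D.L * rr D.K J l)) := by
      rw [abs_mul, abs_mul, abs_of_nonneg e0, sq, abs_mul]
      gcongr
      exact ha.trans s1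
    nlinarith

theorem L_le (h : D.Ok) : 25 * D.L ≤ (D.K : ℝ) ^ 2 := by
  have h1 := h.RL_le
  have h2 := h.c_sq_le.2
  have h3 := h.R_ge
  have h4 := h.L_ge
  have h5 := h.K_ge_1000
  nlinarith

theorem tt_succ (h : D.Ok) (j : ℕ) : tt D.K j = (D.K : ℝ) ^ 2 * tt D.K (j + 1) := by
  simpa using tt_add h.K_pos j 1

theorem disj (h : D.Ok) (hX : GoodX D.e D.R X) {J l : ℕ} {φ φ' : ℝ} (h0 : 0 ≤ φ) (h1 : φ < 1)
    (h0' : 0 ≤ φ') (h1' : φ' < 1) {z : E2}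
    (hr : Rect D.e D.K J l (pc D l φ) (5 * D.L) (zpt D.e X φ) z)
    (hr' : Rect D.e D.K J l (pc D l φ') (5 * D.L) (zpt D.e X φ') z) :
    |φ - φ'| ≤ 91 * D.R * D.L * rr D.K J l := by
  have k : ∀ ψ, 0 ≤ ψ → ψ < 1 → |φ - bs D.K l (pc D l ψ)| ≤ 1 := fun ψ a1 a2 => by
    have := bs_nonneg D.K l (pc D l ψ)
    have := bs_lt_one (floor_cell h.K_pos a1 a2 l).1
    rw [abs_le]; unfold pc at *; constructor <;> linarith
  have k1 := (rect_size h h0 h1 hr φ).1 (k φ h0 h1)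
  have k2 := (rect_size h h0' h1' hr' φ).1 (k φ' h0' h1')
  have k3 := L1_zpt h.e_nonneg φ φ X
  have k4 := L1_zpt h.e_nonneg φ φ' X
  have k5 := (cc_bounds h.e_nonneg h.e_le h.R_ge hX h0' h1'.le).1
  have hR := h.R_ge
  have hp : 0 < D.L * rr D.K J l := mul_pos (by linarith [h.L_ge]) (rr_pos h.K_pos J l)
  rw [N1_sub] at k1 k2
  have k6 : |2 * cc D.e X φ' * (φ - φ')| ≤ 50 * (D.L * rr D.K J l) := by
    rw [abs_le] at *
    constructor <;> linarith [k1.1, k1.2, k2.1, k2.2]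
  rw [div_le_iff₀ (by linarith)] at k5
  have k7 : 0 ≤ cc D.e X φ' := by
    by_contra hn
    nlinarith
  rw [abs_mul, abs_of_nonneg (by linarith : 0 ≤ 2 * cc D.e X φ')] at k6
  nlinarith [abs_nonneg (φ - φ')]

theorem inc (h : D.Ok) (hX : GoodX D.e D.R X) {j l : ℕ} (hl : l ≤ j) {φ : ℝ} (h0 : 0 ≤ φ)
    (h1 : φ < 1) {z : E2} (hr : Rect D.e D.K (j + 1) l (pc D l φ) (5 * D.L) (zpt D.e X φ) z) :
    D.Inc j (pc D j φ) X z := by
  have K0 : (1 : ℝ) ≤ D.K := by exact_mod_cast h.K_pos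
  have K1 : (1 : ℝ) ≤ (D.K : ℝ) ^ l := one_le_pow₀ K0
  have b1 := bs_pc h hl φ
  obtain ⟨k1, k2⟩ := rect_size h h0 h1 hr (bs D.K j (pc D j φ))
  replace k1 := k1 (b1.trans (inv_le_one_of_one_le₀ K1))
  replace k2 := k2 b1
  obtain ⟨-, f1, f2⟩ := floor_cell h.K_pos h0 h1 j
  obtain ⟨c1, c2⟩ := cc_bounds h.e_nonneg h.e_le h.R_ge hX h0 h1.le
  have hR := h.R_ge
  have c0 : 0 ≤ cc D.e X φ := le_trans (by positivity) c1
  have l0 := L0_zpt h.e_nonneg (bs D.K j (pc D j φ)) φ X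
  have l1 := L1_zpt h.e_nonneg (bs D.K j (pc D j φ)) φ X
  change 0 ≤ φ - bs D.K j (pc D j φ) at f1
  change φ - bs D.K j (pc D j φ) < _ at f2
  set a := bs D.K j (pc D j φ)
  have hL := L_le h
  have t0 := tt_pos h.K_pos (j + 1)
  have t1 := tt_succ h j
  have s0 : 0 < ((D.K : ℝ) ^ j)⁻¹ := by positivity
  rw [N0_sub] at k2
  rw [N1_sub] at k1
  constructor
  · have m1 : cc D.e X φ * (a - φ) ^ 2 ≤ 2 * D.R * tt D.K j := by
      rw [tt_eq_sq]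
      exact mul_le_mul c2 (by nlinarith) (sq_nonneg _) (by linarith)
    have m2 : 0 ≤ cc D.e X φ * (a - φ) ^ 2 := by positivity
    have m3 : 25 * D.L * tt D.K (j + 1) ≤ tt D.K j := by rw [t1]; gcongr
    have m4 : 0 ≤ D.L * tt D.K (j + 1) := mul_nonneg (by linarith [h.L_ge]) t0.le
    have m5 : 0 ≤ D.R * tt D.K j := mul_nonneg (by linarith) (tt_pos h.K_pos j).le
    rw [abs_le] at *
    constructor <;> linarith [k2.1, k2.2]
  · have m1 : cc D.e X φ * (φ - a) ≤ 2 * D.R * ((D.K : ℝ) ^ j)⁻¹ :=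
      mul_le_mul c2 f2.le f1 (by linarith)
    have m2 : 0 ≤ cc D.e X φ * (φ - a) := by positivity
    have m3 : 25 * D.L * rr D.K (j + 1) l ≤ ((D.K : ℝ) ^ j)⁻¹ := by
      calc _ ≤ (D.K : ℝ) ^ 2 * ((D.K : ℝ) ^ j * tt D.K (j + 1)) := by
            unfold rr
            gcongr
        _ = (D.K : ℝ) ^ j * tt D.K j := by rw [t1]; ring
        _ = _ := by rw [tt_eq_sq]; field_simp
    have m5 : 0 ≤ D.R * ((D.K : ℝ) ^ j)⁻¹ := by positivity
    rw [abs_le] at *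
    constructor <;> linarith [k1.1, k1.2]

theorem half (h : D.Ok) : 0 ≤ 1 - 2 * D.η ∧ 1 / 2 ≤ ((1 - 2 * D.η) ^ D.N) ^ D.N := by
  have h1 := h.η_mul_pow_le (a := 1) (by have := h.N_ge; omega)
  have h2 := h.K_ge_N
  have h3 := h.η_nonneg
  have h4 := h.K_ge_1000
  rw [pow_one] at h1
  have h5 : D.η * (1000 * (D.N : ℝ) ^ 2) ≤ 1 := (mul_le_mul_of_nonneg_left h2 h3).trans h1
  have h6 : D.η * 1000 ≤ 1 := (mul_le_mul_of_nonneg_left h4 h3).trans h1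
  refine ⟨by linarith, ?_⟩
  have := one_add_mul_le_pow (a := -(2 * D.η)) (by linarith) (D.N * D.N)
  rw [← pow_mul, sub_eq_add_neg]
  push_cast at this
  nlinarith

theorem weight (h : D.Ok) {j l : ℕ} (hl : l ≤ j) (hj : j < D.N) {φ : ℝ} (h0 : 0 ≤ φ)
    (h1 : φ < 1) (hn : ∀ J ≤ j, ∀ l' < J, ¬ act D X J l' φ) {z : E2} (hz : z ∈ D.P)
    (hr : Rect D.e D.K (j + 1) l (pc D l φ) (5 * D.L) (zpt D.e X φ) z) :
    1 / 2 * cw D.K D.χ (j + 1) l l (pc D l φ) z ≤ D.wt j (pc D j φ) z := by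
  have p0 := h.prune.nonneg
  have p1 := h.prune.le_one
  have e1 : cw D.K D.χ (j + 1) l l (pc D l φ) z = cw D.K D.χ (j + 1) l j (pc D j φ) z := by
    rw [cw_parent (j + 1) (Nat.le_succ l) hl, pc, pc, floor_cell_div φ h.K_pos hl]
  have w0 := cw_nonneg (K := D.K) p0 (j + 1) l j (pc D j φ) z
  rw [e1, Dat.wt]
  rcases le_total (j - 2) l with c | c
  · have := cw_anti (K := D.K) p0 p1 (show j - 2 ≤ j + 1 by omega) c j (pc D j φ) z
    linarith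
  have k1 := cw_anti (K := D.K) p0 p1 (show j - 2 ≤ j + 1 by omega) (le_refl l) j (pc D j φ) z
  obtain ⟨n0, n1⟩ := half h
  have n2 : 1 - 2 * D.η ≤ 1 := by linarith [h.η_nonneg]
  have k2 : ((1 - 2 * D.η) ^ D.N) ^ D.N ≤ ∏ l' ∈ Ico l (j - 2), ∏ J ∈ Ioc l' (j - 2),
      D.χ J l' (pc D j φ / D.K ^ (j - l')) z := by
    refine pow_le_prod (pow_nonneg n0 _) (pow_le_one₀ n0 n2) (by rw [Nat.card_Ico]; omega)
      fun l' hl' => pow_le_prod n0 n2 (by rw [Nat.card_Ioc]; omega) fun J hJ => ?_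
    obtain ⟨a1, a2⟩ := mem_Ico.1 hl'
    obtain ⟨a3, a4⟩ := mem_Ioc.1 hJ
    rw [pc, floor_cell_div φ h.K_pos (by omega)]
    refine h.prune.light J l' (by omega) (pc D l' φ) (zpt D.e X φ) z hz ?_
      (not_le.1 (hn J (by omega) l' a3)).le
    have K0 : (1 : ℝ) ≤ D.K := by exact_mod_cast h.K_pos
    have b1 := bs_pc h a1 φ
    obtain ⟨m1, m2⟩ := rect_size h h0 h1 hr (bs D.K l' (pc D l' φ))
    have t0 := tt_pos h.K_pos (j + 1)
    have hL := L_le h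
    have m3 : 25 * D.L * tt D.K (j + 1) ≤ tt D.K J := by
      refine le_trans ?_ (tt_anti h.K_pos (show J ≤ j by omega))
      rw [tt_succ h j]; gcongr
    have m4 : 0 ≤ D.L * tt D.K (j + 1) := mul_nonneg (by linarith [h.L_ge]) t0.le
    refine ⟨(m2 b1).trans (by linarith),
      (m1 (b1.trans (inv_le_one_of_one_le₀ (one_le_pow₀ K0)))).trans ?_⟩
    calc _ = (D.K : ℝ) ^ l * (25 * D.L * tt D.K (j + 1)) := by unfold rr; ring
      _ ≤ (D.K : ℝ) ^ l' * tt D.K J := by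
          have : 0 ≤ 25 * D.L * tt D.K (j + 1) := by linarith
          gcongr
      _ = _ := by unfold rr; ring
  have e2 : cw D.K D.χ (j - 2) (j - 2) j (pc D j φ) z = cw D.K D.χ (j - 2) l j (pc D j φ) z *
      ∏ l' ∈ Ico l (j - 2), ∏ J ∈ Ioc l' (j - 2), D.χ J l' (pc D j φ / D.K ^ (j - l')) z :=
    (prod_range_mul_prod_Ico _ c).symm
  rw [e2, mul_comm]
  exact mul_le_mul k1 (n1.trans k2) (by norm_num) (w0.trans k1)

/-- A separated family of angles with the same first active condition gives many incidences. -/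
theorem cnt_ge (h : D.Ok) (hX : GoodX D.e D.R X) {j l : ℕ} (hl : l ≤ j) (hj : j < D.N)
    {Φ : Finset ℝ} (h1 : ∀ φ ∈ Φ, 0 ≤ φ ∧ φ < 1 ∧ act D X (j + 1) l φ ∧
      ∀ J ≤ j, ∀ l' < J, ¬ act D X J l' φ)
    (h2 : ∀ x ∈ Φ, ∀ y ∈ Φ, x ≠ y → 91 * D.R * D.L * rr D.K (j + 1) l < |x - y|) :
    Φ.card * (1 / 2 * Lam D.K D.N D.u (j + 1) l) ≤ D.Cnt j X := by
  classical
  let Z : ℝ → Finset E2 := fun φ =>
    D.P.filter (Rect D.e D.K (j + 1) l (pc D l φ) (5 * D.L) (zpt D.e X φ))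
  let G : E2 → ℝ := fun z => ∑ p ∈ range (D.K ^ j), if D.Inc j p X z then D.wt j p z else 0
  have g0 : ∀ p z, 0 ≤ if D.Inc j p X z then D.wt j p z else 0 := fun p z => by
    split_ifs
    exacts [h.wt_nonneg j p z, le_rfl]
  have e1 : D.Cnt j X = ∑ z ∈ D.P, G z := by
    simp only [Dat.Cnt, sum_filter]
    exact sum_comm
  have k1 : ∀ φ ∈ Φ, 1 / 2 * Lam D.K D.N D.u (j + 1) l ≤ ∑ z ∈ Z φ, G z := fun φ hφ => by
    obtain ⟨a1, a2, a3, a4⟩ := h1 φ hφ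
    refine (mul_le_mul_of_nonneg_left a3 (by norm_num)).trans ?_
    rw [mass, mul_sum]
    refine sum_le_sum fun z hz => ?_
    obtain ⟨z1, z2⟩ := mem_filter.1 hz
    have m : pc D j φ ∈ range (D.K ^ j) := mem_range.2 (floor_cell h.K_pos a1 a2 j).1
    refine (weight h hl hj a1 a2 a4 z1 z2).trans (le_trans ?_ (single_le_sum (fun p _ => g0 p z) m))
    rw [if_pos (inc h hX hl a1 a2 z2)]
  have k2 : Set.PairwiseDisjoint (↑Φ : Set ℝ) Z := fun x hx y hy hxy => by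
    refine disjoint_left.2 fun z k1 k2 => (h2 x hx y hy hxy).not_ge ?_
    exact disj h hX (h1 x hx).1 (h1 x hx).2.1 (h1 y hy).1 (h1 y hy).2.1
      (mem_filter.1 k1).2 (mem_filter.1 k2).2
  have k3 : Φ.biUnion Z ⊆ D.P := biUnion_subset.2 fun _ _ => filter_subset _ _
  rw [e1, ← nsmul_eq_mul, ← sum_const]
  refine (sum_le_sum k1).trans ?_
  rw [← sum_biUnion k2]
  exact sum_le_sum_of_subset_of_nonneg k3 fun z _ _ => sum_nonneg fun p _ => g0 p z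

end Count

open Pool.Agent.MP_538dc4_an.Count

theorem count (hS : SepStmt) : CountStmt := by
  classical
  intro D X A κ h hX hA hz hκ hc'
  let C : ℕ × ℕ → Set ℝ := fun x => {φ | φ ∈ A ∧ x.2 ≤ x.1 ∧ act D X (x.1 + 1) x.2 φ ∧
    ∀ J ≤ x.1, ∀ l' < J, ¬ act D X J l' φ}
  have hN := h.N_ge
  have N0 : (0 : ℝ) < D.N := by exact_mod_cast hN
  have cov : A ⊆ ⋃ x ∈ range D.N ×ˢ range D.N, C x := fun φ hφ => by
    obtain ⟨z, z1, z2⟩ := hz φ hφ
    have ex : ∃ J, ∃ l < J, act D X J l φ := ⟨D.N, 0, hN, act_top h (hA hφ).2 z1 z2⟩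
    obtain ⟨l, l1, l2⟩ := Nat.find_spec ex
    have l3 : Nat.find ex ≤ D.N := Nat.find_min' ex ⟨0, hN, act_top h (hA hφ).2 z1 z2⟩
    obtain ⟨j, hj⟩ : ∃ j, Nat.find ex = j + 1 := ⟨Nat.find ex - 1, by omega⟩
    refine Set.mem_biUnion (x := (j, l)) (by simp; omega) ⟨hφ, by simp; omega, hj ▸ l2,
      fun J hJ l' a1 a2 => Nat.find_min ex (by simp at hJ; omega) ⟨l', a1, a2⟩⟩
  obtain ⟨⟨j, l⟩, x1, x2⟩ := ENNReal.exists_le_of_sum_le (s := range D.N ×ˢ range D.N)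
    (f := fun _ => ENNReal.ofReal (κ / (D.N : ℝ) ^ 2)) (g := fun x => hc D.u (C x))
    ⟨(0, 0), by simp; omega⟩ (by
      refine le_trans ?_ (hc'.trans ((measure_mono cov).trans (measure_biUnion_finset_le _ _)))
      rw [← ENNReal.ofReal_sum_of_nonneg fun _ _ => by positivity]
      refine ENNReal.ofReal_le_ofReal (le_of_eq ?_)
      simp only [sum_const, card_product, card_range, nsmul_eq_mul]
      push_cast
      field_simp)
  have hj : j < D.N := by simp at x1; omega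
  have hR := h.R_ge
  have hL := h.L_ge
  have r0 := rr_pos h.K_pos (j + 1) l
  obtain ⟨Φ, f1, f2, f3⟩ := hS D.u (91 * D.R * D.L * rr D.K (j + 1) l) _ (C (j, l)) h.u_pos
    (by positivity) (by positivity) (fun φ hφ => Set.Ico_subset_Icc_self (hA hφ.1)) x2
  have hne : Φ.Nonempty := by
    rw [nonempty_iff_ne_empty]
    rintro rfl
    have : 0 < κ / (D.N : ℝ) ^ 2 := by positivity
    simp only [card_empty, Nat.cast_zero, zero_mul] at f3
    linarith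
  obtain ⟨φ0, hφ0⟩ := hne
  have key := cnt_ge h hX (f1 hφ0).2.1 hj (Φ := Φ)
    (fun φ hφ => ⟨(hA (f1 hφ).1).1, (hA (f1 hφ).1).2, (f1 hφ).2.2⟩) f2
  refine ⟨j, hj, le_trans ?_ key⟩
  have d0 := h.δ_pos
  have t0 := tt_pos h.K_pos (j + 1)
  have RL : 1 ≤ D.R * D.L := one_le_mul_of_one_le_of_one_le hR hL
  have k1 : (2 * (91 * D.R * D.L * rr D.K (j + 1) l)) ^ D.u ≤
      182 * (D.R * D.L) * rr D.K (j + 1) l ^ D.u := by
    rw [show 2 * (91 * D.R * D.L * rr D.K (j + 1) l) = 182 * (D.R * D.L) * rr D.K (j + 1) l by ring,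
      Real.mul_rpow (by positivity) r0.le]
    gcongr
    simpa using Real.rpow_le_rpow_of_exponent_le (show 1 ≤ 182 * (D.R * D.L) by linarith) h.u_le
  have k2 : 364 * (D.N : ℝ) ^ 2 * (D.R * D.L) ≤ (D.K : ℝ) ^ 2 := by
    have a1 := h.K_ge_N
    have a2 := h.RL_le.trans h.c_sq_le.2
    have a3 := mul_le_mul a1 a2 (by positivity) (Nat.cast_nonneg _)
    nlinarith [mul_nonneg (sq_nonneg (D.N : ℝ)) (zero_le_one.trans RL)]
  have K0 : (0 : ℝ) < D.K := by exact_mod_cast h.K_pos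
  have k3 : κ ≤ (D.K : ℝ) ^ 2 * (Φ.card * (1 / 2 * rr D.K (j + 1) l ^ D.u)) := by
    rw [div_le_iff₀ (by positivity)] at f3
    calc κ ≤ Φ.card * (182 * (D.R * D.L) * rr D.K (j + 1) l ^ D.u) * (D.N : ℝ) ^ 2 :=
          f3.trans (by gcongr)
      _ = 364 * (D.N : ℝ) ^ 2 * (D.R * D.L) * (Φ.card * (1 / 2 * rr D.K (j + 1) l ^ D.u)) := by ring
      _ ≤ _ := by gcongr
  have e1 : Lam D.K D.N D.u (j + 1) l =
      tt D.K (j + 1) / D.δ * (rr D.K (j + 1) l ^ D.u * D.δ⁻¹ ^ D.u) := by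
    rw [Lam, ← Real.mul_rpow r0.le (by positivity)]; rfl
  calc _ ≤ (D.K : ℝ) ^ 2 * (Φ.card * (1 / 2 * rr D.K (j + 1) l ^ D.u)) / (D.K : ℝ) ^ 4 *
        (tt D.K j / D.δ) * D.δ⁻¹ ^ D.u := by
        have := tt_pos h.K_pos j
        gcongr
    _ = _ := by rw [e1, tt_succ h j]; field_simp

end Pool.Agent.MP_538dc4_an
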