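import Mathlib.Topology.MetricSpace.HausdorffDimension

open scoped ENNReal

namespace Pool.Agent.MP_538dc4_an

/-- The Euclidean plane. -/
abbrev E2 : Type := EuclideanSpace ℝ (Fin 2)

/-- Euclidean 3-space. -/
abbrev E3 : Type := EuclideanSpace ℝ (Fin 3)

/-- The circle with centre (x 0, x 1) and radius x 2. -/
def circ (x : E3) : Set E2 := Metric.sphere (WithLp.toLp 2 ![x 0, x 1]) (x 2)

/-- The graph over [0, 2 pi] of theta to (x 0 cos theta + x 1 sin theta + x 2) / sqrt 2. -/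
def sineWave (x : E3) : Set E2 :=
  {z | z 0 ∈ Set.Icc 0 (2 * Real.pi) ∧
    z 1 = (x 0 * Real.cos (z 0) + x 1 * Real.sin (z 0) + x 2) / Real.sqrt 2}

/-- Circular (u,v)-Furstenberg sets. -/
def IsCircFurst (u v : ℝ) (F : Set E2) : Prop :=
  ∃ E : Set E3, (∀ x ∈ E, 0 < x 2) ∧ ENNReal.ofReal v ≤ dimH E ∧
    ∀ x ∈ E, ENNReal.ofReal u ≤ dimH (circ x ∩ F)

/-- Sine wave (u,v)-Furstenberg sets. -/
def IsSineFurst (u v : ℝ) (F : Set E2) : Prop :=
  ∃ E : Set E3, ENNReal.ofReal v ≤ dimH E ∧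
    ∀ x ∈ E, ENNReal.ofReal u ≤ dimH (sineWave x ∩ F)

end Pool.Agent.MP_538dc4_an
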