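import Mathlib
import Pool.Agent.MP_538dc4_an.Stmt

/-! PROJECT FURST: definitions. See /team-store/FURST_BLUEPRINT.md. -/

open MeasureTheory Finset
open scoped ENNReal FourierTransform ComplexConjugate RealInnerProductSpace

namespace Pool.Agent.MP_538dc4_an

noncomputable section

/-- The point (a, b) of the plane. -/
def v2 (a b : ℝ) : E2 := WithLp.toLp 2 ![a, b]

/-- The point (a, b, c) of space. -/
def v3 (a b c : ℝ) : E3 := WithLp.toLp 2 ![a, b, c]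

/-- exp (2 pi i x). -/
def ee (x : ℝ) : ℂ := ((Real.fourierChar x : Circle) : ℂ)

/-- Hausdorff content of exponent s. -/
def hc {X : Type*} [EMetricSpace X] (s : ℝ) : OuterMeasure X :=
  OuterMeasure.boundedBy fun U => Metric.ediam U ^ s

/-- A nonnegative band limited kernel k with nonnegative Fourier transform m. -/
structure Ker (k m : ℝ → ℝ) (c : ℝ) : Prop where
  c_pos : 0 < c
  c_le : c ≤ 1
  k_cont : Continuous k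
  k_nonneg : ∀ x, 0 ≤ k x
  k_le : ∀ x, k x ≤ 2
  k_int : Integrable k
  k_integral : ∫ x, k x = 1
  k_even : ∀ x, k (-x) = k x
  k_low : ∀ x, |x| ≤ c → c ≤ k x
  m_cont : Continuous m
  m_nonneg : ∀ a, 0 ≤ m a
  m_le : ∀ a, m a ≤ 1
  m_even : ∀ a, m (-a) = m a
  m_supp : ∀ a, 1 ≤ |a| → m a = 0
  m_low : ∀ a, |a| ≤ c → 1 / 2 ≤ m a
  k_eq : ∀ x, (k x : ℂ) = ∫ a, (m a : ℂ) * ee (a * x)
  m_eq : ∀ a, (m a : ℂ) = ∫ x, (k x : ℂ) * ee (-(a * x))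

/-- Outside [-L, L] the kernel and its integral are at most η. -/
def Tail (k : ℝ → ℝ) (L η : ℝ) : Prop :=
  (∀ x, L ≤ |x| → k x ≤ η) ∧ ∫ x in {x | L ≤ |x|}, k x ≤ η

/-- h is bounded, continuous, and has spectrum in S (tested against integrable functions). -/
structure Spec {V : Type*} [NormedAddCommGroup V] [InnerProductSpace ℝ V] [FiniteDimensional ℝ V]
    [MeasurableSpace V] [BorelSpace V] (S : Set V) (h : V → ℂ) : Prop where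
  cont : Continuous h
  bdd : ∃ C, ∀ x, ‖h x‖ ≤ C
  test : ∀ W : V → ℂ, Integrable W → ∀ η, (∀ s ∈ S, 𝓕 W (η - s) = 0) →
    𝓕 (fun x => W x * h x) η = 0

/-! ### Geometry -/

def N0 (e a : ℝ) (z : E2) : ℝ := (1 - e * a ^ 2) * z 0 + a * z 1

def N1 (e a : ℝ) (z : E2) : ℝ := -2 * e * a * z 0 + z 1

def L0 (a : ℝ) (X : E3) : ℝ := X 0 + a * X 1 + a ^ 2 * X 2

def L1 (a : ℝ) (X : E3) : ℝ := X 1 + 2 * a * X 2

/-- The frequency with inner z (fr e a α β) = α * N0 e a z + β * N1 e a z. -/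
def fr (e a α β : ℝ) : E2 := v2 (α * (1 - e * a ^ 2) - 2 * e * a * β) (α * a + β)

/-- The frequency with inner X (fr3 a α β γ) = α * L0 a X + β * L1 a X + γ * X 2. -/
def fr3 (a α β γ : ℝ) : E3 := v3 α (α * a + β) (α * a ^ 2 + 2 * a * β + γ)

def l1 (a : ℝ) (ξ : E3) : ℝ := ξ 1 - a * ξ 0

def l2 (a : ℝ) (ξ : E3) : ℝ := ξ 2 - 2 * a * ξ 1 + a ^ 2 * ξ 0

def dt (e b : ℝ) (ξ : E2) : ℝ := (1 - e * b ^ 2) * ξ 1 - b * ξ 0

def cc (e : ℝ) (X : E3) (φ : ℝ) : ℝ := (X 2 + e * X 0) / (1 + e * φ ^ 2)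

/-- The point of the curve with parameter X at the angle φ. -/
def zpt (e : ℝ) (X : E3) (φ : ℝ) : E2 :=
  v2 (X 0 - cc e X φ * φ ^ 2) (X 1 + 2 * cc e X φ * φ)

def GoodX (e R : ℝ) (X : E3) : Prop :=
  |X 0| ≤ R ∧ |X 1| ≤ R ∧ |X 2| ≤ R ∧ 1 / R ≤ X 2 + e * X 0

/-- The kernel adapted to the dual of a box in the coordinates (ξ 0, l1 b ξ, l2 b ξ). -/
def kU (k : ℝ → ℝ) (b γ0 γ1 γ2 : ℝ) (X : E3) : ℝ :=
  γ0 * γ1 * γ2 * (k (γ0 * L0 b X) * k (γ1 * L1 b X) * k (γ2 * X 2))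

/-! ### Cells -/

/-- Indices of the cells of level n (base b) inside the cell q of level j. -/
def ch (b j q n : ℕ) : Finset ℕ := (range (b ^ n)).filter fun p => p / b ^ (n - j) = q

/-- Left endpoint of the cell p of level l. -/
def bs (b l p : ℕ) : ℝ := (p : ℝ) / (b : ℝ) ^ l

/-! ### The wave envelope estimate -/

def Pl (H : ℝ) (k n p : ℕ) (C : ℝ) : Set E3 :=
  {η | |η 0 - H| ≤ H / 4 ^ k ∧ |l1 (bs 2 n p) η| ≤ C * H / 2 ^ n ∧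
    |l2 (bs 2 n p) η| ≤ C * H / 4 ^ n}

def Box (H : ℝ) (j q n : ℕ) : Set E3 :=
  {ξ | |ξ 0| ≤ 1200 * H * 4 ^ j / 4 ^ n ∧ |l1 (bs 2 j q) ξ| ≤ 1200 * H * 2 ^ j / 4 ^ n ∧
    |l2 (bs 2 j q) ξ| ≤ 1200 * H / 4 ^ n}

def FS (f : ℕ → E3 → ℂ) (n m q : ℕ) (x : E3) : ℂ := ∑ p ∈ ch 2 m q n, f p x

def SQ (f : ℕ → E3 → ℂ) (n j q m : ℕ) (x : E3) : ℝ := ∑ q' ∈ ch 2 j q m, ‖FS f n m q' x‖ ^ 2

def QQ (H : ℝ) (f : ℕ → E3 → ℂ) (n j q m : ℕ) : ℝ≥0∞ :=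
  ∫⁻ ξ in Box H j q m, ENNReal.ofReal (‖𝓕 (fun x => (SQ f n j q m x : ℂ)) ξ‖ ^ 2)

def RR (H : ℝ) (f : ℕ → E3 → ℂ) (n j q m : ℕ) : ℝ≥0∞ :=
  ∑ i ∈ Icc j m, ∑ q' ∈ ch 2 j q i, QQ H f n i q' m

structure WHyp (H : ℝ) (k n : ℕ) (f : ℕ → E3 → ℂ) : Prop where
  cont : ∀ p, Continuous (f p)
  int : ∀ p p', Integrable fun x => f p x * conj (f p' x)
  spec : ∀ p < 2 ^ n, ∀ p' < 2 ^ n, ∀ ξ, 𝓕 (fun x => f p x * conj (f p' x)) ξ ≠ 0 →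
    ∃ η ∈ Pl H k n p 4, ∃ η' ∈ Pl H k n p' 4, ξ = η - η'

/-! ### The data side -/

/-- Fourier transform of a weighted finite set. -/
def ftp (P : Finset E2) (w : E2 → ℝ) (ξ : E2) : ℂ := ∑ z ∈ P, (w z : ℂ) * ee (-⟪z, ξ⟫)

/-- Thickness scale K^(-2J). -/
def tt (K J : ℕ) : ℝ := ((K : ℝ) ^ (2 * J))⁻¹

/-- Length scale K^(l - 2J). -/
def rr (K J l : ℕ) : ℝ := (K : ℝ) ^ l * tt K J

/-- Threshold of the condition (J, l). -/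
def Lam (K N : ℕ) (u : ℝ) (J l : ℕ) : ℝ := tt K J / tt K N * (rr K J l / tt K N) ^ u

/-- Product of the cut-offs of thickness index at most J and level less than l, along the
ancestors of the cell p of level j. -/
def cw (K : ℕ) (χ : ℕ → ℕ → ℕ → E2 → ℝ) (J l j p : ℕ) (z : E2) : ℝ :=
  ∏ l' ∈ range l, ∏ J' ∈ Ioc l' J, χ J' l' (p / K ^ (j - l')) z

def Rect (e : ℝ) (K J l p : ℕ) (D : ℝ) (y z : E2) : Prop :=
  |N0 e (bs K l p) (z - y)| ≤ D * tt K J ∧ |N1 e (bs K l p) (z - y)| ≤ D * rr K J l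

open Classical in
def mass (e : ℝ) (K : ℕ) (χ : ℕ → ℕ → ℕ → E2 → ℝ) (P : Finset E2) (J l p : ℕ) (D : ℝ)
    (y : E2) : ℝ :=
  ∑ z ∈ P.filter (Rect e K J l p D y), cw K χ J l l p z

open Classical in
structure Prune (e : ℝ) (K N : ℕ) (u L η : ℝ) (P : Finset E2) (χ : ℕ → ℕ → ℕ → E2 → ℝ) :
    Prop where
  nonneg : ∀ J l p z, 0 ≤ χ J l p z
  le_one : ∀ J l p z, χ J l p z ≤ 1
  cont : ∀ J l p, Continuous (χ J l p)
  int : ∀ J l p, Integrable (χ J l p)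
  spec : ∀ J l p α β, ((tt K J)⁻¹ < |α| ∨ (rr K J l)⁻¹ < |β|) →
    𝓕 (fun z => (χ J l p z : ℂ)) (fr e (bs K l p) α β) = 0
  heavy : ∀ J, ∀ l < N, ∀ p y, ∑ z ∈ P.filter (Rect e K J l p 1 y), χ J l p z * cw K χ J l l p z
    ≤ Lam K N u J l + 2 * η * P.card
  light : ∀ J, ∀ l < N, ∀ p y, ∀ z ∈ P, Rect e K J l p 1 y z →
    mass e K χ P J l p (5 * L) y ≤ Lam K N u J l → 1 - 2 * η ≤ χ J l p z

def Sec (e : ℝ) (K : ℕ) (h : ℝ) (l p : ℕ) (x : ℝ) : Set E2 :=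
  {ξ | (1 / 2 - x) * h ≤ |ξ 0| + |ξ 1| ∧ |ξ 0| + |ξ 1| ≤ (3 + x) * h ∧
    |dt e (bs K l p) ξ| ≤ (8 + x) * h / (K : ℝ) ^ l}

/-- All the data of the discrete argument. -/
structure Dat where
  e : ℝ
  R : ℝ
  u : ℝ
  L : ℝ
  η : ℝ
  c : ℝ
  K : ℕ
  N : ℕ
  k : ℝ → ℝ
  m : ℝ → ℝ
  P : Finset E2
  χ : ℕ → ℕ → ℕ → E2 → ℝ

namespace Dat

variable (D : Dat)

/-- The finest scale. -/
def δ : ℝ := tt D.K D.N

/-- Standing hypotheses. -/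
structure Ok : Prop where
  ker : Ker D.k D.m D.c
  e_nonneg : 0 ≤ D.e
  e_le : D.e ≤ 1
  R_ge : 1 ≤ D.R
  u_pos : 0 < D.u
  u_le : D.u ≤ 1
  L_ge : 1 ≤ D.L
  N_ge : 1 ≤ D.N
  η_nonneg : 0 ≤ D.η
  tail : Tail D.k D.L D.η
  K_ge : 1000 ^ D.N * D.R ^ 2 * D.L ^ 2 ≤ D.c ^ 2 * D.K
  η_le : D.η * (D.K : ℝ) ^ (20 * D.N) ≤ 1
  card_le : (D.P.card : ℝ) ≤ D.δ⁻¹ * D.δ⁻¹ ^ D.u
  P_bdd : ∀ z ∈ D.P, |z 0| ≤ 4 * D.R
  prune : Prune D.e D.K D.N D.u D.L D.η D.P D.χ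

/-- The weight of the point z in the cell p of level j. -/
def wt (j p : ℕ) (z : E2) : ℝ := cw D.K D.χ (j - 2) (j - 2) j p z

def Inc (j p : ℕ) (X : E3) (z : E2) : Prop :=
  |L0 (bs D.K j p) X - N0 D.e (bs D.K j p) z| ≤ (4 * D.R + 4) * tt D.K j ∧
    |L1 (bs D.K j p) X - N1 D.e (bs D.K j p) z| ≤ (4 * D.R + 4) * ((D.K : ℝ) ^ j)⁻¹

open Classical in
/-- Weighted number of incidences at thickness tt K j. -/
def Cnt (j : ℕ) (X : E3) : ℝ :=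
  ∑ p ∈ range (D.K ^ j), ∑ z ∈ D.P.filter (D.Inc j p X), D.wt j p z

/-- Frequency spacing in the normal direction. -/
def om (j : ℕ) : ℝ := D.L / tt D.K (j - 1)

/-- Frequency width in the tangential direction. -/
def be (j : ℕ) : ℝ := D.c * (D.K : ℝ) ^ j / (4 * D.R + 7)

/-- The wave packet of frequency index l. -/
def pk (j l : ℕ) (y0 y1 : ℝ) : ℂ :=
  (D.k (D.om j * y0) : ℂ) * ee (l * D.om j * y0) * (D.k (D.be j * y1) : ℂ)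

def Gp (Q : Finset E2) (j l p : ℕ) (y : E2) : ℂ :=
  ∑ z ∈ Q, (D.wt j p z : ℂ) *
    D.pk j l (y 0 - N0 D.e (bs D.K j p) z) (y 1 - N1 D.e (bs D.K j p) z)

def gp (j l p : ℕ) (X : E3) : ℂ :=
  D.Gp D.P j l p (v2 (L0 (bs D.K j p) X) (L1 (bs D.K j p) X))

def Fl (j l : ℕ) (X : E3) : ℂ := ∑ p ∈ range (D.K ^ j), D.gp j l p X

/-- The localizing weight. -/
def W0 (X : E3) : ℝ :=
  D.k (D.c / (D.R + 1) * X 0) * D.k (D.c / (D.R + 1) * X 1) * D.k (D.c / (D.R + 1) * X 2)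

end Dat

end

end Pool.Agent.MP_538dc4_an
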