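import Pool.Agent.MP_538dc4_an.Shear

/-! PROJECT FURST: dropping band limited factors and descending over angular levels. -/

open MeasureTheory Finset Filter
open scoped ENNReal FourierTransform ComplexConjugate RealInnerProductSpace

namespace Pool.Agent.MP_538dc4_an

namespace Desc

theorem continuous_ftp (P : Finset E2) (w : E2 → ℝ) : Continuous (ftp P w) := by
  unfold ftp
  exact continuous_finsetSum _ fun z _ => continuous_const.mul (continuous_ee.comp (by fun_prop))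

theorem norm_ftp_le (P : Finset E2) (w : E2 → ℝ) (ξ : E2) : ‖ftp P w ξ‖ ≤ ∑ z ∈ P, |w z| :=
  (norm_sum_le _ _).trans (le_of_eq (by simp))

theorem measurableSet_Sec (e : ℝ) (K : ℕ) (h : ℝ) (l p : ℕ) (x : ℝ) :
    MeasurableSet (Sec e K h l p x) := by
  have := continuous_dt e (bs K l p)
  refine IsClosed.measurableSet ?_
  unfold Sec
  simp only [Set.ofPred_and]
  refine (isClosed_le ?_ ?_).inter ((isClosed_le ?_ ?_).inter (isClosed_le ?_ ?_)) <;> fun_prop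

theorem bdd_l1 (M : ℝ) : Bornology.IsBounded {ξ : E2 | |ξ 0| + |ξ 1| ≤ M} := by
  have hc : Continuous fun p : ℝ × ℝ => v2 p.1 p.2 := continuous_v2 (by fun_prop) (by fun_prop)
  have hK : IsCompact (Set.Icc (-M) M ×ˢ Set.Icc (-M) M) := isCompact_Icc.prod isCompact_Icc
  refine (hK.image hc).isBounded.subset fun ξ hξ => ⟨(ξ 0, ξ 1), ⟨abs_le.1 ?_, abs_le.1 ?_⟩, v2_eta ξ⟩
  · exact le_trans (le_add_of_nonneg_right (abs_nonneg _)) hξ
  · exact le_trans (le_add_of_nonneg_left (abs_nonneg _)) hξ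

theorem Sec_bdd (e : ℝ) (K : ℕ) (h : ℝ) (l p : ℕ) (x : ℝ) :
    Bornology.IsBounded (Sec e K h l p x) := (bdd_l1 _).subset fun _ hξ => hξ.2.1

theorem Sec_mono {e : ℝ} {K : ℕ} {h : ℝ} (hh : 0 ≤ h) (l p : ℕ) {x y : ℝ} (hxy : x ≤ y) :
    Sec e K h l p x ⊆ Sec e K h l p y := fun _ hξ =>
  ⟨le_trans (by gcongr) hξ.1, hξ.2.1.trans (by gcongr), hξ.2.2.trans (by gcongr)⟩

end Desc

open Desc

theorem drop_stmt : DropStmt := by
  intro P w χ B S S' hc hi h1 hB hsp hS hS' hb hsub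
  set g := ftp P w with hg
  set X : E2 → ℂ := fun z => (χ z : ℂ) with hX
  have hXc : Continuous X := by fun_prop
  have hXi : Integrable X := hi.ofReal
  have hci : Integrable (𝓕 X : E2 → ℂ) := integrable_fourier_of_bounded hXi hB hsp
  set h := S'.indicator g with hh
  have hhi : Integrable h := by
    rw [hh, integrable_indicator_iff hS']
    exact ((continuous_ftp P w).continuousOn.integrableOn_compact hb.isCompact_closure).mono_set
      subset_closure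
  have hHc : Continuous (𝓕⁻ h : E2 → ℂ) := by
    have : (𝓕⁻ h : E2 → ℂ) = fun x => 𝓕 h (-x) := funext (Real.fourierInv_eq_fourier_neg h)
    rw [this]; exact (continuous_fourier hhi).comp continuous_neg
  have hXH : Integrable fun x => X x * 𝓕⁻ h x :=
    hXi.mul_bdd (c := ∫ x, ‖h x‖) hHc.aestronglyMeasurable (Eventually.of_forall fun x => by
      rw [Real.fourierInv_eq_fourier_neg]; exact norm_fourier_le h _)
  have ea : ∀ ξ, ftp P (fun z => w z * χ z) ξ = ∫ ω, 𝓕 X ω * g (ξ - ω) := by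
    intro ξ
    simp only [hg, ftp, mul_sum]
    have hz : ∀ z : E2, Integrable fun ω => 𝓕 X ω * ((w z : ℂ) * ee (-⟪z, ξ - ω⟫)) := fun z =>
      hci.mul_bdd (c := |w z|)
        (continuous_const.mul (continuous_ee.comp (by fun_prop))).aestronglyMeasurable
        (Eventually.of_forall fun ω => by simp)
    rw [integral_finsetSum _ fun z _ => hz z]
    refine sum_congr rfl fun z _ => ?_
    have := eq_fourierInv hXc hXi hci z
    simp only [hX] at this
    push_cast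
    rw [this, ← integral_const_mul, ← integral_mul_const]
    congr 1; ext ω
    rw [inner_sub_right, neg_sub, sub_eq_add_neg, ee_add, real_inner_comm z ω]; ring
  have eb : ∀ ξ, 𝓕 (fun x => X x * 𝓕⁻ h x) ξ = ∫ ω, 𝓕 X ω * h (ξ - ω) := by
    intro ξ
    have hint : Integrable (Function.uncurry fun (x s : E2) =>
        ee (-⟪x, ξ⟫) * (X x * (ee ⟪s, x⟫ * h s))) (volume.prod volume) := by
      refine ((hXi.mul_prod hhi).bdd_mul (c := 1)
        (f := fun p : E2 × E2 => ee (-⟪p.1, ξ⟫) * ee ⟪p.2, p.1⟫) ?_ ?_).congr ?_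
      · exact ((continuous_ee.comp (by fun_prop)).mul
          (continuous_ee.comp (by fun_prop))).aestronglyMeasurable
      · exact Eventually.of_forall fun p => by simp
      · exact Eventually.of_forall fun p => by simp only [Function.uncurry]; ring
    rw [fourier_eq_ee]
    simp only [fourierInv_eq_ee, ← integral_const_mul]
    rw [integral_integral_swap hint, ← integral_sub_left_eq_self (fun ω => 𝓕 X ω * h (ξ - ω)) _ ξ]
    congr 1; ext s
    rw [sub_sub_cancel, fourier_eq_ee, ← integral_mul_const]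
    congr 1; ext x
    rw [inner_sub_right, neg_sub, sub_eq_add_neg, ee_add, real_inner_comm s x]; ring
  calc _ = ∫⁻ ξ in S, ENNReal.ofReal (‖𝓕 (fun x => X x * 𝓕⁻ h x) ξ‖ ^ 2) := by
        refine setLIntegral_congr_fun hS fun ξ hξ => ?_
        rw [ea, eb]
        congr 4; ext ω
        by_cases hω : ω ∈ B
        · rw [hh, Set.indicator_of_mem (hsub ξ hξ ω hω)]
        · rw [hsp ω hω, zero_mul, zero_mul]
    _ ≤ _ := setLIntegral_le_lintegral _ _
    _ ≤ _ := bessel hXH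
    _ ≤ ∫⁻ x, ENNReal.ofReal (‖𝓕⁻ h x‖ ^ 2) := by
        refine lintegral_mono fun x => ENNReal.ofReal_le_ofReal ?_
        rw [norm_mul]
        refine pow_le_pow_left₀ (by positivity) (mul_le_of_le_one_left (norm_nonneg _) ?_) 2
        simpa [hX] using h1 x
    _ ≤ _ := besselInv hhi
    _ = _ := by
        rw [← lintegral_indicator hS']
        congr 1; ext ξ
        by_cases hξ : ξ ∈ S' <;> simp [hh, hξ]

namespace Desc

variable {D : Dat}

theorem n_bounds {e b : ℝ} (he : 0 ≤ e) (he1 : e ≤ 1) (h0 : 0 ≤ b) (h1 : b ≤ 1) :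
    |1 - e * b ^ 2| ≤ 1 ∧ |b| ≤ 1 ∧ |2 * e * b| ≤ 2 ∧ e * b ^ 2 ≤ 1 := by
  have a1 : e * b ≤ 1 := mul_le_one₀ he1 h0 h1
  have a2 : 0 ≤ e * b := mul_nonneg he h0
  have a3 : e * b ^ 2 ≤ 1 := by nlinarith
  have a4 : 0 ≤ e * b ^ 2 := by positivity
  refine ⟨abs_le.2 ⟨by linarith, by linarith⟩, abs_le.2 ⟨by linarith, h1⟩,
    abs_le.2 ⟨by linarith, by linarith⟩, a3⟩

theorem abs_mul_le {a b A B : ℝ} (ha : |a| ≤ A) (hb : |b| ≤ B) : |a * b| ≤ A * B := by
  rw [abs_mul]; exact mul_le_mul ha hb (abs_nonneg _) ((abs_nonneg _).trans ha)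

theorem drop1 (hd : DropStmt) (hD : D.Ok) {J J' l p : ℕ} {h : ℝ} (hJ : J' ≤ J)
    (hp : p < D.K ^ l) (hh : (D.K : ℝ) ^ (2 * J) * (D.K : ℝ) ^ 2 ≤ h) (Q : Finset E2) (w : E2 → ℝ)
    (x : ℝ) : ∫⁻ ξ in Sec D.e D.K h l p x,
        ENNReal.ofReal (‖ftp Q (fun z => w z * D.χ J' l p z) ξ‖ ^ 2) ≤
      ∫⁻ ξ in Sec D.e D.K h l p (x + 5 / (D.K : ℝ) ^ 2), ENNReal.ofReal (‖ftp Q w ξ‖ ^ 2) := by
  have hK : (1 : ℝ) ≤ D.K := by have := hD.K_ge_1000; linarith
  set b := bs D.K l p with hb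
  obtain ⟨n1, n2, n3, n4⟩ := n_bounds hD.e_nonneg hD.e_le (bs_nonneg D.K l p) (bs_lt_one hp).le
  set u := h / (D.K : ℝ) ^ 2 with hu
  have hKl : (1 : ℝ) ≤ (D.K : ℝ) ^ l := one_le_pow₀ hK
  have t1 : (tt D.K J')⁻¹ ≤ u := by
    rw [hu, le_div_iff₀ (by positivity), tt, inv_inv]
    exact le_trans (by gcongr) hh
  have u0 : 0 ≤ u := le_trans (inv_nonneg.2 (tt_pos hD.K_pos _).le) t1
  have t2 : (rr D.K J' l)⁻¹ ≤ u / (D.K : ℝ) ^ l := by
    rw [rr, mul_inv, mul_comm, div_eq_mul_inv]; gcongr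
  have t3 : u / (D.K : ℝ) ^ l ≤ u := div_le_self u0 hKl
  refine hd Q w _ {ω | |ω 0| + |ω 1| ≤ 5 * u ∧ |dt D.e b ω| ≤ 2 * (u / (D.K : ℝ) ^ l)} _ _
    (hD.prune.cont _ _ _) (hD.prune.int _ _ _)
    (fun z => by rw [abs_of_nonneg (hD.prune.nonneg _ _ _ _)]; exact hD.prune.le_one _ _ _ _)
    ((bdd_l1 _).subset fun _ hω => hω.1) (fun ω hω => ?_) (measurableSet_Sec _ _ _ _ _ _)
    (measurableSet_Sec _ _ _ _ _ _) (Sec_bdd _ _ _ _ _ _) fun ξ hξ ω hω => ?_
  · rw [← fr_eta hD.e_nonneg b ω] at hω ⊢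
    refine hD.prune.spec _ _ _ _ _ ?_
    by_contra hc
    push Not at hc
    generalize (ω 0 + 2 * D.e * b * ω 1) / (1 + D.e * b ^ 2) = α at hω hc
    generalize dt D.e b ω / (1 + D.e * b ^ 2) = β at hω hc
    have a1 : |α| ≤ u := hc.1.trans t1
    have a2 : |β| ≤ u / (D.K : ℝ) ^ l := hc.2.trans t2
    refine hω ⟨?_, ?_⟩
    · simp only [fr, v2_0, v2_1]
      have c1 := abs_mul_le a1 n1
      have c2 := abs_mul_le n3 (a2.trans t3)
      have c3 := abs_mul_le a1 n2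
      have c4 := abs_sub (α * (1 - D.e * b ^ 2)) (2 * D.e * b * β)
      have c5 := abs_add_le (α * b) β
      linarith
    · rw [dt_fr, sub_self, zero_mul, mul_zero, zero_add, mul_comm 2 (u / _)]
      refine abs_mul_le a2 (abs_le.2 ⟨?_, ?_⟩) <;> nlinarith [mul_nonneg hD.e_nonneg (sq_nonneg b)]
  · obtain ⟨s1, s2, s3⟩ := hξ
    obtain ⟨o1, o2⟩ := hω
    have e1 : 5 / (D.K : ℝ) ^ 2 * h = 5 * u := by rw [hu]; ring
    have c0 := abs_sub_abs_le_abs_sub (ξ 0) (ω 0)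
    have c1 := abs_sub_abs_le_abs_sub (ξ 1) (ω 1)
    have c2 := abs_sub (ξ 0) (ω 0)
    have c3 := abs_sub (ξ 1) (ω 1)
    refine ⟨?_, ?_, ?_⟩
    · simp only [PiLp.sub_apply]; linarith
    · simp only [PiLp.sub_apply]; linarith
    · have e2 : dt D.e b (ξ - ω) = dt D.e b ξ - dt D.e b ω := by
        simp only [dt, PiLp.sub_apply]; ring
      have e3 : (8 + (x + 5 / (D.K : ℝ) ^ 2)) * h / (D.K : ℝ) ^ l =
          (8 + x) * h / (D.K : ℝ) ^ l + 5 * (u / (D.K : ℝ) ^ l) := by rw [hu]; ring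
      have : 0 ≤ u / (D.K : ℝ) ^ l := by positivity
      rw [e2, e3]
      linarith [abs_sub (dt D.e b ξ) (dt D.e b ω)]

theorem dropAll (hd : DropStmt) (hD : D.Ok) {J l p : ℕ} {h : ℝ} (hp : p < D.K ^ l)
    (hh : (D.K : ℝ) ^ (2 * J) * (D.K : ℝ) ^ 2 ≤ h) (Q : Finset E2) (w : E2 → ℝ) (s : Finset ℕ)
    (hs : ∀ J' ∈ s, J' ≤ J) : ∀ x : ℝ, ∫⁻ ξ in Sec D.e D.K h l p x,
        ENNReal.ofReal (‖ftp Q (fun z => w z * ∏ J' ∈ s, D.χ J' l p z) ξ‖ ^ 2) ≤
      ∫⁻ ξ in Sec D.e D.K h l p (x + s.card * (5 / (D.K : ℝ) ^ 2)),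
        ENNReal.ofReal (‖ftp Q w ξ‖ ^ 2) := by
  induction s using Finset.induction_on with
  | empty => intro x; simp
  | insert a s ha ih =>
    intro x
    have e : (fun z => w z * ∏ J' ∈ insert a s, D.χ J' l p z) =
        fun z => (w z * ∏ J' ∈ s, D.χ J' l p z) * D.χ a l p z := by
      ext z; rw [prod_insert ha]; ring
    rw [e]
    refine (drop1 hd hD (hs a (mem_insert_self _ _)) hp hh Q _ x).trans
      ((ih (fun J' h' => hs J' (mem_insert_of_mem h')) _).trans (le_of_eq ?_))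
    rw [card_insert_of_notMem ha]
    congr 3; push_cast; ring

theorem Sec_parent (hD : D.Ok) {l p p' : ℕ} {h x : ℝ} (hh : 0 < h) (hx : x ≤ 1 / 4)
    (hp : p ∈ ch D.K l p' (l + 1)) : Sec D.e D.K h (l + 1) p x ⊆ Sec D.e D.K h l p' x := by
  intro ξ ⟨s1, s2, s3⟩
  refine ⟨s1, s2, ?_⟩
  obtain ⟨d0, d1⟩ := bs_sub_of_mem_ch hD.K_pos (Nat.le_succ l) hp
  have b1 := bs_lt_one (mem_ch.1 hp).1
  have b0 := bs_nonneg D.K l p'
  have hK := hD.K_ge_1000
  set a := bs D.K (l + 1) p; set b := bs D.K l p'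
  set σ := ((D.K : ℝ) ^ l)⁻¹ with hσ
  have hσ0 : 0 < σ := by positivity
  have e : dt D.e b ξ = dt D.e a ξ + (a - b) * (D.e * (a + b) * ξ 1 + ξ 0) := by
    simp only [dt]; ring
  have c1 : |D.e * (a + b)| ≤ 2 := by
    have := hD.e_nonneg; have := hD.e_le
    rw [abs_of_nonneg (by nlinarith)]; nlinarith
  have c2 : |D.e * (a + b) * ξ 1 + ξ 0| ≤ 2 * ((3 + x) * h) := by
    have := abs_mul_le c1 (le_refl |ξ 1|)
    have := abs_add_le (D.e * (a + b) * ξ 1) (ξ 0)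
    have := abs_nonneg (ξ 0)
    linarith
  have c3 := abs_mul_le (abs_le.2 ⟨by linarith, d1.le⟩ : |a - b| ≤ σ) c2
  have c4 : (8 + x) * h / (D.K : ℝ) ^ (l + 1) ≤ h * σ := by
    rw [pow_succ, div_le_iff₀ (by positivity), hσ]
    field_simp
    linarith
  rw [e, div_eq_mul_inv, ← hσ]
  have := abs_add_le (dt D.e a ξ) ((a - b) * (D.e * (a + b) * ξ 1 + ξ 0))
  nlinarith [mul_pos hh hσ0]

theorem overlap (hD : D.Ok) {l p p' : ℕ} {h x : ℝ} (hh : 0 < h) (hx : x ≤ 1 / 4)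
    (hp : p < D.K ^ l) (hp' : p' < D.K ^ l) {ξ : E2} (h1 : ξ ∈ Sec D.e D.K h l p x)
    (h2 : ξ ∈ Sec D.e D.K h l p' x) : p' ≤ p + 132 := by
  obtain ⟨s1, -, s3⟩ := h1
  obtain ⟨-, -, s3'⟩ := h2
  have hK := hD.K_ge_1000
  obtain ⟨n1, n2, -, -⟩ := n_bounds hD.e_nonneg hD.e_le (bs_nonneg D.K l p) (bs_lt_one hp).le
  obtain ⟨m1, m2, -, -⟩ := n_bounds hD.e_nonneg hD.e_le (bs_nonneg D.K l p') (bs_lt_one hp').le
  have b0 := bs_nonneg D.K l p; have b0' := bs_nonneg D.K l p'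
  have eb : bs D.K l p' - bs D.K l p = ((p' : ℝ) - p) / (D.K : ℝ) ^ l := by unfold bs; ring
  set b := bs D.K l p; set b' := bs D.K l p'
  set T := (8 + x) * h / (D.K : ℝ) ^ l with hT
  have e0 : ξ 0 * ((b' - b) * (1 + D.e * b * b')) =
      (1 - D.e * b' ^ 2) * dt D.e b ξ - (1 - D.e * b ^ 2) * dt D.e b' ξ := by simp only [dt]; ring
  have e1 : ξ 1 * ((b' - b) * (1 + D.e * b * b')) = b' * dt D.e b ξ - b * dt D.e b' ξ := by
    simp only [dt]; ring
  by_contra hc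
  have hc' : (132 : ℝ) < (p' : ℝ) - p := by
    have : ((p + 132 : ℕ) : ℝ) < p' := by exact_mod_cast (by omega : p + 132 < p')
    push_cast at this; linarith
  have hKl : (0 : ℝ) < (D.K : ℝ) ^ l := by positivity
  have g1 : 132 / (D.K : ℝ) ^ l < b' - b := by rw [eb]; gcongr
  have g0 : 0 < 132 / (D.K : ℝ) ^ l := by positivity
  have g2 : b' - b ≤ (b' - b) * (1 + D.e * b * b') := by
    have := mul_nonneg (mul_nonneg hD.e_nonneg b0) b0'
    nlinarith
  set W := (b' - b) * (1 + D.e * b * b')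
  have c0 : |ξ 0| * W ≤ 2 * T := by
    rw [← abs_of_pos (show 0 < W by linarith), ← abs_mul, e0]
    have := abs_mul_le m1 s3; have := abs_mul_le n1 s3'
    linarith [abs_sub ((1 - D.e * b' ^ 2) * dt D.e b ξ) ((1 - D.e * b ^ 2) * dt D.e b' ξ)]
  have c1 : |ξ 1| * W ≤ 2 * T := by
    rw [← abs_of_pos (show 0 < W by linarith), ← abs_mul, e1]
    have := abs_mul_le m2 s3; have := abs_mul_le n2 s3'
    linarith [abs_sub (b' * dt D.e b ξ) (b * dt D.e b' ξ)]
  have c2 : 4 * T ≤ h / 4 * (132 / (D.K : ℝ) ^ l) := by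
    rw [hT, ← mul_div_assoc, ← mul_div_assoc]
    exact div_le_div_of_nonneg_right (by nlinarith) hKl.le
  have c3 : h / 4 * (132 / (D.K : ℝ) ^ l) < h / 4 * W := by gcongr; linarith
  have c4 : h / 4 * W ≤ (|ξ 0| + |ξ 1|) * W := by
    gcongr
    · linarith
    · nlinarith
  linarith

theorem merge (hD : D.Ok) {l p' : ℕ} {h x : ℝ} (hh : 0 < h) (hx : x ≤ 1 / 4)
    {Φ : E2 → ℝ≥0∞} (hΦ : Measurable Φ) :
    ∑ p ∈ ch D.K l p' (l + 1), ∫⁻ ξ in Sec D.e D.K h (l + 1) p x, Φ ξ ≤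
      265 * ∫⁻ ξ in Sec D.e D.K h l p' x, Φ ξ := by
  classical
  simp only [← lintegral_indicator (measurableSet_Sec _ _ _ _ _ _)]
  rw [← lintegral_finsetSum _ fun p _ => hΦ.indicator (measurableSet_Sec _ _ _ _ _ _),
    ← lintegral_const_mul' _ _ (by norm_num)]
  refine lintegral_mono fun ξ => ?_
  simp only [Set.indicator_apply]
  rw [← sum_filter, sum_const, nsmul_eq_mul]
  set T := (ch D.K l p' (l + 1)).filter fun p => ξ ∈ Sec D.e D.K h (l + 1) p x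
  rcases T.eq_empty_or_nonempty with hT | ⟨p0, hp0⟩
  · simp [hT]
  obtain ⟨a0, b0⟩ := mem_filter.1 hp0
  rw [if_pos (Sec_parent hD hh hx a0 b0)]
  gcongr
  have : T ⊆ Icc (p0 - 132) (p0 + 132) := by
    intro p hp
    obtain ⟨a, b⟩ := mem_filter.1 hp
    have := overlap hD hh hx (mem_ch.1 a0).1 (mem_ch.1 a).1 b0 b
    have := overlap hD hh hx (mem_ch.1 a).1 (mem_ch.1 a0).1 b b0
    rw [mem_Icc]; omega
  have h2 := card_le_card this
  rw [Nat.card_Icc] at h2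
  exact_mod_cast h2.trans (by omega)

end Desc

theorem desc (hd : DropStmt) : DescStmt := by
  intro D j l1 p1 h Q hD hj hjN hl hp hh
  have hK := hD.K_ge_1000
  have hh0 : 0 < h := lt_of_lt_of_le (by positivity) hh
  have hh' : (D.K : ℝ) ^ (2 * (j - 2)) * (D.K : ℝ) ^ 2 ≤ h := by
    rw [← pow_add, show 2 * (j - 2) + 2 = 2 * (j - 1) by omega]; exact hh
  set s : ℝ := 5 / (D.K : ℝ) ^ 2 with hs
  have hs0 : 0 ≤ s := by positivity
  have hN : (0 : ℝ) ≤ D.N := Nat.cast_nonneg _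
  have hx : ∀ d : ℕ, d ≤ D.N → (d : ℝ) * D.N * s ≤ 1 / 4 := by
    intro d hdN
    have h1 : (d : ℝ) ≤ D.N := by exact_mod_cast hdN
    have h2 := hD.K_ge_N
    calc (d : ℝ) * D.N * s ≤ D.N * D.N * s := by gcongr
      _ ≤ _ := by rw [hs, ← mul_div_assoc, div_le_iff₀ (by positivity)]; nlinarith
  have key : ∀ d l, l + d = j - 3 → l1 ≤ l →
      ∑ θ ∈ ch D.K l1 p1 (j - 3), ∫⁻ ξ in Sec D.e D.K h (j - 3) θ 0,
        ENNReal.ofReal (‖ftp Q (cw D.K D.χ (j - 2) (j - 2) (j - 3) θ) ξ‖ ^ 2) ≤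
      265 ^ d * ∑ p ∈ ch D.K l1 p1 l, ∫⁻ ξ in Sec D.e D.K h l p (d * D.N * s),
        ENNReal.ofReal (‖ftp Q (cw D.K D.χ (j - 2) (l + 1) l p) ξ‖ ^ 2) := by
    intro d
    induction d with
    | zero =>
      intro l h1 _
      obtain rfl : l = j - 3 := h1
      rw [show j - 3 + 1 = j - 2 by omega]; simp
    | succ d ih =>
      intro l h1 h2
      refine (ih (l + 1) (by omega) (by omega)).trans ?_
      rw [pow_succ, mul_assoc ((265 : ℝ≥0∞) ^ d), sum_ch hD.K_pos h2 (Nat.le_succ l), mul_sum _ _ (265 : ℝ≥0∞)]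
      gcongr with p' hp'
      refine le_trans (sum_le_sum fun p hp => ?_) (merge hD hh0 (hx (d + 1) (by omega))
        ((continuous_ftp _ _).norm.pow 2).measurable.ennreal_ofReal)
      have e : cw D.K D.χ (j - 2) (l + 1 + 1) (l + 1) p = fun z =>
          cw D.K D.χ (j - 2) (l + 1) l p' z * ∏ J' ∈ Ioc (l + 1) (j - 2), D.χ J' (l + 1) p z := by
        ext z
        rw [cw_succ, cw_parent _ le_rfl (Nat.le_succ l), (mem_ch.1 hp).2]; simp
      rw [e]
      refine (dropAll hd hD (mem_ch.1 hp).1 hh' Q _ _ (fun J' h' => (mem_Ioc.1 h').2) _).trans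
        (lintegral_mono_set (Sec_mono hh0.le _ _ ?_))
      have : ((Ioc (l + 1) (j - 2)).card : ℝ) ≤ D.N := by
        rw [Nat.card_Ioc]; exact_mod_cast (by omega)
      push_cast
      nlinarith [mul_le_mul_of_nonneg_right this hs0]
  refine (key (j - 3 - l1) l1 (by omega) le_rfl).trans ?_
  rw [ch_self hp, sum_singleton]
  gcongr
  · norm_num
  · omega
  · exact Sec_mono hh0.le _ _ (hx _ (by omega))

end Pool.Agent.MP_538dc4_an
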