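import Pool.Agent.MP_538dc4_an.Shear

/-! PROJECT FURST, module DISC1: the discrete estimate under the standing hypotheses. -/

open MeasureTheory Finset
open scoped ENNReal FourierTransform ComplexConjugate RealInnerProductSpace

namespace Pool.Agent.MP_538dc4_an

namespace Disc1

variable {D : Dat}

/-- The lower bound for the number of incidences. -/
noncomputable def V (D : Dat) (κ : ℝ) (j : ℕ) : ℝ :=
  κ / ((D.K : ℝ) ^ 4 * D.L ^ (3 * D.N)) * (tt D.K j / D.δ) * D.δ⁻¹ ^ D.u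

theorem K_pos' (h : D.Ok) : (0 : ℝ) < D.K := by have := h.K_ge_1000; linarith

theorem L_le_K (h : D.Ok) : D.L ≤ D.K := by
  have h1 := h.RL_le
  have h2 := h.c_sq_le.2
  have h3 := h.R_ge
  have h4 := h.L_ge
  nlinarith

theorem sel (h : D.Ok) {κ : ℝ} (hκ : 0 < κ) {X : E3} {j0 : ℕ} (hj : j0 < D.N)
    (h0 : κ / (D.K : ℝ) ^ 4 * (tt D.K j0 / D.δ) * D.δ⁻¹ ^ D.u ≤ D.Cnt j0 X) :
    ∃ j < D.N, V D κ j ≤ D.Cnt j X ∧
      (1 ≤ j → D.Cnt (j - 1) X ≤ (D.K : ℝ) ^ 2 / D.L ^ 3 * D.Cnt j X) := by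
  have hK := K_pos' h
  have hL : 0 < D.L := by have := h.L_ge; linarith
  have hδ := h.δ_pos
  set A : ℝ := (D.K : ℝ) ^ 2 / D.L ^ 3 with hA
  have hA0 : 0 < A := by positivity
  obtain ⟨j, hj1, hm⟩ := exists_max_image (range D.N) (fun j => D.Cnt j X * A ^ j)
    ⟨j0, mem_range.2 hj⟩
  have htA : ∀ i, tt D.K i * A ^ i = (D.L ^ (3 * i))⁻¹ := fun i => by
    rw [hA, tt, div_pow, ← pow_mul, ← pow_mul]
    field_simp
  refine ⟨j, mem_range.1 hj1, ?_, fun h1 => ?_⟩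
  · refine le_of_mul_le_mul_right (le_trans ?_ ((mul_le_mul_of_nonneg_right h0
      (pow_pos hA0 j0).le).trans (hm j0 (mem_range.2 hj)))) (pow_pos hA0 j)
    have e1 : V D κ j * A ^ j = κ / (D.K : ℝ) ^ 4 / D.δ * D.δ⁻¹ ^ D.u *
        ((D.L ^ (3 * D.N))⁻¹ * (tt D.K j * A ^ j)) := by
      unfold V
      field_simp
    have e2 : κ / (D.K : ℝ) ^ 4 * (tt D.K j0 / D.δ) * D.δ⁻¹ ^ D.u * A ^ j0 =
        κ / (D.K : ℝ) ^ 4 / D.δ * D.δ⁻¹ ^ D.u * (tt D.K j0 * A ^ j0) := by ring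
    rw [e1, e2, htA, htA]
    refine mul_le_mul_of_nonneg_left ?_ (by positivity)
    have a1 : (D.L ^ (3 * j))⁻¹ ≤ 1 := inv_le_one_of_one_le₀ (one_le_pow₀ h.L_ge)
    have a2 : (D.L ^ (3 * D.N))⁻¹ ≤ (D.L ^ (3 * j0))⁻¹ :=
      inv_anti₀ (by positivity) (pow_le_pow_right₀ h.L_ge (by omega))
    exact (mul_le_of_le_one_right (by positivity) a1).trans a2
  · have := hm (j - 1) (mem_range.2 (by have := mem_range.1 hj1; omega))
    refine le_of_mul_le_mul_right (this.trans (le_of_eq ?_)) (pow_pos hA0 (j - 1))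
    obtain ⟨i, rfl⟩ : ∃ i, j = i + 1 := ⟨j - 1, by omega⟩
    simp only [Nat.add_sub_cancel]
    ring

theorem pigeon {v κ : ℝ} {N : ℕ} (hN : 1 ≤ N) (hκ : 0 < κ) {E : Set E3} {F : ℕ → Set E3}
    (hE : ∀ X ∈ E, ∃ j < N, X ∈ F j) (h : ENNReal.ofReal κ ≤ hc v E) :
    ∃ j < N, ENNReal.ofReal (κ / N) ≤ hc v (F j) := by
  have hN' : (0 : ℝ) < N := by exact_mod_cast hN
  have h1 : hc v E ≤ ∑ j ∈ range N, hc v (F j) :=
    (measure_mono fun X hX => by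
      obtain ⟨j, hj, hX⟩ := hE X hX
      exact Set.mem_biUnion (mem_coe.2 (mem_range.2 hj)) hX).trans
      (measure_biUnion_finset_le (range N) F)
  have h2 : ∑ _j ∈ range N, ENNReal.ofReal (κ / N) = ENNReal.ofReal κ := by
    rw [← ENNReal.ofReal_sum_of_nonneg fun _ _ => by positivity, sum_const, card_range,
      nsmul_eq_mul, mul_div_cancel₀ _ hN'.ne']
  by_contra hn
  push Not at hn
  have := ENNReal.sum_lt_sum_of_nonempty (s := range N) ⟨0, mem_range.2 hN⟩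
    fun j hj => hn j (mem_range.1 hj)
  rw [h2] at this
  exact absurd (h.trans h1) (not_le.2 this)

theorem Cnt_le (h : D.Ok) (j : ℕ) (X : E3) : D.Cnt j X ≤ (D.K : ℝ) ^ j * D.P.card := by
  classical
  unfold Dat.Cnt
  refine (sum_le_card_nsmul _ _ (D.P.card : ℝ) fun p _ => ?_).trans (by simp)
  refine (sum_le_card_nsmul _ _ 1 fun z _ => h.wt_le_one j p z).trans ?_
  rw [nsmul_eq_mul, mul_one]
  exact Nat.cast_le.2 (card_filter_le _ _)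

theorem V_ge (h : D.Ok) {κ : ℝ} (hκ : D.δ ≤ κ) {j : ℕ} (hj : j ≤ D.N) :
    ((D.K : ℝ) ^ (10 * D.N))⁻¹ ≤ V D κ j := by
  have hK := K_pos' h
  have hK1 : (1 : ℝ) ≤ D.K := by have := h.K_ge_1000; linarith
  have hL : 0 < D.L := by have := h.L_ge; linarith
  have hδ := h.δ_pos
  have h1 : 1 ≤ tt D.K j / D.δ := (one_le_div hδ).2 (tt_anti h.K_pos hj)
  have h2 : 1 ≤ D.δ⁻¹ ^ D.u :=
    Real.one_le_rpow (one_le_inv_iff₀.2 ⟨hδ, h.δ_le_one⟩) h.u_pos.le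
  have h3 : ((D.K : ℝ) ^ (10 * D.N))⁻¹ ≤ κ / ((D.K : ℝ) ^ 4 * D.L ^ (3 * D.N)) := by
    have a1 : D.L ^ (3 * D.N) ≤ (D.K : ℝ) ^ (3 * D.N) := pow_le_pow_left₀ hL.le (L_le_K h) _
    have a2 : (D.K : ℝ) ^ (2 * D.N) * ((D.K : ℝ) ^ 4 * (D.K : ℝ) ^ (3 * D.N)) ≤
        (D.K : ℝ) ^ (10 * D.N) := by
      rw [← pow_add, ← pow_add]
      exact pow_le_pow_right₀ hK1 (by have := h.N_ge; omega)
    calc ((D.K : ℝ) ^ (10 * D.N))⁻¹
        ≤ ((D.K : ℝ) ^ (2 * D.N) * ((D.K : ℝ) ^ 4 * (D.K : ℝ) ^ (3 * D.N)))⁻¹ :=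
          inv_anti₀ (by positivity) a2
      _ = D.δ / ((D.K : ℝ) ^ 4 * (D.K : ℝ) ^ (3 * D.N)) := by
          rw [mul_inv, Dat.δ, tt, div_eq_mul_inv]
      _ ≤ _ := by
          have : 0 < κ := hδ.trans_le hκ
          gcongr
  have h0 : 0 ≤ κ / ((D.K : ℝ) ^ 4 * D.L ^ (3 * D.N)) := le_trans (by positivity) h3
  exact h3.trans ((le_mul_of_one_le_right h0 h1).trans
    (le_mul_of_one_le_right (mul_nonneg h0 (zero_le_one.trans h1)) h2))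

/-- The number of frequencies. -/
theorem exists_M (h : D.Ok) : ∃ M : ℕ, 1 ≤ M ∧ 77 * D.R * D.L * M ≤ (D.K : ℝ) ^ 2 ∧
    (D.K : ℝ) ^ 2 ≤ 154 * D.R * D.L * M := by
  have hR := h.R_ge
  have hL := h.L_ge
  have hK := h.K_ge_1000
  have h0 : 0 < 77 * D.R * D.L := by positivity
  have h1 : 1 ≤ (D.K : ℝ) ^ 2 / (77 * D.R * D.L) := by
    rw [one_le_div h0]
    have := h.RL_le
    have := h.c_sq_le.2
    nlinarith [mul_pos (by linarith : 0 < D.R) (by linarith : 0 < D.L)]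
  have h2 : 1 ≤ ⌊(D.K : ℝ) ^ 2 / (77 * D.R * D.L)⌋₊ := Nat.le_floor (by simpa using h1)
  refine ⟨_, h2, ?_, ?_⟩
  · rw [mul_comm, ← le_div_iff₀ h0]
    exact Nat.floor_le (by positivity)
  · have h3 := Nat.lt_floor_add_one ((D.K : ℝ) ^ 2 / (77 * D.R * D.L))
    have h4 : (1 : ℝ) ≤ ⌊(D.K : ℝ) ^ 2 / (77 * D.R * D.L)⌋₊ := by exact_mod_cast h2
    rw [div_lt_iff₀ h0] at h3
    nlinarith

/-- A high frequency piece is large near a point with many incidences. -/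
theorem point (hH : HighStmt) (h : D.Ok) {κ : ℝ} (hκ : D.δ ≤ κ) {j k0 M : ℕ} (hj : 2 ≤ j)
    (hN : j ≤ D.N) (hM : 1 ≤ M) (hM1 : 77 * D.R * D.L * M ≤ (D.K : ℝ) ^ 2)
    (hM2 : (D.K : ℝ) ^ 2 ≤ 154 * D.R * D.L * M)
    (hk : (4 * 4 ^ k0 + 1) * 10 ^ 6 * D.R ^ 3 ≤ D.c ^ 3 * D.L) {X X' : E3}
    (hX : GoodX D.e D.R X) (hX' : ∀ i, |X' i - X i| ≤ tt D.K j) (h1 : V D κ j ≤ D.Cnt j X)
    (h2 : D.Cnt (j - 1) X ≤ (D.K : ℝ) ^ 2 / D.L ^ 3 * D.Cnt j X) :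
    D.c ^ 6 * (D.c ^ 2 * V D κ j / 8) ^ 4 ≤
      ∑ l ∈ Ioo (2 * 4 ^ k0) M, D.W0 X' ^ 2 * ‖D.Fl j l X'‖ ^ 4 := by
  have hR := h.R_ge
  have hL := h.L_ge
  have hK := K_pos' h
  have hc := h.ker.c_pos
  have hc1 := h.ker.c_le
  have hM0 : (0 : ℝ) < M := by exact_mod_cast hM
  have hV := V_ge h hκ hN
  have hV0 : 0 ≤ V D κ j := le_trans (by positivity) hV
  set T := ∑ l ∈ Ioo (2 * 4 ^ k0) M, ‖D.Fl j l X'‖ ^ 4 with hT
  have hT0 : 0 ≤ T := sum_nonneg fun _ _ => by positivity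
  have hS := hH D j (2 * 4 ^ k0) M X X' (√(√T)) h hj hN hX hX' hM
    (le_trans (by
      have : 0 ≤ D.L * M := by positivity
      nlinarith) hM1) (Real.sqrt_nonneg _) fun l l1 l2 => by
      refine Real.le_sqrt_of_sq_le (Real.le_sqrt_of_sq_le ?_)
      rw [← pow_mul]
      exact single_le_sum (f := fun l => ‖D.Fl j l X'‖ ^ 4) (fun _ _ => by positivity)
        (mem_Ioo.2 ⟨l1, l2⟩)
  set q : ℝ := (2 * ((2 * 4 ^ k0 : ℕ) : ℝ) + 1) / M with hq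
  have hq0 : 0 ≤ q := by positivity
  have hq1 : q * (10 ^ 6 * D.R ^ 3) * (D.K : ℝ) ^ 2 ≤ D.c ^ 3 * D.L * (154 * D.R * D.L) := by
    have e : q * (10 ^ 6 * D.R ^ 3) * (154 * D.R * D.L * M) =
        (4 * 4 ^ k0 + 1) * 10 ^ 6 * D.R ^ 3 * (154 * D.R * D.L) := by
      rw [hq]
      push_cast
      field_simp
      ring
    refine (mul_le_mul_of_nonneg_left hM2 (by positivity)).trans ?_
    rw [e]
    exact mul_le_mul_of_nonneg_right hk (by positivity)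
  have b1 : q * (300 * D.R ^ 2 * D.L / D.c) * ((D.K : ℝ) ^ 2 / D.L ^ 3) ≤ D.c ^ 2 / 16 := by
    have e : q * (300 * D.R ^ 2 * D.L / D.c) * ((D.K : ℝ) ^ 2 / D.L ^ 3) =
        q * (10 ^ 6 * D.R ^ 3) * (D.K : ℝ) ^ 2 * (300 / (10 ^ 6 * D.R * D.c * D.L ^ 2)) := by
      field_simp
    rw [e]
    refine (mul_le_mul_of_nonneg_right hq1 (by positivity)).trans ?_
    have e2 : D.c ^ 3 * D.L * (154 * D.R * D.L) * (300 / (10 ^ 6 * D.R * D.c * D.L ^ 2)) =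
        D.c ^ 2 * (154 * 300 / 10 ^ 6) := by
      field_simp
    rw [e2]
    have : 0 ≤ D.c ^ 2 := by positivity
    nlinarith
  have b2 : q ≤ D.c ^ 2 / 16 := by
    refine le_of_mul_le_mul_right ?_ (by positivity : 0 < 10 ^ 6 * D.R ^ 3 * (D.K : ℝ) ^ 2)
    rw [← mul_assoc]
    refine hq1.trans ?_
    have a1 : D.L ^ 2 ≤ (D.K : ℝ) ^ 2 := pow_le_pow_left₀ (by linarith) (L_le_K h) 2
    have a2 : D.R ≤ D.R ^ 3 := le_self_pow₀ hR (by norm_num)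
    calc D.c ^ 3 * D.L * (154 * D.R * D.L) = D.c ^ 2 * (154 * D.c * D.R * D.L ^ 2) := by ring
      _ ≤ D.c ^ 2 * (62500 * 1 * D.R ^ 3 * (D.K : ℝ) ^ 2) := by gcongr; norm_num
      _ = _ := by ring
  have hC0 : 0 ≤ D.Cnt j X := hV0.trans h1
  have b3 : q * (300 * D.R ^ 2 * D.L / D.c * D.Cnt (j - 1) X) ≤ D.c ^ 2 / 16 * D.Cnt j X := by
    calc q * (300 * D.R ^ 2 * D.L / D.c * D.Cnt (j - 1) X)
        ≤ q * (300 * D.R ^ 2 * D.L / D.c * ((D.K : ℝ) ^ 2 / D.L ^ 3 * D.Cnt j X)) := by gcongr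
      _ = q * (300 * D.R ^ 2 * D.L / D.c) * ((D.K : ℝ) ^ 2 / D.L ^ 3) * D.Cnt j X := by ring
      _ ≤ _ := mul_le_mul_of_nonneg_right b1 hC0
  have b4 : q * ((D.K : ℝ) ^ (10 * D.N))⁻¹ ≤ D.c ^ 2 / 16 * V D κ j :=
    mul_le_mul b2 hV (by positivity) (by positivity)
  have b5 : D.c ^ 2 * V D κ j ≤ D.c ^ 2 * D.Cnt j X := by gcongr
  have b6 : D.c ^ 2 * V D κ j / 8 ≤ √(√T) := by
    rw [mul_add] at hS
    linarith
  have b7 : (D.c ^ 2 * V D κ j / 8) ^ 4 ≤ T := by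
    refine (pow_le_pow_left₀ (by positivity) b6 4).trans (le_of_eq ?_)
    rw [show 4 = 2 * 2 by rfl, pow_mul, Real.sq_sqrt (Real.sqrt_nonneg _), Real.sq_sqrt hT0]
  have hk' : ∀ i, |X i| ≤ D.R → D.c ≤ D.k (D.c / (D.R + 1) * X' i) := by
    intro i hi
    refine h.ker.k_low _ ?_
    have a1 := hX' i
    have a2 := tt_le_one h.K_pos j
    have a3 : |X' i| ≤ D.R + 1 := by
      have := abs_add_le (X' i - X i) (X i)
      rw [sub_add_cancel] at this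
      linarith
    rw [abs_mul, abs_of_pos (by positivity : 0 < D.c / (D.R + 1)), div_mul_eq_mul_div,
      div_le_iff₀ (by positivity)]
    exact mul_le_mul_of_nonneg_left a3 hc.le
  have b8 : D.c ^ 3 ≤ D.W0 X' := by
    rw [show D.c ^ 3 = D.c * D.c * D.c by ring]
    exact mul_le_mul (mul_le_mul (hk' 0 hX.1) (hk' 1 hX.2.1) hc.le (h.ker.k_nonneg _))
      (hk' 2 hX.2.2.1) hc.le (mul_nonneg (h.ker.k_nonneg _) (h.ker.k_nonneg _))
  rw [← mul_sum]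
  refine mul_le_mul ?_ b7 (by positivity) (by positivity)
  rw [show 6 = 3 * 2 by rfl, pow_mul]
  exact pow_le_pow_left₀ (by positivity) b8 2

theorem cont_Fl (h : D.Ok) (j l : ℕ) : Continuous (D.Fl j l) := by
  unfold Dat.Fl Dat.gp Dat.Gp Dat.pk
  refine continuous_finsetSum _ fun p _ => continuous_finsetSum _ fun z _ => ?_
  simp only [v2_0, v2_1]
  have h1 := h.ker.k_cont
  have h2 := continuous_ee
  have h3 := continuous_L0 (bs D.K j p)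
  have h4 := continuous_L1 (bs D.K j p)
  fun_prop

theorem cont_W0 (h : D.Ok) : Continuous D.W0 := by
  unfold Dat.W0
  have h1 := h.ker.k_cont
  fun_prop

/-- Markov's inequality for a finite sum. -/
theorem markov {s : Finset ℕ} {g : ℕ → E3 → ℝ} (hg : ∀ l, Continuous (g l))
    (h0 : ∀ l X, 0 ≤ g l X) {Ω : Set E3} {lam w B : ℝ} (hl : 0 ≤ lam) (hB : 0 ≤ B)
    (h1 : ∀ X ∈ Ω, lam ≤ ∑ l ∈ s, g l X) (h2 : ENNReal.ofReal w ≤ volume Ω)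
    (h3 : ∀ l ∈ s, ∫⁻ X, ENNReal.ofReal (g l X) ≤ ENNReal.ofReal B) : lam * w ≤ s.card * B := by
  have hm : ∀ l ∈ s, Measurable fun X => ENNReal.ofReal (g l X) := fun l _ =>
    (hg l).measurable.ennreal_ofReal
  have a1 := mul_meas_ge_le_lintegral₀ (μ := volume)
    (Finset.measurable_sum s hm).aemeasurable (ENNReal.ofReal lam)
  have a2 : volume Ω ≤ volume {X | ENNReal.ofReal lam ≤ ∑ l ∈ s, ENNReal.ofReal (g l X)} :=
    measure_mono fun X hX => by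
      rw [Set.mem_ofPred_eq, ← ENNReal.ofReal_sum_of_nonneg fun l _ => h0 l X]
      exact ENNReal.ofReal_le_ofReal (h1 X hX)
  rw [lintegral_finsetSum s hm] at a1
  have a3 : ∑ l ∈ s, ∫⁻ X, ENNReal.ofReal (g l X) ≤ ENNReal.ofReal (s.card * B) := by
    refine (sum_le_sum h3).trans (le_of_eq ?_)
    rw [← ENNReal.ofReal_sum_of_nonneg fun _ _ => hB, sum_const, nsmul_eq_mul]
  rw [← ENNReal.ofReal_le_ofReal_iff (by positivity), ENNReal.ofReal_mul hl]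
  exact (mul_le_mul_right (h2.trans a2) _).trans (a1.trans a3)

theorem alg {c κ K Lp C Ke t δ d T a μ N P : ℝ} (hc : 0 < c) (hκ : 0 < κ) (hK : 0 < K)
    (hL : 0 < Lp) (hC : 0 < C) (hKe : 0 < Ke) (ht : 0 < t) (hδ : 0 < δ) (hd : 0 < d) (hT : 0 < T)
    (ha : 0 < a) (hN : 0 < N)
    (h : c ^ 6 * (c ^ 2 * (κ / (K ^ 4 * Lp) * (t / δ) * d) / 8) ^ 4 * (κ / N * t ^ 3 / a) ≤
      K ^ 2 * (C * Ke * K ^ 80 * (t * (t / δ) ^ 3 * (T * d ^ 2) * (T * d)) * P))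
    (hμ : μ ≤ 8 * (t ^ 3 / (a * T ^ 2))) (hb : 32768 * N ≤ c ^ 14 * K ^ 12) :
    κ ^ 5 / (C * K ^ 110 * Lp ^ 4 * Ke) * (δ⁻¹ * d * μ) ≤ P := by
  have h1 : κ ^ 5 * δ⁻¹ * d / (C * Ke * Lp ^ 4) * (t ^ 3 / (a * T ^ 2)) *
      (c ^ 14 / (4096 * N * K ^ 98)) ≤ P := by
    refine le_of_mul_le_mul_left (le_of_eq_of_le ?_ (h.trans_eq ?_)) (by positivity :
      0 < K ^ 2 * (C * Ke * K ^ 80 * (t * (t / δ) ^ 3 * (T * d ^ 2) * (T * d))))
    · field_simp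
      ring
    · ring
  have h2 : 8 / K ^ 110 ≤ c ^ 14 / (4096 * N * K ^ 98) := by
    rw [div_le_div_iff₀ (by positivity) (by positivity)]
    have := mul_le_mul_of_nonneg_right hb (by positivity : 0 ≤ K ^ 98)
    calc 8 * (4096 * N * K ^ 98) = 32768 * N * K ^ 98 := by ring
      _ ≤ c ^ 14 * K ^ 12 * K ^ 98 := this
      _ = _ := by ring
  calc κ ^ 5 / (C * K ^ 110 * Lp ^ 4 * Ke) * (δ⁻¹ * d * μ)
      ≤ κ ^ 5 / (C * K ^ 110 * Lp ^ 4 * Ke) * (δ⁻¹ * d * (8 * (t ^ 3 / (a * T ^ 2)))) := by gcongr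
    _ = κ ^ 5 * δ⁻¹ * d / (C * Ke * Lp ^ 4) * (t ^ 3 / (a * T ^ 2)) * (8 / K ^ 110) := by
        field_simp
    _ ≤ _ := le_trans (by gcongr) h1

theorem min_le {δ t v u : ℝ} (hδ : 0 < δ) (h1 : δ ≤ t) (h2 : t ≤ 1) (hv : v ≤ 3) :
    min 1 (δ ^ (3 - v - 2 * u)) ≤ 8 * (t ^ 3 / ((2 * t) ^ v * (t ^ u) ^ 2)) := by
  have ht : 0 < t := hδ.trans_le h1
  have a1 : min 1 (δ ^ (3 - v - 2 * u)) ≤ t ^ (3 - v - 2 * u) := by
    rcases le_total 0 (3 - v - 2 * u) with h | h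
    · exact (min_le_right _ _).trans (Real.rpow_le_rpow hδ.le h1 h)
    · exact (min_le_left _ _).trans (Real.one_le_rpow_of_pos_of_le_one_of_nonpos ht h2 h)
  have a2 : t ^ (3 - v - 2 * u) = t ^ 3 / (t ^ v * (t ^ u) ^ 2) := by
    rw [Real.rpow_sub ht, Real.rpow_sub ht, mul_comm 2 u, Real.rpow_mul ht.le, div_div]
    norm_cast
  have a3 : (2 : ℝ) ^ v ≤ 8 := by
    have := Real.rpow_le_rpow_of_exponent_le (by norm_num : (1 : ℝ) ≤ 2) hv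
    norm_num at this
    exact this
  have a4 : (0 : ℝ) < 2 ^ v := by positivity
  rw [Real.mul_rpow (by norm_num) ht.le]
  refine a1.trans (a2.trans_le ?_)
  have e : 8 * (t ^ 3 / (2 ^ v * t ^ v * (t ^ u) ^ 2)) =
      8 / 2 ^ v * (t ^ 3 / (t ^ v * (t ^ u) ^ 2)) := by field_simp
  rw [e]
  exact le_mul_of_one_le_left (by positivity) ((one_le_div a4).2 a3)

theorem big (h : D.Ok) : 32768 * (D.N : ℝ) ≤ D.c ^ 14 * (D.K : ℝ) ^ 12 := by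
  have hK := h.K_ge_1000
  have hN : (1 : ℝ) ≤ D.N := by exact_mod_cast h.N_ge
  have h1 : 1 ≤ D.c ^ 2 * D.K := by
    have a1 := h.K_big'
    have a2 : (1 : ℝ) ≤ D.R ^ 2 := one_le_pow₀ h.R_ge
    have a3 : (1 : ℝ) ≤ D.L ^ 2 := one_le_pow₀ h.L_ge
    nlinarith
  have h2 : 1 ≤ (D.c ^ 2 * D.K) ^ 7 := one_le_pow₀ h1
  have h3 : 32768 * (D.N : ℝ) ≤ (D.K : ℝ) ^ 2 := by
    have := h.K_ge_N
    nlinarith
  have h4 : (D.K : ℝ) ^ 2 ≤ (D.K : ℝ) ^ 5 := pow_le_pow_right₀ (by linarith) (by norm_num)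
  calc 32768 * (D.N : ℝ) ≤ 1 * (D.K : ℝ) ^ 5 := by linarith
    _ ≤ (D.c ^ 2 * D.K) ^ 7 * (D.K : ℝ) ^ 5 := by gcongr
    _ = _ := by ring

end Disc1

open Disc1 in
theorem disc1 (h4 : L4Stmt) (hH : HighStmt) (hC : CountStmt) (hV : VolStmt) : Disc1Stmt := by
  intro D ε C v κ k0 b E h hε hk0 hC1 hW hb hv0 hv3 hδκ hκ1 hk hE hvE hA
  have hδ := h.δ_pos
  have hκ : 0 < κ := hδ.trans_le hδκ
  have hK := K_pos' h
  have hK1 : (1 : ℝ) ≤ D.K := by have := h.K_ge_1000; linarith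
  have hL1 := h.L_ge
  have hR1 := h.R_ge
  have hN : (0 : ℝ) < D.N := by exact_mod_cast h.N_ge
  obtain ⟨j, hj, hF⟩ := pigeon (F := fun j => {X | X ∈ E ∧ V D κ j ≤ D.Cnt j X ∧
      (1 ≤ j → D.Cnt (j - 1) X ≤ (D.K : ℝ) ^ 2 / D.L ^ 3 * D.Cnt j X)}) h.N_ge hκ
    (fun X hX => by
      obtain ⟨j0, a1, a2⟩ := hC D X _ κ h (hE X hX) (fun φ hφ => hφ.1) (fun φ hφ => hφ.2) hκ
        (hA X hX)
      obtain ⟨j, a3, a4⟩ := sel h hκ a1 a2
      exact ⟨j, a3, hX, a4⟩) hvE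
  have hKe : 1 ≤ ((D.K : ℝ) ^ D.N) ^ ε := Real.one_le_rpow (one_le_pow₀ hK1) hε.le
  have ht := tt_pos h.K_pos j
  rcases le_or_gt j 3 with h3 | h3
  · obtain ⟨X, -, hX, -⟩ : Set.Nonempty {X | X ∈ E ∧ V D κ j ≤ D.Cnt j X ∧
        (1 ≤ j → D.Cnt (j - 1) X ≤ (D.K : ℝ) ^ 2 / D.L ^ 3 * D.Cnt j X)} := by
      rw [Set.nonempty_iff_ne_empty]
      intro e
      rw [e, measure_empty, nonpos_iff_eq_zero, ENNReal.ofReal_eq_zero] at hF
      exact absurd hF (not_le.2 (by positivity))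
    have a1 : D.Cnt j X ≤ (D.K : ℝ) ^ 3 * D.P.card :=
      (Cnt_le h j X).trans (by gcongr)
    have a2 : ((D.K : ℝ) ^ 6)⁻¹ ≤ tt D.K j := tt_anti h.K_pos h3
    have a3 : κ ^ 5 ≤ κ := pow_le_of_le_one hκ.le hκ1 (by norm_num)
    have a4 : D.L ^ (3 * D.N) ≤ D.L ^ (12 * D.N) := pow_le_pow_right₀ hL1 (by omega)
    have a5 : (D.K : ℝ) ^ 13 ≤ (D.K : ℝ) ^ 110 := pow_le_pow_right₀ hK1 (by norm_num)
    have a6 : 0 ≤ min 1 (D.δ ^ (3 - v - 2 * D.u)) := le_min zero_le_one (by positivity)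
    refine le_of_mul_le_mul_left (le_trans ?_ (hX.trans a1)) (pow_pos hK 3)
    calc (D.K : ℝ) ^ 3 * (κ ^ 5 / (C * (D.K : ℝ) ^ 110 * D.L ^ (12 * D.N) *
          ((D.K : ℝ) ^ D.N) ^ ε) * (D.δ⁻¹ * D.δ⁻¹ ^ D.u * min 1 (D.δ ^ (3 - v - 2 * D.u))))
        ≤ (D.K : ℝ) ^ 3 * (κ / (1 * (D.K : ℝ) ^ 13 * D.L ^ (3 * D.N) * 1) *
          (D.δ⁻¹ * D.δ⁻¹ ^ D.u * 1)) := by
          gcongr
          exact min_le_left _ _
      _ = κ / ((D.K : ℝ) ^ 4 * D.L ^ (3 * D.N)) * (((D.K : ℝ) ^ 6)⁻¹ / D.δ) * D.δ⁻¹ ^ D.u := by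
          field_simp
      _ ≤ V D κ j := by
          unfold V
          gcongr
  · obtain ⟨M, m1, m2, m3⟩ := exists_M h
    have hMK : D.L * M ≤ (D.K : ℝ) ^ 2 := le_trans (by
      have : 0 ≤ D.L * M := by positivity
      nlinarith) m2
    have hc := h.ker.c_pos
    have hV0 : 0 ≤ V D κ j := by unfold V; positivity
    have key := markov (s := Ioo (2 * 4 ^ k0) M)
      (g := fun l X => D.W0 X ^ 2 * ‖D.Fl j l X‖ ^ 4)
      (fun l => ((cont_W0 h).pow 2).mul ((cont_Fl h j l).norm.pow 4)) (fun _ _ => by positivity)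
      (lam := D.c ^ 6 * (D.c ^ 2 * V D κ j / 8) ^ 4) (by positivity) (by positivity)
      (Ω := {X' : E3 | ∃ X ∈ {X | X ∈ E ∧ V D κ j ≤ D.Cnt j X ∧
        (1 ≤ j → D.Cnt (j - 1) X ≤ (D.K : ℝ) ^ 2 / D.L ^ 3 * D.Cnt j X)},
        ∀ i, |X' i - X i| < tt D.K j})
      (fun X' ⟨X, hX, hX'⟩ => point hH h hδκ (by omega) hj.le m1 m2 m3 hk (hE X hX.1)
        (fun i => (hX' i).le) hX.2.1 (hX.2.2 (by omega)))
      (hV v (tt D.K j) (κ / D.N) D.R _ hv0 ht (by positivity) (fun X hX i => by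
        obtain ⟨x0, x1, x2, -⟩ := hE X hX.1
        fin_cases i
        exacts [x0, x1, x2]) hF)
      (fun l hl => h4 D ε C k0 b j l h hε hk0 hC1 hW hb h3 hj.le (mem_Ioo.1 hl).1.le (by
        have a1 : (l : ℝ) ≤ M := by exact_mod_cast (mem_Ioo.1 hl).2.le
        rw [Dat.Ok.om_eq, show 2 * j = 2 + 2 * (j - 1) by omega, pow_add, ← mul_assoc]
        refine mul_le_mul_of_nonneg_right (le_trans ?_ hMK) (by positivity)
        rw [mul_comm]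
        gcongr))
    have hcard : ((Ioo (2 * 4 ^ k0) M).card : ℝ) ≤ (D.K : ℝ) ^ 2 := by
      have a1 : ((Ioo (2 * 4 ^ k0) M).card : ℝ) ≤ M := by
        rw [Nat.card_Ioo]
        exact_mod_cast (by omega : M - 2 * 4 ^ k0 - 1 ≤ M)
      exact a1.trans ((le_mul_of_one_le_left (by positivity) hL1).trans hMK)
    have e1 : (tt D.K j / D.δ ^ 2) ^ D.u = tt D.K j ^ D.u * (D.δ⁻¹ ^ D.u) ^ 2 := by
      rw [div_eq_mul_inv, Real.mul_rpow ht.le (by positivity), ← inv_pow, sq,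
        Real.mul_rpow (by positivity) (by positivity), sq]
    have e2 : (tt D.K j / D.δ) ^ D.u = tt D.K j ^ D.u * D.δ⁻¹ ^ D.u := by
      rw [div_eq_mul_inv, Real.mul_rpow ht.le (by positivity)]
    rw [e1, e2] at key
    have := alg hc hκ hK (by positivity : 0 < D.L ^ (3 * D.N)) (by linarith : 0 < C)
      (by linarith : 0 < ((D.K : ℝ) ^ D.N) ^ ε) ht hδ (by positivity : 0 < D.δ⁻¹ ^ D.u)
      (by positivity : 0 < tt D.K j ^ D.u) (by positivity : 0 < (2 * tt D.K j) ^ v) hN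
      (key.trans (mul_le_mul_of_nonneg_right hcard (by positivity)))
      (min_le hδ (tt_anti h.K_pos hj.le) (tt_le_one h.K_pos j) hv3) (big h)
    rwa [← pow_mul, show 3 * D.N * 4 = 12 * D.N by ring] at this

end Pool.Agent.MP_538dc4_an
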