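import Pool.Agent.MP_538dc4_an.Basic

/-! PROJECT FURST: the choice of the parameters in the discrete estimate. -/

open MeasureTheory Finset Filter
open scoped ENNReal

namespace Pool.Agent.MP_538dc4_an

namespace Disc2

/-- points close to a curve have a bounded first coordinate -/
theorem coord_le {e R φ δ : ℝ} {X : E3} {z : E2} (he : 0 ≤ e) (he1 : e ≤ 1) (hR : 1 ≤ R)
    (hX : GoodX e R X) (hφ : φ ∈ Set.Ico (0 : ℝ) 1) (hδ : δ ≤ 1) (hz : dist z (zpt e X φ) ≤ δ) :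
    |z 0| ≤ 4 * R := by
  have h1 := abs_coord_le_dist z (zpt e X φ) 0
  have h2 := cc_bounds he he1 hR hX hφ.1 hφ.2.le
  have h3 : zpt e X φ 0 = X 0 - cc e X φ * φ ^ 2 := rfl
  have h4 : 0 ≤ φ ^ 2 := sq_nonneg _
  have h5 : φ ^ 2 ≤ 1 := by nlinarith [hφ.1, hφ.2]
  have h6 : 0 ≤ cc e X φ := le_trans (by positivity) h2.1
  have h7 : cc e X φ * φ ^ 2 ≤ 2 * R := by nlinarith [h2.2]
  have h8 : 0 ≤ cc e X φ * φ ^ 2 := mul_nonneg h6 h4
  have h9 := abs_le.1 hX.1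
  have h10 := abs_le.1 (h1.trans (hz.trans hδ))
  rw [h3] at h10
  rw [abs_le]
  constructor <;> linarith [h10.1, h10.2, h9.1, h9.2]

theorem main_term {x u v : ℝ} (hx : 1 ≤ x) :
    x ^ min (3 * u + v - 2) (u + 1) ≤ x * x ^ u * min 1 (x⁻¹ ^ (3 - v - 2 * u)) := by
  have h0 : 0 < x := by linarith
  have e1 : x * x ^ u = x ^ (u + 1) := by rw [Real.rpow_add h0, Real.rpow_one, mul_comm]
  rw [e1, mul_min_of_nonneg _ _ (by positivity), mul_one, Real.inv_rpow h0.le, ← Real.rpow_neg h0.le,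
    ← Real.rpow_add h0]
  refine le_min (Real.rpow_le_rpow_of_exponent_le hx (min_le_right _ _))
    (Real.rpow_le_rpow_of_exponent_le hx ((min_le_left _ _).trans (le_of_eq (by ring))))

/-- the final rearrangement -/
theorem final {x τ a s A B₁ B₂ B₃ B₄ : ℝ} (hx : 1 ≤ x) (ha : 25 * a ≤ τ) (hA : x ^ s ≤ A)
    (p1 : 0 < B₁) (p2 : 0 < B₂) (p3 : 0 < B₃) (p4 : 0 < B₄) (h1 : B₁ ≤ x ^ (τ / 5))
    (h2 : B₂ ≤ x ^ (τ / 5)) (h3 : B₃ ≤ x ^ (τ / 5)) (h4 : B₄ ≤ x ^ (τ / 5)) :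
    x ^ (s - τ) ≤ (x⁻¹ ^ a) ^ 5 / (B₁ * B₂ * B₃ * B₄) * A := by
  have h0 : 0 < x := by linarith
  have e1 : x ^ (-(τ / 5)) ≤ (x⁻¹ ^ a) ^ 5 := by
    rw [Real.inv_rpow h0.le, ← Real.rpow_neg h0.le, ← Real.rpow_natCast, ← Real.rpow_mul h0.le]
    exact Real.rpow_le_rpow_of_exponent_le hx (by push_cast; linarith)
  have e2 : x ^ (s - τ) = x ^ (-(τ / 5)) /
      (x ^ (τ / 5) * x ^ (τ / 5) * x ^ (τ / 5) * x ^ (τ / 5)) * x ^ s := by
    rw [← Real.rpow_add h0, ← Real.rpow_add h0, ← Real.rpow_add h0, ← Real.rpow_sub h0,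
      ← Real.rpow_add h0]
    congr 1
    ring
  rw [e2]
  gcongr

theorem ev_two_pow (c : ℝ) : ∀ᶠ n : ℕ in atTop, c ≤ (2 : ℝ) ^ n :=
  (tendsto_pow_atTop_atTop_of_one_lt one_lt_two).eventually_ge_atTop c

end Disc2

open Disc2 in
theorem disc (hK : KerStmt) (hW : WStmt) (hP : PruneStmt) (h1 : Disc1Stmt) : DiscStmt := by
  classical
  intro e u v R τ he he1 hu hu1 hv hv3 hR hτ
  obtain ⟨k, m, c, hker, htail⟩ := hK
  obtain ⟨k0, C, hk0, hC, hWc⟩ := hW (τ / 5) (by positivity)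
  obtain ⟨N, hN⟩ := exists_nat_ge (max 1 (275 / τ))
  obtain ⟨μ, hμ⟩ := exists_nat_ge (max 3 (30 / τ))
  have hN1 : 1 ≤ N := by exact_mod_cast (le_max_left _ _).trans hN
  have hμ3 : 3 ≤ μ := by exact_mod_cast (le_max_left _ _).trans hμ
  have hNτ : 275 ≤ N * τ := (div_le_iff₀ hτ).1 ((le_max_right _ _).trans hN)
  have hμτ : 30 ≤ μ * τ := (div_le_iff₀ hτ).1 ((le_max_right _ _).trans hμ)
  obtain ⟨Cq, hCq, hT⟩ := htail (μ * (20 * N) + 1)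
  have hc0 := hker.c_pos
  obtain ⟨n0, hn0⟩ := eventually_atTop.1 ((ev_two_pow (1000 ^ N * R ^ 2 / c ^ 2)).and
    ((ev_two_pow Cq).and ((ev_two_pow ((4 * 4 ^ k0 + 1) * 10 ^ 6 * R ^ 3 / c ^ 3)).and
      (ev_two_pow (C ^ (5 / τ))))))
  have hg1 : 1 ≤ μ * (2 * N) := Nat.mul_pos (by omega) (by omega)
  refine ⟨μ * (2 * N), min 1 (τ / 25), n0, hg1, lt_min one_pos (by positivity), ?_⟩
  intro n hn δ hδ E P hE hEc hEX
  obtain ⟨c1, c2, c3, c4⟩ := hn0 n hn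
  set L : ℝ := 2 ^ n with hL
  have hL1 : 1 ≤ L := one_le_pow₀ one_le_two
  have hL0 : 0 < L := by linarith
  have hKL : ((2 ^ (μ * n) : ℕ) : ℝ) = L ^ μ := by
    rw [hL, ← pow_mul, mul_comm n μ]; push_cast; rfl
  have hx : δ⁻¹ = L ^ (μ * (2 * N)) := by
    rw [hδ, inv_inv, hL, ← pow_mul, mul_comm n]
  have hδt : tt (2 ^ (μ * n)) N = δ := by
    rw [tt, hKL, ← pow_mul, ← hx, inv_inv]
  have hx1 : 1 ≤ δ⁻¹ := hx ▸ one_le_pow₀ hL1
  have hδ0 : 0 < δ := by rw [hδ]; positivity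
  have hδ1 : δ ≤ 1 := (one_le_inv₀ hδ0).1 hx1
  set P' := P.filter fun z => |z 0| ≤ 4 * R with hP'
  have hcard : (P'.card : ℝ) ≤ P.card := by exact_mod_cast card_filter_le _ _
  refine le_trans ?_ hcard
  by_cases hbig : (P'.card : ℝ) ≤ δ⁻¹ * δ⁻¹ ^ u
  swap
  · refine le_trans ?_ (not_le.1 hbig).le
    calc δ⁻¹ ^ (min (3 * u + v - 2) (u + 1) - τ) ≤ δ⁻¹ ^ (1 + u) :=
          Real.rpow_le_rpow_of_exponent_le hx1 (by linarith [min_le_right (3 * u + v - 2) (u + 1)])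
      _ = _ := by rw [Real.rpow_add (by positivity), Real.rpow_one]
  have hη : 0 ≤ Cq / L ^ (μ * (20 * N) + 1) := by positivity
  obtain ⟨χ, hχ⟩ := hP k m c e L (Cq / L ^ (μ * (20 * N) + 1)) u (2 ^ (μ * n)) N P' hker he
    Nat.one_le_two_pow hL1 hη (hT L hL1)
  let D : Dat := ⟨e, R, u, L, Cq / L ^ (μ * (20 * N) + 1), c, 2 ^ (μ * n), N, k, m, P', χ⟩
  have hDδ : D.δ = δ := hδt
  have hOk : D.Ok := by
    refine ⟨hker, he, he1, hR, hu, hu1, hL1, hN1, hη, hT L hL1, ?_, ?_, ?_, ?_, hχ⟩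
    · show 1000 ^ N * R ^ 2 * L ^ 2 ≤ c ^ 2 * ((2 ^ (μ * n) : ℕ) : ℝ)
      rw [hKL]
      rw [div_le_iff₀ (by positivity)] at c1
      calc 1000 ^ N * R ^ 2 * L ^ 2 ≤ L * c ^ 2 * L ^ 2 := by gcongr
        _ = c ^ 2 * L ^ 3 := by ring
        _ ≤ _ := by gcongr
    · show Cq / L ^ (μ * (20 * N) + 1) * ((2 ^ (μ * n) : ℕ) : ℝ) ^ (20 * N) ≤ 1
      rw [hKL, ← pow_mul L μ (20 * N), pow_succ, div_mul_eq_mul_div, div_le_one (by positivity), mul_comm]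
      gcongr
    · rw [hDδ]; exact hbig
    · exact fun z hz => (mem_filter.1 hz).2
  have ha0 : 0 < min 1 (τ / 25) := lt_min one_pos (by positivity)
  have key := h1 D (τ / 5) C v (δ ^ min 1 (τ / 25)) k0 (μ * n) E hOk (by positivity) hk0 hC hWc rfl
    hv hv3
    (by
      rw [hDδ]
      simpa using Real.rpow_le_rpow_of_exponent_ge hδ0 hδ1 (min_le_left 1 (τ / 25)))
    (Real.rpow_le_one hδ0.le hδ1 ha0.le)
    (by
      show (4 * 4 ^ k0 + 1) * 10 ^ 6 * R ^ 3 ≤ c ^ 3 * L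
      rwa [div_le_iff₀ (by positivity), mul_comm L] at c3)
    hE hEc
    (fun X hX => (hEX X hX).trans (measure_mono fun φ hφ => by
      obtain ⟨k1, z, hz, k2⟩ := hφ
      exact ⟨k1, z, mem_filter.2 ⟨hz, coord_le he he1 hR (hE X hX) k1 hδ1 k2⟩, hDδ ▸ k2⟩))
  refine le_trans ?_ key
  rw [hDδ]
  show _ ≤ (δ ^ min 1 (τ / 25)) ^ 5 / (C * ((2 ^ (μ * n) : ℕ) : ℝ) ^ 110 * L ^ (12 * N) *
    (((2 ^ (μ * n) : ℕ) : ℝ) ^ N) ^ (τ / 5)) * (δ⁻¹ * δ⁻¹ ^ u * min 1 (δ ^ (3 - v - 2 * u)))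
  have hpw : ∀ j : ℕ, (j : ℝ) ≤ ((μ * (2 * N) : ℕ) : ℝ) * (τ / 5) → L ^ j ≤ δ⁻¹ ^ (τ / 5) := by
    intro j hj
    rw [hx, ← Real.rpow_natCast L (μ * (2 * N)), ← Real.rpow_mul hL0.le, ← Real.rpow_natCast]
    exact Real.rpow_le_rpow_of_exponent_le hL1 hj
  have hμ0 : (0 : ℝ) ≤ μ := Nat.cast_nonneg _
  have hN0 : (0 : ℝ) ≤ N := Nat.cast_nonneg _
  have := final (x := δ⁻¹) (τ := τ) (a := min 1 (τ / 25)) (B₁ := C)
    (B₂ := ((2 ^ (μ * n) : ℕ) : ℝ) ^ 110) (B₃ := L ^ (12 * N))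
    (B₄ := (((2 ^ (μ * n) : ℕ) : ℝ) ^ N) ^ (τ / 5)) hx1
    (by linarith [min_le_right 1 (τ / 25)]) (main_term (u := u) (v := v) hx1) (by linarith)
    (by positivity) (by positivity) (by positivity)
    (by
      calc C = (C ^ (5 / τ)) ^ (τ / 5) := by
            rw [← Real.rpow_mul (by linarith), show 5 / τ * (τ / 5) = 1 by field_simp, Real.rpow_one]
        _ ≤ δ⁻¹ ^ (τ / 5) := by
            refine Real.rpow_le_rpow (by positivity) (c4.trans ?_) (by positivity)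
            rw [hx]
            exact le_self_pow₀ hL1 (by omega))
    (by
      rw [hKL, ← pow_mul L μ 110]
      apply hpw
      push_cast
      nlinarith)
    (by
      apply hpw
      push_cast
      nlinarith)
    (by
      refine Real.rpow_le_rpow (by positivity) ?_ (by positivity)
      rw [hKL, ← pow_mul L μ N, hx]
      exact pow_le_pow_right₀ hL1 (Nat.mul_le_mul_left _ (by omega)))
  rwa [inv_inv] at this

end Pool.Agent.MP_538dc4_an
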