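import Pool.Agent.MP_538dc4_an.Shear

/-! PROJECT FURST: the high-low inequality. -/

open MeasureTheory Finset
open scoped ENNReal FourierTransform ComplexConjugate RealInnerProductSpace

namespace Pool.Agent.MP_538dc4_an

namespace High

/-- The Fejer sum. -/
noncomputable def fej (M : ℕ) (θ : ℝ) : ℝ :=
  ∑ q ∈ range M, ∑ q' ∈ range M, Real.cos (2 * Real.pi * (((q : ℝ) - q') * θ))

theorem fej_nonneg (M : ℕ) (θ : ℝ) : 0 ≤ fej M θ := by
  have : fej M θ = (∑ q ∈ range M, Real.cos (2 * Real.pi * (q * θ))) ^ 2 +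
      (∑ q ∈ range M, Real.sin (2 * Real.pi * (q * θ))) ^ 2 := by
    rw [sq, sq, sum_mul_sum, sum_mul_sum, ← sum_add_distrib]
    refine sum_congr rfl fun q _ => ?_
    rw [← sum_add_distrib]
    refine sum_congr rfl fun q' _ => ?_
    rw [← Real.cos_sub]; congr 1; ring
  rw [this]; positivity

theorem cos_ge_half {x : ℝ} (hx : |x| ≤ 1 / 7) : 1 / 2 ≤ Real.cos (2 * Real.pi * x) := by
  have hpi := Real.pi_pos
  rw [← Real.cos_abs, ← Real.cos_pi_div_three]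
  refine Real.cos_le_cos_of_nonneg_of_le_pi (abs_nonneg _) (by linarith) ?_
  rw [abs_mul, abs_of_pos (by positivity : 0 < 2 * Real.pi)]
  nlinarith

theorem fej_ge {M : ℕ} {θ : ℝ} (h : |θ| * M ≤ 1 / 7) : (M : ℝ) ^ 2 / 2 ≤ fej M θ := by
  have : (M : ℝ) ^ 2 / 2 = ∑ _q ∈ range M, ∑ _q' ∈ range M, (1 / 2 : ℝ) := by
    simp; ring
  rw [this]
  refine sum_le_sum fun q hq => sum_le_sum fun q' hq' => cos_ge_half ?_
  have h1 : (q : ℝ) ≤ M := by exact_mod_cast (mem_range.1 hq).le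
  have h2 : (q' : ℝ) ≤ M := by exact_mod_cast (mem_range.1 hq').le
  have h3 : |(q : ℝ) - q'| ≤ M := by
    rw [abs_le]; constructor <;> linarith [Nat.cast_nonneg (α := ℝ) q, Nat.cast_nonneg (α := ℝ) q']
  rw [abs_mul]
  nlinarith [abs_nonneg θ]

theorem card_close (M l0 q : ℕ) :
    ((range M).filter fun q' => q ≤ q' + l0 ∧ q' ≤ q + l0).card ≤ 2 * l0 + 1 := by
  have : ((range M).filter fun q' => q ≤ q' + l0 ∧ q' ≤ q + l0) ⊆ Icc (q - l0) (q + l0) := by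
    intro q' hq'
    have := (mem_filter.1 hq').2
    rw [mem_Icc]; omega
  refine (card_le_card this).trans ?_
  rw [Nat.card_Icc]; omega

/-- The abstract high-low inequality. -/
theorem fejer {ι : Type*} (s G : Finset ι) (W θ : ι → ℝ) (M l0 : ℕ) (S : ℝ) (hG : G ⊆ s)
    (hW : ∀ i ∈ s, 0 ≤ W i) (hθ : ∀ i ∈ G, |θ i| * M ≤ 1 / 7) (hS : 0 ≤ S)
    (hF : ∀ l : ℕ, l0 < l → l < M → ∑ i ∈ s, W i * Real.cos (2 * Real.pi * (l * θ i)) ≤ S) :
    (M : ℝ) ^ 2 / 2 * ∑ i ∈ G, W i ≤ (M : ℝ) ^ 2 * S + M * (2 * l0 + 1) * ∑ i ∈ s, W i := by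
  set U := ∑ i ∈ s, W i with hU
  have hU0 : 0 ≤ U := sum_nonneg hW
  have low : (M : ℝ) ^ 2 / 2 * ∑ i ∈ G, W i ≤ ∑ i ∈ s, W i * fej M (θ i) := by
    rw [mul_sum]
    calc _ ≤ ∑ i ∈ G, W i * fej M (θ i) := sum_le_sum fun i hi => by
          rw [mul_comm]; exact mul_le_mul_of_nonneg_left (fej_ge (hθ i hi)) (hW i (hG hi))
      _ ≤ _ := sum_le_sum_of_subset_of_nonneg hG fun i hi _ =>
          mul_nonneg (hW i hi) (fej_nonneg _ _)
  have sw : ∑ i ∈ s, W i * fej M (θ i) = ∑ q ∈ range M, ∑ q' ∈ range M,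
      ∑ i ∈ s, W i * Real.cos (2 * Real.pi * (((q : ℝ) - q') * θ i)) := by
    simp only [fej, mul_sum]
    rw [sum_comm]
    exact sum_congr rfl fun q _ => sum_comm
  have pair : ∀ q ∈ range M, ∀ q' ∈ range M,
      ∑ i ∈ s, W i * Real.cos (2 * Real.pi * (((q : ℝ) - q') * θ i)) ≤
        S + if q ≤ q' + l0 ∧ q' ≤ q + l0 then U else 0 := by
    intro q hq q' hq'
    have hq := mem_range.1 hq
    have hq' := mem_range.1 hq'
    split_ifs with hc
    · have : ∑ i ∈ s, W i * Real.cos (2 * Real.pi * (((q : ℝ) - q') * θ i)) ≤ U :=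
        sum_le_sum fun i hi => mul_le_of_le_one_right (hW i hi) (Real.cos_le_one _)
      linarith
    · rw [add_zero]
      rcases le_total q' q with h | h
      · have := hF (q - q') (by omega) (by omega)
        rwa [Nat.cast_sub h] at this
      · have := hF (q' - q) (by omega) (by omega)
        rw [Nat.cast_sub h] at this
        refine le_trans (le_of_eq (sum_congr rfl fun i _ => ?_)) this
        rw [← Real.cos_neg]; congr 2; ring
  refine low.trans (sw.le.trans ?_)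
  calc _ ≤ ∑ q ∈ range M, ∑ q' ∈ range M, (S + if q ≤ q' + l0 ∧ q' ≤ q + l0 then U else 0) :=
        sum_le_sum fun q hq => sum_le_sum fun q' hq' => pair q hq q' hq'
    _ ≤ ∑ _q ∈ range M, ((M : ℝ) * S + (2 * l0 + 1) * U) := by
        refine sum_le_sum fun q _ => ?_
        rw [sum_add_distrib, ← sum_filter, sum_const, sum_const, card_range, nsmul_eq_mul,
          nsmul_eq_mul]
        have : (((range M).filter fun q' => q ≤ q' + l0 ∧ q' ≤ q + l0).card : ℝ) ≤ 2 * l0 + 1 := by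
          exact_mod_cast card_close M l0 q
        nlinarith
    _ = _ := by rw [sum_const, card_range, nsmul_eq_mul]; ring

/-- A finite set of naturals of diameter at most B has at most B + 1 points. -/
theorem card_le_of_diam (s : Finset ℕ) {B : ℝ} (hB : 0 ≤ B)
    (h : ∀ p ∈ s, ∀ p' ∈ s, (p : ℝ) - p' ≤ B) : (s.card : ℝ) ≤ B + 1 := by
  rcases s.eq_empty_or_nonempty with rfl | hs
  · simp; linarith
  have hsub : s ⊆ Icc (s.min' hs) (s.min' hs + ⌊B⌋₊) := by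
    intro p hp
    have h1 := s.min'_le p hp
    have h2 := h p hp _ (s.min'_mem hs)
    rw [← Nat.cast_sub h1] at h2
    have h3 := Nat.le_floor h2
    rw [mem_Icc]; omega
  have h4 := card_le_card hsub
  rw [Nat.card_Icc] at h4
  have h5 : s.card ≤ ⌊B⌋₊ + 1 := by omega
  have h6 : (s.card : ℝ) ≤ ⌊B⌋₊ + 1 := by exact_mod_cast h5
  linarith [Nat.floor_le hB]

theorem L0_close {a t : ℝ} {X X' : E3} (h0 : 0 ≤ a) (h1 : a ≤ 1) (h : ∀ i, |X' i - X i| ≤ t) :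
    |L0 a X' - L0 a X| ≤ 3 * t := by
  have e0 := abs_le.1 (h 0); have e1 := abs_le.1 (h 1); have e2 := abs_le.1 (h 2)
  have ht : 0 ≤ t := (abs_nonneg _).trans (h 0)
  have a2 : a ^ 2 ≤ 1 := pow_le_one₀ h0 h1
  have a3 : 0 ≤ a ^ 2 := sq_nonneg a
  have : L0 a X' - L0 a X = (X' 0 - X 0) + a * (X' 1 - X 1) + a ^ 2 * (X' 2 - X 2) := by
    unfold L0; ring
  rw [this, abs_le]
  constructor <;> nlinarith

theorem L1_close {a t : ℝ} {X X' : E3} (h0 : 0 ≤ a) (h1 : a ≤ 1) (h : ∀ i, |X' i - X i| ≤ t) :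
    |L1 a X' - L1 a X| ≤ 3 * t := by
  have e1 := abs_le.1 (h 1); have e2 := abs_le.1 (h 2)
  have ht : 0 ≤ t := (abs_nonneg _).trans (h 0)
  have : L1 a X' - L1 a X = (X' 1 - X 1) + 2 * a * (X' 2 - X 2) := by
    unfold L1; ring
  rw [this, abs_le]
  constructor <;> nlinarith

/-- Curvature bounds at an approximate incidence. -/
theorem curv {e R a ρ : ℝ} {X : E3} {z : E2} (he : 0 ≤ e) (he1 : e ≤ 1) (hR : 1 ≤ R)
    (hX : GoodX e R X) (h0 : 0 ≤ a) (h1 : a ≤ 1) (hρ0 : 0 ≤ ρ) (hρ : 6 * R * ρ ≤ 1)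
    (hy0 : |L0 a X - N0 e a z| ≤ 2 * ρ ^ 2) (hy1 : |L1 a X - N1 e a z| ≤ ρ) :
    1 / (4 * R) ≤ X 2 + e * z 0 ∧ X 2 + e * z 0 ≤ 2 * R + 1 := by
  obtain ⟨hx0, -, hx2, hI⟩ := hX
  have key := inc2_eq e a X z
  generalize L0 a X - N0 e a z = y0 at key hy0
  generalize L1 a X - N1 e a z = y1 at key hy1
  generalize X 2 + e * z 0 = D2 at key ⊢
  have hρ1 : ρ ≤ 1 / 6 := by nlinarith
  have hR0 : 0 < R := by linarith
  have hup : X 2 + e * X 0 ≤ 2 * R := by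
    have := abs_le.1 hx0; have := abs_le.1 hx2; nlinarith
  have hd : |e * (y0 - a * y1)| ≤ 3 * ρ := by
    rw [abs_mul, abs_of_nonneg he]
    have h2 : |y0 - a * y1| ≤ 3 * ρ := by
      refine (abs_sub _ _).trans ?_
      rw [abs_mul, abs_of_nonneg h0]
      nlinarith [abs_nonneg y1]
    nlinarith [abs_nonneg (y0 - a * y1)]
  have hd' := abs_le.1 hd
  have h3 : 3 * ρ ≤ 1 / (2 * R) := by
    rw [le_div_iff₀ (by positivity)]; nlinarith
  have h4 : 1 / R = 2 * (1 / (2 * R)) := by field_simp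
  have h5 : 1 / (4 * R) = 1 / (2 * R) / 2 := by field_simp; ring
  have h6 : 0 < 1 / (2 * R) := by positivity
  have ea : e * a ^ 2 ≤ 1 := by nlinarith [pow_le_one₀ h0 h1 (n := 2), sq_nonneg a]
  have ea0 : 0 ≤ e * a ^ 2 := by positivity
  have hlow : 1 / (2 * R) ≤ (1 + e * a ^ 2) * D2 := by linarith
  have hpos : 0 < D2 := by
    by_contra hn
    nlinarith [not_lt.1 hn]
  constructor
  · rw [h5]; nlinarith
  · nlinarith

variable {D : Dat}

/-- The approximate incidence produced by a non negligible wave packet. -/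
def Near (D : Dat) (j p : ℕ) (X : E3) (z : E2) : Prop :=
  |L0 (bs D.K j p) X - N0 D.e (bs D.K j p) z| ≤ 2 * (((D.K : ℝ) ^ (j - 1))⁻¹) ^ 2 ∧
    |L1 (bs D.K j p) X - N1 D.e (bs D.K j p) z| ≤ 14 * D.R * D.L / D.c * ((D.K : ℝ) ^ j)⁻¹

theorem inv_pred (h : D.Ok) {j : ℕ} (hj : 1 ≤ j) :
    ((D.K : ℝ) ^ (j - 1))⁻¹ = D.K * ((D.K : ℝ) ^ j)⁻¹ := by
  obtain ⟨i, rfl⟩ : ∃ i, j = i + 1 := ⟨j - 1, by omega⟩
  have := h.K_ge_1000
  rw [Nat.add_sub_cancel, pow_succ]; field_simp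

theorem inv_le_one' (h : D.Ok) (j : ℕ) : ((D.K : ℝ) ^ j)⁻¹ ≤ 1 :=
  inv_le_one_of_one_le₀ (one_le_pow₀ (by have := h.K_ge_1000; linarith))

theorem inv_pos' (h : D.Ok) (j : ℕ) : 0 < ((D.K : ℝ) ^ j)⁻¹ := by
  have := h.K_ge_1000; positivity

theorem RLc_ge (h : D.Ok) : 1 ≤ D.R * D.L / D.c := by
  rw [le_div_iff₀ h.ker.c_pos]
  have := h.ker.c_le
  have := one_le_mul_of_one_le_of_one_le h.R_ge h.L_ge
  linarith

theorem RLc_le (h : D.Ok) : 14 * D.R * D.L / D.c ≤ D.K := by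
  rw [div_le_iff₀ h.ker.c_pos]
  have := h.RL_le
  have := one_le_mul_of_one_le_of_one_le h.R_ge h.L_ge
  nlinarith

theorem yb_le (h : D.Ok) {j : ℕ} (hj : 1 ≤ j) :
    14 * D.R * D.L / D.c * ((D.K : ℝ) ^ j)⁻¹ ≤ ((D.K : ℝ) ^ (j - 1))⁻¹ := by
  rw [inv_pred h hj]
  exact mul_le_mul_of_nonneg_right (RLc_le h) (inv_pos' h j).le

theorem rho_small (h : D.Ok) {j : ℕ} (hj : 2 ≤ j) : 6 * D.R * ((D.K : ℝ) ^ (j - 1))⁻¹ ≤ 1 := by
  have hK := h.K_ge_1000
  have h1 : (D.K : ℝ) ≤ (D.K : ℝ) ^ (j - 1) := le_self_pow₀ (by linarith) (by omega)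
  have h2 := h.RL_le
  have h3 := h.c_sq_le.2
  have h4 := h.L_ge
  have h5 := h.R_ge
  rw [← div_eq_mul_inv, div_le_one (by linarith)]
  nlinarith

theorem near_curv (h : D.Ok) {j p : ℕ} {X : E3} {z : E2} (hj : 2 ≤ j) (hX : GoodX D.e D.R X)
    (hp : p < D.K ^ j) (hn : Near D j p X z) :
    1 / (4 * D.R) ≤ X 2 + D.e * z 0 ∧ X 2 + D.e * z 0 ≤ 2 * D.R + 1 :=
  curv h.e_nonneg h.e_le h.R_ge hX (bs_nonneg _ _ _) (bs_lt_one hp).le (inv_pos' h _).le
    (rho_small h hj) hn.1 (hn.2.trans (yb_le h (by omega)))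

theorem near_inc (h : D.Ok) {j p : ℕ} {X : E3} {z : E2} (hj : 2 ≤ j) (hX : GoodX D.e D.R X)
    (hp : p < D.K ^ j) (hn : Near D j p X z) :
    D.Inc (j - 1) (p / D.K ^ (j - (j - 1))) X z := by
  obtain ⟨c1, c2⟩ := near_curv h hj hX hp hn
  obtain ⟨b1, b2⟩ := bs_sub_div h.K_pos (Nat.sub_le j 1) p
  have hy0 := hn.1
  have hy1 := hn.2.trans (yb_le h (by omega))
  have hR := h.R_ge
  have hc0 : 0 ≤ X 2 + D.e * z 0 := le_trans (by positivity) c1
  have hρ := inv_pos' h (j - 1)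
  unfold Dat.Inc
  rw [inc0_shift D.e _ (bs D.K j p), inc1_shift D.e (bs D.K (j - 1) _) (bs D.K j p), tt_eq_sq]
  generalize L0 (bs D.K j p) X - N0 D.e (bs D.K j p) z = y0 at *
  generalize L1 (bs D.K j p) X - N1 D.e (bs D.K j p) z = y1 at *
  generalize X 2 + D.e * z 0 = D2 at *
  generalize ((D.K : ℝ) ^ (j - 1))⁻¹ = ρ at *
  generalize bs D.K (j - 1) (p / D.K ^ (j - (j - 1))) = b at *
  generalize bs D.K j p = a at *
  have hd : |b - a| ≤ ρ := by rw [abs_le]; constructor <;> linarith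
  have t1 : |(b - a) * y1| ≤ ρ ^ 2 := by
    rw [abs_mul, sq]; exact mul_le_mul hd hy1 (abs_nonneg _) hρ.le
  have t2 : |(b - a) ^ 2 * D2| ≤ ρ ^ 2 * (2 * D.R + 1) := by
    rw [abs_mul, abs_pow, abs_of_nonneg hc0]
    exact mul_le_mul (pow_le_pow_left₀ (abs_nonneg _) hd 2) c2 hc0 (by positivity)
  have t3 : |2 * (b - a) * D2| ≤ 2 * ρ * (2 * D.R + 1) := by
    rw [abs_mul, abs_mul, abs_of_nonneg hc0, abs_two]
    exact mul_le_mul (by linarith) c2 hc0 (by positivity)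
  constructor
  · refine (abs_add_three _ _ _).trans ?_
    nlinarith [sq_nonneg ρ]
  · refine (abs_add_le _ _).trans ?_
    nlinarith

open Classical in
theorem near_card (h : D.Ok) {j : ℕ} {X : E3} (z : E2) (hj : 2 ≤ j) (hX : GoodX D.e D.R X) :
    (((range (D.K ^ j)).filter fun p => Near D j p X z).card : ℝ) ≤ 57 * D.R ^ 2 * D.L / D.c := by
  have hR := h.R_ge
  have hq := RLc_ge h
  have hq' : 1 ≤ D.R * (D.R * D.L / D.c) := one_le_mul_of_one_le_of_one_le hR hq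
  have e1 : 57 * D.R ^ 2 * D.L / D.c = 57 * (D.R * (D.R * D.L / D.c)) := by ring
  rw [e1]
  refine (card_le_of_diam _ (B := 56 * (D.R * (D.R * D.L / D.c))) (by linarith) ?_).trans
    (by linarith)
  intro p hp p' hp'
  obtain ⟨hp, hn⟩ := mem_filter.1 hp
  obtain ⟨-, hn'⟩ := mem_filter.1 hp'
  obtain ⟨c1, -⟩ := near_curv h hj hX (mem_range.1 hp) hn
  have key := inc1_shift D.e (bs D.K j p) (bs D.K j p') X z
  have y1 := abs_le.1 hn.2
  have y2 := abs_le.1 hn'.2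
  have hr := inv_pos' h j
  have e2 : bs D.K j p - bs D.K j p' = ((p : ℝ) - p') * ((D.K : ℝ) ^ j)⁻¹ := by
    unfold bs; ring
  have e3 : 14 * D.R * D.L / D.c = 14 * (D.R * D.L / D.c) := by ring
  rw [e2] at key
  rw [e3] at y1 y2
  generalize D.R * D.L / D.c = Q at *
  generalize X 2 + D.e * z 0 = D2 at *
  generalize (p : ℝ) - p' = d at *
  generalize ((D.K : ℝ) ^ j)⁻¹ = r at *
  have h1 : d * D2 * r ≤ 14 * Q * r := by nlinarith
  have h2 : d * D2 ≤ 14 * Q := le_of_mul_le_mul_right h1 hr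
  have h3 : 1 ≤ D2 * (4 * D.R) := (div_le_iff₀ (by positivity)).1 c1
  by_contra hn
  have h4 : 0 < d := by nlinarith [not_le.1 hn]
  nlinarith [not_le.1 hn]

/-- The amplitude of a wave packet. -/
noncomputable def amp (D : Dat) (j : ℕ) (X : E3) (i : ℕ × E2) : ℝ :=
  D.wt j i.1 i.2 * (D.k (D.om j * (L0 (bs D.K j i.1) X - N0 D.e (bs D.K j i.1) i.2)) *
    D.k (D.be j * (L1 (bs D.K j i.1) X - N1 D.e (bs D.K j i.1) i.2)))

/-- The phase of a wave packet. -/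
noncomputable def pha (D : Dat) (j : ℕ) (X : E3) (i : ℕ × E2) : ℝ :=
  D.om j * (L0 (bs D.K j i.1) X - N0 D.e (bs D.K j i.1) i.2)

theorem amp_nonneg (h : D.Ok) (j : ℕ) (X : E3) (i : ℕ × E2) : 0 ≤ amp D j X i :=
  mul_nonneg (h.wt_nonneg _ _ _) (mul_nonneg (h.ker.k_nonneg _) (h.ker.k_nonneg _))

theorem re_Fl (D : Dat) (j l : ℕ) (X : E3) : (D.Fl j l X).re =
    ∑ i ∈ range (D.K ^ j) ×ˢ D.P, amp D j X i * Real.cos (2 * Real.pi * (l * pha D j X i)) := by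
  rw [sum_product]
  simp only [Dat.Fl, Dat.gp, Dat.Gp, Dat.pk, v2_0, v2_1, Complex.re_sum]
  refine sum_congr rfl fun p _ => sum_congr rfl fun z _ => ?_
  have : ∀ (w a b : ℝ) (ζ : ℂ), ((w : ℂ) * ((a : ℂ) * ζ * (b : ℂ))).re = w * (a * b) * ζ.re := by
    intro w a b ζ; simp; ring
  rw [this, re_ee]
  simp only [amp, pha, mul_assoc]

theorem om_mul (h : D.Ok) {j : ℕ} (hj : 1 ≤ j) :
    D.om j * (((D.K : ℝ) ^ (j - 1))⁻¹) ^ 2 = D.L := by
  have := tt_pos h.K_pos (j - 1)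
  unfold Dat.om; rw [← tt_eq_sq]; field_simp

theorem be_mul (h : D.Ok) (j : ℕ) : D.be j * ((4 * D.R + 7) * ((D.K : ℝ) ^ j)⁻¹) = D.c := by
  have := h.K_ge_1000
  have := h.R_ge
  unfold Dat.be; field_simp

theorem low_bound (h : D.Ok) {j p M : ℕ} {X X' : E3} {z : E2} (hj : 2 ≤ j)
    (hX' : ∀ i, |X' i - X i| ≤ tt D.K j) (hM : 7 * (4 * D.R + 7) * D.L * M ≤ (D.K : ℝ) ^ 2)
    (hp : p < D.K ^ j) (hi : D.Inc j p X z) :
    D.c ^ 2 * D.wt j p z ≤ amp D j X' (p, z) ∧ |pha D j X' (p, z)| * M ≤ 1 / 7 := by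
  have a0 := bs_nonneg D.K j p
  have a1 := (bs_lt_one hp).le
  have c0 := L0_close a0 a1 hX'
  have c1 := L1_close a0 a1 hX'
  obtain ⟨i0, i1⟩ := hi
  have hr := inv_pos' h j
  have hr1 := inv_le_one' h j
  have hom := om_mul h (j := j) (by omega)
  have hbe := be_mul h j
  have hop := h.om_pos j
  have hbp := h.be_pos j
  have hR := h.R_ge
  have hL := h.L_ge
  have hK := h.K_ge_1000
  have hc := h.ker.c_pos
  rw [inv_pred h (by omega)] at hom
  rw [tt_eq_sq] at c0 c1 i0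
  have y0 : |L0 (bs D.K j p) X' - N0 D.e (bs D.K j p) z| ≤
      (4 * D.R + 7) * ((D.K : ℝ) ^ j)⁻¹ ^ 2 := by
    have := abs_sub_le (L0 (bs D.K j p) X') (L0 (bs D.K j p) X) (N0 D.e (bs D.K j p) z)
    linarith
  have y1 : |L1 (bs D.K j p) X' - N1 D.e (bs D.K j p) z| ≤ (4 * D.R + 7) * ((D.K : ℝ) ^ j)⁻¹ := by
    have := abs_sub_le (L1 (bs D.K j p) X') (L1 (bs D.K j p) X) (N1 D.e (bs D.K j p) z)
    nlinarith
  have p0 : |pha D j X' (p, z)| * (D.K : ℝ) ^ 2 ≤ (4 * D.R + 7) * D.L := by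
    unfold pha
    rw [abs_mul, abs_of_pos hop, ← hom]
    have := mul_le_mul_of_nonneg_left y0 (by positivity : 0 ≤ D.om j * (D.K : ℝ) ^ 2)
    calc _ = D.om j * (D.K : ℝ) ^ 2 * |L0 (bs D.K j p) X' - N0 D.e (bs D.K j p) z| := by ring
      _ ≤ _ := this
      _ = _ := by ring
  have hK2 : (0 : ℝ) < (D.K : ℝ) ^ 2 := by positivity
  constructor
  · have q0 : |pha D j X' (p, z)| ≤ D.c := by
      have := h.RL_le
      refine le_of_mul_le_mul_right (p0.trans ?_) hK2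
      have h3 : D.c * D.K ≤ D.c * (D.K : ℝ) ^ 2 := by
        refine mul_le_mul_of_nonneg_left ?_ hc.le; nlinarith
      nlinarith
    have q1 : |D.be j * (L1 (bs D.K j p) X' - N1 D.e (bs D.K j p) z)| ≤ D.c := by
      rw [abs_mul, abs_of_pos hbp, ← hbe]
      exact mul_le_mul_of_nonneg_left y1 hbp.le
    have k0 := h.ker.k_low _ q0
    have k1 := h.ker.k_low _ q1
    rw [mul_comm, sq]
    exact mul_le_mul_of_nonneg_left (mul_le_mul k0 k1 hc.le (h.ker.k_nonneg _))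
      (h.wt_nonneg _ _ _)
  · refine le_of_mul_le_mul_right ?_ hK2
    have hM0 : (0 : ℝ) ≤ M := Nat.cast_nonneg _
    nlinarith [mul_le_mul_of_nonneg_right p0 hM0]

open Classical in
theorem up_bound (h : D.Ok) {j p : ℕ} {X X' : E3} (z : E2) (hj : 2 ≤ j)
    (hX' : ∀ i, |X' i - X i| ≤ tt D.K j) (hp : p < D.K ^ j) :
    amp D j X' (p, z) ≤ 2 * D.η + if Near D j p X z then 4 * D.wt j p z else 0 := by
  have w0 := h.wt_nonneg j p z
  have w1 := h.wt_le_one j p z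
  have hη := h.η_nonneg
  unfold amp
  dsimp only
  set y0 := L0 (bs D.K j p) X' - N0 D.e (bs D.K j p) z with hy0
  set y1 := L1 (bs D.K j p) X' - N1 D.e (bs D.K j p) z with hy1
  have k0 := h.ker.k_nonneg (D.om j * y0)
  have k1 := h.ker.k_nonneg (D.be j * y1)
  have k2 := h.ker.k_le (D.om j * y0)
  have k3 := h.ker.k_le (D.be j * y1)
  have kk : 0 ≤ D.k (D.om j * y0) * D.k (D.be j * y1) := mul_nonneg k0 k1
  split_ifs with hn
  · have : D.k (D.om j * y0) * D.k (D.be j * y1) ≤ 4 := by nlinarith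
    nlinarith
  rw [add_zero]
  refine (mul_le_of_le_one_left kk w1).trans ?_
  by_cases f0 : D.L ≤ |D.om j * y0|
  · have := h.tail.1 _ f0; nlinarith
  by_cases f1 : D.L ≤ |D.be j * y1|
  · have := h.tail.1 _ f1; nlinarith
  exfalso
  apply hn
  have a0 := bs_nonneg D.K j p
  have a1 := (bs_lt_one hp).le
  have c0 := L0_close a0 a1 hX'
  have c1 := L1_close a0 a1 hX'
  have hr := inv_pos' h j
  have hr1 := inv_le_one' h j
  have hom := om_mul h (j := j) (by omega)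
  have hbe := be_mul h j
  have hop := h.om_pos j
  have hbp := h.be_pos j
  have hR := h.R_ge
  have hL := h.L_ge
  have hK := h.K_ge_1000
  have hc := h.ker.c_pos
  have hq := RLc_ge h
  rw [tt_eq_sq] at c0 c1
  rw [abs_mul, abs_of_pos hop, ← hom, not_le] at f0
  rw [abs_mul, abs_of_pos hbp, not_le] at f1
  have g0 : |y0| ≤ ((D.K : ℝ) ^ (j - 1))⁻¹ ^ 2 := (lt_of_mul_lt_mul_left f0 hop.le).le
  have g1 : |y1| ≤ 11 * (D.R * D.L / D.c) * ((D.K : ℝ) ^ j)⁻¹ := by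
    refine le_of_mul_le_mul_left (f1.le.trans ?_) hbp
    have e1 : D.L = D.L / D.c * D.c := by field_simp
    have e2 : D.be j * (11 * (D.R * D.L / D.c) * ((D.K : ℝ) ^ j)⁻¹) =
        D.L / D.c * (D.be j * (11 * D.R * ((D.K : ℝ) ^ j)⁻¹)) := by ring
    rw [e2]
    nth_rewrite 1 [e1]
    refine mul_le_mul_of_nonneg_left ?_ (by positivity)
    rw [← hbe]
    refine mul_le_mul_of_nonneg_left ?_ hbp.le
    exact mul_le_mul_of_nonneg_right (by linarith) hr.le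
  constructor
  · have := abs_sub_le (L0 (bs D.K j p) X) (L0 (bs D.K j p) X') (N0 D.e (bs D.K j p) z)
    rw [abs_sub_comm] at c0
    have e3 : 3 * ((D.K : ℝ) ^ j)⁻¹ ^ 2 ≤ ((D.K : ℝ) ^ (j - 1))⁻¹ ^ 2 := by
      rw [inv_pred h (by omega), mul_pow]
      exact mul_le_mul_of_nonneg_right (by nlinarith) (by positivity)
    linarith
  · have := abs_sub_le (L1 (bs D.K j p) X) (L1 (bs D.K j p) X') (N1 D.e (bs D.K j p) z)
    rw [abs_sub_comm] at c1
    have e3 : ((D.K : ℝ) ^ j)⁻¹ ^ 2 ≤ D.R * D.L / D.c * ((D.K : ℝ) ^ j)⁻¹ := by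
      rw [sq]; exact mul_le_mul_of_nonneg_right (hr1.trans hq) hr.le
    have e4 : 14 * D.R * D.L / D.c * ((D.K : ℝ) ^ j)⁻¹ =
        14 * (D.R * D.L / D.c * ((D.K : ℝ) ^ j)⁻¹) := by ring
    rw [e4]
    linarith

theorem far_bound (h : D.Ok) {j : ℕ} (hj : j ≤ D.N) :
    (D.K : ℝ) ^ j * D.P.card * (2 * D.η) ≤ ((D.K : ℝ) ^ (10 * D.N))⁻¹ := by
  have hK := h.K_ge_1000
  have hK1 : (1 : ℝ) ≤ D.K := by linarith
  have h1 : (D.K : ℝ) ^ j ≤ (D.K : ℝ) ^ D.N := pow_le_pow_right₀ hK1 hj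
  have h2 := h.card_le_pow
  have h3 : (2 : ℝ) ≤ (D.K : ℝ) ^ D.N :=
    le_trans (by linarith) (le_self_pow₀ hK1 (by have := h.N_ge; omega))
  have h4 := h.η_mul_pow_le (a := D.N + 4 * D.N + D.N + 10 * D.N) (by omega)
  have hη := h.η_nonneg
  rw [inv_eq_one_div, le_div_iff₀ (by positivity)]
  refine le_trans ?_ h4
  calc _ ≤ (D.K : ℝ) ^ D.N * (D.K : ℝ) ^ (4 * D.N) * ((D.K : ℝ) ^ D.N * D.η) *
        (D.K : ℝ) ^ (10 * D.N) := by gcongr
    _ = _ := by rw [pow_add, pow_add, pow_add]; ring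

theorem cnt_nonneg (h : D.Ok) (j : ℕ) (X : E3) : 0 ≤ D.Cnt j X :=
  sum_nonneg fun _ _ => sum_nonneg fun _ _ => h.wt_nonneg _ _ _

open Classical in
theorem near_sum (h : D.Ok) {j : ℕ} {X : E3} (hj : 2 ≤ j) (hX : GoodX D.e D.R X) :
    ∑ p ∈ range (D.K ^ j), ∑ z ∈ D.P, (if Near D j p X z then 4 * D.wt j p z else 0) ≤
      4 * (57 * D.R ^ 2 * D.L / D.c) * D.Cnt (j - 1) X := by
  have e1 : D.Cnt (j - 1) X = ∑ z ∈ D.P, ∑ p1 ∈ range (D.K ^ (j - 1)),
      if D.Inc (j - 1) p1 X z then D.wt (j - 1) p1 z else 0 := by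
    rw [sum_comm]
    simp only [Dat.Cnt, sum_filter]
  rw [e1, sum_comm, mul_sum]
  refine sum_le_sum fun z _ => ?_
  set g : ℕ → ℝ := fun p1 => if D.Inc (j - 1) p1 X z then D.wt (j - 1) p1 z else 0 with hg
  have g0 : ∀ p1, 0 ≤ g p1 := fun p1 => by
    simp only [hg]; split_ifs
    · exact h.wt_nonneg _ _ _
    · exact le_rfl
  have G0 : 0 ≤ ∑ p1 ∈ range (D.K ^ (j - 1)), g p1 := sum_nonneg fun _ _ => g0 _
  rw [← sum_filter]
  calc _ ≤ ∑ _p ∈ (range (D.K ^ j)).filter fun p => Near D j p X z,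
        4 * ∑ p1 ∈ range (D.K ^ (j - 1)), g p1 := by
        refine sum_le_sum fun p hp => ?_
        obtain ⟨hp, hn⟩ := mem_filter.1 hp
        have hp := mem_range.1 hp
        refine mul_le_mul_of_nonneg_left ?_ (by norm_num)
        refine le_trans ?_ (single_le_sum (fun p1 _ => g0 p1)
          (mem_range.2 (div_pow_lt h.K_pos (Nat.sub_le j 1) hp)))
        simp only [hg]
        rw [if_pos (near_inc h hj hX hp hn)]
        exact cw_mono h.prune.nonneg h.prune.le_one (by omega) (by omega) (by omega)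
          (Nat.sub_le j 1) p z
    _ ≤ _ := by
        rw [sum_const, nsmul_eq_mul]
        have := near_card h z hj hX
        nlinarith

theorem total_le (h : D.Ok) {j : ℕ} {X X' : E3} (hj : 2 ≤ j) (hjN : j ≤ D.N)
    (hX : GoodX D.e D.R X) (hX' : ∀ i, |X' i - X i| ≤ tt D.K j) :
    ∑ i ∈ range (D.K ^ j) ×ˢ D.P, amp D j X' i ≤
      300 * D.R ^ 2 * D.L / D.c * D.Cnt (j - 1) X + ((D.K : ℝ) ^ (10 * D.N))⁻¹ := by
  classical
  rw [sum_product]
  have h1 := near_sum h hj hX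
  have h2 := far_bound h hjN
  have h3 := cnt_nonneg h (j - 1) X
  have h4 : 0 ≤ D.R ^ 2 * D.L / D.c := by
    have := h.L_ge; have := h.ker.c_pos; positivity
  have h5 : 4 * (57 * D.R ^ 2 * D.L / D.c) * D.Cnt (j - 1) X ≤
      300 * D.R ^ 2 * D.L / D.c * D.Cnt (j - 1) X := by
    refine mul_le_mul_of_nonneg_right ?_ h3
    calc _ = 228 * (D.R ^ 2 * D.L / D.c) := by ring
      _ ≤ 300 * (D.R ^ 2 * D.L / D.c) := by linarith
      _ = _ := by ring
  refine (sum_le_sum fun p hp => sum_le_sum fun z _ =>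
    up_bound h z hj hX' (mem_range.1 hp)).trans ?_
  simp only [sum_add_distrib, sum_const, card_range, nsmul_eq_mul]
  push_cast
  rw [← mul_assoc]
  linarith

end High

open High in
theorem high : HighStmt := by
  classical
  intro D j l0 M X X' S h hj hjN hX hX' hM1 hM hS hF
  set s := range (D.K ^ j) ×ˢ D.P with hs
  have key := fejer s (s.filter fun i => D.Inc j i.1 X i.2) (amp D j X') (pha D j X') M l0 S
    (filter_subset _ _) (fun i _ => amp_nonneg h j X' i)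
    (fun i hi => (low_bound h hj hX' hM (mem_range.1 (mem_product.1 (mem_filter.1 hi).1).1)
      (mem_filter.1 hi).2).2) hS
    (fun l h1 h2 => by
      rw [← re_Fl]; exact (Complex.re_le_norm _).trans (hF l h1 h2))
  have low : D.c ^ 2 * D.Cnt j X ≤ ∑ i ∈ s.filter fun i => D.Inc j i.1 X i.2, amp D j X' i := by
    have e1 : D.Cnt j X = ∑ i ∈ s.filter fun i => D.Inc j i.1 X i.2, D.wt j i.1 i.2 := by
      rw [sum_filter, hs, sum_product]
      simp only [Dat.Cnt, sum_filter]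
    rw [e1, mul_sum]
    exact sum_le_sum fun i hi => (low_bound h hj hX' hM
      (mem_range.1 (mem_product.1 (mem_filter.1 hi).1).1) (mem_filter.1 hi).2).1
  have up := total_le h hj hjN hX hX'
  have hM0 : (0 : ℝ) < M := by exact_mod_cast hM1
  have c0 : 0 ≤ D.c ^ 2 * D.Cnt j X := mul_nonneg (sq_nonneg _) (cnt_nonneg h j X)
  generalize 300 * D.R ^ 2 * D.L / D.c * D.Cnt (j - 1) X + ((D.K : ℝ) ^ (10 * D.N))⁻¹ = U at *
  refine le_of_mul_le_mul_left ?_ (by positivity : (0 : ℝ) < (M : ℝ) ^ 2)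
  have e2 : (M : ℝ) ^ 2 * (S + (2 * l0 + 1) / M * U) =
      (M : ℝ) ^ 2 * S + M * (2 * l0 + 1) * U := by field_simp
  rw [e2]
  have h1 := mul_le_mul_of_nonneg_left up (by positivity : (0 : ℝ) ≤ M * (2 * l0 + 1))
  have h2 := mul_le_mul_of_nonneg_left low (by positivity : (0 : ℝ) ≤ (M : ℝ) ^ 2 / 2)
  nlinarith [mul_nonneg (sq_nonneg (M : ℝ)) c0]

end Pool.Agent.MP_538dc4_an
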