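import Pool.Agent.MP_538dc4_an.Shear

/-! PROJECT FURST: existence of the band limited kernel with fast decay. -/

open MeasureTheory Finset
open scoped ENNReal FourierTransform ComplexConjugate RealInnerProductSpace ContDiff SchwartzMap

namespace Pool.Agent.MP_538dc4_an

namespace KerM

noncomputable section

/-- The bump. -/
def bump : ContDiffBump (0 : ℝ) := ⟨1 / 4, 1 / 2, by norm_num, by norm_num⟩

def b (x : ℝ) : ℝ := bump x

def bc (x : ℝ) : ℂ := (b x : ℂ)

theorem b_nonneg (x : ℝ) : 0 ≤ b x := bump.nonneg' x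

theorem b_smooth : ContDiff ℝ ∞ b := bump.contDiff

theorem b_cont : Continuous b := bump.continuous

theorem b_cs : HasCompactSupport b := bump.hasCompactSupport

theorem b_zero : b 0 = 1 :=
  bump.one_of_mem_closedBall (Metric.mem_closedBall_self (by norm_num [bump]))

theorem b_out {x : ℝ} (h : 1 / 2 ≤ |x|) : b x = 0 :=
  bump.zero_of_le_dist (by simpa [bump, Real.dist_eq] using h)

theorem bc_cont : Continuous bc := Complex.continuous_ofReal.comp b_cont

theorem bc_cs : HasCompactSupport bc := b_cs.comp_left (g := fun t : ℝ => (t : ℂ)) rfl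

theorem bc_smooth : ContDiff ℝ ∞ bc := Complex.ofRealCLM.contDiff.comp b_smooth

theorem bc_int : Integrable bc := bc_cont.integrable_of_hasCompactSupport bc_cs

/-- The Fourier transform of the bump as a Schwartz map. -/
def B : 𝓢(ℝ, ℂ) := 𝓕 (bc_cs.toSchwartzMap bc_smooth)

theorem B_eq (x : ℝ) : B x = 𝓕 bc x := rfl

def I : ℝ := ∫ s, b s * b s

theorem I_pos : 0 < I := by
  refine Continuous.integral_pos_of_hasCompactSupport_nonneg_nonzero (x := 0)
    (b_cont.mul b_cont) b_cs.mul_left (fun s => mul_nonneg (b_nonneg s) (b_nonneg s)) ?_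
  simp [b_zero]

def k (x : ℝ) : ℝ := ‖B x‖ ^ 2 / I

def m (a : ℝ) : ℝ := (∫ s, b s * b (s + a)) / I

theorem k_cont : Continuous k := (B.continuous.norm.pow 2).div_const _

theorem k_nonneg (x : ℝ) : 0 ≤ k x := div_nonneg (sq_nonneg _) I_pos.le

theorem B_bdd : ∃ A : ℝ, 0 < A ∧ ∀ x, ‖B x‖ ≤ A :=
  ⟨SchwartzMap.seminorm ℝ 0 0 B + 1, by positivity,
    fun x => (B.norm_le_seminorm ℝ x).trans (by linarith)⟩

theorem pow_k_int (q : ℕ) : Integrable fun x : ℝ => |x| ^ q * k x := by
  obtain ⟨A, hA, h⟩ := B_bdd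
  have h1 : Integrable fun x : ℝ => ‖x‖ ^ q * ‖B x‖ := B.integrable_pow_mul volume q
  have hk := k_cont
  refine (h1.const_mul (A / I)).mono' (by fun_prop) (Filter.Eventually.of_forall fun x => ?_)
  have hI := I_pos
  rw [Real.norm_of_nonneg (mul_nonneg (by positivity) (k_nonneg x)), Real.norm_eq_abs, k]
  have : ‖B x‖ ^ 2 ≤ A * ‖B x‖ := by
    rw [sq]; exact mul_le_mul_of_nonneg_right (h x) (norm_nonneg _)
  calc |x| ^ q * (‖B x‖ ^ 2 / I) ≤ |x| ^ q * (A * ‖B x‖ / I) := by gcongr
    _ = A / I * (|x| ^ q * ‖B x‖) := by ring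

theorem k_int : Integrable k := by simpa using pow_k_int 0

theorem k_even (x : ℝ) : k (-x) = k x := by
  have h : (fun s => conj (bc s)) = bc := by ext s; simp [bc]
  have h2 := fourier_conj bc x
  rw [h] at h2
  unfold k
  rw [B_eq, B_eq, h2, Complex.norm_conj]

theorem fourier_shift (a ξ : ℝ) : 𝓕 (fun s => bc (s + a)) ξ = ee (a * ξ) * 𝓕 bc ξ := by
  rw [fourier_eq_ee, fourier_eq_ee, ← integral_const_mul,
    ← integral_add_right_eq_self (fun x => ee (a * ξ) * (ee (-⟪x, ξ⟫) * bc x)) a]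
  congr 1; ext x
  rw [← mul_assoc, ← ee_add]
  congr 2
  simp only [RCLike.inner_apply, conj_trivial]
  ring

theorem m_eq (a : ℝ) : (m a : ℂ) = ∫ x, (k x : ℂ) * ee (-(a * x)) := by
  have hg : Integrable fun s => bc (s + a) := bc_int.comp_add_right a
  have hgc : Continuous fun s => bc (s + a) := bc_cont.comp (by fun_prop)
  have hF : (𝓕 (fun s => bc (s + a)) : ℝ → ℂ) = fun ξ => ee (a * ξ) * B ξ := by
    ext ξ; rw [fourier_shift, B_eq]
  have hG : Integrable (𝓕 (fun s => bc (s + a)) : ℝ → ℂ) := by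
    rw [hF]; exact integrable_ee_mul B.integrable (by fun_prop)
  have hp := parseval bc_int hgc hg hG
  have e1 : ∫ x, bc x * conj (bc (x + a)) = ((∫ s, b s * b (s + a) : ℝ) : ℂ) := by
    rw [← integral_complex_ofReal]
    congr 1; ext x; simp [bc]
  have e2 : ∀ x, (k x : ℂ) * ee (-(a * x)) =
      (I : ℂ)⁻¹ * (𝓕 bc x * conj (𝓕 (fun s => bc (s + a)) x)) := by
    intro x
    rw [fourier_shift, map_mul, conj_ee, ← B_eq, k]
    have := Complex.mul_conj' (B x)
    push_cast
    rw [← this]; ring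
  simp_rw [e2]
  rw [integral_const_mul, hp, e1, m]
  push_cast; ring

theorem fourier_k (a : ℝ) : 𝓕 (fun x => (k x : ℂ)) a = (m a : ℂ) := by
  rw [m_eq, fourier_eq_ee]
  congr 1; ext x
  rw [mul_comm]
  congr 2

theorem kc_int : Integrable fun x => (k x : ℂ) := k_int.ofReal

theorem m_cont : Continuous m := by
  have h : m = fun a => (𝓕 (fun x => (k x : ℂ)) a).re := by
    ext a; rw [fourier_k, Complex.ofReal_re]
  rw [h]
  exact Complex.continuous_re.comp (continuous_fourier kc_int)

theorem m_nonneg (a : ℝ) : 0 ≤ m a :=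
  div_nonneg (integral_nonneg fun _ => mul_nonneg (b_nonneg _) (b_nonneg _)) I_pos.le

theorem m_zero : m 0 = 1 := by
  unfold m
  simp only [add_zero]
  exact div_self I_pos.ne'

theorem k_integral : ∫ x, k x = 1 := by
  have h := m_eq 0
  simp only [zero_mul, neg_zero, ee_zero, mul_one, m_zero] at h
  rw [integral_complex_ofReal] at h
  exact_mod_cast h.symm

theorem m_le (a : ℝ) : m a ≤ 1 := by
  have h := norm_fourier_le (fun x => (k x : ℂ)) a
  rw [fourier_k, Complex.norm_real, Real.norm_of_nonneg (m_nonneg a)] at h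
  refine h.trans (le_of_eq ?_)
  rw [← k_integral]
  congr 1; ext x
  rw [Complex.norm_real, Real.norm_of_nonneg (k_nonneg x)]

theorem m_even (a : ℝ) : m (-a) = m a := by
  unfold m
  rw [← integral_add_right_eq_self (fun s => b s * b (s + -a)) a]
  congr 2; ext s
  rw [mul_comm, add_neg_cancel_right]

theorem m_supp (a : ℝ) (h : 1 ≤ |a|) : m a = 0 := by
  have : ∀ s, b s * b (s + a) = 0 := by
    intro s
    by_cases hs : 1 / 2 ≤ |s|
    · rw [b_out hs, zero_mul]
    · have h1 : |a| ≤ |s + a| + |s| := by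
        have := abs_sub (s + a) s
        simpa using this
      rw [b_out (x := s + a) (by linarith), mul_zero]
  simp [m, this]

theorem m_out {a : ℝ} (h : a ∉ Set.Icc (-1 : ℝ) 1) : m a = 0 := by
  refine m_supp a ?_
  by_contra hc
  have := abs_lt.1 (not_le.1 hc)
  exact h ⟨this.1.le, this.2.le⟩

theorem mc_int : Integrable fun a => (m a : ℂ) :=
  integrable_of_bounded_support (B := Set.Icc (-1 : ℝ) 1)
    (Complex.continuous_ofReal.comp m_cont) (Metric.isBounded_Icc _ _)
    fun a ha => by rw [m_out ha]; rfl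

theorem k_eq (x : ℝ) : (k x : ℂ) = ∫ a, (m a : ℂ) * ee (a * x) := by
  have hF : (𝓕 (fun x => (k x : ℂ)) : ℝ → ℂ) = fun a => (m a : ℂ) := funext fourier_k
  have h := eq_fourierInv (f := fun x => (k x : ℂ)) (Complex.continuous_ofReal.comp k_cont) kc_int
    (by rw [hF]; exact mc_int) x
  rw [h]
  congr 1; ext a
  rw [fourier_k, mul_comm]
  congr 2
  simp only [RCLike.inner_apply, conj_trivial]
  ring

theorem k_le (x : ℝ) : k x ≤ 2 := by
  have h1 : k x = ‖(k x : ℂ)‖ := by rw [Complex.norm_real, Real.norm_of_nonneg (k_nonneg x)]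
  rw [h1, k_eq]
  have hi : Integrable ((Set.Icc (-1 : ℝ) 1).indicator fun _ => (1 : ℝ)) :=
    (integrable_indicator_iff measurableSet_Icc).2 (integrableOn_const (by simp))
  refine (norm_integral_le_of_norm_le hi (Filter.Eventually.of_forall fun a => ?_)).trans ?_
  · rw [norm_mul, norm_ee, mul_one, Complex.norm_real, Real.norm_of_nonneg (m_nonneg a)]
    by_cases ha : a ∈ Set.Icc (-1 : ℝ) 1
    · rw [Set.indicator_of_mem ha]; exact m_le a
    · rw [Set.indicator_of_notMem ha, m_out ha]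
  · rw [integral_indicator measurableSet_Icc]
    simp
    norm_num

theorem k_zero_pos : 0 < k 0 := by
  have h1 : 0 < ∫ s, b s :=
    Continuous.integral_pos_of_hasCompactSupport_nonneg_nonzero (x := 0) b_cont b_cs b_nonneg
      (by simp [b_zero])
  have h2 : B 0 = ((∫ s, b s : ℝ) : ℂ) := by
    rw [B_eq, fourier_eq_ee, ← integral_complex_ofReal]
    simp [bc]
  have hI := I_pos
  unfold k
  rw [h2, Complex.norm_real, Real.norm_of_nonneg h1.le]
  positivity

theorem near {f : ℝ → ℝ} (hf : Continuous f) (h : 0 < f 0) :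
    ∃ r : ℝ, 0 < r ∧ ∀ x, |x| ≤ r → f 0 / 2 ≤ f x := by
  obtain ⟨δ, hδ, H⟩ := Metric.continuous_iff.1 hf 0 (f 0 / 2) (by positivity)
  refine ⟨δ / 2, by positivity, fun x hx => ?_⟩
  have := H x (by rw [Real.dist_eq, sub_zero]; linarith)
  rw [Real.dist_eq] at this
  have := (abs_lt.1 this).1
  linarith

theorem tail (q : ℕ) : ∃ C : ℝ, 0 < C ∧ ∀ L : ℝ, 1 ≤ L → Tail k L (C / L ^ q) := by
  obtain ⟨A, hA, h⟩ := B_bdd
  have hI := I_pos
  set A1 : ℝ := SchwartzMap.seminorm ℝ q 0 B with hA1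
  have hA1' : 0 ≤ A1 := by positivity
  set J : ℝ := ∫ x, |x| ^ q * k x with hJ
  have hJ0 : 0 ≤ J := integral_nonneg fun x => mul_nonneg (by positivity) (k_nonneg x)
  refine ⟨A * A1 / I + J + 1, by positivity, fun L hL => ⟨fun x hx => ?_, ?_⟩⟩
  · have hL0 : 0 < L ^ q := by positivity
    rw [le_div_iff₀ hL0]
    have h1 : |x| ^ q * ‖B x‖ ≤ A1 := B.norm_pow_mul_le_seminorm ℝ q x
    have h2 : L ^ q ≤ |x| ^ q := by gcongr
    calc k x * L ^ q ≤ k x * |x| ^ q := mul_le_mul_of_nonneg_left h2 (k_nonneg x)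
      _ = ‖B x‖ * (|x| ^ q * ‖B x‖) / I := by unfold k; ring
      _ ≤ A * A1 / I := by gcongr; exact h x
      _ ≤ A * A1 / I + J + 1 := by linarith
  · have hL0 : 0 < L ^ q := by positivity
    have hm : MeasurableSet {x : ℝ | L ≤ |x|} :=
      (isClosed_le continuous_const continuous_abs).measurableSet
    rw [le_div_iff₀ hL0, ← integral_mul_const]
    calc ∫ x in {x : ℝ | L ≤ |x|}, k x * L ^ q ≤ ∫ x in {x : ℝ | L ≤ |x|}, |x| ^ q * k x := by
          refine setIntegral_mono_on (k_int.mul_const _).integrableOn (pow_k_int q).integrableOn hm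
            fun x hx => ?_
          have h2 : L ^ q ≤ |x| ^ q := by
            have : L ≤ |x| := hx
            gcongr
          rw [mul_comm]
          exact mul_le_mul_of_nonneg_right h2 (k_nonneg x)
      _ ≤ J := setIntegral_le_integral (pow_k_int q)
          (Filter.Eventually.of_forall fun x => mul_nonneg (by positivity) (k_nonneg x))
      _ ≤ A * A1 / I + J + 1 := by
          have : 0 ≤ A * A1 / I := by positivity
          linarith

end

end KerM

open KerM in
theorem ker_stmt : KerStmt := by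
  obtain ⟨r1, hr1, h1⟩ := near k_cont k_zero_pos
  obtain ⟨r2, hr2, h2⟩ := near m_cont (by rw [m_zero]; exact one_pos)
  have hk := k_zero_pos
  refine ⟨k, m, min (min r1 r2) (min (k 0 / 2) 1), ⟨by positivity,
    (min_le_right _ _).trans (min_le_right _ _), k_cont, k_nonneg, k_le, k_int, k_integral, k_even,
    fun x hx => ?_, m_cont, m_nonneg, m_le, m_even, m_supp, fun a ha => ?_, k_eq, m_eq⟩, tail⟩
  · exact ((min_le_right _ _).trans (min_le_left _ _)).trans
      (h1 x (hx.trans ((min_le_left _ _).trans (min_le_left _ _))))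
  · have := h2 a (ha.trans ((min_le_left _ _).trans (min_le_right _ _)))
    rwa [m_zero] at this

end Pool.Agent.MP_538dc4_an
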