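import Pool.Agent.MP_538dc4_an.Shear

/-! PROJECT FURST, module L4: the fourth moment of the high frequency pieces. -/

open MeasureTheory Finset
open scoped ENNReal FourierTransform ComplexConjugate RealInnerProductSpace

namespace Pool.Agent.MP_538dc4_an

namespace L4

variable {D : Dat}

/-- The frequency window of the wave packets in direction a. -/
def Win (H ω β a : ℝ) : Set E3 := {ξ | ∃ x y : ℝ, |x - H| ≤ ω ∧ |y| ≤ β ∧ ξ = fr3 a x y 0}

theorem spec_pk (h : D.Ok) (j l : ℕ) (a d0 d1 : ℝ) :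
    Spec (Win (l * D.om j) (D.om j) (D.be j) a)
      fun X => D.pk j l (L0 a X - d0) (L1 a X - d1) := by
  have e0 : ∀ X : E3, L0 a X = ⟪X, v3 1 a (a ^ 2)⟫ := fun X => by
    simp only [inner_E3, v3_0, v3_1, v3_2, L0]; ring
  have e1 : ∀ X : E3, L1 a X = ⟪X, v3 0 1 (2 * a)⟫ := fun X => by
    simp only [inner_E3, v3_0, v3_1, v3_2, L1]; ring
  have h0 := Spec.ker h.ker (v3 1 a (a ^ 2)) (D.om j) d0
  have h1 := Spec.ker h.ker (v3 0 1 (2 * a)) (D.be j) d1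
  have h2 := Spec.ee ((l * D.om j : ℝ) • v3 1 a (a ^ 2)) (-(l * D.om j * d0))
  have h3 := h0.mul h2 (U := {ξ | ∃ x : ℝ, |x - l * D.om j| ≤ D.om j ∧ ξ = x • v3 1 a (a ^ 2)})
    (by
      rintro s ⟨x, hx, rfl⟩ t rfl
      refine ⟨x + l * D.om j, ?_, (add_smul _ _ _).symm⟩
      rwa [add_sub_cancel_right, ← abs_of_pos (h.om_pos j)])
  have h4 := h3.mul h1 (U := Win (l * D.om j) (D.om j) (D.be j) a) (by
    rintro s ⟨x, hx, rfl⟩ t ⟨y, hy, rfl⟩
    refine ⟨x, y, hx, by rwa [abs_of_pos (h.be_pos j)] at hy, ?_⟩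
    refine E3_ext ?_ ?_ ?_ <;>
      simp only [fr3, PiLp.add_apply, PiLp.smul_apply, v3_0, v3_1, v3_2, smul_eq_mul] <;> ring)
  convert h4 using 2 with X
  unfold Dat.pk
  rw [e0, e1, inner_smul_right]
  congr 3
  ring

theorem spec_gp (h : D.Ok) (j l p : ℕ) :
    Spec (Win (l * D.om j) (D.om j) (D.be j) (bs D.K j p)) (D.gp j l p) :=
  Spec.sum D.P (F := fun z X => (D.wt j p z : ℂ) * D.pk j l
    (L0 (bs D.K j p) X - N0 D.e (bs D.K j p) z) (L1 (bs D.K j p) X - N1 D.e (bs D.K j p) z))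
    fun _ _ => (spec_pk h j l _ _ _).const_mul _

/-- Frequencies whose unit neighbourhood is inside the plank. -/
def Core (H : ℝ) (k n p : ℕ) : Set E3 :=
  {s | ∀ ζ : E3, (∀ i, |ζ i| ≤ 1) → s + ζ ∈ Pl H k n p 4}

theorem win_core {H ω β a : ℝ} {k n p : ℕ} (hp : p < 2 ^ n) (hω : 1 ≤ ω)
    (hH : 2 * 4 ^ k * ω ≤ H) (ha0 : 0 ≤ a - bs 2 n p) (ha1 : a - bs 2 n p ≤ ((2 : ℝ) ^ n)⁻¹)
    (hβ : 2 * (β + 2) * 2 ^ n ≤ H) (h4 : 4 * (2 ^ n) ^ 2 ≤ H) :
    Win H ω β a ⊆ Core H k n p := by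
  rintro s ⟨x, y, hx, hy, rfl⟩ ζ hζ
  set b0 := bs 2 n p with hb0
  set d := a - b0 with hd
  have hb : 0 ≤ b0 := bs_nonneg _ _ _
  have hb1 : b0 ≤ 1 := (bs_lt_one hp).le
  have e4 : (4 : ℝ) ^ n = (2 ^ n) ^ 2 := by rw [← pow_mul, mul_comm, pow_mul]; norm_num
  have hk : (1 : ℝ) ≤ 4 ^ k := one_le_pow₀ (by norm_num)
  have hT : (0 : ℝ) < 2 ^ n := by positivity
  set T : ℝ := 2 ^ n with hTd
  have hx2 : |x| ≤ 2 * H := by
    have := abs_le.1 hx
    rw [abs_le]; constructor <;> nlinarith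
  have hβ0 : 0 ≤ β := (abs_nonneg _).trans hy
  have hdT : |d| * T ≤ 1 := by
    rw [abs_of_nonneg ha0]
    calc d * T ≤ T⁻¹ * T := by gcongr
      _ = 1 := inv_mul_cancel₀ hT.ne'
  have z0 := hζ 0; have z1 := hζ 1; have z2 := hζ 2
  have w0 : |b0 * ζ 0| ≤ 1 := by
    rw [abs_mul, abs_of_nonneg hb]; exact mul_le_one₀ hb1 (abs_nonneg _) z0
  have w1 : |b0 * ζ 1| ≤ 1 := by
    rw [abs_mul, abs_of_nonneg hb]; exact mul_le_one₀ hb1 (abs_nonneg _) z1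
  have w2 : |b0 * (b0 * ζ 0)| ≤ 1 := by
    rw [abs_mul, abs_of_nonneg hb]; exact mul_le_one₀ hb1 (abs_nonneg _) w0
  have m1 : |d * x| * T ≤ 2 * H := by
    rw [abs_mul, mul_right_comm]
    calc |d| * T * |x| ≤ 1 * (2 * H) := mul_le_mul hdT hx2 (abs_nonneg _) zero_le_one
      _ = _ := one_mul _
  have m2 : |d * y| * T ≤ β := by
    rw [abs_mul, mul_right_comm]
    calc |d| * T * |y| ≤ 1 * β := mul_le_mul hdT hy (abs_nonneg _) zero_le_one
      _ = _ := one_mul _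
  have m3 : |d * (d * x)| * T ^ 2 ≤ 2 * H := by
    rw [abs_mul]
    calc |d| * |d * x| * T ^ 2 = (|d| * T) * (|d * x| * T) := by ring
      _ ≤ 1 * (2 * H) := mul_le_mul hdT m1 (by positivity) zero_le_one
      _ = _ := one_mul _
  refine ⟨?_, ?_, ?_⟩
  · rw [PiLp.add_apply, fr3_0, le_div_iff₀ (by positivity)]
    have : |x + ζ 0 - H| ≤ 2 * ω := by
      rw [show x + ζ 0 - H = (x - H) + ζ 0 by ring]
      exact (abs_add_le _ _).trans (by linarith)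
    nlinarith
  · rw [l1_add, l1_shift a b0, l1_fr3, fr3_0, le_div_iff₀ hT, ← hd]
    have : |y + d * x + l1 b0 ζ| ≤ β + |d * x| + 2 := by
      have h1 := abs_add_le (y + d * x) (l1 b0 ζ)
      have h2 := abs_add_le y (d * x)
      have h3 : |l1 b0 ζ| ≤ 2 := (abs_sub _ _).trans (by linarith)
      linarith
    nlinarith
  · rw [l2_add, l2_shift a b0, l2_fr3, l1_fr3, fr3_0, e4, le_div_iff₀ (by positivity), ← hd]
    have : |0 + 2 * d * y + d ^ 2 * x + l2 b0 ζ| ≤ 2 * |d * y| + |d * (d * x)| + 4 := by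
      have h3 : |l2 b0 ζ| ≤ 4 := by
        have := abs_le.1 z2; have := abs_le.1 w1; have := abs_le.1 w2
        unfold l2; rw [abs_le]; constructor <;> nlinarith
      have h1 := abs_add_le (2 * (d * y) + d * (d * x)) (l2 b0 ζ)
      have h2 := abs_add_le (2 * (d * y)) (d * (d * x))
      rw [abs_mul 2, abs_two] at h2
      rw [show 0 + 2 * d * y + d ^ 2 * x = 2 * (d * y) + d * (d * x) by ring]
      linarith
    have m4 : |d * y| * T * T ≤ β * T := by gcongr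
    calc _ ≤ (2 * |d * y| + |d * (d * x)| + 4) * T ^ 2 := by gcongr
      _ ≤ _ := by nlinarith

theorem cR_pos (h : D.Ok) : 0 < D.c / (D.R + 1) := by
  have := h.ker.c_pos; have := h.R_ge; positivity

theorem cR_le (h : D.Ok) : D.c / (D.R + 1) ≤ 1 := by
  have := h.ker.c_le; have := h.R_ge
  rw [div_le_one (by linarith)]; linarith

theorem W0_nonneg (h : D.Ok) (X : E3) : 0 ≤ D.W0 X :=
  mul_nonneg (mul_nonneg (h.ker.k_nonneg _) (h.ker.k_nonneg _)) (h.ker.k_nonneg _)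

theorem continuous_W0 (h : D.Ok) : Continuous D.W0 := by
  have := h.ker.k_cont
  unfold Dat.W0; fun_prop

theorem W0_eq (h : D.Ok) (X : E3) : (D.W0 X : ℂ) = (((D.c / (D.R + 1)) ^ 3)⁻¹ : ℝ) *
    (kU D.k 0 (D.c / (D.R + 1)) (D.c / (D.R + 1)) (D.c / (D.R + 1)) X : ℂ) := by
  have h1 := (cR_pos h).ne'
  rw [← Complex.ofReal_mul]
  congr 1
  simp only [kU, L0, L1, Dat.W0]
  generalize D.c / (D.R + 1) = r at h1 ⊢
  simp only [zero_mul, mul_zero, add_zero, ne_eq, OfNat.ofNat_ne_zero, not_false_eq_true, zero_pow]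
  field_simp

theorem integrable_W0 (h : D.Ok) : Integrable fun X => (D.W0 X : ℂ) := by
  simp only [W0_eq h]
  exact ((h.ker.integrable_kU 0 (cR_pos h) (cR_pos h) (cR_pos h)).ofReal).const_mul _

theorem fourier_W0 (h : D.Ok) {ζ : E3} (hζ : 𝓕 (fun X => (D.W0 X : ℂ)) ζ ≠ 0) (i : Fin 3) :
    |ζ i| ≤ 1 := by
  simp only [W0_eq h] at hζ
  rw [fourier_const_mul, h.ker.fourier_kU 0 (cR_pos h) (cR_pos h) (cR_pos h)] at hζ
  have key : ∀ x : ℝ, D.m (x / (D.c / (D.R + 1))) ≠ 0 → |x| ≤ 1 := by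
    intro x hx
    by_contra hc
    apply hx
    apply h.ker.m_supp
    rw [abs_div, abs_of_pos (cR_pos h), le_div_iff₀ (cR_pos h)]
    have := cR_le h
    linarith [not_le.1 hc]
  have h1 := right_ne_zero_of_mul hζ
  rw [Complex.ofReal_ne_zero] at h1
  have a0 := key _ (left_ne_zero_of_mul (left_ne_zero_of_mul h1))
  have a1 := key _ (right_ne_zero_of_mul (left_ne_zero_of_mul h1))
  have a2 := key _ (right_ne_zero_of_mul h1)
  simp only [l1, l2, zero_mul, mul_zero, sub_zero, ne_eq, OfNat.ofNat_ne_zero, not_false_eq_true,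
    zero_pow, add_zero] at a1 a2
  fin_cases i
  exacts [a0, a1, a2]

/-- The sum of the wave packets below the cell θ of level j - 3. -/
noncomputable def gg (D : Dat) (j l θ : ℕ) (X : E3) : ℂ :=
  ∑ p ∈ ch D.K (j - 3) θ j, D.gp j l p X

/-- The localized piece. -/
noncomputable def ff (D : Dat) (j l θ : ℕ) (X : E3) : ℂ := (√(D.W0 X) : ℝ) * gg D j l θ X

theorem bs_two {K b : ℕ} (hK : K = 2 ^ b) (l p : ℕ) : bs 2 (b * l) p = bs K l p := by
  unfold bs; rw [hK]; push_cast; rw [pow_mul]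

theorem two_pow {K b : ℕ} (hK : K = 2 ^ b) (l : ℕ) : (2 : ℝ) ^ (b * l) = (K : ℝ) ^ l := by
  rw [hK]; push_cast; rw [pow_mul]

theorem H_ge (h : D.Ok) {j l : ℕ} (hj : 4 ≤ j) (hl : 1 ≤ l) :
    (D.K : ℝ) ^ 4 * ((D.K : ℝ) ^ (j - 3)) ^ 2 ≤ l * D.om j := by
  have hK : (1 : ℝ) ≤ D.K := by have := h.K_ge_1000; linarith
  have hl' : (1 : ℝ) ≤ l := by exact_mod_cast hl
  rw [Dat.Ok.om_eq, ← pow_mul, ← pow_add, show 4 + (j - 3) * 2 = 2 * (j - 1) by omega]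
  have h1 : (0 : ℝ) < (D.K : ℝ) ^ (2 * (j - 1)) := by positivity
  have h2 : 1 ≤ (l : ℝ) * D.L := one_le_mul_of_one_le_of_one_le hl' h.L_ge
  nlinarith

theorem spec_gg (h : D.Ok) {k b j l θ : ℕ} (hK : D.K = 2 ^ b) (hj : 4 ≤ j) (hl : 2 * 4 ^ k ≤ l)
    (hθ : θ < 2 ^ (b * (j - 3))) : Spec (Core (l * D.om j) k (b * (j - 3)) θ) (gg D j l θ) := by
  refine Spec.sum _ fun p hp => (spec_gp h j l p).mono ?_
  have hK1 := h.K_ge_1000
  have hl' : (2 * 4 ^ k : ℝ) ≤ l := by exact_mod_cast hl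
  have hH := H_ge h (l := l) hj (le_trans (Nat.succ_le_of_lt (by positivity)) hl)
  have hd := bs_sub_of_mem_ch h.K_pos (Nat.sub_le j 3) hp
  have hom : 1 ≤ D.om j := by
    rw [Dat.Ok.om_eq]
    exact one_le_mul_of_one_le_of_one_le h.L_ge (one_le_pow₀ (by linarith))
  set T := (D.K : ℝ) ^ (j - 3) with hT
  have hT1 : 1 ≤ T := one_le_pow₀ (by linarith)
  have hK3 : (1000 : ℝ) ≤ (D.K : ℝ) ^ 3 := hK1.trans (le_self_pow₀ (by linarith) (by norm_num))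
  have hbe : D.be j ≤ (D.K : ℝ) ^ 3 * T := by
    have := h.ker.c_le; have := h.R_ge
    rw [hT, ← pow_add, show 3 + (j - 3) = j by omega, Dat.be, div_le_iff₀ (by linarith)]
    have : (0 : ℝ) < (D.K : ℝ) ^ j := by positivity
    nlinarith
  have hm : 1000 * ((D.K : ℝ) ^ 3 * T ^ 2) ≤ l * D.om j := by
    refine le_trans ?_ hH
    calc _ ≤ D.K * ((D.K : ℝ) ^ 3 * T ^ 2) := by gcongr
      _ = _ := by ring
  refine win_core hθ hom (by gcongr) ?_ ?_ ?_ ?_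
  · rw [bs_two hK]; exact hd.1
  · rw [bs_two hK, two_pow hK]; exact hd.2.le
  · rw [two_pow hK, ← hT]
    have h1 : D.be j + 2 ≤ 2 * ((D.K : ℝ) ^ 3 * T) := by nlinarith
    calc _ ≤ 2 * (2 * ((D.K : ℝ) ^ 3 * T)) * T := by gcongr
      _ ≤ _ := by nlinarith [sq_nonneg T]
  · rw [two_pow hK, ← hT]
    nlinarith [sq_nonneg T]

theorem continuous_gp (h : D.Ok) (j l p : ℕ) : Continuous (D.gp j l p) := (spec_gp h j l p).cont

theorem spec_gg_univ (h : D.Ok) (j l θ : ℕ) : Spec Set.univ (gg D j l θ) :=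
  Spec.sum _ fun p _ => (spec_gp h j l p).mono (Set.subset_univ _)

theorem ff_mul (h : D.Ok) (j l θ θ' : ℕ) (X : E3) : ff D j l θ X * conj (ff D j l θ' X) =
    (D.W0 X : ℂ) * (gg D j l θ X * conj (gg D j l θ' X)) := by
  have : ((√(D.W0 X) : ℝ) : ℂ) * (√(D.W0 X) : ℝ) = D.W0 X := by
    rw [← Complex.ofReal_mul, Real.mul_self_sqrt (W0_nonneg h X)]
  unfold ff
  rw [map_mul, Complex.conj_ofReal, ← this]; ring

theorem whyp (h : D.Ok) {k b j l : ℕ} (hK : D.K = 2 ^ b) (hj : 4 ≤ j) (hl : 2 * 4 ^ k ≤ l) :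
    WHyp (l * D.om j) k (b * (j - 3)) (ff D j l) := by
  refine ⟨fun θ => ?_, fun θ θ' => ?_, fun θ hθ θ' hθ' ξ hξ => ?_⟩
  · have := continuous_W0 h; have := (spec_gg_univ h j l θ).cont
    unfold ff; fun_prop
  · simp only [ff_mul h]
    exact ((spec_gg_univ h j l θ).mul ((spec_gg_univ h j l θ').conj' (T := Set.univ)
      fun _ _ => trivial) (U := Set.univ) fun _ _ _ _ => trivial).integrable_mul (integrable_W0 h)
  · simp only [ff_mul h] at hξ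
    have h1 := (spec_gg h hK hj hl hθ).mul ((spec_gg h hK hj hl hθ').conj'
      (T := {s | -s ∈ Core (l * D.om j) k (b * (j - 3)) θ'}) fun s hs => by simpa using hs)
      (U := {u | ∃ s ∈ Core (l * D.om j) k (b * (j - 3)) θ,
        ∃ s' ∈ Core (l * D.om j) k (b * (j - 3)) θ', u = s - s'})
      fun s hs t ht => ⟨s, hs, -t, ht, by simp⟩
    obtain ⟨_, ⟨s, hs, s', hs', rfl⟩, hu⟩ := h1.support (integrable_W0 h) hξ
    refine ⟨_, hs _ (fourier_W0 h hu), _, hs' 0 (by simp), by abel⟩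

theorem sum_ff (h : D.Ok) {b j : ℕ} (hK : D.K = 2 ^ b) (l : ℕ) (X : E3) :
    ‖∑ θ ∈ range (2 ^ (b * (j - 3))), ff D j l θ X‖ ^ 4 = D.W0 X ^ 2 * ‖D.Fl j l X‖ ^ 4 := by
  have e : ∑ θ ∈ range (2 ^ (b * (j - 3))), ff D j l θ X = (√(D.W0 X) : ℝ) * D.Fl j l X := by
    unfold ff gg Dat.Fl
    rw [← mul_sum, pow_mul, ← hK, ← ch_zero, ← ch_zero,
      sum_ch h.K_pos (Nat.zero_le (j - 3)) (Nat.sub_le j 3) 0]
  rw [e, norm_mul, mul_pow, Complex.norm_real, Real.norm_of_nonneg (Real.sqrt_nonneg _),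
    show √(D.W0 X) ^ 4 = (√(D.W0 X) ^ 2) ^ 2 by ring, Real.sq_sqrt (W0_nonneg h X)]

/-- The square function below the dyadic cell q of level i. -/
noncomputable def GG (D : Dat) (b j l i q : ℕ) (X : E3) : ℝ :=
  ∑ θ ∈ ch 2 i q (b * (j - 3)), ‖ff D j l θ X‖ ^ 2

theorem SQ_eq (b j l i q : ℕ) (X : E3) :
    SQ (ff D j l) (b * (j - 3)) i q (b * (j - 3)) X = GG D b j l i q X := by
  unfold SQ GG FS
  refine sum_congr rfl fun θ hθ => ?_
  rw [ch_self (mem_ch.1 hθ).1, sum_singleton]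

theorem GG_nonneg (b j l i q : ℕ) (X : E3) : 0 ≤ GG D b j l i q X :=
  sum_nonneg fun _ _ => by positivity

theorem norm_ff_le (h : D.Ok) {j : ℕ} (hj : 4 ≤ j) (l θ : ℕ) (X : E3) : ‖ff D j l θ X‖ ^ 2 ≤
    (D.K : ℝ) ^ 3 * (D.W0 X * ∑ p ∈ ch D.K (j - 3) θ j, ‖D.gp j l p X‖ ^ 2) := by
  have hW := W0_nonneg h X
  have h1 : ‖gg D j l θ X‖ ^ 2 ≤ (D.K : ℝ) ^ 3 * ∑ p ∈ ch D.K (j - 3) θ j, ‖D.gp j l p X‖ ^ 2 := by
    have hc : ((ch D.K (j - 3) θ j).card : ℝ) ≤ (D.K : ℝ) ^ 3 := by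
      have := card_ch_le D.K (j - 3) θ j h.K_pos
      rw [show j - (j - 3) = 3 by omega] at this
      exact_mod_cast this
    calc _ ≤ (∑ p ∈ ch D.K (j - 3) θ j, ‖D.gp j l p X‖) ^ 2 :=
          pow_le_pow_left₀ (norm_nonneg _) (norm_sum_le _ _) 2
      _ ≤ (ch D.K (j - 3) θ j).card * ∑ p ∈ ch D.K (j - 3) θ j, ‖D.gp j l p X‖ ^ 2 :=
          sq_sum_le_card_mul_sum_sq
      _ ≤ _ := mul_le_mul_of_nonneg_right hc (sum_nonneg fun _ _ => by positivity)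
  unfold ff
  rw [norm_mul, mul_pow, Complex.norm_real, Real.norm_of_nonneg (Real.sqrt_nonneg _),
    Real.sq_sqrt hW, mul_left_comm]
  exact mul_le_mul_of_nonneg_left h1 hW

theorem b_pos (h : D.Ok) {b : ℕ} (hK : D.K = 2 ^ b) : 0 < b := by
  have := h.K_ge_1000
  rcases Nat.eq_zero_or_pos b with rfl | hb
  · rw [hK] at this; norm_num at this
  · exact hb

theorem GG_le (h : D.Ok) {b j i : ℕ} (hK : D.K = 2 ^ b) (hj : 4 ≤ j) (hi : i ≤ b * (j - 3))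
    (l q : ℕ) (X : E3) : GG D b j l i q X ≤ (D.K : ℝ) ^ 3 *
      (D.W0 X * ∑ p ∈ ch D.K (i / b) (q / 2 ^ (i - b * (i / b))) j, ‖D.gp j l p X‖ ^ 2) := by
  have hW := W0_nonneg h X
  have hl1 : i / b ≤ j - 3 := Nat.div_le_of_le_mul hi
  have hsub : ch 2 i q (b * (j - 3)) ⊆ ch D.K (i / b) (q / 2 ^ (i - b * (i / b))) (j - 3) := by
    intro θ hθ
    obtain ⟨h1, h2⟩ := mem_ch.1 hθ
    rw [mem_ch, hK, ← pow_mul, ← pow_mul, Nat.mul_sub b (j - 3), ← h2,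
      div_pow_div_pow 2 θ (Nat.mul_div_le i b) hi]
    exact ⟨h1, rfl⟩
  rw [sum_ch h.K_pos hl1 (Nat.sub_le j 3), mul_sum, mul_sum]
  refine (sum_le_sum fun θ _ => norm_ff_le h hj l θ X).trans
    (sum_le_sum_of_subset_of_nonneg hsub fun θ _ _ => ?_)
  exact mul_nonneg (by positivity) (mul_nonneg hW (sum_nonneg fun _ _ => by positivity))

theorem continuous_Gp (h : D.Ok) (Q : Finset E2) (j l p : ℕ) : Continuous (D.Gp Q j l p) := by
  have := h.ker.k_cont; have := continuous_ee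
  unfold Dat.Gp Dat.pk
  fun_prop

/-- The global bound for the square function. -/
theorem glob (hL : LocStmt) (h : D.Ok) {j l : ℕ} (hj : 4 ≤ j) (hjN : j ≤ D.N) (hl : 4 ≤ l)
    (hH : l * D.om j ≤ (D.K : ℝ) ^ (2 * j)) :
    ∫⁻ X, ENNReal.ofReal (D.W0 X * ∑ p ∈ ch D.K 0 0 j, ‖D.gp j l p X‖ ^ 2) ≤
      ENNReal.ofReal ((D.K : ℝ) ^ 21 *
        (tt D.K j * (tt D.K j / D.δ) * (tt D.K j / D.δ) ^ D.u * D.P.card)) := by
  have hK1 := h.K_ge_1000
  have hK : (1 : ℝ) ≤ D.K := by linarith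
  have hδ := h.δ_pos
  have ht := tt_pos h.K_pos j
  have hc := h.ker.c_pos
  have hkc := h.ker.k_cont
  set r := D.c / (D.R + 1) with hr
  have hr0 : 0 < r := cR_pos h
  have hloc := hL D j l 0 0 D.P h hj hjN hl hH Subset.rfl (Nat.zero_le _) (by simp)
  have hκ : Measurable fun x : ℝ => ENNReal.ofReal (4 * D.k (r * x - 0)) := by fun_prop
  have hG : ∀ p, Measurable fun y => ENNReal.ofReal (‖D.Gp D.P j l p y‖ ^ 2) := fun p => by
    have := continuous_Gp h D.P j l p; fun_prop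
  have h1 : ∀ X : E3, ENNReal.ofReal (D.W0 X * ∑ p ∈ ch D.K 0 0 j, ‖D.gp j l p X‖ ^ 2) ≤
      ∑ p ∈ ch D.K 0 0 j, ENNReal.ofReal (4 * D.k (r * X 2 - 0)) * ENNReal.ofReal
        (‖D.Gp D.P j l p (v2 (L0 (bs D.K j p) X) (L1 (bs D.K j p) X))‖ ^ 2) := by
    intro X
    have hk2 := h.ker.k_nonneg (r * X 2)
    have hW : D.W0 X ≤ 4 * D.k (r * X 2 - 0) := by
      rw [sub_zero]
      refine mul_le_mul_of_nonneg_right ?_ hk2
      have := h.ker.k_le (r * X 0); have := h.ker.k_le (r * X 1)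
      have := h.ker.k_nonneg (r * X 0); have := h.ker.k_nonneg (r * X 1)
      nlinarith
    rw [← mul_sum, ← ENNReal.ofReal_sum_of_nonneg fun _ _ => by positivity,
      ← ENNReal.ofReal_mul ((W0_nonneg h X).trans hW)]
    exact ENNReal.ofReal_le_ofReal
      (mul_le_mul_of_nonneg_right hW (sum_nonneg fun _ _ => by positivity))
  have h2 : ∫⁻ x, ENNReal.ofReal (4 * D.k (r * x - 0)) = ENNReal.ofReal (4 * r⁻¹) := by
    simp only [ENNReal.ofReal_mul (by norm_num : (0 : ℝ) ≤ 4)]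
    rw [lintegral_const_mul _ (by fun_prop), h.ker.lintegral_affine hr0]
  refine (lintegral_mono h1).trans ?_
  rw [lintegral_finsetSum _ fun p _ => by
    exact (hκ.comp (by fun_prop : Measurable fun X : E3 => X 2)).mul
      ((hG p).comp (continuous_v2 (continuous_L0 _) (continuous_L1 _)).measurable)]
  simp only [slice _ hκ (hG _), h2]
  rw [← mul_sum]
  refine (mul_le_mul_right hloc _).trans ?_
  rw [← ENNReal.ofReal_mul (by positivity)]
  refine ENNReal.ofReal_le_ofReal ?_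
  have a1 : 4 * r⁻¹ ≤ D.K := by
    have := h.RL_le; have := h.R_ge; have := h.L_ge
    rw [hr, inv_div, ← mul_div_assoc, div_le_iff₀ hc]
    nlinarith
  have a2 : ∑ z ∈ D.P, cw D.K D.χ (j - 2) (0 + 1) 0 0 z ≤ D.P.card := by
    calc _ ≤ ∑ _z ∈ D.P, (1 : ℝ) :=
          sum_le_sum fun z _ => cw_le_one h.prune.nonneg h.prune.le_one _ _ _ _ _
      _ = _ := by simp
  have et : tt D.K (j - 2) = (D.K : ℝ) ^ 4 * tt D.K j := by
    rw [tt_add h.K_pos (j - 2) 2, show j - 2 + 2 = j by omega]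
  have a3 : Lam D.K D.N D.u (j - 2) 0 ≤
      (D.K : ℝ) ^ 8 * (tt D.K j / D.δ * (tt D.K j / D.δ) ^ D.u) := by
    unfold Lam rr
    change tt D.K (j - 2) / D.δ * ((D.K : ℝ) ^ 0 * tt D.K (j - 2) / D.δ) ^ D.u ≤ _
    rw [et, pow_zero, one_mul, mul_div_assoc, Real.mul_rpow (by positivity) (by positivity)]
    have h1 : ((D.K : ℝ) ^ 4) ^ D.u ≤ (D.K : ℝ) ^ 4 := by
      simpa using Real.rpow_le_rpow_of_exponent_le (one_le_pow₀ (n := 4) hK) h.u_le
    calc _ ≤ (D.K : ℝ) ^ 4 * (tt D.K j / D.δ) * ((D.K : ℝ) ^ 4 * (tt D.K j / D.δ) ^ D.u) := by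
          gcongr
      _ = _ := by ring
  have a4 := Lam_nonneg D.K D.N D.u (j - 2) 0
  have a5 : 0 ≤ ∑ z ∈ D.P, cw D.K D.χ (j - 2) (0 + 1) 0 0 z :=
    sum_nonneg fun _ _ => cw_nonneg h.prune.nonneg _ _ _ _ _
  calc _ ≤ D.K * ((D.K : ℝ) ^ 12 * (tt D.K j / (D.K : ℝ) ^ 0) * D.P.card *
        ((D.K : ℝ) ^ 8 * (tt D.K j / D.δ * (tt D.K j / D.δ) ^ D.u))) := by gcongr
    _ = _ := by ring

theorem continuous_GG (h : D.Ok) (b j l i q : ℕ) : Continuous (GG D b j l i q) := by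
  have h1 := continuous_W0 h
  refine continuous_finsetSum _ fun θ _ => ?_
  have := (spec_gg_univ h j l θ).cont
  unfold ff; fun_prop

/-- The bound for one box. -/
theorem box_le (hB : BoxStmt) (hS : SupStmt) (h : D.Ok) {k b j l i q : ℕ} (hK : D.K = 2 ^ b)
    (hj : 4 ≤ j) (hjN : j ≤ D.N) (hk : 1 ≤ k) (hl : 2 * 4 ^ k ≤ l)
    (hH : l * D.om j ≤ (D.K : ℝ) ^ (2 * j)) (hi : i ≤ b * (j - 3)) (hq : q < 2 ^ i) :
    QQ (l * D.om j) (ff D j l) (b * (j - 3)) i q (b * (j - 3)) ≤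
      8 * (∫⁻ X, ENNReal.ofReal (GG D b j l i q X)) * ENNReal.ofReal ((D.K : ℝ) ^ 3 *
        ((D.K : ℝ) ^ 50 * (tt D.K j / D.δ) ^ 2 * (tt D.K j / D.δ ^ 2) ^ D.u)) := by
  have hK1 := h.K_ge_1000
  have hK' : (1 : ℝ) ≤ D.K := by linarith
  have hc := h.ker.c_pos
  have hc1 := h.ker.c_le
  have hL := h.L_ge
  have hl4 : 4 ≤ l := by
    have : 4 ^ 1 ≤ 4 ^ k := Nat.pow_le_pow_right (by norm_num) hk
    omega
  have hw := whyp h hK hj hl
  have hint : Integrable (GG D b j l i q) := by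
    refine integrable_finsetSum _ fun θ _ => (hw.int θ θ).norm.congr ?_
    exact Filter.Eventually.of_forall fun X => by simp [sq]
  set H := l * D.om j with hHd
  set n := b * (j - 3) with hn
  set T := (D.K : ℝ) ^ (j - 3) with hT
  have hT0 : 0 < T := by positivity
  have e4 : ∀ m : ℕ, (4 : ℝ) ^ m = (2 ^ m) ^ 2 := fun m => by
    rw [← pow_mul, mul_comm, pow_mul]; norm_num
  have e4n : (4 : ℝ) ^ n = T ^ 2 := by rw [e4, hn, two_pow hK]
  have hlo : D.L * T ^ 2 ≤ H := by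
    have hl' : (1 : ℝ) ≤ l := by exact_mod_cast (by omega : 1 ≤ l)
    have h1 : T ^ 2 ≤ (D.K : ℝ) ^ (2 * (j - 1)) := by
      rw [hT, ← pow_mul]; exact pow_le_pow_right₀ hK' (by omega)
    rw [hHd, Dat.Ok.om_eq]
    calc D.L * T ^ 2 ≤ 1 * (D.L * (D.K : ℝ) ^ (2 * (j - 1))) := by rw [one_mul]; gcongr
      _ ≤ _ := by gcongr
  have hhi : H ≤ (D.K : ℝ) ^ 6 * T ^ 2 := by
    rw [hT, ← pow_mul, ← pow_add, show 6 + (j - 3) * 2 = 2 * j by omega]; exact hH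
  have hH0 : 0 < H := lt_of_lt_of_le (by positivity) hlo
  set g := 1200 * H / (D.c * 4 ^ n) with hg
  have hg0 : 0 < g := by positivity
  have g1 : D.L ≤ g := by
    rw [hg, le_div_iff₀ (by positivity), e4n]
    have : D.L * (D.c * T ^ 2) ≤ D.L * (1 * T ^ 2) := by gcongr
    linarith
  have g2 : g ≤ (D.K : ℝ) ^ 8 := by
    have h1 := h.RL_le
    have h2 : 1 ≤ D.R * D.L := one_le_mul_of_one_le_of_one_le h.R_ge hL
    have h3 : 1200 ≤ D.c * (D.K : ℝ) ^ 2 := by nlinarith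
    rw [hg, div_le_iff₀ (by positivity), e4n]
    calc 1200 * H ≤ (D.c * (D.K : ℝ) ^ 2) * ((D.K : ℝ) ^ 6 * T ^ 2) := by gcongr
      _ = _ := by ring
  set l1' := i / b with hl1
  have hle : b * l1' ≤ i := Nat.mul_div_le i b
  have hlt : i ≤ b * (l1' + 1) := (Nat.lt_mul_div_succ i (b_pos h hK)).le
  have i1 : (D.K : ℝ) ^ l1' ≤ 2 ^ i := by
    rw [← two_pow hK]; exact pow_le_pow_right₀ (by norm_num) hle
  have i2 : (2 : ℝ) ^ i ≤ (D.K : ℝ) ^ (l1' + 1) := by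
    rw [← two_pow hK]; exact pow_le_pow_right₀ (by norm_num) hlt
  have hset : Box H i q n = {ξ : E3 | |ξ 0| ≤ D.c * (g * 4 ^ i) ∧
      |l1 (bs 2 i q) ξ| ≤ D.c * (g * 2 ^ i) ∧ |l2 (bs 2 i q) ξ| ≤ D.c * g} := by
    unfold Box
    rw [show D.c * (g * 4 ^ i) = 1200 * H * 4 ^ i / 4 ^ n by rw [hg]; field_simp,
      show D.c * (g * 2 ^ i) = 1200 * H * 2 ^ i / 4 ^ n by rw [hg]; field_simp,
      show D.c * g = 1200 * H / 4 ^ n by rw [hg]; field_simp]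
  unfold QQ
  simp only [hn, SQ_eq]
  rw [← hn, hset]
  refine hB D.k D.m D.c _ _ _ _ _ _ h.ker (by positivity) (by positivity) hg0
    (continuous_GG h b j l i q) hint (GG_nonneg b j l i q) fun Y => ?_
  have hs := hS D j l l1' (q / 2 ^ (i - b * l1')) (bs 2 i q) (g * 4 ^ i) (g * 2 ^ i) g Y h hj hjN
    hl4 hH (Nat.div_le_of_le_mul hi) ?_ ?_ ?_ ?_ g1 ?_
  · rw [ENNReal.ofReal_mul (by positivity)]
    refine le_trans ?_ (mul_le_mul_right hs _)
    rw [← lintegral_const_mul' _ _ ENNReal.ofReal_ne_top]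
    refine lintegral_mono fun X => ?_
    rw [← ENNReal.ofReal_mul (by positivity), ← mul_assoc]
    exact ENNReal.ofReal_le_ofReal (mul_le_mul_of_nonneg_right (GG_le h hK hj hi l q X)
      (h.ker.kU_nonneg _ (by positivity) (by positivity) hg0 _))
  · rw [hK, ← pow_mul]; exact div_pow_lt (by norm_num) hle hq
  · have := bs_sub_div (b := 2) (by norm_num) hle q
    rw [← bs_two hK, ← two_pow hK, abs_of_nonneg this.1]
    exact_mod_cast this.2.le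
  · rw [e4, mul_comm 2, pow_mul]; gcongr
  · gcongr
  · calc g * 4 ^ i * (g * 2 ^ i) = g ^ 2 * (2 ^ i) ^ 3 := by rw [e4]; ring
      _ ≤ ((D.K : ℝ) ^ 8) ^ 2 * ((D.K : ℝ) ^ (l1' + 1)) ^ 3 := by gcongr
      _ = (D.K : ℝ) ^ 19 * (D.K : ℝ) ^ (3 * l1') := by ring
      _ ≤ _ := by gcongr; norm_num

theorem level_le (hL : LocStmt) (h : D.Ok) {b j l i : ℕ} (hK : D.K = 2 ^ b) (hj : 4 ≤ j)
    (hjN : j ≤ D.N) (hl : 4 ≤ l) (hH : l * D.om j ≤ (D.K : ℝ) ^ (2 * j)) (hi : i ≤ b * (j - 3)) :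
    ∑ q ∈ ch 2 0 0 i, ∫⁻ X, ENNReal.ofReal (GG D b j l i q X) ≤
      ENNReal.ofReal ((D.K : ℝ) ^ 3 * ((D.K : ℝ) ^ 21 *
        (tt D.K j * (tt D.K j / D.δ) * (tt D.K j / D.δ) ^ D.u * D.P.card))) := by
  rw [← lintegral_finsetSum _ fun q _ => (continuous_GG h b j l i q).measurable.ennreal_ofReal,
    ENNReal.ofReal_mul (by positivity)]
  refine le_trans ?_ (mul_le_mul_right (glob hL h hj hjN hl hH) _)
  rw [← lintegral_const_mul' _ _ ENNReal.ofReal_ne_top]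
  refine lintegral_mono fun X => ?_
  rw [← ENNReal.ofReal_mul (by positivity),
    ← ENNReal.ofReal_sum_of_nonneg fun q _ => GG_nonneg b j l i q X]
  refine ENNReal.ofReal_le_ofReal ?_
  have h1 := GG_le h hK hj (Nat.zero_le _) l 0 X
  rw [Nat.zero_div, Nat.zero_div] at h1
  refine le_trans (le_of_eq ?_) h1
  exact (sum_ch (by norm_num) (Nat.zero_le i) hi 0 _).symm

end L4

open L4 in
theorem l4 (hB : BoxStmt) (hL : LocStmt) (hS : SupStmt) : L4Stmt := by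
  intro D ε C k b j l h hε hk hC hW hK hj hjN hl hH
  have hK1 := h.K_ge_1000
  have hK' : (1 : ℝ) ≤ D.K := by linarith
  have hδ := h.δ_pos
  have ht := tt_pos h.K_pos j
  have hl4 : 4 ≤ l := by
    have : 4 ^ 1 ≤ 4 ^ k := Nat.pow_le_pow_right (by norm_num) hk
    omega
  have hH0 : 0 < l * D.om j := mul_pos (by exact_mod_cast (by omega : 0 < l)) (h.om_pos j)
  have h1 := hW _ _ _ hH0 (whyp h hK hj hl)
  simp only [sum_ff h hK] at h1
  refine h1.trans ?_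
  set n := b * (j - 3) with hn
  set A := (D.K : ℝ) ^ 3 * ((D.K : ℝ) ^ 21 *
    (tt D.K j * (tt D.K j / D.δ) * (tt D.K j / D.δ) ^ D.u * D.P.card)) with hA
  set S := (D.K : ℝ) ^ 3 *
    ((D.K : ℝ) ^ 50 * (tt D.K j / D.δ) ^ 2 * (tt D.K j / D.δ ^ 2) ^ D.u) with hS'
  have hA0 : 0 ≤ A := by positivity
  have hS0 : 0 ≤ S := by positivity
  have h2 : RR (l * D.om j) (ff D j l) n 0 0 n ≤ ENNReal.ofReal ((n + 1 : ℕ) * (8 * A * S)) := by
    unfold RR
    calc _ ≤ ∑ _i ∈ Icc 0 n, ENNReal.ofReal (8 * A * S) := by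
          refine sum_le_sum fun i hi => ?_
          have hi' := (mem_Icc.1 hi).2
          refine (sum_le_sum fun q hq =>
            box_le hB hS h hK hj hjN hk hl hH hi' (mem_ch.1 hq).1).trans ?_
          rw [← sum_mul, ← mul_sum, ENNReal.ofReal_mul (p := 8 * A) (by positivity),
            ENNReal.ofReal_mul (p := 8) (by norm_num), ENNReal.ofReal_ofNat]
          gcongr
          exact level_le hL h hK hj hjN hl4 hH hi'
      _ = _ := by
          rw [sum_const, Nat.card_Icc, Nat.sub_zero, nsmul_eq_mul,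
            ENNReal.ofReal_mul (Nat.cast_nonneg _), ENNReal.ofReal_natCast]
  refine (mul_le_mul_right h2 _).trans ?_
  rw [← ENNReal.ofReal_mul (by positivity)]
  refine ENNReal.ofReal_le_ofReal ?_
  have a1 : ((2 : ℝ) ^ n) ^ ε ≤ ((D.K : ℝ) ^ D.N) ^ ε := by
    rw [hn, two_pow hK]
    exact Real.rpow_le_rpow (by positivity) (pow_le_pow_right₀ hK' (by omega)) hε.le
  have a2 : ((n + 1 : ℕ) : ℝ) * 8 ≤ (D.K : ℝ) ^ 3 := by
    have b1 : b ≤ D.K := by rw [hK]; exact Nat.lt_two_pow_self.le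
    have b2 : n ≤ D.K * D.N := Nat.mul_le_mul b1 (by omega)
    have b3 : (n : ℝ) ≤ D.K * D.N := by exact_mod_cast b2
    have b4 := h.K_ge_N
    have b5 : (1 : ℝ) ≤ D.N := by exact_mod_cast h.N_ge
    have b6 : 9 * (D.N : ℝ) ≤ D.K := by nlinarith
    have b7 : (D.K : ℝ) ^ 2 ≤ (D.K : ℝ) ^ 3 := pow_le_pow_right₀ hK' (by norm_num)
    push_cast
    nlinarith
  calc _ = C * ((2 : ℝ) ^ n) ^ ε * ((((n + 1 : ℕ) : ℝ) * 8) * (A * S)) := by ring
    _ ≤ C * ((D.K : ℝ) ^ D.N) ^ ε * ((D.K : ℝ) ^ 3 * (A * S)) := by gcongr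
    _ = _ := by rw [hA, hS']; ring

end Pool.Agent.MP_538dc4_an
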