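import Pool.Agent.MP_538dc4_an.Shear

/-! PROJECT FURST: the local L2 estimate. -/

open MeasureTheory Finset
open scoped ENNReal FourierTransform ComplexConjugate RealInnerProductSpace

namespace Pool.Agent.MP_538dc4_an

namespace Loc

variable {k m : ℝ → ℝ} {c : ℝ}

/-- The product multiplier. -/
noncomputable def MM (m : ℝ → ℝ) (γ0 γ1 l : ℝ) (y : E2) : ℝ := m (y 0 / γ0 - l) * m (y 1 / γ1 - 0)

theorem int_m (hk : Ker k m c) {γ : ℝ} (hγ : 0 < γ) (l : ℝ) :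
    Integrable fun α : ℝ => m (α / γ - l) := by
  have := ((cov_affine (inv_pos.2 hγ) l).integrable_iff m).2 hk.m_int
  simpa only [div_eq_inv_mul] using this

theorem int_MM (hk : Ker k m c) {γ0 γ1 : ℝ} (h0 : 0 < γ0) (h1 : 0 < γ1) (l : ℝ) :
    Integrable fun y : E2 => (MM m γ0 γ1 l y : ℂ) :=
  (integrable_E2_prod (int_m hk h0 l) (int_m hk h1 0)).ofReal

theorem MM_nonneg (hk : Ker k m c) (γ0 γ1 l : ℝ) (y : E2) : 0 ≤ MM m γ0 γ1 l y :=
  mul_nonneg (hk.m_nonneg _) (hk.m_nonneg _)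

theorem MM_le (hk : Ker k m c) (γ0 γ1 l : ℝ) (y : E2) : MM m γ0 γ1 l y ≤ 1 :=
  mul_le_one₀ (hk.m_le _) (hk.m_nonneg _) (hk.m_le _)

theorem inv2 (hk : Ker k m c) {γ0 γ1 : ℝ} (h0 : 0 < γ0) (h1 : 0 < γ1) (l x0 x1 : ℝ) :
    ∫ y : E2, ee (y 0 * x0 + y 1 * x1) * (MM m γ0 γ1 l y : ℂ) =
      ((γ0 * γ1 : ℝ) : ℂ) * ((k (γ0 * x0) : ℂ) * ee (l * γ0 * x0) * (k (γ1 * x1) : ℂ)) := by
  have := integral_E2_prod (fun α => (m (α / γ0 - l) : ℂ) * ee (α * x0))
    (fun α => (m (α / γ1 - 0) : ℂ) * ee (α * x1))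
  rw [hk.inv_affine h0, hk.inv_affine h1] at this
  simp only [zero_mul, ee_zero, mul_one] at this
  refine Eq.trans ?_ (this.trans (by push_cast; ring))
  congr 1; ext y
  rw [ee_add]; unfold MM; push_cast; ring

theorem int_term (hk : Ker k m c) {γ0 γ1 : ℝ} (h0 : 0 < γ0) (h1 : 0 < γ1) (l x0 x1 : ℝ) :
    Integrable fun y : E2 => ee (y 0 * x0 + y 1 * x1) * (MM m γ0 γ1 l y : ℂ) :=
  integrable_ee_mul (int_MM hk h0 h1 l) (by fun_prop)

/-- The wave packet sum is an inverse Fourier transform. -/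
theorem packet_le (hk : Ker k m c) {γ0 γ1 : ℝ} (h0 : 0 < γ0) (h1 : 0 < γ1) (l e a : ℝ)
    (Q : Finset E2) (w : E2 → ℝ) :
    ∫⁻ y : E2, ENNReal.ofReal (‖∑ z ∈ Q, (w z : ℂ) * ((k (γ0 * (y 0 - N0 e a z)) : ℂ) *
        ee (l * γ0 * (y 0 - N0 e a z)) * (k (γ1 * (y 1 - N1 e a z)) : ℂ))‖ ^ 2) ≤
      ∫⁻ y : E2, ENNReal.ofReal
        (((γ0 * γ1)⁻¹ * (MM m γ0 γ1 l y * ‖ftp Q w (fr e a (y 0) (y 1))‖)) ^ 2) := by
  have hγ : 0 < γ0 * γ1 := mul_pos h0 h1
  let Ψ : E2 → ℂ := fun y => (((γ0 * γ1)⁻¹ : ℝ) : ℂ) *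
    ((MM m γ0 γ1 l y : ℂ) * ftp Q w (fr e a (y 0) (y 1)))
  have e1 : ∀ x y : E2, ee ⟪y, x⟫ * Ψ y = ∑ z ∈ Q, (((γ0 * γ1)⁻¹ : ℝ) : ℂ) * (w z : ℂ) *
      (ee (y 0 * (x 0 - N0 e a z) + y 1 * (x 1 - N1 e a z)) * (MM m γ0 γ1 l y : ℂ)) := by
    intro x y
    simp only [Ψ, ftp, mul_sum]
    refine sum_congr rfl fun z _ => ?_
    rw [inner_fr, inner_E2, show y 0 * (x 0 - N0 e a z) + y 1 * (x 1 - N1 e a z) =
      (y 0 * x 0 + y 1 * x 1) + -(y 0 * N0 e a z + y 1 * N1 e a z) by ring,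
      ee_add (y 0 * x 0 + y 1 * x 1)]
    ring
  have hΨ : Integrable Ψ := by
    have := e1 0
    simp only [inner_zero_right, ee_zero, one_mul] at this
    rw [show Ψ = _ from funext this]
    exact integrable_finsetSum _ fun z _ => (int_term hk h0 h1 l _ _).const_mul _
  have e2 : ∀ x : E2, 𝓕⁻ Ψ x = ∑ z ∈ Q, (w z : ℂ) * ((k (γ0 * (x 0 - N0 e a z)) : ℂ) *
      ee (l * γ0 * (x 0 - N0 e a z)) * (k (γ1 * (x 1 - N1 e a z)) : ℂ)) := by
    intro x
    rw [fourierInv_eq_ee]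
    simp only [e1]
    rw [integral_finsetSum _ fun z _ => (int_term hk h0 h1 l _ _).const_mul _]
    refine sum_congr rfl fun z _ => ?_
    rw [integral_const_mul, inv2 hk h0 h1]
    have : ((γ0 * γ1 : ℝ) : ℂ) ≠ 0 := by exact_mod_cast hγ.ne'
    rw [Complex.ofReal_inv]
    field_simp
  have := besselInv hΨ
  simp only [e2] at this
  refine this.trans (le_of_eq ?_)
  congr 1; ext y
  simp only [Ψ, norm_mul, Complex.norm_real, Real.norm_of_nonneg (inv_pos.2 hγ).le,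
    Real.norm_of_nonneg (MM_nonneg hk γ0 γ1 l y)]

/-- The energy identity. -/
theorem energy (hk : Ker k m c) {γ0 γ1 : ℝ} (h0 : 0 < γ0) (h1 : 0 < γ1) (e a : ℝ)
    (Q : Finset E2) (w : E2 → ℝ) :
    ∫⁻ y : E2, ENNReal.ofReal (MM m γ0 γ1 0 y * ‖ftp Q w (fr e a (y 0) (y 1))‖ ^ 2) =
      ENNReal.ofReal (γ0 * γ1 * ∑ z ∈ Q, w z * ∑ z' ∈ Q, w z' *
        (k (γ0 * N0 e a (z' - z)) * k (γ1 * N1 e a (z' - z)))) := by
  have e1 : ∀ y : E2, ((MM m γ0 γ1 0 y * ‖ftp Q w (fr e a (y 0) (y 1))‖ ^ 2 : ℝ) : ℂ) =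
      ∑ z ∈ Q, ∑ z' ∈ Q, (w z : ℂ) * (w z' : ℂ) *
        (ee (y 0 * N0 e a (z' - z) + y 1 * N1 e a (z' - z)) * (MM m γ0 γ1 0 y : ℂ)) := by
    intro y
    rw [Complex.ofReal_mul, Complex.ofReal_pow, ← Complex.mul_conj']
    rw [ftp, map_sum, sum_mul_sum]
    simp only [map_mul, Complex.conj_ofReal, conj_ee, mul_sum]
    refine sum_congr rfl fun z _ => sum_congr rfl fun z' _ => ?_
    rw [inner_fr, inner_fr, N0_sub, N1_sub,
      show y 0 * (N0 e a z' - N0 e a z) + y 1 * (N1 e a z' - N1 e a z) =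
        -(y 0 * N0 e a z + y 1 * N1 e a z) + - -(y 0 * N0 e a z' + y 1 * N1 e a z') by ring,
      ee_add (-(y 0 * N0 e a z + y 1 * N1 e a z))]
    ring
  have hi : ∀ z ∈ Q, Integrable fun y : E2 => ∑ z' ∈ Q, (w z : ℂ) * (w z' : ℂ) *
      (ee (y 0 * N0 e a (z' - z) + y 1 * N1 e a (z' - z)) * (MM m γ0 γ1 0 y : ℂ)) :=
    fun z _ => integrable_finsetSum _ fun z' _ => (int_term hk h0 h1 0 _ _).const_mul _
  have hI : Integrable fun y : E2 =>
      ((MM m γ0 γ1 0 y * ‖ftp Q w (fr e a (y 0) (y 1))‖ ^ 2 : ℝ) : ℂ) := by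
    simp only [e1]; exact integrable_finsetSum _ hi
  have hI' : Integrable fun y : E2 => MM m γ0 γ1 0 y * ‖ftp Q w (fr e a (y 0) (y 1))‖ ^ 2 := by
    exact hI.re
  rw [← ofReal_integral_eq_lintegral_ofReal hI' (Filter.Eventually.of_forall fun y =>
    mul_nonneg (MM_nonneg hk _ _ _ _) (sq_nonneg _))]
  congr 1
  apply Complex.ofReal_injective
  rw [← integral_complex_ofReal]
  simp only [e1]
  rw [integral_finsetSum _ hi]
  push_cast
  simp only [mul_sum]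
  refine sum_congr rfl fun z _ => ?_
  rw [integral_finsetSum _ fun z' _ => (int_term hk h0 h1 0 _ _).const_mul _]
  refine sum_congr rfl fun z' _ => ?_
  rw [integral_const_mul, inv2 hk h0 h1]
  simp only [zero_mul, ee_zero, mul_one]
  push_cast; ring

theorem measurableSet_Sec (e : ℝ) (K : ℕ) (h : ℝ) (l p : ℕ) (x : ℝ) :
    MeasurableSet (Sec e K h l p x) := by
  have := continuous_dt e (bs K l p)
  refine IsClosed.measurableSet ?_
  unfold Sec
  refine IsClosed.and ?_ (IsClosed.and ?_ ?_) <;> exact isClosed_le (by fun_prop) (by fun_prop)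

/-- The frequency window lies in the sector. -/
theorem win_ineq {e a b h s α β : ℝ} (he : 0 ≤ e) (he1 : e ≤ 1) (ha : 0 ≤ a) (ha1 : a ≤ 1)
    (hb : 0 ≤ b) (hb1 : b ≤ 1) (hab : |a - b| ≤ s) (hs1 : s ≤ 1) (hh : 0 < h)
    (hα : |α - h| ≤ h / 4) (hβ : |β| ≤ h * s / 12) :
    (1 / 2 - 0) * h ≤ |α * (1 - e * a ^ 2) - 2 * e * a * β| + |α * a + β| ∧
      |α * (1 - e * a ^ 2) - 2 * e * a * β| + |α * a + β| ≤ (3 + 0) * h ∧
      |α * ((a - b) * (1 + e * a * b)) + β * (1 - e * b ^ 2 + 2 * e * a * b)| ≤ (8 + 0) * h * s := by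
  have hs : 0 ≤ s := (abs_nonneg _).trans hab
  obtain ⟨hα1, hα2⟩ := abs_le.1 hα
  have hα0 : 0 ≤ α := by linarith
  have hβ' : |β| ≤ h / 12 := hβ.trans (by nlinarith)
  have hea : 0 ≤ e * a := mul_nonneg he ha
  have hea1 : e * a ≤ 1 := mul_le_one₀ he1 ha ha1
  have hea2 : e * a ^ 2 ≤ a := by nlinarith
  have hea3 : 0 ≤ e * a ^ 2 := by positivity
  have t1 : |2 * e * a * β| ≤ 2 * |β| := by
    rw [abs_mul, abs_of_nonneg (by linarith : 0 ≤ 2 * e * a)]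
    nlinarith [abs_nonneg β]
  have t2 : 0 ≤ α * (1 - e * a ^ 2) := mul_nonneg hα0 (by linarith)
  have t3 : 0 ≤ α * a := mul_nonneg hα0 ha
  have t4 : α ≤ α * (1 - e * a ^ 2) + α * a := by nlinarith
  have t5 : α * (1 - e * a ^ 2) + α * a ≤ 2 * α := by nlinarith
  obtain ⟨u1, u2⟩ := abs_le.1 t1
  obtain ⟨u3, u4⟩ := abs_le.1 (le_refl |β|)
  refine ⟨?_, ?_, ?_⟩
  · have := le_abs_self (α * (1 - e * a ^ 2) - 2 * e * a * β)
    have := le_abs_self (α * a + β)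
    linarith
  · have : |α * (1 - e * a ^ 2) - 2 * e * a * β| ≤ α * (1 - e * a ^ 2) + 2 * |β| :=
      abs_le.2 ⟨by linarith, by linarith⟩
    have : |α * a + β| ≤ α * a + |β| := abs_le.2 ⟨by linarith, by linarith⟩
    linarith
  · have heab : 0 ≤ e * a * b := mul_nonneg hea hb
    have heab1 : e * a * b ≤ 1 := mul_le_one₀ hea1 hb hb1
    have heb : 0 ≤ e * b ^ 2 := by positivity
    have heb1 : e * b ^ 2 ≤ 1 := mul_le_one₀ he1 (sq_nonneg b) (pow_le_one₀ hb hb1)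
    have v1 : |α * ((a - b) * (1 + e * a * b))| ≤ 5 / 4 * h * (s * 2) := by
      rw [abs_mul, abs_mul, abs_of_nonneg hα0, abs_of_nonneg (by linarith : 0 ≤ 1 + e * a * b)]
      gcongr <;> linarith
    have v2 : |β * (1 - e * b ^ 2 + 2 * e * a * b)| ≤ h * s / 12 * 3 := by
      rw [abs_mul, abs_of_nonneg (by linarith : 0 ≤ 1 - e * b ^ 2 + 2 * e * a * b)]
      gcongr
      linarith
    have := abs_add_le (α * ((a - b) * (1 + e * a * b))) (β * (1 - e * b ^ 2 + 2 * e * a * b))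
    have : 0 ≤ h * s := mul_nonneg hh.le hs
    nlinarith

theorem abs_lt_of_m (hk : Ker k m c) {x : ℝ} (h : m x ≠ 0) : |x| < 1 :=
  lt_of_not_ge fun h' => h (hk.m_supp x h')

/-- Step one: a single wave packet sum. -/
theorem step1 (D : Dat) (hD : D.Ok) {j l θ p : ℕ} (Q : Finset E2) (hj : 4 ≤ j) (hl : 4 ≤ l)
    (hp : p ∈ ch D.K (j - 3) θ j) :
    ∫⁻ y, ENNReal.ofReal (‖D.Gp Q j l p y‖ ^ 2) ≤
      ENNReal.ofReal ((D.om j * D.be j)⁻¹ ^ 2) *
        ∫⁻ ξ in Sec D.e D.K (l * D.om j) (j - 3) θ 0,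
          ENNReal.ofReal (‖ftp Q (cw D.K D.χ (j - 2) (j - 2) (j - 3) θ) ξ‖ ^ 2) := by
  have hK := hD.K_pos
  have hK' := hD.K_ge_1000
  have hom := hD.om_pos j
  have hbe := hD.be_pos j
  have hw : D.wt j p = cw D.K D.χ (j - 2) (j - 2) (j - 3) θ := by
    ext z
    rw [Dat.wt, cw_parent (j1 := j - 3) _ (by omega) (by omega), (mem_ch.1 hp).2]
  have h1 := packet_le hD.ker hom hbe l D.e (bs D.K j p) Q (D.wt j p)
  refine le_trans (le_of_eq rfl) (h1.trans ?_)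
  rw [hw, ← lintegral_indicator (measurableSet_Sec _ _ _ _ _ _)]
  have h2 := (cov_fr hD.e_nonneg (bs D.K j p)).lintegral
    ((Sec D.e D.K (l * D.om j) (j - 3) θ 0).indicator fun ξ =>
      ENNReal.ofReal (‖ftp Q (cw D.K D.χ (j - 2) (j - 2) (j - 3) θ) ξ‖ ^ 2))
  have h3 : ENNReal.ofReal (1 + D.e * bs D.K j p ^ 2)⁻¹ ≤ 1 := by
    rw [ENNReal.ofReal_le_one]
    exact inv_le_one_of_one_le₀ (by have := hD.e_nonneg; nlinarith [sq_nonneg (bs D.K j p)])
  refine le_trans ?_ (mul_le_mul_right (h2.le.trans (mul_le_of_le_one_left' h3)) _)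
  rw [← lintegral_const_mul' _ _ ENNReal.ofReal_ne_top]
  refine lintegral_mono fun y => ?_
  by_cases hM : MM D.m (D.om j) (D.be j) l y = 0
  · simp [hM]
  have hy0 := abs_lt_of_m hD.ker (left_ne_zero_of_mul hM)
  have hy1 := abs_lt_of_m hD.ker (right_ne_zero_of_mul hM)
  have hl' : (4 : ℝ) ≤ l := by exact_mod_cast hl
  have hmem : fr D.e (bs D.K j p) (y 0) (y 1) ∈ Sec D.e D.K (l * D.om j) (j - 3) θ 0 := by
    have hθ : θ < D.K ^ (j - 3) := lt_of_mem_ch hK (by omega) hp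
    obtain ⟨d1, d2⟩ := bs_sub_of_mem_ch hK (by omega : j - 3 ≤ j) hp
    have hP : (1 : ℝ) ≤ (D.K : ℝ) ^ (j - 3) := one_le_pow₀ (by linarith)
    have hα : |y 0 - l * D.om j| ≤ l * D.om j / 4 := by
      rw [show y 0 - l * D.om j = (y 0 / D.om j - l) * D.om j by field_simp, abs_mul,
        abs_of_pos hom]
      nlinarith
    have hβ : |y 1| ≤ l * D.om j * ((D.K : ℝ) ^ (j - 3))⁻¹ / 12 := by
      rw [sub_zero, abs_div, abs_of_pos hbe, div_lt_one hbe] at hy1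
      have e1 : D.om j * ((D.K : ℝ) ^ (j - 3))⁻¹ = D.L * D.K * (D.K : ℝ) ^ j := by
        rw [Dat.Ok.om_eq, show 2 * (j - 1) = (j - 3) + (j + 1) by omega, pow_add, pow_succ]
        field_simp
      have e2 : D.be j ≤ (D.K : ℝ) ^ j := by
        have := hD.ker.c_le; have := hD.R_ge
        have : (0 : ℝ) < (D.K : ℝ) ^ j := by positivity
        rw [Dat.be, div_le_iff₀ (by linarith)]; nlinarith
      have e3 : (1000 : ℝ) ≤ D.L * D.K := by have := hD.L_ge; nlinarith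
      have e4 : (12 : ℝ) ≤ l * (D.L * D.K) := by nlinarith
      have : (0 : ℝ) < (D.K : ℝ) ^ j := by positivity
      rw [mul_assoc, e1]
      nlinarith
    have := win_ineq hD.e_nonneg hD.e_le (bs_nonneg D.K j p) (bs_lt_one (mem_ch.1 hp).1).le
      (bs_nonneg D.K (j - 3) θ) (bs_lt_one hθ).le
      (abs_le.2 ⟨by linarith [inv_pos.2 (zero_lt_one.trans_le hP)], d2.le⟩)
      (inv_le_one_of_one_le₀ hP) (by positivity) hα hβ
    refine ⟨this.1, this.2.1, ?_⟩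
    rw [dt_fr, div_eq_mul_inv]
    exact this.2.2
  rw [Set.indicator_of_mem hmem, ← ENNReal.ofReal_mul (sq_nonneg _), ← mul_pow]
  refine ENNReal.ofReal_le_ofReal ?_
  have := MM_nonneg hD.ker (D.om j) (D.be j) l y
  have := MM_le hD.ker (D.om j) (D.be j) l y
  gcongr
  exact mul_le_of_le_one_left (norm_nonneg _) this

/-- A sector is covered by the region where the multiplier is large. -/
theorem sec_ineq {e b h B c α β : ℝ} {K l p : ℕ} (he : 0 ≤ e) (he1 : e ≤ 1) (hb0 : 0 ≤ b)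
    (hb1 : b ≤ 1) (hb : b = bs K l p) (hB : B = (K : ℝ) ^ l) (hB0 : 0 < B) (hh : 0 < h)
    (hc : 0 < c) (hm : fr e b α β ∈ Sec e K h l p (1 / 4)) :
    |α / (7 * h / c) - 0| ≤ c ∧ |β / (9 * h / (c * B)) - 0| ≤ c := by
  obtain ⟨-, h2, h3⟩ := hm
  rw [← hb, ← hB, dt_fr] at h3
  have heb : 0 ≤ e * b ^ 2 := by positivity
  have heb1 : e * b ≤ 1 := mul_le_one₀ he1 hb0 hb1
  have heb0 : 0 ≤ e * b := mul_nonneg he hb0
  have i1 : α * (1 + e * b ^ 2) = fr e b α β 0 + 2 * e * b * fr e b α β 1 := by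
    simp only [fr, v2_0, v2_1]; ring
  have i2 : α * ((b - b) * (1 + e * b * b)) + β * (1 - e * b ^ 2 + 2 * e * b * b) =
      β * (1 + e * b ^ 2) := by ring
  rw [i2, abs_mul, abs_of_pos (by linarith : 0 < 1 + e * b ^ 2)] at h3
  have j1 : |α| * (1 + e * b ^ 2) ≤ 7 * h := by
    rw [← abs_of_pos (by linarith : 0 < 1 + e * b ^ 2), ← abs_mul, i1]
    have := abs_add_le (fr e b α β 0) (2 * e * b * fr e b α β 1)
    rw [abs_mul, abs_of_nonneg (by linarith : 0 ≤ 2 * e * b)] at this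
    nlinarith [abs_nonneg (fr e b α β 0), abs_nonneg (fr e b α β 1)]
  have j2 : |α| ≤ 7 * h := le_trans (by nlinarith [abs_nonneg α]) j1
  have j3 : |β| ≤ 9 * h / B := by
    refine le_trans (by nlinarith [abs_nonneg β]) (h3.trans ?_)
    gcongr; norm_num
  constructor
  · rw [sub_zero, abs_div, abs_of_pos (by positivity : 0 < 7 * h / c),
      div_le_iff₀ (by positivity)]
    rwa [mul_div_cancel₀ _ hc.ne']
  · rw [sub_zero, abs_div, abs_of_pos (by positivity : 0 < 9 * h / (c * B)),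
      div_le_iff₀ (by positivity)]
    rwa [show c * (9 * h / (c * B)) = 9 * h / B by field_simp]

/-- The inner sum of the energy. -/
theorem inner_le (D : Dat) (hD : D.Ok) {J l p : ℕ} {Q : Finset E2} (hQ : Q ⊆ D.P) (hl : l < J)
    (hJ : J ≤ D.N) {γ0 γ1 : ℝ} (h0 : D.L ≤ γ0 * tt D.K J) (h1 : D.L ≤ γ1 * rr D.K J l) (z : E2) :
    ∑ z' ∈ Q, cw D.K D.χ J (l + 1) l p z' * (D.k (γ0 * N0 D.e (bs D.K l p) (z' - z)) *
      D.k (γ1 * N1 D.e (bs D.K l p) (z' - z))) ≤ 14 * Lam D.K D.N D.u J l := by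
  classical
  have hk := hD.ker
  have hη := hD.η_nonneg
  have hL := hD.L_ge
  have ht := tt_pos hD.K_pos J
  have hr := rr_pos hD.K_pos J l
  have g0 : 0 < γ0 := (mul_pos_iff_of_pos_right ht).1 (by linarith)
  have g1 : 0 < γ1 := (mul_pos_iff_of_pos_right hr).1 (by linarith)
  have hw0 := cw_nonneg (K := D.K) hD.prune.nonneg
  have hw1 := cw_le_one (K := D.K) hD.prune.nonneg hD.prune.le_one
  have key : ∀ z' ∈ D.P, cw D.K D.χ J (l + 1) l p z' * (D.k (γ0 * N0 D.e (bs D.K l p) (z' - z)) *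
      D.k (γ1 * N1 D.e (bs D.K l p) (z' - z))) ≤
      4 * (if Rect D.e D.K J l p 1 z z' then D.χ J l p z' * cw D.K D.χ J l l p z' else 0) +
        2 * D.η := by
    intro z' _
    have a0 := hk.k_nonneg (γ0 * N0 D.e (bs D.K l p) (z' - z))
    have a1 := hk.k_nonneg (γ1 * N1 D.e (bs D.K l p) (z' - z))
    have b0 := hk.k_le (γ0 * N0 D.e (bs D.K l p) (z' - z))
    have b1 := hk.k_le (γ1 * N1 D.e (bs D.K l p) (z' - z))
    have c0 := hw0 J (l + 1) l p z'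
    have c1 := hw1 J (l + 1) l p z'
    split_ifs with hR
    · have := cw_le_heavy (K := D.K) hD.prune.nonneg hD.prune.le_one (le_refl J)
        (Nat.lt_succ_self l) hl (le_refl l) p z'
      simp only [Nat.sub_self, pow_zero, Nat.div_one] at this
      have d : D.k (γ0 * N0 D.e (bs D.K l p) (z' - z)) *
        D.k (γ1 * N1 D.e (bs D.K l p) (z' - z)) ≤ 4 := by nlinarith
      nlinarith [mul_nonneg a0 a1]
    · have d : D.k (γ0 * N0 D.e (bs D.K l p) (z' - z)) *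
          D.k (γ1 * N1 D.e (bs D.K l p) (z' - z)) ≤ 2 * D.η := by
        rw [Rect, not_and_or, not_le, not_le, one_mul, one_mul] at hR
        rcases hR with hR | hR
        · have := hD.tail.1 (γ0 * N0 D.e (bs D.K l p) (z' - z)) (by
            rw [abs_mul, abs_of_pos g0]; nlinarith)
          nlinarith
        · have := hD.tail.1 (γ1 * N1 D.e (bs D.K l p) (z' - z)) (by
            rw [abs_mul, abs_of_pos g1]; nlinarith)
          nlinarith
      nlinarith [mul_nonneg a0 a1]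
  have hH := hD.prune.heavy J l (by omega) p z
  have h1L := one_le_Lam (N := D.N) hD.K_pos hD.u_pos.le hJ l
  have hc := hD.η_card_le
  calc _ ≤ ∑ z' ∈ D.P, cw D.K D.χ J (l + 1) l p z' * (D.k (γ0 * N0 D.e (bs D.K l p) (z' - z)) *
        D.k (γ1 * N1 D.e (bs D.K l p) (z' - z))) :=
        sum_le_sum_of_subset_of_nonneg hQ fun z' _ _ =>
          mul_nonneg (hw0 _ _ _ _ _) (mul_nonneg (hk.k_nonneg _) (hk.k_nonneg _))
    _ ≤ _ := sum_le_sum key
    _ ≤ _ := by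
        rw [sum_add_distrib, ← mul_sum, ← sum_filter, sum_const, nsmul_eq_mul]
        have : ∑ z' ∈ D.P.filter (Rect D.e D.K J l p 1 z), D.χ J l p z' * cw D.K D.χ J l l p z'
          ≤ Lam D.K D.N D.u J l + 2 * D.η * D.P.card := by convert hH
        nlinarith

/-- Step three: the energy in a wide sector. -/
theorem step3 (D : Dat) (hD : D.Ok) {J l p : ℕ} {Q : Finset E2} (hQ : Q ⊆ D.P) (hl : l < J)
    (hJ : J ≤ D.N) (hp : p < D.K ^ l) {h : ℝ} (hh : D.L ≤ h * tt D.K J) :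
    ∫⁻ ξ in Sec D.e D.K h l p (1 / 4), ENNReal.ofReal (‖ftp Q (cw D.K D.χ J (l + 1) l p) ξ‖ ^ 2) ≤
      ENNReal.ofReal (7056 * h ^ 2 / (D.c ^ 2 * (D.K : ℝ) ^ l) *
        ((∑ z ∈ Q, cw D.K D.χ J (l + 1) l p z) * Lam D.K D.N D.u J l)) := by
  have hk := hD.ker
  have hc := hk.c_pos
  have hc1 := hk.c_le
  have hL := hD.L_ge
  have ht := tt_pos hD.K_pos J
  have hK : (0 : ℝ) < D.K := by exact_mod_cast hD.K_pos
  have hB : (0 : ℝ) < (D.K : ℝ) ^ l := by positivity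
  have hh0 : 0 < h := (mul_pos_iff_of_pos_right ht).1 (by linarith)
  have g0 : 0 < 7 * h / D.c := by positivity
  have g1 : 0 < 9 * h / (D.c * (D.K : ℝ) ^ l) := by positivity
  have hb0 := bs_nonneg D.K l p
  have hb1 := (bs_lt_one hp).le
  have he := hD.e_nonneg
  have he1 := hD.e_le
  rw [← lintegral_indicator (measurableSet_Sec _ _ _ _ _ _)]
  have h2 := (cov_fr he (bs D.K l p)).lintegral
    ((Sec D.e D.K h l p (1 / 4)).indicator fun ξ =>
      ENNReal.ofReal (‖ftp Q (cw D.K D.χ J (l + 1) l p) ξ‖ ^ 2))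
  have h3 : 1 ≤ ENNReal.ofReal 2 * ENNReal.ofReal (1 + D.e * bs D.K l p ^ 2)⁻¹ := by
    rw [← ENNReal.ofReal_mul (by norm_num), ← ENNReal.ofReal_one]
    refine ENNReal.ofReal_le_ofReal ?_
    have : D.e * bs D.K l p ^ 2 ≤ 1 := mul_le_one₀ he1 (sq_nonneg _) (pow_le_one₀ hb0 hb1)
    rw [← div_eq_mul_inv, le_div_iff₀ (by positivity)]; linarith
  have h4 : ∀ y : E2, (Sec D.e D.K h l p (1 / 4)).indicator (fun ξ =>
      ENNReal.ofReal (‖ftp Q (cw D.K D.χ J (l + 1) l p) ξ‖ ^ 2)) (fr D.e (bs D.K l p) (y 0) (y 1)) ≤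
      ENNReal.ofReal 4 * ENNReal.ofReal (MM D.m (7 * h / D.c) (9 * h / (D.c * (D.K : ℝ) ^ l)) 0 y *
        ‖ftp Q (cw D.K D.χ J (l + 1) l p) (fr D.e (bs D.K l p) (y 0) (y 1))‖ ^ 2) := by
    intro y
    by_cases hm : fr D.e (bs D.K l p) (y 0) (y 1) ∈ Sec D.e D.K h l p (1 / 4)
    · rw [Set.indicator_of_mem hm, ← ENNReal.ofReal_mul (by norm_num)]
      refine ENNReal.ofReal_le_ofReal ?_
      obtain ⟨s0, s1⟩ := sec_ineq he he1 hb0 hb1 rfl rfl hB hh0 hc hm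
      have m0 := hk.m_low _ s0
      have m1 := hk.m_low _ s1
      have : 1 / 2 * (1 / 2) ≤ MM D.m (7 * h / D.c) (9 * h / (D.c * (D.K : ℝ) ^ l)) 0 y :=
        mul_le_mul m0 m1 (by norm_num) (by linarith)
      nlinarith [sq_nonneg ‖ftp Q (cw D.K D.χ J (l + 1) l p) (fr D.e (bs D.K l p) (y 0) (y 1))‖]
    · rw [Set.indicator_of_notMem hm]; exact zero_le
  have h5 := lintegral_mono (μ := volume) h4
  rw [lintegral_const_mul' _ _ ENNReal.ofReal_ne_top, energy hk g0 g1, h2] at h5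
  refine (le_mul_of_one_le_left' h3).trans ?_
  rw [mul_assoc]
  refine (mul_le_mul_right h5 _).trans ?_
  rw [← ENNReal.ofReal_mul (by norm_num), ← ENNReal.ofReal_mul (by norm_num)]
  refine ENNReal.ofReal_le_ofReal ?_
  have i0 : D.L ≤ 7 * h / D.c * tt D.K J := by
    have : h ≤ 7 * h / D.c := by rw [le_div_iff₀ hc]; nlinarith
    nlinarith
  have i1 : D.L ≤ 9 * h / (D.c * (D.K : ℝ) ^ l) * rr D.K J l := by
    have : h ≤ 9 * h / D.c := by rw [le_div_iff₀ hc]; nlinarith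
    rw [show 9 * h / (D.c * (D.K : ℝ) ^ l) * rr D.K J l = 9 * h / D.c * tt D.K J by
      unfold rr; field_simp]
    nlinarith
  have h6 : ∑ z ∈ Q, cw D.K D.χ J (l + 1) l p z * ∑ z' ∈ Q, cw D.K D.χ J (l + 1) l p z' *
      (D.k (7 * h / D.c * N0 D.e (bs D.K l p) (z' - z)) *
        D.k (9 * h / (D.c * (D.K : ℝ) ^ l) * N1 D.e (bs D.K l p) (z' - z))) ≤
      (∑ z ∈ Q, cw D.K D.χ J (l + 1) l p z) * (14 * Lam D.K D.N D.u J l) := by
    rw [sum_mul]
    exact sum_le_sum fun z _ => mul_le_mul_of_nonneg_left (inner_le D hD hQ hl hJ i0 i1 z)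
      (cw_nonneg hD.prune.nonneg _ _ _ _ _)
  calc _ ≤ 2 * (4 * (7 * h / D.c * (9 * h / (D.c * (D.K : ℝ) ^ l)) *
        ((∑ z ∈ Q, cw D.K D.χ J (l + 1) l p z) * (14 * Lam D.K D.N D.u J l)))) := by gcongr
    _ = _ := by field_simp; ring

/-- The constants. -/
theorem const_le {K A A' B R L c h T : ℝ} (hK : 0 < K) (hA' : 0 < A') (hB : 0 < B) (hR : 1 ≤ R)
    (hL : 1 ≤ L) (hc : 0 < c) (hA : A ^ 2 = A' * K ^ 2) (hA0 : 0 < A) (hh0 : 0 ≤ h)
    (hh : h ≤ A ^ 2) (hT : T ≤ K) (hT0 : 0 ≤ T) (hK1 : 1 ≤ K)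
    (hbig : 1000 * R ^ 2 * L ^ 2 ≤ c ^ 2 * K) :
    K ^ 3 * (L * A' * (c * A / (4 * R + 7)))⁻¹ ^ 2 * T * (7056 * h ^ 2 / (c ^ 2 * B)) ≤
      K ^ 12 * ((A ^ 2)⁻¹ / B) := by
  have h1 : (L * A' * (c * A / (4 * R + 7)))⁻¹ ≤ 11 * R / (A' * c * A) := by
    rw [inv_eq_one_div, div_le_div_iff₀ (by positivity) (by positivity)]
    have : A' * c * A ≤ L * (A' * c * A) := le_mul_of_one_le_left (by positivity) hL
    calc 1 * (A' * c * A) ≤ 11 * R / (4 * R + 7) * (L * (A' * c * A)) :=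
          mul_le_mul (by rw [le_div_iff₀ (by positivity)]; linarith) this (by positivity)
            (by positivity)
      _ = _ := by field_simp
  have h2 : 853776 * R ^ 2 ≤ c ^ 4 * K ^ 2 := by
    have a1 : 1000 * R ^ 2 ≤ c ^ 2 * K := by
      have : (1 : ℝ) ≤ L ^ 2 := one_le_pow₀ hL
      nlinarith [sq_nonneg R]
    have a2 : (1 : ℝ) ≤ R ^ 2 := one_le_pow₀ hR
    have a3 : (1000 * R ^ 2) ^ 2 ≤ (c ^ 2 * K) ^ 2 := by gcongr
    nlinarith
  calc _ ≤ K ^ 3 * (11 * R / (A' * c * A)) ^ 2 * K * (7056 * (A ^ 2) ^ 2 / (c ^ 2 * B)) := by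
        gcongr
    _ = K ^ 8 * (853776 * R ^ 2 / c ^ 4) * ((A ^ 2)⁻¹ / B) := by
        rw [show A' = A ^ 2 / K ^ 2 by rw [hA]; field_simp]
        field_simp; ring
    _ ≤ K ^ 8 * K ^ 2 * ((A ^ 2)⁻¹ / B) := by
        gcongr
        rw [div_le_iff₀ (by positivity)]; linarith
    _ ≤ _ := by
        rw [← pow_add]
        gcongr
        norm_num

end Loc

open Loc in
theorem loc (hDesc : DescStmt) : LocStmt := by
  intro D j l l1 p1 Q hD hj hjN hl hh hQ hl1 hp1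
  have hK := hD.K_pos
  have hK' := hD.K_ge_1000
  have hL := hD.L_ge
  have hl' : (4 : ℝ) ≤ l := by exact_mod_cast hl
  have hom := hD.om_pos j
  have hA' : (0 : ℝ) < (D.K : ℝ) ^ (2 * (j - 1)) := by positivity
  have h1 : (D.K : ℝ) ^ (2 * (j - 1)) ≤ l * D.om j := by
    rw [Dat.Ok.om_eq, ← mul_assoc]
    exact le_mul_of_one_le_left hA'.le (by nlinarith)
  have h2 : D.L ≤ l * D.om j * tt D.K (j - 2) := by
    have e1 : D.om j * tt D.K (j - 1) = D.L := by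
      have := tt_pos hK (j - 1)
      unfold Dat.om; field_simp
    have e2 : tt D.K (j - 1) ≤ tt D.K (j - 2) := tt_anti hK (by omega)
    have e3 : D.L ≤ D.om j * tt D.K (j - 2) := e1 ▸ mul_le_mul_of_nonneg_left e2 hom.le
    rw [mul_assoc]; nlinarith
  have h3 := hDesc D j l1 p1 (l * D.om j) Q hD hj hjN hl1 hp1 h1
  have h4 := step3 D hD hQ (by omega : l1 < j - 2) (by omega) hp1 h2
  have hS : 0 ≤ (∑ z ∈ Q, cw D.K D.χ (j - 2) (l1 + 1) l1 p1 z) * Lam D.K D.N D.u (j - 2) l1 :=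
    mul_nonneg (sum_nonneg fun z _ => cw_nonneg hD.prune.nonneg _ _ _ _ _) (Lam_nonneg _ _ _ _ _)
  rw [sum_ch hK hl1 (by omega : j - 3 ≤ j)]
  calc _ ≤ ∑ θ ∈ ch D.K l1 p1 (j - 3), ENNReal.ofReal ((D.K : ℝ) ^ 3) *
        (ENNReal.ofReal ((D.om j * D.be j)⁻¹ ^ 2) *
          ∫⁻ ξ in Sec D.e D.K (l * D.om j) (j - 3) θ 0,
            ENNReal.ofReal (‖ftp Q (cw D.K D.χ (j - 2) (j - 2) (j - 3) θ) ξ‖ ^ 2)) := by
        refine sum_le_sum fun θ _ => ?_
        refine (sum_le_card_nsmul _ _ _ fun p hp => step1 D hD Q hj hl hp).trans ?_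
        rw [nsmul_eq_mul]
        refine mul_le_mul_left ?_ _
        have := card_ch_le D.K (j - 3) θ j hK
        rw [show j - (j - 3) = 3 by omega] at this
        rw [ENNReal.ofReal_pow (Nat.cast_nonneg _), ENNReal.ofReal_natCast]
        exact_mod_cast this
    _ ≤ ENNReal.ofReal ((D.K : ℝ) ^ 3) * (ENNReal.ofReal ((D.om j * D.be j)⁻¹ ^ 2) *
        (ENNReal.ofReal (265 ^ D.N) * ENNReal.ofReal
          (7056 * (l * D.om j) ^ 2 / (D.c ^ 2 * (D.K : ℝ) ^ l1) *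
            ((∑ z ∈ Q, cw D.K D.χ (j - 2) (l1 + 1) l1 p1 z) * Lam D.K D.N D.u (j - 2) l1)))) := by
        rw [← mul_sum, ← mul_sum]
        refine mul_le_mul_right (mul_le_mul_right (h3.trans ?_) _) _
        rw [ENNReal.ofReal_pow (by norm_num), ENNReal.ofReal_ofNat]
        exact mul_le_mul_right h4 _
    _ ≤ _ := by
        rw [← ENNReal.ofReal_mul (by positivity), ← ENNReal.ofReal_mul (by positivity),
          ← ENNReal.ofReal_mul (by positivity)]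
        refine ENNReal.ofReal_le_ofReal ?_
        have hT : (265 : ℝ) ^ D.N ≤ D.K :=
          (pow_le_pow_left₀ (by norm_num) (by norm_num) _).trans hD.K_ge_pow
        have e1 : ((D.K : ℝ) ^ j) ^ 2 = (D.K : ℝ) ^ (2 * j) := by rw [← pow_mul, mul_comm]
        have := const_le (K := D.K) (A := (D.K : ℝ) ^ j) (A' := (D.K : ℝ) ^ (2 * (j - 1)))
          (B := (D.K : ℝ) ^ l1) (h := l * D.om j) (T := 265 ^ D.N) (by linarith) hA'
          (by positivity) hD.R_ge hL hD.ker.c_pos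
          (by rw [e1, ← pow_add]; congr 1; omega) (by positivity) (by positivity) (e1 ▸ hh) hT
          (by positivity) (by linarith) hD.K_big'
        rw [e1, ← Dat.Ok.om_eq] at this
        have := mul_le_mul_of_nonneg_right this hS
        unfold tt
        rw [Dat.be]
        linarith

end Pool.Agent.MP_538dc4_an
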