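import Pool.Agent.MP_538dc4_an.Four

/-! PROJECT FURST: changes of variables and product kernels. -/

open MeasureTheory Finset
open scoped ENNReal FourierTransform ComplexConjugate RealInnerProductSpace

namespace Pool.Agent.MP_538dc4_an

/-- T is a measurable embedding that multiplies integrals by the constant d. -/
structure Cov {α β : Type*} [MeasureSpace α] [MeasureSpace β] (T : α → β) (d : ℝ) : Prop where
  emb : MeasurableEmbedding T
  pos : 0 < d
  map_eq : Measure.map T volume = ENNReal.ofReal d • (volume : Measure β)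

namespace Cov

variable {α β : Type*} [MeasureSpace α] [MeasureSpace β] {T : α → β} {d : ℝ}

theorem lintegral (h : Cov T d) (Φ : β → ℝ≥0∞) :
    ∫⁻ x, Φ (T x) = ENNReal.ofReal d * ∫⁻ y, Φ y := by
  rw [← h.emb.lintegral_map, h.map_eq, lintegral_smul_measure, smul_eq_mul]

theorem integral (h : Cov T d) (Φ : β → ℂ) : ∫ x, Φ (T x) = (d : ℂ) * ∫ y, Φ y := by
  rw [← h.emb.integral_map, h.map_eq, integral_smul_measure, ENNReal.toReal_ofReal h.pos.le,
    Complex.real_smul]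

theorem integral_real (h : Cov T d) (Φ : β → ℝ) : ∫ x, Φ (T x) = d * ∫ y, Φ y := by
  rw [← h.emb.integral_map, h.map_eq, integral_smul_measure, ENNReal.toReal_ofReal h.pos.le,
    smul_eq_mul]

theorem integrable_iff (h : Cov T d) {F : Type*} [NormedAddCommGroup F] (Φ : β → F) :
    Integrable (fun x => Φ (T x)) ↔ Integrable Φ := by
  rw [← integrable_smul_measure (c := ENNReal.ofReal d) (f := Φ) (by simpa using h.pos)
    ENNReal.ofReal_ne_top, ← h.map_eq, h.emb.integrable_map_iff]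
  rfl

theorem comp {γ : Type*} [MeasureSpace γ] {S : β → γ} {d' : ℝ} (h' : Cov S d') (h : Cov T d) :
    Cov (fun x => S (T x)) (d * d') := by
  refine ⟨h'.emb.comp h.emb, mul_pos h.pos h'.pos, ?_⟩
  have : (fun x => S (T x)) = S ∘ T := rfl
  rw [this, ← Measure.map_map h'.emb.measurable h.emb.measurable, h.map_eq, Measure.map_smul,
    h'.map_eq, smul_smul, ENNReal.ofReal_mul h.pos.le]

theorem of_mp (h : MeasurePreserving T) (he : MeasurableEmbedding T) : Cov T 1 :=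
  ⟨he, one_pos, by rw [h.map_eq]; simp⟩

end Cov

theorem cov_matrix {n : ℕ} (A : Matrix (Fin n) (Fin n) ℝ) (hA : 0 < A.det) :
    Cov (fun x : EuclideanSpace ℝ (Fin n) => Matrix.toLpLin 2 2 A x) A.det⁻¹ := by
  have hd : LinearMap.det (Matrix.toLpLin 2 2 A) ≠ 0 := by rw [LinearMap.det_toLpLin]; exact hA.ne'
  refine ⟨?_, inv_pos.2 hA, ?_⟩
  · exact ((LinearMap.equivOfDetNeZero _ hd).toContinuousLinearEquiv.toHomeomorph).measurableEmbedding
  · rw [Measure.map_linearMap_addHaar_eq_smul_addHaar _ hd, LinearMap.det_toLpLin,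
      abs_of_pos (inv_pos.2 hA)]

theorem cov_shear (a : ℝ) : Cov (fun X : E3 => v3 (L0 a X) (L1 a X) (X 2)) 1 := by
  have h := cov_matrix !![1, a, a ^ 2; 0, 1, 2 * a; 0, 0, 1] (by simp [Matrix.det_fin_three])
  have e : (!![1, a, a ^ 2; 0, 1, 2 * a; 0, 0, 1] : Matrix (Fin 3) (Fin 3) ℝ).det⁻¹ = 1 := by
    simp [Matrix.det_fin_three]
  rw [e] at h
  convert h using 2 with X
  refine E3_ext ?_ ?_ ?_ <;>
    simp [Matrix.toLpLin_apply, dotProduct, Fin.sum_univ_three, L0, L1]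

theorem cov_fr3 (a : ℝ) : Cov (fun y : E3 => fr3 a (y 0) (y 1) (y 2)) 1 := by
  have h := cov_matrix !![1, 0, 0; a, 1, 0; a ^ 2, 2 * a, 1] (by simp [Matrix.det_fin_three])
  have e : (!![1, 0, 0; a, 1, 0; a ^ 2, 2 * a, 1] : Matrix (Fin 3) (Fin 3) ℝ).det⁻¹ = 1 := by
    simp [Matrix.det_fin_three]
  rw [e] at h
  convert h using 2 with X
  refine E3_ext ?_ ?_ ?_ <;>
    simp [Matrix.toLpLin_apply, dotProduct, Fin.sum_univ_three, fr3, mul_comm]

theorem cov_fr {e : ℝ} (he : 0 ≤ e) (a : ℝ) :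
    Cov (fun y : E2 => fr e a (y 0) (y 1)) (1 + e * a ^ 2)⁻¹ := by
  have e1 : (!![1 - e * a ^ 2, -(2 * e * a); a, 1] : Matrix (Fin 2) (Fin 2) ℝ).det =
      1 + e * a ^ 2 := by simp [Matrix.det_fin_two]; ring
  have h := cov_matrix !![1 - e * a ^ 2, -(2 * e * a); a, 1] (by rw [e1]; positivity)
  rw [e1] at h
  convert h using 2 with X
  refine E2_ext ?_ ?_ <;>
    simp [Matrix.toLpLin_apply, dotProduct, Fin.sum_univ_two, fr] <;> ring

theorem cov_N {e : ℝ} (he : 0 ≤ e) (a : ℝ) :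
    Cov (fun z : E2 => v2 (N0 e a z) (N1 e a z)) (1 + e * a ^ 2)⁻¹ := by
  have e1 : (!![1 - e * a ^ 2, a; -2 * e * a, 1] : Matrix (Fin 2) (Fin 2) ℝ).det =
      1 + e * a ^ 2 := by simp [Matrix.det_fin_two]; ring
  have h := cov_matrix !![1 - e * a ^ 2, a; -2 * e * a, 1] (by rw [e1]; positivity)
  rw [e1] at h
  convert h using 2 with X
  refine E2_ext ?_ ?_ <;>
    simp [Matrix.toLpLin_apply, dotProduct, Fin.sum_univ_two, N0, N1]

/-- The plane as a product. -/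
theorem cov_v2 : Cov (fun p : ℝ × ℝ => v2 p.1 p.2) 1 := by
  have h1 := (PiLp.volume_preserving_toLp (Fin 2)).comp (volume_preserving_finTwoArrow ℝ).symm
  have h2 := (MeasurableEquiv.toLp 2 (Fin 2 → ℝ)).measurableEmbedding.comp
    (MeasurableEquiv.finTwoArrow (α := ℝ)).symm.measurableEmbedding
  exact Cov.of_mp h1 h2

/-- Space as the product of a line (the last coordinate) and a plane. -/
theorem cov_v3 : Cov (fun p : ℝ × E2 => v3 (p.2 0) (p.2 1) p.1) 1 := by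
  have h0 : MeasurePreserving (Prod.map (id : ℝ → ℝ) (WithLp.ofLp : E2 → Fin 2 → ℝ)) :=
    (MeasurePreserving.id _).prod (PiLp.volume_preserving_ofLp (Fin 2))
  have h1 := (PiLp.volume_preserving_toLp (Fin 3)).comp
    ((volume_preserving_piFinSuccAbove (fun _ : Fin 3 => ℝ) 2).symm.comp h0)
  have h2 := (MeasurableEquiv.toLp 2 (Fin 3 → ℝ)).measurableEmbedding.comp
    ((MeasurableEquiv.piFinSuccAbove (fun _ : Fin 3 => ℝ) 2).symm.measurableEmbedding.comp
      (MeasurableEmbedding.id.prodMap (MeasurableEquiv.toLp 2 (Fin 2 → ℝ)).symm.measurableEmbedding))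
  have e : (fun p : ℝ × E2 => v3 (p.2 0) (p.2 1) p.1) = WithLp.toLp 2 ∘
      (MeasurableEquiv.piFinSuccAbove (fun _ : Fin 3 => ℝ) 2).symm ∘
        Prod.map (id : ℝ → ℝ) (WithLp.ofLp : E2 → Fin 2 → ℝ) := by
    ext p i
    fin_cases i <;> rfl
  rw [e]
  exact Cov.of_mp h1 h2

theorem cov_affine {γ : ℝ} (hγ : 0 < γ) (y : ℝ) : Cov (fun x : ℝ => γ * x - y) γ⁻¹ := by
  have h1 : Cov (fun x : ℝ => γ * x) γ⁻¹ :=
    ⟨(Homeomorph.mulLeft₀ γ hγ.ne').measurableEmbedding, inv_pos.2 hγ, by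
      rw [Real.map_volume_mul_left hγ.ne', abs_of_pos (inv_pos.2 hγ)]⟩
  have h2 : Cov (fun x : ℝ => x - y) 1 :=
    Cov.of_mp (measurePreserving_sub_right _ y) (Homeomorph.subRight y).measurableEmbedding
  simpa using h2.comp h1

theorem cov_sub_E3 (Y : E3) : Cov (fun X : E3 => X - Y) 1 :=
  Cov.of_mp (measurePreserving_sub_right _ Y) (Homeomorph.subRight Y).measurableEmbedding

theorem lintegral_E2_prod {f g : ℝ → ℝ≥0∞} (hf : Measurable f) (hg : Measurable g) :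
    ∫⁻ y : E2, f (y 0) * g (y 1) = (∫⁻ x, f x) * ∫⁻ x, g x := by
  have := cov_v2.lintegral fun y => f (y 0) * g (y 1)
  simp only [v2_0, v2_1, ENNReal.ofReal_one, one_mul] at this
  rw [← this]; exact lintegral_prod_mul hf.aemeasurable hg.aemeasurable

theorem integral_E2_prod (f g : ℝ → ℂ) :
    ∫ y : E2, f (y 0) * g (y 1) = (∫ x, f x) * ∫ x, g x := by
  have := cov_v2.integral fun y => f (y 0) * g (y 1)
  simp only [v2_0, v2_1, Complex.ofReal_one, one_mul] at this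
  rw [← this]; exact integral_prod_mul f g

theorem integral_E2_prod_real (f g : ℝ → ℝ) :
    ∫ y : E2, f (y 0) * g (y 1) = (∫ x, f x) * ∫ x, g x := by
  have := cov_v2.integral_real fun y => f (y 0) * g (y 1)
  simp only [v2_0, v2_1, one_mul] at this
  rw [← this]; exact integral_prod_mul f g

theorem integrable_E2_prod {𝕜 : Type*} [RCLike 𝕜] {f g : ℝ → 𝕜} (hf : Integrable f)
    (hg : Integrable g) : Integrable fun y : E2 => f (y 0) * g (y 1) :=
  (cov_v2.integrable_iff _).1 (hf.mul_prod hg)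

theorem lintegral_E3_split {κ : ℝ → ℝ≥0∞} {G : E2 → ℝ≥0∞} (hκ : Measurable κ)
    (hG : Measurable G) :
    ∫⁻ X : E3, κ (X 2) * G (v2 (X 0) (X 1)) = (∫⁻ x, κ x) * ∫⁻ y, G y := by
  have := cov_v3.lintegral fun X => κ (X 2) * G (v2 (X 0) (X 1))
  simp only [v3_0, v3_1, v3_2, ENNReal.ofReal_one, one_mul, v2_eta] at this
  rw [← this]; exact lintegral_prod_mul hκ.aemeasurable hG.aemeasurable

theorem integral_E3_prod (f g h : ℝ → ℂ) :
    ∫ y : E3, f (y 0) * g (y 1) * h (y 2) = (∫ x, f x) * (∫ x, g x) * ∫ x, h x := by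
  have := cov_v3.integral fun y => h (y 2) * (f (y 0) * g (y 1))
  simp only [v3_0, v3_1, v3_2, Complex.ofReal_one, one_mul] at this
  rw [← integral_E2_prod, mul_comm _ (∫ x, h x),
    ← integral_prod_mul h fun y : E2 => f (y 0) * g (y 1)]
  refine Eq.trans ?_ this.symm
  congr 1; ext y; ring

theorem integrable_E3_prod {𝕜 : Type*} [RCLike 𝕜] {f g h : ℝ → 𝕜} (hf : Integrable f)
    (hg : Integrable g) (hh : Integrable h) :
    Integrable fun y : E3 => f (y 0) * g (y 1) * h (y 2) := by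
  have := (cov_v3.integrable_iff fun y : E3 => h (y 2) * (f (y 0) * g (y 1))).1
    (hh.mul_prod (integrable_E2_prod hf hg))
  refine this.congr (Filter.Eventually.of_forall fun y => ?_)
  simp only; ring

/-- Integration of a function of (L0, L1) against a weight in the last coordinate. -/
theorem slice (a : ℝ) {κ : ℝ → ℝ≥0∞} {G : E2 → ℝ≥0∞} (hκ : Measurable κ) (hG : Measurable G) :
    ∫⁻ X : E3, κ (X 2) * G (v2 (L0 a X) (L1 a X)) = (∫⁻ x, κ x) * ∫⁻ y, G y := by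
  have := (cov_shear a).lintegral fun X => κ (X 2) * G (v2 (X 0) (X 1))
  simp only [v3_0, v3_1, v3_2, ENNReal.ofReal_one, one_mul] at this
  rw [this, lintegral_E3_split hκ hG]

theorem slice_prod (a : ℝ) {f g h : ℝ → ℝ≥0∞} (hf : Measurable f) (hg : Measurable g)
    (hh : Measurable h) : ∫⁻ X : E3, f (L0 a X) * g (L1 a X) * h (X 2) =
      (∫⁻ x, f x) * (∫⁻ x, g x) * ∫⁻ x, h x := by
  have := slice a (κ := h) (G := fun y => f (y 0) * g (y 1)) hh (by fun_prop)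
  simp only [v2_0, v2_1] at this
  rw [lintegral_E2_prod hf hg] at this
  rw [mul_comm _ (∫⁻ x, h x), ← this]
  congr 1; ext X; ring

namespace Ker

variable {k m : ℝ → ℝ} {c : ℝ}

theorem m_int (hk : Ker k m c) : Integrable m :=
  hk.m_cont.integrable_of_hasCompactSupport
    (HasCompactSupport.intro (isCompact_Icc (a := -1) (b := 1)) fun a ha =>
      hk.m_supp a (by
        by_contra h
        push Not at h
        exact ha ⟨(abs_lt.1 h).1.le, (abs_lt.1 h).2.le⟩))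

theorem integrable_affine (hk : Ker k m c) {γ : ℝ} (hγ : 0 < γ) (y : ℝ) :
    Integrable fun x => k (γ * x - y) := ((cov_affine hγ y).integrable_iff k).2 hk.k_int

theorem integral_affine (hk : Ker k m c) {γ : ℝ} (hγ : 0 < γ) (y : ℝ) :
    ∫ x, k (γ * x - y) = γ⁻¹ := by
  rw [(cov_affine hγ y).integral_real k, hk.k_integral, mul_one]

theorem lintegral_k (hk : Ker k m c) : ∫⁻ x, ENNReal.ofReal (k x) = 1 := by
  rw [← ofReal_integral_eq_lintegral_ofReal hk.k_int (Filter.Eventually.of_forall hk.k_nonneg),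
    hk.k_integral, ENNReal.ofReal_one]

theorem lintegral_affine (hk : Ker k m c) {γ : ℝ} (hγ : 0 < γ) (y : ℝ) :
    ∫⁻ x, ENNReal.ofReal (k (γ * x - y)) = ENNReal.ofReal γ⁻¹ := by
  rw [(cov_affine hγ y).lintegral fun x => ENNReal.ofReal (k x), hk.lintegral_k, mul_one]

theorem lintegral_tail (hk : Ker k m c) {L η : ℝ} (hT : Tail k L η) {γ : ℝ} (hγ : 0 < γ) (y : ℝ) :
    ∫⁻ x, {s : ℝ | L ≤ |s|}.indicator (fun s => ENNReal.ofReal (k s)) (γ * x - y) ≤
      ENNReal.ofReal γ⁻¹ * ENNReal.ofReal η := by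
  have hm : MeasurableSet {s : ℝ | L ≤ |s|} := measurableSet_le (by fun_prop) (by fun_prop)
  rw [(cov_affine hγ y).lintegral, lintegral_indicator hm, ← ofReal_integral_eq_lintegral_ofReal
    hk.k_int.integrableOn (Filter.Eventually.of_forall hk.k_nonneg)]
  gcongr
  exact hT.2

/-- One dimensional Fourier transform of a rescaled and translated kernel. -/
theorem fourier_affine (hk : Ker k m c) {γ : ℝ} (hγ : 0 < γ) (y α : ℝ) :
    ∫ x, (k (γ * x - y) : ℂ) * ee (-(α * x)) =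
      (γ⁻¹ : ℝ) * (m (α / γ) : ℂ) * ee (-(α / γ * y)) := by
  have := (cov_affine hγ y).integral fun s => (k s : ℂ) * ee (-(α / γ * s)) * ee (-(α / γ * y))
  rw [integral_mul_const (ee (-(α / γ * y))) fun s => (k s : ℂ) * ee (-(α / γ * s)), ← hk.m_eq,
    ← mul_assoc] at this
  rw [← this]
  congr 1; ext x
  rw [mul_assoc, ← ee_add]
  congr 2; field_simp; ring

/-- One dimensional inversion formula for a rescaled kernel. -/
theorem inv_affine (hk : Ker k m c) {γ : ℝ} (hγ : 0 < γ) (l x : ℝ) :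
    ∫ α, (m (α / γ - l) : ℂ) * ee (α * x) = (γ : ℂ) * (k (γ * x) : ℂ) * ee (l * γ * x) := by
  have := (cov_affine (inv_pos.2 hγ) l).integral
    fun s => (m s : ℂ) * ee (s * (γ * x)) * ee (l * γ * x)
  rw [integral_mul_const (ee (l * γ * x)) fun s => (m s : ℂ) * ee (s * (γ * x)), ← hk.k_eq,
    ← mul_assoc, inv_inv] at this
  rw [← this]
  congr 1; ext α
  rw [mul_assoc, ← ee_add, div_eq_inv_mul]
  congr 2; field_simp; ring

theorem continuous_kU (hk : Ker k m c) (b γ0 γ1 γ2 : ℝ) : Continuous (kU k b γ0 γ1 γ2) := by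
  have := hk.k_cont; have := continuous_L0 b; have := continuous_L1 b
  unfold kU; fun_prop

theorem kU_nonneg (hk : Ker k m c) (b : ℝ) {γ0 γ1 γ2 : ℝ} (h0 : 0 < γ0) (h1 : 0 < γ1)
    (h2 : 0 < γ2) (X : E3) : 0 ≤ kU k b γ0 γ1 γ2 X := by
  have := hk.k_nonneg (γ0 * L0 b X); have := hk.k_nonneg (γ1 * L1 b X)
  have := hk.k_nonneg (γ2 * X 2)
  unfold kU; positivity

theorem integrable_kU (hk : Ker k m c) (b : ℝ) {γ0 γ1 γ2 : ℝ} (h0 : 0 < γ0) (h1 : 0 < γ1)
    (h2 : 0 < γ2) : Integrable (kU k b γ0 γ1 γ2) := by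
  have h := integrable_E3_prod (hk.integrable_affine h0 0) (hk.integrable_affine h1 0)
    (hk.integrable_affine h2 0)
  have := (((cov_shear b).integrable_iff _).2 h).const_mul (γ0 * γ1 * γ2)
  simp only [v3_0, v3_1, v3_2, sub_zero] at this
  exact this

theorem fourier_kU (hk : Ker k m c) (b : ℝ) {γ0 γ1 γ2 : ℝ} (h0 : 0 < γ0) (h1 : 0 < γ1)
    (h2 : 0 < γ2) (ξ : E3) : 𝓕 (fun X => (kU k b γ0 γ1 γ2 X : ℂ)) ξ =
      ((m (ξ 0 / γ0) * m (l1 b ξ / γ1) * m (l2 b ξ / γ2) : ℝ) : ℂ) := by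
  have e := (cov_shear b).integral fun y => ((k (γ0 * y 0 - 0) : ℂ) * ee (-(ξ 0 * y 0))) *
    ((k (γ1 * y 1 - 0) : ℂ) * ee (-(l1 b ξ * y 1))) * ((k (γ2 * y 2 - 0) : ℂ) * ee (-(l2 b ξ * y 2)))
  rw [integral_E3_prod (fun x => (k (γ0 * x - 0) : ℂ) * ee (-(ξ 0 * x)))
    (fun x => (k (γ1 * x - 0) : ℂ) * ee (-(l1 b ξ * x)))
    (fun x => (k (γ2 * x - 0) : ℂ) * ee (-(l2 b ξ * x))), hk.fourier_affine h0,
    hk.fourier_affine h1, hk.fourier_affine h2] at e
  simp only [v3_0, v3_1, v3_2, sub_zero, mul_zero, neg_zero, ee_zero, mul_one] at e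
  have e2 : 𝓕 (fun X => (kU k b γ0 γ1 γ2 X : ℂ)) ξ = ((γ0 * γ1 * γ2 : ℝ) : ℂ) *
      ∫ X : E3, (k (γ0 * L0 b X) : ℂ) * ee (-(ξ 0 * L0 b X)) *
        ((k (γ1 * L1 b X) : ℂ) * ee (-(l1 b ξ * L1 b X))) *
          ((k (γ2 * X 2) : ℂ) * ee (-(l2 b ξ * X 2))) := by
    rw [fourier_eq_ee, ← integral_const_mul]
    congr 1; ext X
    have : -⟪X, ξ⟫ = -(ξ 0 * L0 b X) + -(l1 b ξ * L1 b X) + -(l2 b ξ * X 2) := by
      conv_lhs => rw [← fr3_eta b ξ, inner_fr3]
      ring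
    rw [this, ee_add, ee_add]; unfold kU; push_cast; ring
  rw [e2, e]
  have := h0.ne'; have := h1.ne'; have := h2.ne'
  push_cast
  have a0 : (γ0 : ℂ) ≠ 0 := by exact_mod_cast h0.ne'
  have a1 : (γ1 : ℂ) ≠ 0 := by exact_mod_cast h1.ne'
  have a2 : (γ2 : ℂ) ≠ 0 := by exact_mod_cast h2.ne'
  field_simp

theorem integrable_k2 (hk : Ker k m c) {e : ℝ} (he : 0 ≤ e) (a : ℝ) {γ0 γ1 : ℝ} (h0 : 0 < γ0)
    (h1 : 0 < γ1) (y0 y1 : ℝ) :
    Integrable fun z : E2 => k (γ0 * N0 e a z - y0) * k (γ1 * N1 e a z - y1) := by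
  have h := integrable_E2_prod (hk.integrable_affine h0 y0) (hk.integrable_affine h1 y1)
  simpa only [v2_0, v2_1] using ((cov_N he a).integrable_iff _).2 h

theorem integral_k2 (hk : Ker k m c) {e : ℝ} (he : 0 ≤ e) (a : ℝ) {γ0 γ1 : ℝ} (h0 : 0 < γ0)
    (h1 : 0 < γ1) (y0 y1 : ℝ) :
    ∫ z : E2, k (γ0 * N0 e a z - y0) * k (γ1 * N1 e a z - y1) =
      (1 + e * a ^ 2)⁻¹ * (γ0⁻¹ * γ1⁻¹) := by
  have := (cov_N he a).integral_real fun y => k (γ0 * y 0 - y0) * k (γ1 * y 1 - y1)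
  rw [integral_E2_prod_real (fun x => k (γ0 * x - y0)) (fun x => k (γ1 * x - y1)),
    hk.integral_affine h0, hk.integral_affine h1] at this
  simpa only [v2_0, v2_1] using this

theorem fourier_k2 (hk : Ker k m c) {e : ℝ} (he : 0 ≤ e) (a : ℝ) {γ0 γ1 : ℝ} (h0 : 0 < γ0)
    (h1 : 0 < γ1) (y0 y1 α β : ℝ) :
    𝓕 (fun z : E2 => ((k (γ0 * N0 e a z - y0) * k (γ1 * N1 e a z - y1) : ℝ) : ℂ)) (fr e a α β) =
      (((1 + e * a ^ 2)⁻¹ * (γ0⁻¹ * γ1⁻¹) * (m (α / γ0) * m (β / γ1)) : ℝ) : ℂ) *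
        ee (-(α / γ0 * y0 + β / γ1 * y1)) := by
  have e1 := (cov_N he a).integral fun y => ((k (γ0 * y 0 - y0) : ℂ) * ee (-(α * y 0))) *
    ((k (γ1 * y 1 - y1) : ℂ) * ee (-(β * y 1)))
  rw [integral_E2_prod (fun x => (k (γ0 * x - y0) : ℂ) * ee (-(α * x)))
    (fun x => (k (γ1 * x - y1) : ℂ) * ee (-(β * x))), hk.fourier_affine h0,
    hk.fourier_affine h1] at e1
  simp only [v2_0, v2_1] at e1
  rw [fourier_eq_ee, neg_add, ee_add]
  refine Eq.trans ?_ (e1.trans (by push_cast; ring))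
  congr 1; ext z
  rw [inner_fr, neg_add, ee_add]; push_cast; ring

end Ker

end Pool.Agent.MP_538dc4_an
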