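import Pool.Agent.MP_538dc4_an.Spec
import Pool.Agent.MP_538dc4_an.Shear

/-! PROJECT FURST: the pruning cut-offs. -/

open MeasureTheory Finset
open scoped ENNReal FourierTransform ComplexConjugate RealInnerProductSpace

namespace Pool.Agent.MP_538dc4_an

namespace PruneAux

noncomputable section

variable {k m : ℝ → ℝ} {c : ℝ}

/-- The product kernel centred at a. -/
def kk (k : ℝ → ℝ) (a s : ℝ × ℝ) : ℝ := k (a.1 - s.1) * k (a.2 - s.2)

theorem kk_nonneg (hk : Ker k m c) (a s : ℝ × ℝ) : 0 ≤ kk k a s :=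
  mul_nonneg (hk.k_nonneg _) (hk.k_nonneg _)

theorem kk_le (hk : Ker k m c) (a s : ℝ × ℝ) : kk k a s ≤ 4 := by
  have h1 := hk.k_le (a.1 - s.1)
  have h2 := hk.k_le (a.2 - s.2)
  have h3 := hk.k_nonneg (a.1 - s.1)
  have h4 := hk.k_nonneg (a.2 - s.2)
  unfold kk
  nlinarith

theorem kk_cont (hk : Ker k m c) : Continuous fun p : (ℝ × ℝ) × (ℝ × ℝ) => kk k p.1 p.2 := by
  unfold kk
  have := hk.k_cont
  fun_prop

theorem prod_int {f g : ℝ → ℝ} (hf : Integrable f) (hg : Integrable g) (a : ℝ × ℝ) :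
    Integrable fun s : ℝ × ℝ => f (a.1 - s.1) * g (a.2 - s.2) :=
  Integrable.mul_prod (f := fun x => f (a.1 - x)) (g := fun x => g (a.2 - x))
    (hf.comp_sub_left a.1) (hg.comp_sub_left a.2)

theorem prod_integral (f g : ℝ → ℝ) (a : ℝ × ℝ) :
    ∫ s : ℝ × ℝ, f (a.1 - s.1) * g (a.2 - s.2) = (∫ x, f x) * ∫ x, g x := by
  have := integral_prod_mul (μ := (volume : Measure ℝ)) (ν := (volume : Measure ℝ))
    (fun x => f (a.1 - x)) (fun x => g (a.2 - x))
  rw [integral_sub_left_eq_self f volume a.1, integral_sub_left_eq_self g volume a.2] at this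
  exact this

theorem kk_int (hk : Ker k m c) (a : ℝ × ℝ) : Integrable (kk k a) :=
  prod_int hk.k_int hk.k_int a

theorem kk_integral (hk : Ker k m c) (a : ℝ × ℝ) : ∫ s, kk k a s = 1 := by
  have := prod_integral k k a
  rw [hk.k_integral, mul_one] at this
  exact this

/-- The kernel has mass at most 2 η on any set at distance at least L from its centre. -/
theorem kk_tail (hk : Ker k m c) {L η : ℝ} (hT : Tail k L η) (a : ℝ × ℝ) {T : Set (ℝ × ℝ)}
    (hm : MeasurableSet T) (hfar : ∀ s ∈ T, L ≤ dist a s) : ∫ s in T, kk k a s ≤ 2 * η := by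
  have hS : MeasurableSet {x : ℝ | L ≤ |x|} :=
    (isClosed_le continuous_const continuous_abs).measurableSet
  set f : ℝ → ℝ := {x : ℝ | L ≤ |x|}.indicator k with hf
  have hfi : Integrable f := hk.k_int.indicator hS
  have hf0 : ∀ x, 0 ≤ f x := fun x => Set.indicator_nonneg (fun y _ => hk.k_nonneg y) x
  have hfI : ∫ x, f x ≤ η := by
    rw [hf, integral_indicator hS]
    exact hT.2
  have i1 := prod_int hfi hk.k_int a
  have i2 := prod_int hk.k_int hfi a
  rw [← integral_indicator hm]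
  calc ∫ s, T.indicator (kk k a) s
      ≤ ∫ s : ℝ × ℝ, (f (a.1 - s.1) * k (a.2 - s.2) + k (a.1 - s.1) * f (a.2 - s.2)) := by
        refine integral_mono ((kk_int hk a).indicator hm) (i1.add i2) fun s => ?_
        have p1 := mul_nonneg (hf0 (a.1 - s.1)) (hk.k_nonneg (a.2 - s.2))
        have p2 := mul_nonneg (hk.k_nonneg (a.1 - s.1)) (hf0 (a.2 - s.2))
        by_cases hs : s ∈ T
        · have h := hfar s hs
          rw [Prod.dist_eq, Real.dist_eq, Real.dist_eq, le_max_iff] at h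
          simp only [Set.indicator_of_mem hs]
          rcases h with h | h
          · have : f (a.1 - s.1) = k (a.1 - s.1) := Set.indicator_of_mem (by exact h) k
            rw [this] at p1 ⊢
            unfold kk
            linarith
          · have : f (a.2 - s.2) = k (a.2 - s.2) := Set.indicator_of_mem (by exact h) k
            rw [this] at p2 ⊢
            unfold kk
            linarith
        · simp only [Set.indicator_of_notMem hs]
          linarith
    _ = (∫ x, f x) * (∫ x, k x) + (∫ x, k x) * ∫ x, f x := by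
        rw [integral_add i1 i2, prod_integral, prod_integral]
    _ ≤ 2 * η := by
        rw [hk.k_integral]
        linarith

/-- The rescaled coordinates of a point. -/
def cd (e b γ0 γ1 : ℝ) (z : E2) : ℝ × ℝ := (γ0 * N0 e b z, γ1 * N1 e b z)

theorem cd_cont (e b γ0 γ1 : ℝ) : Continuous (cd e b γ0 γ1) :=
  (continuous_const.mul (continuous_N0 e b)).prodMk (continuous_const.mul (continuous_N1 e b))

/-- The smoothed indicator of G. -/
def chi (k : ℝ → ℝ) (e b γ0 γ1 : ℝ) (G : Set (ℝ × ℝ)) (z : E2) : ℝ :=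
  ∫ s in G, kk k (cd e b γ0 γ1 z) s

/-- The properties of a cut-off that do not involve the point set. -/
structure Base (e b γ0 γ1 : ℝ) (χ : E2 → ℝ) : Prop where
  nonneg : ∀ z, 0 ≤ χ z
  le_one : ∀ z, χ z ≤ 1
  cont : Continuous χ
  int : Integrable χ
  spec : ∀ α β, (γ0 < |α| ∨ γ1 < |β|) → 𝓕 (fun z => (χ z : ℂ)) (fr e b α β) = 0

theorem base_zero (e b γ0 γ1 : ℝ) : Base e b γ0 γ1 fun _ => 0 where
  nonneg _ := le_rfl
  le_one _ := zero_le_one
  cont := continuous_const
  int := integrable_zero _ _ _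
  spec α β _ := by simp [fourier_eq_ee]

variable {e b γ0 γ1 : ℝ} {G : Set (ℝ × ℝ)}

theorem joint_int (hk : Ker k m c) (he : 0 ≤ e) (h0 : 0 < γ0) (h1 : 0 < γ1)
    (hG : volume G < ⊤) :
    Integrable (fun p : E2 × (ℝ × ℝ) => kk k (cd e b γ0 γ1 p.1) p.2)
      ((volume : Measure E2).prod (volume.restrict G)) := by
  have : IsFiniteMeasure ((volume : Measure (ℝ × ℝ)).restrict G) :=
    isFiniteMeasure_restrict.2 hG.ne
  have hc : Continuous fun p : E2 × (ℝ × ℝ) => kk k (cd e b γ0 γ1 p.1) p.2 :=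
    (kk_cont hk).comp (((cd_cont e b γ0 γ1).comp continuous_fst).prodMk continuous_snd)
  rw [integrable_prod_iff' hc.aestronglyMeasurable]
  refine ⟨Filter.Eventually.of_forall fun s => hk.integrable_k2 he b h0 h1 s.1 s.2, ?_⟩
  have : (fun s : ℝ × ℝ => ∫ z : E2, ‖kk k (cd e b γ0 γ1 z) s‖) =
      fun _ => (1 + e * b ^ 2)⁻¹ * (γ0⁻¹ * γ1⁻¹) := by
    funext s
    rw [← hk.integral_k2 he b h0 h1 s.1 s.2]
    refine integral_congr_ae (Filter.Eventually.of_forall fun z => ?_)
    exact Real.norm_of_nonneg (kk_nonneg hk _ _)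
  rw [this]
  exact integrable_const _

theorem chi_base (hk : Ker k m c) (he : 0 ≤ e) (h0 : 0 < γ0) (h1 : 0 < γ1)
    (hG : volume G < ⊤) : Base e b γ0 γ1 (chi k e b γ0 γ1 G) := by
  have : IsFiniteMeasure ((volume : Measure (ℝ × ℝ)).restrict G) :=
    isFiniteMeasure_restrict.2 hG.ne
  have hJ := joint_int (b := b) hk he h0 h1 hG
  refine ⟨fun z => integral_nonneg fun s => kk_nonneg hk _ _, fun z => ?_, ?_, ?_, ?_⟩
  · rw [← kk_integral hk (cd e b γ0 γ1 z)]
    exact setIntegral_le_integral (kk_int hk _)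
      (Filter.Eventually.of_forall fun s => kk_nonneg hk _ _)
  · refine continuous_of_dominated (bound := fun _ => 4) (fun z => ?_) (fun z => ?_)
      (integrable_const _) (Filter.Eventually.of_forall fun s => ?_)
    · exact (kk_int hk _).aestronglyMeasurable.restrict
    · refine Filter.Eventually.of_forall fun s => ?_
      rw [Real.norm_of_nonneg (kk_nonneg hk _ _)]
      exact kk_le hk _ _
    · exact (kk_cont hk).comp ((cd_cont e b γ0 γ1).prodMk continuous_const)
  · exact hJ.integral_prod_left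
  · intro α β hαβ
    have hm : m (α / γ0) * m (β / γ1) = 0 := by
      rcases hαβ with h | h
      · rw [hk.m_supp (α / γ0), zero_mul]
        rw [abs_div, abs_of_pos h0, le_div_iff₀ h0]
        linarith
      · rw [hk.m_supp (β / γ1), mul_zero]
        rw [abs_div, abs_of_pos h1, le_div_iff₀ h1]
        linarith
    set ξ := fr e b α β with hξ
    have hJ2 : Integrable (fun p : E2 × (ℝ × ℝ) =>
        ee (-⟪p.1, ξ⟫) * ((kk k (cd e b γ0 γ1 p.1) p.2 : ℝ) : ℂ))
        ((volume : Measure E2).prod (volume.restrict G)) := by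
      refine hJ.ofReal.bdd_mul (c := 1) ?_ (Filter.Eventually.of_forall fun p => ?_)
      · exact (continuous_ee.comp
          (continuous_fst.inner continuous_const).neg).aestronglyMeasurable
      · simp [ee]
    rw [fourier_eq_ee]
    calc ∫ z : E2, ee (-⟪z, ξ⟫) * (chi k e b γ0 γ1 G z : ℂ)
        = ∫ z : E2, ∫ s in G, ee (-⟪z, ξ⟫) * ((kk k (cd e b γ0 γ1 z) s : ℝ) : ℂ) := by
          refine integral_congr_ae (Filter.Eventually.of_forall fun z => ?_)
          simp only [chi]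
          rw [integral_const_mul, integral_complex_ofReal]
      _ = ∫ s in G, ∫ z : E2, ee (-⟪z, ξ⟫) * ((kk k (cd e b γ0 γ1 z) s : ℝ) : ℂ) :=
          integral_integral_swap hJ2
      _ = ∫ s in G, (0 : ℂ) := by
          refine integral_congr_ae (Filter.Eventually.of_forall fun s => ?_)
          have := hk.fourier_k2 he b h0 h1 s.1 s.2 α β
          rw [hm, fourier_eq_ee] at this
          simpa [kk, cd] using this
      _ = 0 := by simp

theorem chi_small (hk : Ker k m c) {L η : ℝ} (hT : Tail k L η) (hm : MeasurableSet G) (z : E2)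
    (h : ∀ s ∈ G, L ≤ dist (cd e b γ0 γ1 z) s) : chi k e b γ0 γ1 G z ≤ 2 * η :=
  kk_tail hk hT _ hm h

theorem chi_large (hk : Ker k m c) {L η : ℝ} (hT : Tail k L η) (hm : MeasurableSet G) (z : E2)
    (h : ∀ s, dist (cd e b γ0 γ1 z) s < L → s ∈ G) : 1 - 2 * η ≤ chi k e b γ0 γ1 G z := by
  have h1 := kk_tail hk hT (cd e b γ0 γ1 z) hm.compl fun s hs => by
    by_contra hc
    exact hs (h s (not_le.1 hc))
  have h2 := integral_add_compl hm (kk_int hk (cd e b γ0 γ1 z))
  rw [kk_integral hk] at h2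
  unfold chi
  linarith

open Classical in
/-- One cut-off. -/
theorem one_factor (hk : Ker k m c) (he : 0 ≤ e) (h0 : 0 < γ0) (h1 : 0 < γ1) {L η : ℝ}
    (hL : 1 ≤ L) (hη : 0 ≤ η) (hT : Tail k L η) (b : ℝ) (P : Finset E2) {w : E2 → ℝ}
    (hw0 : ∀ z, 0 ≤ w z) (hw1 : ∀ z, w z ≤ 1) {Λ : ℝ} (hΛ : 0 ≤ Λ) :
    ∃ χ : E2 → ℝ, Base e b γ0 γ1 χ ∧
      (∀ y : ℝ × ℝ, ∑ z ∈ P.filter (fun z => dist (cd e b γ0 γ1 z) y ≤ 1), χ z * w z ≤
        Λ + 2 * η * P.card) ∧
      ∀ y : ℝ × ℝ, ∀ z ∈ P, dist (cd e b γ0 γ1 z) y ≤ 1 →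
        ∑ z ∈ P.filter (fun z => dist (cd e b γ0 γ1 z) y ≤ 5 * L), w z ≤ Λ →
          1 - 2 * η ≤ χ z := by
  set A := cd e b γ0 γ1 with hA
  set μ : ℝ × ℝ → ℝ := fun s => ∑ z ∈ P.filter (fun z => dist (A z) s ≤ 3 * L), w z with hμ
  have hμm : Measurable μ := by
    have : μ = fun s => ∑ z ∈ P, (Metric.closedBall (A z) (3 * L)).indicator (fun _ => w z) s := by
      funext s
      rw [hμ]
      simp only [sum_filter, Set.indicator_apply, Metric.mem_closedBall']
    rw [this]
    exact Finset.measurable_sum _ fun z _ =>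
      measurable_const.indicator Metric.isClosed_closedBall.measurableSet
  set B : Set (ℝ × ℝ) := ⋃ z ∈ P, Metric.closedBall (A z) L with hB
  have hBm : MeasurableSet B :=
    P.measurableSet_biUnion fun z _ => Metric.isClosed_closedBall.measurableSet
  have hBb : Bornology.IsBounded B :=
    (Bornology.isBounded_biUnion_finset P).2 fun z _ => Metric.isBounded_closedBall
  set G : Set (ℝ × ℝ) := {s | μ s ≤ Λ} ∩ B with hG
  have hGm : MeasurableSet G := (measurableSet_le hμm measurable_const).inter hBm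
  have hGf : volume G < ⊤ :=
    (measure_mono Set.inter_subset_right).trans_lt hBb.measure_lt_top
  have hb := chi_base (b := b) hk he h0 h1 hGf
  refine ⟨chi k e b γ0 γ1 G, hb, fun y => ?_, fun y z hz hy hs => ?_⟩
  · have hc : 0 ≤ 2 * η * P.card := by positivity
    by_cases hex : ∃ z0 ∈ P.filter (fun z => dist (A z) y ≤ 1), ∃ s ∈ G, dist (A z0) s < L
    · obtain ⟨z0, hz0, s, hs, hd⟩ := hex
      have hz0' := (mem_filter.1 hz0).2
      calc ∑ z ∈ P.filter (fun z => dist (A z) y ≤ 1), chi k e b γ0 γ1 G z * w z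
          ≤ ∑ z ∈ P.filter (fun z => dist (A z) y ≤ 1), w z :=
            sum_le_sum fun z _ => mul_le_of_le_one_left (hw0 z) (hb.le_one z)
        _ ≤ μ s := by
            refine sum_le_sum_of_subset_of_nonneg (fun z hz => ?_) fun z _ _ => hw0 z
            obtain ⟨hzP, hz1⟩ := mem_filter.1 hz
            refine mem_filter.2 ⟨hzP, ?_⟩
            have t1 := dist_triangle (A z) (A z0) s
            have t2 := dist_triangle_right (A z) (A z0) y
            linarith
        _ ≤ Λ := hs.1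
        _ ≤ _ := by linarith
    · push Not at hex
      calc ∑ z ∈ P.filter (fun z => dist (A z) y ≤ 1), chi k e b γ0 γ1 G z * w z
          ≤ ∑ z ∈ P.filter (fun z => dist (A z) y ≤ 1), 2 * η := by
            refine sum_le_sum fun z hz => ?_
            exact (mul_le_of_le_one_right (hb.nonneg z) (hw1 z)).trans
              (chi_small hk hT hGm z (hex z hz))
        _ ≤ ∑ z ∈ P, 2 * η :=
            sum_le_sum_of_subset_of_nonneg (filter_subset _ _) fun _ _ _ => by positivity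
        _ = 2 * η * P.card := by rw [sum_const, nsmul_eq_mul, mul_comm]
        _ ≤ _ := by linarith
  · refine chi_large hk hT hGm z fun s hd => ⟨?_, ?_⟩
    · refine le_trans ?_ hs
      refine sum_le_sum_of_subset_of_nonneg (fun z' hz' => ?_) fun z _ _ => hw0 z
      obtain ⟨hzP, hz1⟩ := mem_filter.1 hz'
      refine mem_filter.2 ⟨hzP, ?_⟩
      have t1 := dist_triangle (A z') (A z) y
      have t2 := dist_triangle_right (A z') (A z) s
      linarith
    · exact Set.mem_biUnion (mem_coe.2 hz) (Metric.mem_closedBall'.2 hd.le)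

theorem rect_iff {K : ℕ} (hK : 0 < K) (e : ℝ) (J l p : ℕ) (D : ℝ) (y z : E2) :
    Rect e K J l p D y z ↔ dist (cd e (bs K l p) (tt K J)⁻¹ (rr K J l)⁻¹ z)
      (cd e (bs K l p) (tt K J)⁻¹ (rr K J l)⁻¹ y) ≤ D := by
  have ht := tt_pos hK J
  have hr := rr_pos hK J l
  rw [Prod.dist_eq, max_le_iff, Real.dist_eq, Real.dist_eq]
  simp only [cd, Rect]
  rw [← mul_sub, ← mul_sub, ← N0_sub, ← N1_sub, abs_mul, abs_mul, abs_of_pos (inv_pos.2 ht),
    abs_of_pos (inv_pos.2 hr), inv_mul_le_iff₀ ht, inv_mul_le_iff₀ hr, mul_comm D, mul_comm D]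

open Classical in
/-- The two properties of a cut-off that involve the point set, for the weight w. -/
def HL (e : ℝ) (K N : ℕ) (u L η : ℝ) (P : Finset E2) (J l p : ℕ) (χ w : E2 → ℝ) : Prop :=
  (∀ y, ∑ z ∈ P.filter (Rect e K J l p 1 y), χ z * w z ≤ Lam K N u J l + 2 * η * P.card) ∧
    ∀ y, ∀ z ∈ P, Rect e K J l p 1 y z →
      ∑ z ∈ P.filter (Rect e K J l p (5 * L) y), w z ≤ Lam K N u J l → 1 - 2 * η ≤ χ z

theorem one_cell (hk : Ker k m c) (he : 0 ≤ e) {K : ℕ} (hK : 0 < K) {L η : ℝ}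
    (hL : 1 ≤ L) (hη : 0 ≤ η) (hT : Tail k L η) (N : ℕ) (u : ℝ) (P : Finset E2) (J l p : ℕ)
    {w : E2 → ℝ} (hw0 : ∀ z, 0 ≤ w z) (hw1 : ∀ z, w z ≤ 1) :
    ∃ χ : E2 → ℝ, Base e (bs K l p) (tt K J)⁻¹ (rr K J l)⁻¹ χ ∧ HL e K N u L η P J l p χ w := by
  classical
  obtain ⟨χ, hb, hh, hl⟩ := one_factor hk he (inv_pos.2 (tt_pos hK J))
    (inv_pos.2 (rr_pos hK J l)) hL hη hT (bs K l p) P hw0 hw1 (Lam_nonneg K N u J l)
  refine ⟨χ, hb, fun y => ?_, fun y z hz hy hs => ?_⟩
  · refine le_trans (le_of_eq ?_) (hh (cd e (bs K l p) (tt K J)⁻¹ (rr K J l)⁻¹ y))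
    refine sum_congr ?_ fun _ _ => rfl
    ext z
    simp only [mem_filter, rect_iff hK]
  · refine hl (cd e (bs K l p) (tt K J)⁻¹ (rr K J l)⁻¹ y) z hz ((rect_iff hK _ _ _ _ _ _ _).1 hy)
      (le_trans (le_of_eq ?_) hs)
    refine sum_congr ?_ fun _ _ => rfl
    ext z
    simp only [mem_filter, rect_iff hK]

theorem cw_congr {K : ℕ} {χ χ' : ℕ → ℕ → ℕ → E2 → ℝ} {l : ℕ}
    (h : ∀ J, ∀ l' < l, ∀ p, χ' J l' p = χ J l' p) (J j p : ℕ) :
    cw K χ' J l j p = cw K χ J l j p := by
  funext z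
  unfold cw
  refine prod_congr rfl fun l' hl' => prod_congr rfl fun J' _ => ?_
  rw [h J' l' (mem_range.1 hl')]

theorem levels (hk : Ker k m c) (he : 0 ≤ e) {K : ℕ} (hK : 0 < K) {L η : ℝ}
    (hL : 1 ≤ L) (hη : 0 ≤ η) (hT : Tail k L η) (N : ℕ) (u : ℝ) (P : Finset E2) (l0 : ℕ) :
    ∃ χ : ℕ → ℕ → ℕ → E2 → ℝ,
      (∀ J l p, Base e (bs K l p) (tt K J)⁻¹ (rr K J l)⁻¹ (χ J l p)) ∧
      ∀ J, ∀ l < l0, ∀ p, HL e K N u L η P J l p (χ J l p) (cw K χ J l l p) := by
  induction l0 with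
  | zero =>
    exact ⟨fun _ _ _ _ => 0, fun J l p => base_zero _ _ _ _, fun J l hl => absurd hl (by omega)⟩
  | succ l0 ih =>
    obtain ⟨χ, hb, hh⟩ := ih
    have h0 : ∀ J l p z, 0 ≤ χ J l p z := fun J l p => (hb J l p).nonneg
    have h1 : ∀ J l p z, χ J l p z ≤ 1 := fun J l p => (hb J l p).le_one
    choose ψ hψ using fun J p => one_cell hk he hK hL hη hT N u P J l0 p
      (cw_nonneg h0 J l0 l0 p) (cw_le_one h0 h1 J l0 l0 p)
    refine ⟨fun J l p => if l = l0 then ψ J p else χ J l p, fun J l p => ?_,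
      fun J l hl p => ?_⟩
    · by_cases h : l = l0
      · subst h
        simpa using (hψ J p).1
      · simpa [h] using hb J l p
    · rw [cw_congr (χ := χ) (fun J' l' hl' p' => if_neg (by omega))]
      by_cases h : l = l0
      · subst h
        simpa using (hψ J p).2
      · simpa [h] using hh J l (by omega) p

end

end PruneAux

theorem prune_stmt : PruneStmt := by
  intro k m c e L η u K N P hk he hK hL hη hT
  obtain ⟨χ, hb, hh⟩ := PruneAux.levels hk he hK hL hη hT N u P N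
  exact ⟨χ, fun J l p => (hb J l p).nonneg, fun J l p => (hb J l p).le_one,
    fun J l p => (hb J l p).cont, fun J l p => (hb J l p).int, fun J l p => (hb J l p).spec,
    fun J l hl p => (hh J l hl p).1, fun J l hl p => (hh J l hl p).2⟩

end Pool.Agent.MP_538dc4_an
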