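import Pool.Agent.MP_538dc4_an.Spec

/-! PROJECT FURST, module RED: from the discrete estimate to Hausdorff dimension. -/

open MeasureTheory Filter Topology
open scoped ENNReal

namespace Pool.Agent.MP_538dc4_an

namespace Red

/-- Countable pigeonhole principle for outer measures. -/
theorem pig {X : Type*} (μ : OuterMeasure X) {A : Set X} {B : ℕ → Set X} (h : A ⊆ ⋃ n, B n)
    {w : ℕ → ℝ≥0∞} (hw : ∑' n, w n < μ A) : ∃ n, w n ≤ μ (B n) := by
  by_contra hc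
  push Not at hc
  have h1 : μ A ≤ ∑' n, μ (B n) := (μ.mono h).trans (measure_iUnion_le B)
  have h2 : ∑' n, μ (B n) ≤ ∑' n, w n := ENNReal.tsum_le_tsum fun n => (hc n).le
  exact absurd (h1.trans h2) (not_le.mpr hw)

theorem pig0 {X : Type*} (μ : OuterMeasure X) {A : Set X} {B : ℕ → Set X} (h : A ⊆ ⋃ n, B n)
    (hA : 0 < μ A) : ∃ n, 0 < μ (B n) := by
  by_contra hc
  push Not at hc
  have h1 : μ A ≤ ∑' n, μ (B n) := (μ.mono h).trans (measure_iUnion_le B)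
  have h2 : ∑' n, μ (B n) = 0 := by
    rw [ENNReal.tsum_eq_zero]
    exact fun n => le_antisymm (hc n) bot_le
  rw [h2] at h1
  exact absurd h1 (not_le.mpr hA)

/-- The scales. -/
noncomputable def dl (g n : ℕ) : ℝ := ((2 : ℝ) ^ (g * n))⁻¹

theorem dl_pos (g n : ℕ) : 0 < dl g n := by
  unfold dl
  positivity

theorem dl_eq (g n : ℕ) : dl g n = (((2 : ℝ) ^ g)⁻¹) ^ n := by
  rw [dl, pow_mul, inv_pow]

theorem dl_succ (g n : ℕ) : dl g (n + 1) = dl g n * ((2 : ℝ) ^ g)⁻¹ := by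
  rw [dl_eq, dl_eq, pow_succ]

theorem base_lt {g : ℕ} (hg : 1 ≤ g) : ((2 : ℝ) ^ g)⁻¹ < 1 :=
  inv_lt_one_of_one_lt₀ (one_lt_pow₀ (by norm_num) (by omega))

theorem dl_rpow (g n : ℕ) (a : ℝ) : dl g n ^ a = ((((2 : ℝ) ^ g)⁻¹) ^ a) ^ n := by
  rw [dl_eq, ← Real.rpow_natCast, ← Real.rpow_mul (by positivity), mul_comm,
    Real.rpow_mul (by positivity), Real.rpow_natCast]

theorem dl_tendsto {g : ℕ} (hg : 1 ≤ g) {a : ℝ} (ha : 0 < a) :
    Tendsto (fun n => dl g n ^ a) atTop (𝓝 0) := by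
  simp only [dl_rpow]
  exact tendsto_pow_atTop_nhds_zero_of_lt_one (by positivity)
    (Real.rpow_lt_one (by positivity) (base_lt hg) ha)

theorem dl_summable {g : ℕ} (hg : 1 ≤ g) {a : ℝ} (ha : 0 < a) :
    Summable fun n => dl g n ^ a := by
  simp only [dl_rpow]
  exact summable_geometric_of_lt_one (by positivity)
    (Real.rpow_lt_one (by positivity) (base_lt hg) ha)

/-- The tails of the geometric series are eventually small. -/
theorem tail_small {g : ℕ} (hg : 1 ≤ g) {a : ℝ} (ha : 0 < a) {c : ℝ≥0∞} (hc : 0 < c) :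
    ∀ᶠ n1 in atTop, ∑' m, ENNReal.ofReal (dl g (m + n1) ^ a) < c := by
  have h := ENNReal.tendsto_sum_nat_add (fun n => ENNReal.ofReal (dl g n ^ a))
    (dl_summable hg ha).tsum_ofReal_ne_top
  exact h.eventually (gt_mem_nhds hc)

/-- Every small positive number lies between two consecutive scales. -/
theorem exists_scale {g : ℕ} (hg : 1 ≤ g) (n1 : ℕ) {d : ℝ} (hd : 0 < d) (hd1 : d ≤ dl g n1) :
    ∃ m, dl g (m + n1 + 1) < d ∧ d ≤ dl g (m + n1) := by
  classical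
  have hex : ∃ m, dl g (m + n1 + 1) < d := by
    have h := (dl_tendsto hg one_pos).eventually (gt_mem_nhds hd)
    obtain ⟨N, hN⟩ := eventually_atTop.mp h
    exact ⟨N, by simpa using hN (N + n1 + 1) (by omega)⟩
  refine ⟨Nat.find hex, Nat.find_spec hex, ?_⟩
  rcases Nat.eq_zero_or_pos (Nat.find hex) with h0 | h0
  · rw [h0, zero_add]
    exact hd1
  · have := Nat.find_min hex (m := Nat.find hex - 1) (by omega)
    rw [show Nat.find hex - 1 + n1 + 1 = Nat.find hex + n1 by omega] at this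
    exact not_lt.mp this

/-- Few radii of a cover are larger than a given number. -/
theorem few {d : ℕ → ℝ} {s ρ : ℝ} (hs : 0 < s) (hρ : 0 < ρ) (hd : ∀ n, 0 < d n)
    (hsum : Summable fun n => d n ^ s) (h2 : ∑' n, d n ^ s ≤ 2) :
    ∃ I : Finset ℕ, (∀ i, ρ < d i → i ∈ I) ∧ (I.card : ℝ) * ρ ^ s ≤ 2 := by
  classical
  have hfin : {i | ρ < d i}.Finite := by
    have h := hsum.tendsto_atTop_zero.eventually (gt_mem_nhds (Real.rpow_pos_of_pos hρ s))
    obtain ⟨N, hN⟩ := eventually_atTop.mp h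
    refine (Set.finite_lt_nat N).subset fun i hi => ?_
    by_contra hc
    have h1 := hN i (not_lt.mp hc)
    have h3 : ρ ^ s < d i ^ s := Real.rpow_lt_rpow hρ.le hi hs
    linarith
  refine ⟨hfin.toFinset, fun i hi => by simpa using hi, ?_⟩
  calc (hfin.toFinset.card : ℝ) * ρ ^ s = ∑ _i ∈ hfin.toFinset, ρ ^ s := by
        rw [Finset.sum_const, nsmul_eq_mul]
    _ ≤ ∑ i ∈ hfin.toFinset, d i ^ s := Finset.sum_le_sum fun i hi =>
        Real.rpow_le_rpow hρ.le (le_of_lt (by simpa using hi)) hs.le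
    _ ≤ ∑' n, d n ^ s := hsum.sum_le_tsum _ fun i _ => Real.rpow_nonneg (hd i).le _
    _ ≤ 2 := h2

/-- Every parameter is good for some size. -/
theorem good_eventually {e : ℝ} {X : E3} (h : 0 < X 2 + e * X 0) :
    ∀ᶠ i : ℕ in atTop, GoodX e ((i : ℝ) + 1) X := by
  have ht : Tendsto (fun i : ℕ => (i : ℝ) + 1) atTop atTop :=
    tendsto_atTop_add_const_right _ _ tendsto_natCast_atTop_atTop
  have h4 : Tendsto (fun i : ℕ => 1 / ((i : ℝ) + 1)) atTop (𝓝 0) :=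
    tendsto_one_div_add_atTop_nhds_zero_nat
  filter_upwards [ht.eventually_ge_atTop |X 0|, ht.eventually_ge_atTop |X 1|,
    ht.eventually_ge_atTop |X 2|, h4.eventually (ge_mem_nhds h)] with i a b c d
  exact ⟨a, b, c, d⟩

theorem small_eventually {c : ℝ≥0∞} (hc : 0 < c) :
    ∀ᶠ i : ℕ in atTop, ENNReal.ofReal (1 / ((i : ℝ) + 1)) < c := by
  have h4 : Tendsto (fun i : ℕ => ENNReal.ofReal (1 / ((i : ℝ) + 1))) atTop
      (𝓝 (ENNReal.ofReal 0)) :=
    ENNReal.tendsto_ofReal tendsto_one_div_add_atTop_nhds_zero_nat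
  rw [ENNReal.ofReal_zero] at h4
  exact h4.eventually (gt_mem_nhds hc)

end Red

open Red in
/-- RED. -/
theorem red (hD : DiscStmt) (hP : HcPosStmt) (hC : CoverStmt) : RedStmt := by
  classical
  intro e u v E F he0 he1 hu0 hu1 hv0 hv3 hpos hE hA
  by_contra hcon
  obtain ⟨s', -, hs1, hs2⟩ := ENNReal.lt_iff_exists_real_btwn.mp (not_le.mp hcon)
  have hs0 : 0 < s' := ENNReal.ofReal_pos.mp (lt_of_le_of_lt bot_le hs1)
  have hs3 : s' < min (3 * u + v - 2) (u + 1) :=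
    (ENNReal.ofReal_lt_ofReal_iff_of_nonneg hs0.le).mp hs2
  set s := min (3 * u + v - 2) (u + 1) with hs
  set τ := (s - s') / 2 with hτ
  have hτ0 : 0 < τ := by rw [hτ]; linarith
  -- a piece of E with uniform constants
  let A : E3 → Set ℝ := fun X => {φ | φ ∈ Set.Ico (0 : ℝ) 1 ∧ zpt e X φ ∈ F}
  let Ei : ℕ → Set E3 := fun i => {X | GoodX e ((i : ℝ) + 1) X ∧
    ENNReal.ofReal (1 / ((i : ℝ) + 1)) < hc u (A X)}
  have hcov : E ⊆ ⋃ i, Ei i := fun X hX => by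
    obtain ⟨i, h1, h2⟩ := ((good_eventually (hpos X hX)).and
      (small_eventually (hP ℝ u (A X) hu0 (hA X hX)))).exists
    exact Set.mem_iUnion.mpr ⟨i, h1, h2⟩
  obtain ⟨i, hi⟩ := pig0 (hc v) hcov (hP E3 v E hv0 hE)
  obtain ⟨g, a, n0, hg, ha, hdisc⟩ := hD e u v ((i : ℝ) + 1) τ he0 he1 hu0 hu1 hv0 hv3
    (by linarith [(Nat.cast_nonneg i : (0 : ℝ) ≤ i)]) hτ0
  -- choice of the first scale
  have hB : 0 < (((2 : ℝ) ^ g)⁻¹) ^ s' / 2 := by positivity
  obtain ⟨N, hN⟩ := eventually_atTop.mp ((dl_tendsto hg hτ0).eventually (gt_mem_nhds hB))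
  obtain ⟨n1, ⟨⟨t1, t2⟩, t3⟩, t4⟩ := ((((tail_small hg ha hi).and (tail_small hg ha
    (c := ENNReal.ofReal (1 / ((i : ℝ) + 1))) (ENNReal.ofReal_pos.mpr (by positivity)))).and
      (eventually_ge_atTop n0)).and (eventually_ge_atTop N)).exists
  obtain ⟨x, d, hd, hsum, h2, hF⟩ := hC F s' (dl g n1) hs0 (dl_pos g n1) hs1
  choose I hI hIc using fun m : ℕ =>
    few hs0 (dl_pos g (m + n1 + 1)) (fun n => (hd n).1) hsum h2
  let Am : ℕ → E3 → Set ℝ := fun m X => {φ | φ ∈ Set.Ico (0 : ℝ) 1 ∧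
    ∃ z ∈ (I m).image x, dist z (zpt e X φ) ≤ dl g (m + n1)}
  have hAm : ∀ X, A X ⊆ ⋃ m, Am m X := fun X φ hφ => by
    obtain ⟨j, hj⟩ := Set.mem_iUnion.mp (hF hφ.2)
    obtain ⟨m, h1, h3⟩ := exists_scale hg n1 (hd j).1 (hd j).2
    refine Set.mem_iUnion.mpr ⟨m, hφ.1, x j, Finset.mem_image_of_mem _ (hI m j h1), ?_⟩
    rw [dist_comm]
    exact (Metric.mem_closedBall.mp hj).trans h3
  let Em : ℕ → Set E3 := fun m => {X | GoodX e ((i : ℝ) + 1) X ∧
    ENNReal.ofReal (dl g (m + n1) ^ a) ≤ hc u (Am m X)}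
  have hEm : Ei i ⊆ ⋃ m, Em m := fun X hX => by
    obtain ⟨m, hm⟩ := pig (hc u) (hAm X) (t2.trans hX.2)
    exact Set.mem_iUnion.mpr ⟨m, hX.1, hm⟩
  obtain ⟨m, hm⟩ := pig (hc v) hEm t1
  have key := hdisc (m + n1) (by omega) (dl g (m + n1)) rfl (Em m) ((I m).image x)
    (fun X hX => hX.1) hm (fun X hX => hX.2)
  -- the contradiction
  have hδ := dl_pos g (m + n1)
  have hcard : (((I m).image x).card : ℝ) ≤ (I m).card := by
    exact_mod_cast Finset.card_image_le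
  have h5 := hIc m
  rw [dl_succ, Real.mul_rpow hδ.le (by positivity)] at h5
  have h6 := hN (m + n1) (by omega)
  have h7 : (dl g (m + n1))⁻¹ ^ (s - τ) * (dl g (m + n1) ^ s' * dl g (m + n1) ^ τ) = 1 := by
    rw [← Real.rpow_add hδ, Real.inv_rpow hδ.le, show s' + τ = s - τ by rw [hτ]; ring]
    exact inv_mul_cancel₀ (Real.rpow_pos_of_pos hδ _).ne'
  have p1 := Real.rpow_pos_of_pos hδ s'
  have p2 := Real.rpow_pos_of_pos hδ τ
  have h8 : 1 ≤ ((I m).card : ℝ) * (dl g (m + n1) ^ s' * dl g (m + n1) ^ τ) := by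
    rw [← h7]
    exact mul_le_mul_of_nonneg_right (key.trans hcard) (by positivity)
  have hc0 : (0 : ℝ) < (I m).card := by
    by_contra h0
    have : ((I m).card : ℝ) * (dl g (m + n1) ^ s' * dl g (m + n1) ^ τ) ≤ 0 :=
      mul_nonpos_of_nonpos_of_nonneg (not_lt.mp h0) (by positivity)
    linarith
  have h9 : ((I m).card : ℝ) * (dl g (m + n1) ^ s' * dl g (m + n1) ^ τ) <
      ((I m).card : ℝ) * (dl g (m + n1) ^ s' * ((((2 : ℝ) ^ g)⁻¹) ^ s' / 2)) :=
    mul_lt_mul_of_pos_left (mul_lt_mul_of_pos_left h6 p1) hc0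
  nlinarith

end Pool.Agent.MP_538dc4_an
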