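import Pool.Agent.MP_538dc4_an.Basic

/-! PROJECT FURST: reduction of sine waves to parabolas. -/

noncomputable section

open Set Real

namespace Pool.Agent.MP_538dc4_an

namespace Sine

theorem dim_le {X Y : Type} [NormedAddCommGroup X] [NormedSpace ℝ X] [NormedAddCommGroup Y]
    [NormedSpace ℝ Y] [SecondCountableTopology X] {f : X → Y} {s : Set X}
    (h : ∀ x ∈ s, ContDiffAt ℝ 1 f x) : dimH (f '' s) ≤ dimH s :=
  dimH_image_le_of_locally_lipschitzOn fun x hx =>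
    let ⟨C, t, ht, hf⟩ := (h x hx).exists_lipschitzOnWith
    ⟨C, t, mem_nhdsWithin_of_mem_nhds ht, hf⟩

section
variable {X : Type} [NormedAddCommGroup X] [NormedSpace ℝ X] {f g h : X → ℝ} {x : X}

theorem cd_v2 (hf : ContDiffAt ℝ 1 f x) (hg : ContDiffAt ℝ 1 g x) :
    ContDiffAt ℝ 1 (fun y => v2 (f y) (g y)) x :=
  contDiffAt_euclidean.2 fun i => by
    fin_cases i
    exacts [hf, hg]

theorem cd_v3 (hf : ContDiffAt ℝ 1 f x) (hg : ContDiffAt ℝ 1 g x) (hh : ContDiffAt ℝ 1 h x) :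
    ContDiffAt ℝ 1 (fun y => v3 (f y) (g y) (h y)) x :=
  contDiffAt_euclidean.2 fun i => by
    fin_cases i
    exacts [hf, hg, hh]

end

theorem cd_co {n : ℕ} (i : Fin n) (z : EuclideanSpace ℝ (Fin n)) :
    ContDiffAt ℝ 1 (fun y : EuclideanSpace ℝ (Fin n) => y i) z :=
  contDiffAt_euclidean.1 contDiffAt_id i

/-- The change of variables in the plane. -/
def Ph (l n : ℝ) (z : E2) : E2 :=
  v2 (-(√2 * z 1 * (1 + tan (z 0 / 2) ^ 2) + l * tan (z 0 / 2) ^ 2 - n * tan (z 0 / 2)))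
    (tan (z 0 / 2))

/-- The change of parameters. -/
def Tp (l n : ℝ) (x : E3) : E3 :=
  v3 ((2 * x 1 - n) ^ 2 / (4 * (x 2 - x 0 + l)) - (x 0 + x 2))
    (-(2 * x 1 - n) / (2 * (x 2 - x 0 + l))) (1 / (4 * (x 2 - x 0 + l)))

/-- Its inverse. -/
def Ti (l n : ℝ) (X : E3) : E3 :=
  v3 ((X 1 ^ 2 / (4 * X 2) - X 0 - 1 / (4 * X 2) + l) / 2) ((-X 1 / (2 * X 2) + n) / 2)
    ((X 1 ^ 2 / (4 * X 2) - X 0 + 1 / (4 * X 2) - l) / 2)

/-- The point of the sine wave above an angle. -/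
def pw (x : E3) (θ : ℝ) : E2 := v2 θ ((x 0 * cos θ + x 1 * sin θ + x 2) / √2)

theorem Ti_Tp {l : ℝ} (n : ℝ) {x : E3} (h : x 2 - x 0 + l ≠ 0) : Ti l n (Tp l n x) = x := by
  refine E3_ext ?_ ?_ ?_ <;> simp only [Ti, Tp, v3_0, v3_1, v3_2] <;> field_simp <;> ring

theorem cd_Ti (l n : ℝ) {X : E3} (h : X 2 ≠ 0) : ContDiffAt ℝ 1 (Ti l n) X := by
  have h0 := cd_co 0 X
  have h1 := cd_co 1 X
  have h2 := cd_co 2 X
  have a1 : ContDiffAt ℝ 1 (fun X : E3 => X 1 ^ 2 / (4 * X 2)) X :=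
    (h1.pow 2).div (contDiffAt_const.mul h2) (by simpa using h)
  have a2 : ContDiffAt ℝ 1 (fun X : E3 => 1 / (4 * X 2)) X :=
    contDiffAt_const.div (contDiffAt_const.mul h2) (by simpa using h)
  have a3 : ContDiffAt ℝ 1 (fun X : E3 => -X 1 / (2 * X 2)) X :=
    h1.neg.div (contDiffAt_const.mul h2) (by simpa using h)
  exact cd_v3 ((((a1.sub h0).sub a2).add contDiffAt_const).div_const 2)
    ((a3.add contDiffAt_const).div_const 2)
    ((((a1.sub h0).add a2).sub contDiffAt_const).div_const 2)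

theorem cd_Ph (l n : ℝ) {z : E2} (h : cos (z 0 / 2) ≠ 0) : ContDiffAt ℝ 1 (Ph l n) z := by
  have ht : ContDiffAt ℝ 1 (fun z : E2 => tan (z 0 / 2)) z :=
    ContDiffAt.comp (g := tan) (f := fun z : E2 => z 0 / 2) z (contDiffAt_tan.2 h)
      ((cd_co 0 z).div_const 2)
  exact cd_v2 ((((contDiffAt_const.mul (cd_co 1 z)).mul (contDiffAt_const.add (ht.pow 2))).add
    (contDiffAt_const.mul (ht.pow 2))).sub (contDiffAt_const.mul ht)).neg ht

theorem cd_pw (x : E3) (θ : ℝ) : ContDiffAt ℝ 1 (pw x) θ :=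
  cd_v2 contDiffAt_id (by fun_prop)

theorem Ph_pw {l : ℝ} (n : ℝ) {x : E3} (h : x 2 - x 0 + l ≠ 0) {θ : ℝ} (hθ : cos (θ / 2) ≠ 0) :
    zpt 0 (Tp l n x) (2 * x 1 - n + 2 * (x 2 - x 0 + l) * tan (θ / 2)) = Ph l n (pw x θ) := by
  have e1 : cos θ = cos (θ / 2) ^ 2 - sin (θ / 2) ^ 2 := by
    rw [← cos_two_mul']
    congr 1
    ring
  have e2 : sin θ = 2 * sin (θ / 2) * cos (θ / 2) := by
    rw [← sin_two_mul]
    congr 1
    ring
  have e3 := sin_sq_add_cos_sq (θ / 2)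
  have e4 : (x 0 * cos θ + x 1 * sin θ + x 2) * (1 + tan (θ / 2) ^ 2) =
      x 0 * (1 - tan (θ / 2) ^ 2) + 2 * x 1 * tan (θ / 2) + x 2 * (1 + tan (θ / 2) ^ 2) := by
    rw [e1, e2, tan_eq_sin_div_cos]
    generalize cos (θ / 2) = c at hθ e3
    generalize sin (θ / 2) = s at e3
    field_simp
    linear_combination (x 0 * (c ^ 2 - s ^ 2) + x 1 * (2 * s * c)) * e3
  have h2 : (√2 : ℝ) ≠ 0 := by positivity
  refine E2_ext ?_ ?_
  · simp only [zpt, cc, Tp, Ph, pw, v2_0, v2_1, v3_0, v3_2]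
    rw [mul_div_cancel₀ _ h2, e4]
    field_simp
    ring
  · simp only [zpt, cc, Tp, Ph, pw, v2_0, v2_1, v3_0, v3_1, v3_2]
    field_simp
    ring

theorem half_angle {θ : ℝ} (h : θ ∈ Icc 0 (2 * π)) (hne : θ ≠ π) :
    cos (θ / 2) ≠ 0 ∧ ∃ b : ℕ, θ = 2 * arctan (tan (θ / 2)) + 2 * π * b := by
  have hp := pi_pos
  rcases lt_or_gt_of_ne hne with hl | hl
  · refine ⟨(cos_pos_of_mem_Ioo ⟨by linarith [h.1], by linarith⟩).ne', 0, ?_⟩
    rw [arctan_tan (by linarith [h.1]) (by linarith)]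
    simp only [Nat.cast_zero]
    ring
  · refine ⟨(cos_neg_of_pi_div_two_lt_of_lt (by linarith) (by linarith [h.2])).ne, 1, ?_⟩
    rw [← tan_sub_pi, arctan_tan (by linarith) (by linarith [h.2])]
    simp only [Nat.cast_one]
    ring

/-- The image of the set in the new coordinates. -/
def Fp (l n : ℝ) (F : Set E2) : Set E2 := Ph l n '' (F ∩ {z | cos (z 0 / 2) ≠ 0})

theorem dim_Fp (l n : ℝ) (F : Set E2) : dimH (Fp l n F) ≤ dimH F :=
  (dim_le fun _ hz => cd_Ph l n hz.2).trans (dimH_mono inter_subset_left)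

theorem one_curve {l : ℝ} {x : E3} (h : x 2 - x 0 + l ≠ 0) {F : Set E2} {a : ENNReal}
    (ha : a < dimH (sineWave x ∩ F)) : ∃ n : ℤ,
      a < dimH {φ | φ ∈ Ico (0 : ℝ) 1 ∧ zpt 0 (Tp l n x) φ ∈ Fp l n F} := by
  by_contra hc
  push Not at hc
  let ps : ℤ × ℕ → ℝ → E2 := fun i φ =>
    pw x (2 * arctan ((φ - (2 * x 1 - i.1)) / (2 * (x 2 - x 0 + l))) + 2 * π * i.2)
  have hsub : sineWave x ∩ F ⊆ {pw x π} ∪ ⋃ i : ℤ × ℕ,
      ps i '' {φ | φ ∈ Ico (0 : ℝ) 1 ∧ zpt 0 (Tp l i.1 x) φ ∈ Fp l i.1 F} := by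
    rintro z ⟨⟨h1, h2⟩, hF⟩
    have e : z = pw x (z 0) := E2_ext rfl h2
    by_cases hp : z 0 = π
    · exact Or.inl (by rw [e, hp]; rfl)
    obtain ⟨h3, b, hb⟩ := half_angle h1 hp
    let y := 2 * x 1 + 2 * (x 2 - x 0 + l) * tan (z 0 / 2)
    have e2 : 2 * x 1 - ⌊y⌋ + 2 * (x 2 - x 0 + l) * tan (z 0 / 2) = Int.fract y := by
      simp only [Int.fract, y]
      ring
    refine Or.inr (mem_iUnion.2 ⟨(⌊y⌋, b),
      2 * x 1 - ⌊y⌋ + 2 * (x 2 - x 0 + l) * tan (z 0 / 2), ⟨?_, ?_⟩, ?_⟩)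
    · rw [e2]
      exact ⟨Int.fract_nonneg _, Int.fract_lt_one _⟩
    · rw [Ph_pw _ h h3, ← e]
      exact ⟨z, ⟨hF, h3⟩, rfl⟩
    · simp only [ps]
      rw [add_sub_cancel_left, mul_div_cancel_left₀ _ (mul_ne_zero two_ne_zero h), ← hb, ← e]
  refine absurd ((dimH_mono hsub).trans ?_) (not_le.2 ha)
  rw [dimH_union, dimH_singleton, dimH_iUnion]
  refine max_le bot_le (iSup_le fun i => (dim_le fun φ _ => ?_).trans (hc i.1))
  refine (cd_pw x _).comp φ ((contDiffAt_const.mul ?_).add contDiffAt_const)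
  exact contDiff_arctan.contDiffAt.comp φ ((contDiffAt_id.sub contDiffAt_const).div_const _)

end Sine

open Sine in
theorem sine_stmt (h : RedStmt) : SineStmt := by
  intro u v E F hu hu1 hv hv3 hE hF
  let Ei : ℕ × ℤ → Set E3 := fun i => {x | 0 < x 2 - x 0 + i.1 ∧ ENNReal.ofReal u <
    dimH {φ | φ ∈ Ico (0 : ℝ) 1 ∧ zpt 0 (Tp i.1 i.2 x) φ ∈ Fp i.1 i.2 F}}
  have hsub : E ⊆ ⋃ i, Ei i := by
    intro x hx
    obtain ⟨l, hl⟩ := exists_nat_gt (x 0 - x 2)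
    have h1 : 0 < x 2 - x 0 + l := by linarith
    obtain ⟨n, hn⟩ := one_curve h1.ne' (hF x hx)
    exact mem_iUnion.2 ⟨(l, n), h1, hn⟩
  have h1 := hE.trans_le (dimH_mono hsub)
  rw [dimH_iUnion, lt_iSup_iff] at h1
  obtain ⟨i, hi⟩ := h1
  have hpos : ∀ X ∈ Tp i.1 i.2 '' Ei i, 0 < X 2 := by
    rintro _ ⟨x, hx, rfl⟩
    have := hx.1
    simp only [Tp, v3_2]
    positivity
  refine (h 0 u v (Tp i.1 i.2 '' Ei i) (Fp i.1 i.2 F) le_rfl zero_le_one hu hu1 hv hv3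
    (fun X hX => by simpa using hpos X hX) (hi.trans_le ?_) ?_).trans (dim_Fp _ _ F)
  · refine le_trans (dimH_mono fun x hx => ?_)
      (dim_le (f := Ti i.1 i.2) fun X hX => cd_Ti _ _ (hpos X hX).ne')
    exact ⟨_, mem_image_of_mem _ hx, Ti_Tp _ hx.1.ne'⟩
  · rintro _ ⟨x, hx, rfl⟩
    exact hx.2

end Pool.Agent.MP_538dc4_an
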