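import Pool.Agent.MP_538dc4_an.Shear

/-! PROJECT FURST, module SUP: the local average of the square function. -/

open MeasureTheory Finset
open scoped ENNReal FourierTransform ComplexConjugate RealInnerProductSpace

namespace Pool.Agent.MP_538dc4_an

namespace Sup

variable {D : Dat}

theorem abs_add3_le (x y z : ℝ) : |x + y + z| ≤ |x| + |y| + |z| :=
  (abs_add_le _ _).trans (add_le_add (abs_add_le _ _) le_rfl)

theorem shift0 {x y w d s A : ℝ} (hs : 0 ≤ s) (hx : |x| ≤ s ^ 2) (hy : |y| ≤ s) (hw : |w| ≤ A)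
    (hd : |d| ≤ s) : |x + d * y + d ^ 2 * w| ≤ (2 + A) * s ^ 2 := by
  have h1 : |d * y| ≤ s * s := by
    rw [abs_mul]; exact mul_le_mul hd hy (abs_nonneg _) hs
  have h2 : |d ^ 2 * w| ≤ s ^ 2 * A := by
    rw [abs_mul, abs_pow]
    exact mul_le_mul (pow_le_pow_left₀ (abs_nonneg _) hd 2) hw (abs_nonneg _) (by positivity)
  have := abs_add3_le x (d * y) (d ^ 2 * w)
  nlinarith

theorem shift1 {y w d s A : ℝ} (hs : 0 ≤ s) (hy : |y| ≤ s) (hw : |w| ≤ A)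
    (hd : |d| ≤ s) : |y + 2 * d * w| ≤ (1 + 2 * A) * s := by
  have h2 : |2 * d * w| ≤ 2 * (s * A) := by
    rw [mul_assoc, abs_mul, abs_mul, abs_two]
    exact mul_le_mul_of_nonneg_left (mul_le_mul hd hw (abs_nonneg _) hs) (by norm_num)
  have := abs_add_le y (2 * d * w)
  nlinarith

/-- The constant 6 R L / c. -/
noncomputable def Db (D : Dat) : ℝ := 6 * D.R * D.L / D.c

theorem Db_ge (h : D.Ok) : 6 * D.R ≤ Db D := by
  have := h.ker.c_pos; have := h.ker.c_le; have := h.R_ge; have := h.L_ge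
  unfold Db; rw [le_div_iff₀ (by assumption)]
  nlinarith [mul_nonneg (by linarith : (0 : ℝ) ≤ D.R) (by linarith : (0 : ℝ) ≤ D.L - D.c)]

theorem Db_le (h : D.Ok) : 30 * Db D ≤ D.K := by
  have := h.ker.c_pos; have := h.RL_le; have := h.R_ge; have := h.L_ge
  have h3 : 0 ≤ D.R * D.L := by positivity
  unfold Db; rw [← mul_div_assoc, div_le_iff₀ (by assumption)]
  nlinarith

open Classical in
/-- The points that interact with the envelope centred at Y. -/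
noncomputable def QS (D : Dat) (l1 p1 : ℕ) (Y : E3) : Finset E2 :=
  D.P.filter fun z =>
    |L0 (bs D.K l1 p1) Y - N0 D.e (bs D.K l1 p1) z| ≤ 3 * Db D * (((D.K : ℝ) ^ l1)⁻¹) ^ 2 ∧
      |L1 (bs D.K l1 p1) Y - N1 D.e (bs D.K l1 p1) z| ≤ 3 * Db D * ((D.K : ℝ) ^ l1)⁻¹

theorem QS_subset (D : Dat) (l1 p1 : ℕ) (Y : E3) : QS D l1 p1 Y ⊆ D.P := by
  classical
  unfold QS; exact filter_subset _ _

theorem norm_pk (h : D.Ok) (j l : ℕ) (y0 y1 : ℝ) :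
    ‖D.pk j l y0 y1‖ = D.k (D.om j * y0) * D.k (D.be j * y1) := by
  unfold Dat.pk
  rw [norm_mul, norm_mul, norm_ee, mul_one, Complex.norm_real, Complex.norm_real,
    Real.norm_of_nonneg (h.ker.k_nonneg _), Real.norm_of_nonneg (h.ker.k_nonneg _)]

theorem norm_pk_le (h : D.Ok) (j l : ℕ) (y0 y1 : ℝ) : ‖D.pk j l y0 y1‖ ≤ 4 := by
  rw [norm_pk h]
  have := h.ker.k_le (D.om j * y0); have := h.ker.k_le (D.be j * y1)
  have := h.ker.k_nonneg (D.om j * y0); have := h.ker.k_nonneg (D.be j * y1)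
  nlinarith

theorem norm_Gp_le (h : D.Ok) {Q : Finset E2} (hQ : Q ⊆ D.P) (j l p : ℕ) (y : E2) {A : ℝ}
    (hA0 : 0 ≤ A) (hA : ∀ z ∈ Q, ‖D.pk j l (y 0 - N0 D.e (bs D.K j p) z)
      (y 1 - N1 D.e (bs D.K j p) z)‖ ≤ A) : ‖D.Gp Q j l p y‖ ≤ D.P.card * A := by
  unfold Dat.Gp
  refine (norm_sum_le _ _).trans ?_
  calc _ ≤ ∑ _z ∈ Q, A := by
        refine sum_le_sum fun z hz => ?_
        rw [norm_mul, Complex.norm_real, Real.norm_of_nonneg (h.wt_nonneg _ _ _)]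
        have := h.wt_le_one j p z; have := h.wt_nonneg j p z
        nlinarith [hA z hz, norm_nonneg (D.pk j l (y 0 - N0 D.e (bs D.K j p) z)
          (y 1 - N1 D.e (bs D.K j p) z))]
    _ = Q.card * A := by rw [sum_const, nsmul_eq_mul]
    _ ≤ _ := by
        have : (Q.card : ℝ) ≤ D.P.card := by exact_mod_cast card_le_card hQ
        gcongr

theorem continuous_Gp (h : D.Ok) (Q : Finset E2) (j l p : ℕ) : Continuous (D.Gp Q j l p) := by
  have := h.ker.k_cont; have := continuous_ee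
  unfold Dat.Gp Dat.pk
  fun_prop

/-- Outside QS the wave packets are negligible on the near set. -/
theorem far (h : D.Ok) {j l l1 p1 p : ℕ} {b : ℝ} {X Y : E3} {z : E2} (hj : 4 ≤ j)
    (hl1 : l1 ≤ j - 3) (hp : p ∈ ch D.K l1 p1 j)
    (hb : |b - bs D.K l1 p1| ≤ ((D.K : ℝ) ^ l1)⁻¹)
    (h0 : |L0 b (X - Y)| ≤ (((D.K : ℝ) ^ l1)⁻¹) ^ 2) (h1 : |L1 b (X - Y)| ≤ ((D.K : ℝ) ^ l1)⁻¹)
    (h2 : |(X - Y) 2| ≤ 1) (h3 : |D.c / (D.R + 1) * X 2| < D.L) (hz : z ∈ D.P)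
    (hzQ : z ∉ QS D l1 p1 Y) :
    ‖D.pk j l (L0 (bs D.K j p) X - N0 D.e (bs D.K j p) z)
      (L1 (bs D.K j p) X - N1 D.e (bs D.K j p) z)‖ ≤ 2 * D.η := by
  classical
  rw [norm_pk h]
  set a := bs D.K j p with ha
  set y0 := L0 a X - N0 D.e a z with hy0
  set y1 := L1 a X - N1 D.e a z with hy1
  have hk0 := h.ker.k_le (D.om j * y0); have hk1 := h.ker.k_le (D.be j * y1)
  have hk2 := h.ker.k_nonneg (D.om j * y0); have hk3 := h.ker.k_nonneg (D.be j * y1)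
  have hη := h.η_nonneg
  by_cases c0 : D.L ≤ |D.om j * y0|
  · have := h.tail.1 _ c0; nlinarith
  by_cases c1 : D.L ≤ |D.be j * y1|
  · have := h.tail.1 _ c1; nlinarith
  exfalso
  push Not at c0 c1
  apply hzQ
  set s := ((D.K : ℝ) ^ l1)⁻¹ with hs
  set b1 := bs D.K l1 p1 with hb1
  have hK : (1 : ℝ) ≤ D.K := by have := h.K_ge_1000; linarith
  have hc := h.ker.c_pos; have hc1 := h.ker.c_le; have hR := h.R_ge; have hL := h.L_ge
  have hs0 : 0 < s := by positivity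
  have hsj : ((D.K : ℝ) ^ (j - 1))⁻¹ ≤ s :=
    inv_anti₀ (by positivity) (pow_le_pow_right₀ hK (by omega))
  have e0 : |y0| ≤ s ^ 2 := by
    rw [abs_mul, abs_of_pos (h.om_pos j), Dat.om, div_mul_eq_mul_div,
      div_lt_iff₀ (tt_pos h.K_pos _)] at c0
    have : |y0| < tt D.K (j - 1) := lt_of_mul_lt_mul_left c0 (by linarith)
    rw [tt_eq_sq] at this
    exact this.le.trans (pow_le_pow_left₀ (by positivity) hsj 2)
  have e1 : |y1| ≤ s := by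
    rw [abs_mul, abs_of_pos (h.be_pos j), Dat.be, div_mul_eq_mul_div,
      div_lt_iff₀ (by positivity)] at c1
    refine le_trans ?_ hsj
    have hj1 : (D.K : ℝ) ^ j = (D.K : ℝ) ^ (j - 1) * D.K := by
      rw [← pow_succ]; congr 1; omega
    have hP : (0 : ℝ) < (D.K : ℝ) ^ (j - 1) := by positivity
    rw [← one_div, le_div_iff₀ hP]
    have h4 := h.RL_le
    have h5 : D.L * (4 * D.R + 7) ≤ D.c * D.K := by nlinarith
    rw [hj1] at c1
    have h6 : D.c * D.K * (|y1| * (D.K : ℝ) ^ (j - 1)) < D.c * D.K * 1 := by nlinarith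
    exact (lt_of_mul_lt_mul_left h6 (by positivity)).le
  have e2 : |X 2 + D.e * z 0| ≤ Db D := by
    rw [abs_mul, abs_of_pos (by positivity), div_mul_eq_mul_div, div_lt_iff₀ (by positivity)] at h3
    have h4 : |D.e * z 0| ≤ 4 * D.R := by
      rw [abs_mul, abs_of_nonneg h.e_nonneg]
      have := h.P_bdd z hz; have := h.e_le; have := h.e_nonneg
      nlinarith [abs_nonneg (z 0)]
    refine (abs_add_le _ _).trans ?_
    unfold Db; rw [le_div_iff₀ hc]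
    have h5 : D.c * (4 * D.R) ≤ D.L * (4 * D.R) := by gcongr; linarith
    have h6 : D.c * |D.e * z 0| ≤ D.c * (4 * D.R) := by gcongr
    nlinarith
  have hab : |b1 - a| ≤ s := by
    have := bs_sub_of_mem_ch h.K_pos (by omega) hp
    rw [abs_sub_comm, abs_of_nonneg this.1]; exact this.2.le
  have hbb : |b1 - b| ≤ s := by rwa [abs_sub_comm]
  have f0 := shift0 hs0.le e0 e1 e2 hab
  have f1 := shift1 hs0.le e1 e2 hab
  rw [hy0, hy1, ← inc0_shift] at f0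
  rw [hy1, ← inc1_shift] at f1
  have g0 := shift0 hs0.le h0 h1 h2 hbb
  have g1 := shift1 hs0.le h1 h2 hbb
  rw [← L0_shift, L0_sub] at g0
  rw [← L1_shift, L1_sub] at g1
  have hD := Db_ge h
  unfold QS
  rw [mem_filter]
  refine ⟨hz, ?_, ?_⟩
  · have : L0 b1 Y - N0 D.e b1 z = (L0 b1 X - N0 D.e b1 z) - (L0 b1 X - L0 b1 Y) := by ring
    rw [this]
    refine (abs_sub _ _).trans ?_
    nlinarith [sq_nonneg s, mul_nonneg (by linarith : 0 ≤ Db D - 6) (sq_nonneg s)]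
  · have : L1 b1 Y - N1 D.e b1 z = (L1 b1 X - N1 D.e b1 z) - (L1 b1 X - L1 b1 Y) := by ring
    rw [this]
    refine (abs_sub _ _).trans ?_
    nlinarith [mul_nonneg (by linarith : 0 ≤ Db D - 6) hs0.le]

theorem rpow_le_self {x u : ℝ} (hx : 1 ≤ x) (hu : u ≤ 1) : x ^ u ≤ x := by
  simpa using Real.rpow_le_rpow_of_exponent_le hx hu

/-- The pruned mass of QS. -/
theorem mass_le (h : D.Ok) {j l1 p1 : ℕ} (Y : E3) (hj : 4 ≤ j) (hjN : j ≤ D.N)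
    (hl1 : l1 ≤ j - 3) (hp1 : p1 < D.K ^ l1) :
    ∑ z ∈ QS D l1 p1 Y, cw D.K D.χ (j - 2) (l1 + 1) l1 p1 z ≤
      3 * (D.K : ℝ) ^ 6 * ((((D.K : ℝ) ^ l1)⁻¹) ^ 2 / D.δ * (((D.K : ℝ) ^ l1)⁻¹ / D.δ) ^ D.u) := by
  classical
  set s := ((D.K : ℝ) ^ l1)⁻¹ with hs
  have hK : (1 : ℝ) ≤ D.K := by have := h.K_ge_1000; linarith
  have hs0 : 0 < s := by positivity
  have hδ := h.δ_pos
  have hM : 0 ≤ s ^ 2 / D.δ * (s / D.δ) ^ D.u := by positivity
  by_cases hl : l1 ≤ 2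
  · have h1 : ∑ z ∈ QS D l1 p1 Y, cw D.K D.χ (j - 2) (l1 + 1) l1 p1 z ≤ D.P.card := by
      calc _ ≤ ∑ _z ∈ QS D l1 p1 Y, (1 : ℝ) :=
            sum_le_sum fun z _ => cw_le_one h.prune.nonneg h.prune.le_one _ _ _ _ _
        _ = (QS D l1 p1 Y).card := by simp
        _ ≤ _ := by exact_mod_cast card_le_card (QS_subset _ _ _ _)
    have hx : (D.K : ℝ) ^ l1 ≤ (D.K : ℝ) ^ 2 := pow_le_pow_right₀ hK hl
    have hx1 : (1 : ℝ) ≤ (D.K : ℝ) ^ l1 := one_le_pow₀ hK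
    have e1 : D.δ⁻¹ = (D.K : ℝ) ^ l1 * (s / D.δ) := by rw [hs]; field_simp
    have e2 : D.δ⁻¹ = ((D.K : ℝ) ^ l1) ^ 2 * (s ^ 2 / D.δ) := by rw [hs]; field_simp
    have h2 : D.δ⁻¹ ^ D.u ≤ (D.K : ℝ) ^ 2 * (s / D.δ) ^ D.u := by
      rw [e1, Real.mul_rpow (by positivity) (by positivity)]
      exact mul_le_mul_of_nonneg_right ((rpow_le_self hx1 h.u_le).trans hx) (by positivity)
    have h3 : D.δ⁻¹ ≤ ((D.K : ℝ) ^ 2) ^ 2 * (s ^ 2 / D.δ) := by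
      rw [e2]; gcongr
    calc _ ≤ D.δ⁻¹ * D.δ⁻¹ ^ D.u := h1.trans h.card_le
      _ ≤ (((D.K : ℝ) ^ 2) ^ 2 * (s ^ 2 / D.δ)) * ((D.K : ℝ) ^ 2 * (s / D.δ) ^ D.u) :=
          mul_le_mul h3 h2 (by positivity) (by positivity)
      _ = 1 * (D.K : ℝ) ^ 6 * (s ^ 2 / D.δ * (s / D.δ) ^ D.u) := by ring
      _ ≤ _ := by gcongr; norm_num
  rcases (QS D l1 p1 Y).eq_empty_or_nonempty with hQ | ⟨z', hz'⟩
  · rw [hQ, sum_empty]; positivity
  obtain ⟨n, rfl⟩ : ∃ n, l1 = n + 3 := ⟨l1 - 3, by omega⟩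
  set p2 := p1 / D.K ^ (n + 3 - n) with hp2
  have hD := Db_ge h; have hD' := Db_le h; have hR := h.R_ge
  have hs3 : (D.K : ℝ) ^ 3 * s = ((D.K : ℝ) ^ n)⁻¹ := by rw [hs, pow_add]; field_simp
  have hs4 : (D.K : ℝ) ^ 3 * s ≤ 1 := by
    rw [hs3]; exact inv_le_one_of_one_le₀ (one_le_pow₀ hK)
  have et : tt D.K (n + 1) = (D.K : ℝ) ^ 4 * s ^ 2 := by
    rw [tt_add h.K_pos (n + 1) 2, tt_eq_sq]
  have er : rr D.K (n + 1) n = D.K * s := by
    unfold rr; rw [et, hs]; field_simp; ring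
  have hsub : QS D (n + 3) p1 Y ⊆ D.P.filter (Rect D.e D.K (n + 1) n p2 1 z') := by
    intro z hz
    unfold QS at hz hz'
    rw [mem_filter] at hz hz' ⊢
    refine ⟨hz.1, ?_⟩
    set b1 := bs D.K (n + 3) p1 with hb1
    have hb : |b1| ≤ 1 := by rw [abs_of_nonneg (bs_nonneg _ _ _)]; exact (bs_lt_one hp1).le
    have a0 : |N0 D.e b1 (z - z')| ≤ 6 * Db D * s ^ 2 := by
      have : N0 D.e b1 (z - z') = (L0 b1 Y - N0 D.e b1 z') - (L0 b1 Y - N0 D.e b1 z) := by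
        rw [N0_sub]; ring
      rw [this]; refine (abs_sub _ _).trans ?_; linarith [hz.2.1, hz'.2.1]
    have a1 : |N1 D.e b1 (z - z')| ≤ 6 * Db D * s := by
      have : N1 D.e b1 (z - z') = (L1 b1 Y - N1 D.e b1 z') - (L1 b1 Y - N1 D.e b1 z) := by
        rw [N1_sub]; ring
      rw [this]; refine (abs_sub _ _).trans ?_; linarith [hz.2.2, hz'.2.2]
    have hK3 : (1 : ℝ) ≤ (D.K : ℝ) ^ 3 := one_le_pow₀ hK
    have hs1 : s ≤ 1 := by nlinarith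
    have hDs : 0 ≤ Db D * s := by have : 0 ≤ Db D := by linarith
                                  positivity
    have a2 : |D.e * (z - z') 0| ≤ 12 * Db D * s := by
      have := abs_coord0_le h.e_nonneg hb (z - z')
      have h5 : Db D * s * s ≤ Db D * s * 1 := by gcongr
      rw [abs_mul, abs_of_nonneg h.e_nonneg]
      have h6 : D.e * |(z - z') 0| ≤ 1 * |(z - z') 0| :=
        mul_le_mul_of_nonneg_right h.e_le (abs_nonneg _)
      nlinarith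
    have hd : |bs D.K n p2 - b1| ≤ (D.K : ℝ) ^ 3 * s := by
      have := bs_sub_div h.K_pos (Nat.le_add_right n 3) p1
      rw [abs_sub_comm, abs_of_nonneg this.1, hs3]; exact this.2.le
    set d := bs D.K n p2 - b1 with hd'
    have hd1 : |d| ≤ 1 := hd.trans hs4
    have m1 : |d * N1 D.e b1 (z - z')| ≤ (D.K : ℝ) ^ 3 * s * (6 * Db D * s) := by
      rw [abs_mul]; exact mul_le_mul hd a1 (abs_nonneg _) (by positivity)
    have m2 : |d * (D.e * (z - z') 0)| ≤ 1 * (12 * Db D * s) := by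
      rw [abs_mul]; exact mul_le_mul hd1 a2 (abs_nonneg _) (by positivity)
    have m3 : |d * (d * (D.e * (z - z') 0))| ≤ (D.K : ℝ) ^ 3 * s * (1 * (12 * Db D * s)) := by
      rw [abs_mul]; exact mul_le_mul hd m2 (abs_nonneg _) (by positivity)
    constructor
    · rw [N0_shift D.e _ b1, et, one_mul, ← hd']
      have : D.e * d ^ 2 * (z - z') 0 = d * (d * (D.e * (z - z') 0)) := by ring
      rw [this]
      refine (abs_sub _ _).trans ?_
      have m4 := abs_add_le (N0 D.e b1 (z - z')) (d * N1 D.e b1 (z - z'))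
      have m5 : 1 * (Db D * s * s) ≤ (D.K : ℝ) ^ 3 * (Db D * s * s) := by gcongr
      have m6 : 30 * Db D * ((D.K : ℝ) ^ 3 * s ^ 2) ≤ D.K * ((D.K : ℝ) ^ 3 * s ^ 2) := by gcongr
      have m7 : 0 ≤ (D.K : ℝ) ^ 3 * (Db D * s * s) := by positivity
      nlinarith
    · rw [N1_shift D.e _ b1, er, one_mul, ← hd']
      have : 2 * D.e * d * (z - z') 0 = 2 * (d * (D.e * (z - z') 0)) := by ring
      rw [this]
      refine (abs_sub _ _).trans ?_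
      rw [abs_mul, abs_two]
      have m6 : 30 * Db D * s ≤ D.K * s := by gcongr
      nlinarith
  have hheavy := h.prune.heavy (n + 1) n (by omega) p2 z'
  have hLam : 1 ≤ Lam D.K D.N D.u (n + 1) n := one_le_Lam h.K_pos h.u_pos.le (by omega) n
  have hLam2 : Lam D.K D.N D.u (n + 1) n ≤
      (D.K : ℝ) ^ 6 * (s ^ 2 / D.δ * (s / D.δ) ^ D.u) := by
    unfold Lam
    rw [et, er, mul_div_assoc, mul_div_assoc, Real.mul_rpow (by positivity) (by positivity)]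
    have h1 : (D.K : ℝ) ^ D.u ≤ (D.K : ℝ) ^ 2 :=
      (rpow_le_self hK h.u_le).trans (le_self_pow₀ hK (by norm_num))
    calc _ ≤ (D.K : ℝ) ^ 4 * (s ^ 2 / D.δ) * ((D.K : ℝ) ^ 2 * (s / D.δ) ^ D.u) := by
          change (D.K : ℝ) ^ 4 * (s ^ 2 / D.δ) * ((D.K : ℝ) ^ D.u * (s / D.δ) ^ D.u) ≤ _
          gcongr
      _ = _ := by ring
  calc _ ≤ ∑ z ∈ QS D (n + 3) p1 Y, D.χ (n + 1) n p2 z * cw D.K D.χ (n + 1) n n p2 z :=
        sum_le_sum fun z _ => cw_le_heavy h.prune.nonneg h.prune.le_one (by omega) (by omega)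
          (by omega) (by omega) p1 z
    _ ≤ ∑ z ∈ D.P.filter (Rect D.e D.K (n + 1) n p2 1 z'),
          D.χ (n + 1) n p2 z * cw D.K D.χ (n + 1) n n p2 z :=
        sum_le_sum_of_subset_of_nonneg hsub fun z _ _ =>
          mul_nonneg (h.prune.nonneg _ _ _ _) (cw_nonneg h.prune.nonneg _ _ _ _ _)
    _ ≤ Lam D.K D.N D.u (n + 1) n + 2 * D.η * D.P.card := hheavy
    _ ≤ _ := by have := h.η_card_le; nlinarith

/-- The size of the main term. -/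
theorem main_size (h : D.Ok) {j l1 : ℕ} {g μ : ℝ} (hj : 4 ≤ j) (hμ0 : 0 ≤ μ)
    (hg : g ≤ (D.K : ℝ) ^ 20 * (D.K : ℝ) ^ (3 * l1))
    (hμ : μ ≤ 3 * (D.K : ℝ) ^ 6 *
      ((((D.K : ℝ) ^ l1)⁻¹) ^ 2 / D.δ * (((D.K : ℝ) ^ l1)⁻¹ / D.δ) ^ D.u)) :
    64 * g * ((D.K : ℝ) ^ 12 * (tt D.K j / (D.K : ℝ) ^ l1) * μ * Lam D.K D.N D.u (j - 2) l1) ≤
      192 * (D.K : ℝ) ^ 46 * ((tt D.K j / D.δ) ^ 2 * (tt D.K j / D.δ ^ 2) ^ D.u) := by
  have hK : (1 : ℝ) ≤ D.K := by have := h.K_ge_1000; linarith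
  have hδ := h.δ_pos
  have ht := tt_pos h.K_pos j
  have et : tt D.K (j - 2) = (D.K : ℝ) ^ 4 * tt D.K j := by
    rw [tt_add h.K_pos (j - 2) 2, show j - 2 + 2 = j by omega]
  rw [show (D.K : ℝ) ^ (3 * l1) = ((D.K : ℝ) ^ l1) ^ 3 by rw [← pow_mul, mul_comm]] at hg
  have hLam0 := Lam_nonneg D.K D.N D.u (j - 2) l1
  have hLam : Lam D.K D.N D.u (j - 2) l1 ≤ (D.K : ℝ) ^ 8 *
      (tt D.K j / D.δ * ((D.K : ℝ) ^ l1 * tt D.K j / D.δ) ^ D.u) := by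
    unfold Lam rr
    change tt D.K (j - 2) / D.δ * ((D.K : ℝ) ^ l1 * tt D.K (j - 2) / D.δ) ^ D.u ≤ _
    rw [et, show (D.K : ℝ) ^ l1 * ((D.K : ℝ) ^ 4 * tt D.K j) / D.δ =
      (D.K : ℝ) ^ 4 * ((D.K : ℝ) ^ l1 * tt D.K j / D.δ) by ring,
      Real.mul_rpow (by positivity) (by positivity)]
    have h1 : ((D.K : ℝ) ^ 4) ^ D.u ≤ (D.K : ℝ) ^ 4 := rpow_le_self (one_le_pow₀ hK) h.u_le
    calc _ ≤ (D.K : ℝ) ^ 4 * tt D.K j / D.δ *
          ((D.K : ℝ) ^ 4 * ((D.K : ℝ) ^ l1 * tt D.K j / D.δ) ^ D.u) := by gcongr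
      _ = _ := by ring
  set x := (D.K : ℝ) ^ l1 with hx
  have hx0 : 0 < x := by positivity
  set t := tt D.K j
  have e1 : (t / D.δ ^ 2) ^ D.u = (x⁻¹ / D.δ) ^ D.u * (x * t / D.δ) ^ D.u := by
    rw [← Real.mul_rpow (by positivity) (by positivity)]
    congr 1; field_simp
  calc _ ≤ 64 * ((D.K : ℝ) ^ 20 * x ^ 3) * ((D.K : ℝ) ^ 12 * (t / x) *
        (3 * (D.K : ℝ) ^ 6 * (x⁻¹ ^ 2 / D.δ * (x⁻¹ / D.δ) ^ D.u)) *
        ((D.K : ℝ) ^ 8 * (t / D.δ * (x * t / D.δ) ^ D.u))) := by gcongr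
    _ = _ := by rw [e1]; field_simp; ring

/-- A product kernel adapted to the envelope. -/
noncomputable def kG (f g w : ℝ → ℝ) (b γ0 γ1 γ2 : ℝ) (X : E3) : ℝ :=
  γ0 * γ1 * γ2 * (f (γ0 * L0 b X) * g (γ1 * L1 b X) * w (γ2 * X 2))

theorem measurable_kG {f g w : ℝ → ℝ} (hf : Measurable f) (hg : Measurable g)
    (hw : Measurable w) (b γ0 γ1 γ2 : ℝ) (Y : E3) :
    Measurable fun X => kG f g w b γ0 γ1 γ2 (X - Y) := by
  have h0 := (continuous_L0 b).measurable; have h1 := (continuous_L1 b).measurable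
  have : Measurable (kG f g w b γ0 γ1 γ2) := by unfold kG; fun_prop
  fun_prop

theorem lintegral_kG {f g w : ℝ → ℝ} (hf : Measurable f) (hg : Measurable g)
    (hw : Measurable w) (hf0 : ∀ x, 0 ≤ f x) (hg0 : ∀ x, 0 ≤ g x) (b : ℝ) {γ0 γ1 γ2 : ℝ}
    (h0 : 0 < γ0) (h1 : 0 < γ1) (h2 : 0 < γ2) (Y : E3) :
    ∫⁻ X, ENNReal.ofReal (kG f g w b γ0 γ1 γ2 (X - Y)) =
      (∫⁻ x, ENNReal.ofReal (f x)) * (∫⁻ x, ENNReal.ofReal (g x)) *
        ∫⁻ x, ENNReal.ofReal (w x) := by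
  have key : ∀ {φ : ℝ → ℝ} {γ : ℝ}, 0 < γ →
      ∫⁻ x, ENNReal.ofReal (γ * φ (γ * x)) = ∫⁻ x, ENNReal.ofReal (φ x) := by
    intro φ γ hγ
    have := (cov_affine hγ 0).lintegral fun x => ENNReal.ofReal (φ x)
    simp only [sub_zero] at this
    simp only [ENNReal.ofReal_mul hγ.le]
    rw [lintegral_const_mul' _ _ ENNReal.ofReal_ne_top, this, ← mul_assoc,
      ← ENNReal.ofReal_mul hγ.le, mul_inv_cancel₀ hγ.ne', ENNReal.ofReal_one, one_mul]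
  rw [(cov_sub_E3 Y).lintegral fun X => ENNReal.ofReal (kG f g w b γ0 γ1 γ2 X),
    ENNReal.ofReal_one, one_mul, ← key (φ := f) h0, ← key (φ := g) h1, ← key (φ := w) h2,
    ← slice_prod b (by fun_prop) (by fun_prop) (by fun_prop)]
  refine lintegral_congr fun X => ?_
  have := hf0 (γ0 * L0 b X); have := hg0 (γ1 * L1 b X)
  rw [← ENNReal.ofReal_mul (by positivity), ← ENNReal.ofReal_mul (by positivity)]
  congr 1; unfold kG; ring

/-- The tail of the kernel. -/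
noncomputable def kt (D : Dat) : ℝ → ℝ := {s : ℝ | D.L ≤ |s|}.indicator D.k

theorem kt_nonneg (h : D.Ok) (x : ℝ) : 0 ≤ kt D x :=
  Set.indicator_nonneg (fun s _ => h.ker.k_nonneg s) x

theorem kt_eq {x : ℝ} (hx : D.L ≤ |x|) : kt D x = D.k x :=
  Set.indicator_of_mem (s := {s : ℝ | D.L ≤ |s|}) hx _

theorem measurable_kt (h : D.Ok) : Measurable (kt D) :=
  h.ker.k_cont.measurable.indicator (measurableSet_le (by fun_prop) (by fun_prop))

theorem lintegral_kt (h : D.Ok) : ∫⁻ x, ENNReal.ofReal (kt D x) ≤ ENNReal.ofReal D.η := by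
  have := h.ker.lintegral_tail h.tail one_pos 0
  simp only [one_mul, sub_zero, inv_one, ENNReal.ofReal_one] at this
  refine le_trans (le_of_eq (lintegral_congr fun x => ?_)) this
  unfold kt
  by_cases hx : x ∈ {s : ℝ | D.L ≤ |s|}
  · rw [Set.indicator_of_mem hx, Set.indicator_of_mem hx]
  · rw [Set.indicator_of_notMem hx, Set.indicator_of_notMem hx, ENNReal.ofReal_zero]

/-- The crude bound of the square function. -/
noncomputable def BB (D : Dat) (j : ℕ) : ℝ := 128 * (D.K : ℝ) ^ j * (D.P.card : ℝ) ^ 2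

theorem BB_nonneg (D : Dat) (j : ℕ) : 0 ≤ BB D j := by unfold BB; positivity

theorem η_BB_le (h : D.Ok) {j : ℕ} (hjN : j ≤ D.N) : D.η * BB D j ≤ 1 := by
  have hK : (1 : ℝ) ≤ D.K := by have := h.K_ge_1000; linarith
  have h1 : (128 : ℝ) ≤ (D.K : ℝ) ^ D.N := by
    have := h.K_ge_1000
    have h2 : (D.K : ℝ) ≤ (D.K : ℝ) ^ D.N := le_self_pow₀ hK (by have := h.N_ge; omega)
    linarith
  have h2 : (D.K : ℝ) ^ j ≤ (D.K : ℝ) ^ D.N := pow_le_pow_right₀ hK hjN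
  have h3 := h.card_le_pow
  have h4 : BB D j ≤ (D.K : ℝ) ^ (10 * D.N) := by
    unfold BB
    calc _ ≤ (D.K : ℝ) ^ D.N * (D.K : ℝ) ^ D.N * ((D.K : ℝ) ^ (4 * D.N)) ^ 2 := by gcongr
      _ = _ := by rw [← pow_mul, ← pow_add, ← pow_add]; congr 1; ring
  exact (mul_le_mul_of_nonneg_left h4 h.η_nonneg).trans (h.η_mul_pow_le (by omega))

theorem card_ch_real (h : D.Ok) (l1 p1 j : ℕ) :
    ((ch D.K l1 p1 j).card : ℝ) ≤ (D.K : ℝ) ^ j := by
  have h1 := card_ch_le D.K l1 p1 j h.K_pos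
  have h2 : D.K ^ (j - l1) ≤ D.K ^ j := Nat.pow_le_pow_right h.K_pos (by omega)
  exact_mod_cast h1.trans h2

theorem sum_gp_le (h : D.Ok) (j l l1 p1 : ℕ) (X : E3) :
    8 * ∑ p ∈ ch D.K l1 p1 j, ‖D.gp j l p X‖ ^ 2 ≤ BB D j := by
  have h1 : ∑ p ∈ ch D.K l1 p1 j, ‖D.gp j l p X‖ ^ 2 ≤
      ∑ _p ∈ ch D.K l1 p1 j, ((D.P.card : ℝ) * 4) ^ 2 :=
    sum_le_sum fun p _ => pow_le_pow_left₀ (norm_nonneg _)
      (norm_Gp_le h subset_rfl j l p _ (by norm_num) fun z _ => norm_pk_le h _ _ _ _) 2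
  rw [sum_const, nsmul_eq_mul] at h1
  have h2 := mul_le_mul_of_nonneg_right (card_ch_real h l1 p1 j)
    (sq_nonneg ((D.P.card : ℝ) * 4))
  unfold BB; nlinarith

theorem W0_bounds (h : D.Ok) (X : E3) :
    0 ≤ D.W0 X ∧ D.W0 X ≤ 8 ∧ (D.L ≤ |D.c / (D.R + 1) * X 2| → D.W0 X ≤ 8 * D.η) := by
  unfold Dat.W0
  have a0 := h.ker.k_nonneg (D.c / (D.R + 1) * X 0)
  have a1 := h.ker.k_nonneg (D.c / (D.R + 1) * X 1)
  have a2 := h.ker.k_nonneg (D.c / (D.R + 1) * X 2)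
  have b0 := h.ker.k_le (D.c / (D.R + 1) * X 0)
  have b1 := h.ker.k_le (D.c / (D.R + 1) * X 1)
  have b2 := h.ker.k_le (D.c / (D.R + 1) * X 2)
  have h4 : D.k (D.c / (D.R + 1) * X 0) * D.k (D.c / (D.R + 1) * X 1) ≤ 4 := by nlinarith
  have h5 := mul_le_mul_of_nonneg_right h4 a2
  refine ⟨by positivity, by linarith, fun hx => ?_⟩
  have := h.tail.1 _ hx; have := h.η_nonneg
  linarith

theorem lt_of_scale {γ L x A : ℝ} (hL : 0 < L) (hA : 0 < A) (hγ : L * A ≤ γ) (hx : |γ * x| < L) :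
    |x| ≤ A⁻¹ := by
  have hγ0 : 0 < γ := lt_of_lt_of_le (by positivity) hγ
  rw [abs_mul, abs_of_pos hγ0] at hx
  rw [← one_div, le_div_iff₀ hA]
  have h1 : L * A * |x| ≤ γ * |x| := by gcongr
  have h2 : L * (|x| * A) < L * 1 := by nlinarith
  exact (lt_of_mul_lt_mul_left h2 hL.le).le

/-- On the near set only the points of QS matter. -/
theorem near_bound (h : D.Ok) {j l l1 p1 : ℕ} {b : ℝ} {X Y : E3} (hj : 4 ≤ j) (hjN : j ≤ D.N)
    (hl1 : l1 ≤ j - 3) (hb : |b - bs D.K l1 p1| ≤ ((D.K : ℝ) ^ l1)⁻¹)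
    (h0 : |L0 b (X - Y)| ≤ (((D.K : ℝ) ^ l1)⁻¹) ^ 2) (h1 : |L1 b (X - Y)| ≤ ((D.K : ℝ) ^ l1)⁻¹)
    (h2 : |(X - Y) 2| ≤ 1) (h3 : |D.c / (D.R + 1) * X 2| < D.L) :
    8 * ∑ p ∈ ch D.K l1 p1 j, ‖D.gp j l p X‖ ^ 2 ≤
      16 * ∑ p ∈ ch D.K l1 p1 j,
        ‖D.Gp (QS D l1 p1 Y) j l p (v2 (L0 (bs D.K j p) X) (L1 (bs D.K j p) X))‖ ^ 2 + 1 := by
  classical
  have hη := h.η_nonneg
  have key : ∀ p ∈ ch D.K l1 p1 j, ‖D.gp j l p X‖ ^ 2 ≤
      2 * ‖D.Gp (QS D l1 p1 Y) j l p (v2 (L0 (bs D.K j p) X) (L1 (bs D.K j p) X))‖ ^ 2 +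
        2 * ((D.P.card : ℝ) * (2 * D.η)) ^ 2 := by
    intro p hp
    set y := v2 (L0 (bs D.K j p) X) (L1 (bs D.K j p) X) with hy
    have e : D.gp j l p X = D.Gp (D.P \ QS D l1 p1 Y) j l p y + D.Gp (QS D l1 p1 Y) j l p y := by
      unfold Dat.gp Dat.Gp; rw [sum_sdiff (QS_subset _ _ _ _)]
    have f : ‖D.Gp (D.P \ QS D l1 p1 Y) j l p y‖ ≤ D.P.card * (2 * D.η) :=
      norm_Gp_le h sdiff_subset j l p y (by positivity) fun z hz =>
        far h hj hl1 hp hb h0 h1 h2 h3 (mem_sdiff.1 hz).1 (mem_sdiff.1 hz).2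
    have g : ‖D.gp j l p X‖ ≤ D.P.card * (2 * D.η) + ‖D.Gp (QS D l1 p1 Y) j l p y‖ := by
      rw [e]; exact (norm_add_le _ _).trans (by linarith)
    have := pow_le_pow_left₀ (norm_nonneg _) g 2
    nlinarith [sq_nonneg (D.P.card * (2 * D.η) - ‖D.Gp (QS D l1 p1 Y) j l p y‖)]
  have s1 := sum_le_sum key
  rw [sum_add_distrib, ← mul_sum, sum_const, nsmul_eq_mul] at s1
  have s2 := mul_le_mul_of_nonneg_right (card_ch_real h l1 p1 j)
    (by positivity : 0 ≤ 2 * ((D.P.card : ℝ) * (2 * D.η)) ^ 2)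
  have s3 := η_BB_le h hjN
  have s4 : D.η ≤ 1 := by simpa using h.η_mul_pow_le (a := 0) (by omega)
  have s5 : D.η * (D.η * BB D j) ≤ 1 * 1 :=
    mul_le_mul s4 s3 (mul_nonneg hη (BB_nonneg _ _)) zero_le_one
  have s6 : 0 ≤ D.η * (D.η * BB D j) := mul_nonneg hη (mul_nonneg hη (BB_nonneg _ _))
  unfold BB at s5 s6
  nlinarith

theorem pointwise (h : D.Ok) {j l l1 p1 : ℕ} {b γ0 γ1 γ2 : ℝ} (X Y : E3) (hj : 4 ≤ j)
    (hjN : j ≤ D.N) (hl1 : l1 ≤ j - 3) (hb : |b - bs D.K l1 p1| ≤ ((D.K : ℝ) ^ l1)⁻¹)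
    (g0 : D.L * (D.K : ℝ) ^ (2 * l1) ≤ γ0) (g1 : D.L * (D.K : ℝ) ^ l1 ≤ γ1) (g2 : D.L ≤ γ2) :
    (D.W0 X * ∑ p ∈ ch D.K l1 p1 j, ‖D.gp j l p X‖ ^ 2) * kU D.k b γ0 γ1 γ2 (X - Y) ≤
      64 * (γ0 * γ1) * γ2 * ∑ p ∈ ch D.K l1 p1 j, D.k (γ2 * X 2 - γ2 * Y 2) *
          ‖D.Gp (QS D l1 p1 Y) j l p (v2 (L0 (bs D.K j p) X) (L1 (bs D.K j p) X))‖ ^ 2 +
        kG D.k D.k D.k b γ0 γ1 γ2 (X - Y) + BB D j * kG (kt D) D.k D.k b γ0 γ1 γ2 (X - Y) +
        BB D j * kG D.k (kt D) D.k b γ0 γ1 γ2 (X - Y) +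
        BB D j * kG D.k D.k (kt D) b γ0 γ1 γ2 (X - Y) := by
  have hK : (0 : ℝ) < D.K := by have := h.K_ge_1000; linarith
  have hL : 0 < D.L := by have := h.L_ge; linarith
  have p0 : 0 < γ0 := lt_of_lt_of_le (by positivity) g0
  have p1' : 0 < γ1 := lt_of_lt_of_le (by positivity) g1
  have p2 : 0 < γ2 := lt_of_lt_of_le hL g2
  obtain ⟨w0, w1, w2⟩ := W0_bounds h X
  have hS := sum_gp_le h j l l1 p1 X
  have hB := BB_nonneg D j
  rw [← mul_sum, show γ2 * X 2 - γ2 * Y 2 = γ2 * (X - Y) 2 by rw [PiLp.sub_apply]; ring]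
  set S := ∑ p ∈ ch D.K l1 p1 j, ‖D.gp j l p X‖ ^ 2 with hSd
  set G := ∑ p ∈ ch D.K l1 p1 j,
    ‖D.Gp (QS D l1 p1 Y) j l p (v2 (L0 (bs D.K j p) X) (L1 (bs D.K j p) X))‖ ^ 2 with hGd
  have S0 : 0 ≤ S := sum_nonneg fun _ _ => sq_nonneg _
  have G0 : 0 ≤ G := sum_nonneg fun _ _ => sq_nonneg _
  have hF : D.W0 X * S ≤ BB D j := by nlinarith
  have a0 := h.ker.k_nonneg (γ0 * L0 b (X - Y))
  have a1 := h.ker.k_nonneg (γ1 * L1 b (X - Y))
  have a2 := h.ker.k_nonneg (γ2 * (X - Y) 2)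
  have t0 := kt_nonneg h (γ0 * L0 b (X - Y))
  have t1 := kt_nonneg h (γ1 * L1 b (X - Y))
  have t2 := kt_nonneg h (γ2 * (X - Y) 2)
  have eU : kU D.k b γ0 γ1 γ2 (X - Y) = kG D.k D.k D.k b γ0 γ1 γ2 (X - Y) := rfl
  have nU : 0 ≤ kG D.k D.k D.k b γ0 γ1 γ2 (X - Y) := by unfold kG; positivity
  have n0 : 0 ≤ BB D j * kG (kt D) D.k D.k b γ0 γ1 γ2 (X - Y) := by unfold kG; positivity
  have n1 : 0 ≤ BB D j * kG D.k (kt D) D.k b γ0 γ1 γ2 (X - Y) := by unfold kG; positivity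
  have n2 : 0 ≤ BB D j * kG D.k D.k (kt D) b γ0 γ1 γ2 (X - Y) := by unfold kG; positivity
  have nM : 0 ≤ 64 * (γ0 * γ1) * γ2 * (D.k (γ2 * (X - Y) 2) * G) := by positivity
  have hFU := mul_le_mul_of_nonneg_right hF nU
  rw [eU]
  by_cases c0 : D.L ≤ |γ0 * L0 b (X - Y)|
  · have : kG (kt D) D.k D.k b γ0 γ1 γ2 (X - Y) = kG D.k D.k D.k b γ0 γ1 γ2 (X - Y) := by
      unfold kG; rw [kt_eq c0]
    rw [this]; linarith
  by_cases c1 : D.L ≤ |γ1 * L1 b (X - Y)|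
  · have : kG D.k (kt D) D.k b γ0 γ1 γ2 (X - Y) = kG D.k D.k D.k b γ0 γ1 γ2 (X - Y) := by
      unfold kG; rw [kt_eq c1]
    rw [this]; linarith
  by_cases c2 : D.L ≤ |γ2 * (X - Y) 2|
  · have : kG D.k D.k (kt D) b γ0 γ1 γ2 (X - Y) = kG D.k D.k D.k b γ0 γ1 γ2 (X - Y) := by
      unfold kG; rw [kt_eq c2]
    rw [this]; linarith
  by_cases c3 : D.L ≤ |D.c / (D.R + 1) * X 2|
  · have h1 : D.W0 X * S ≤ 1 := by
      have h2 := mul_le_mul_of_nonneg_right (w2 c3) S0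
      have h3 := mul_le_mul_of_nonneg_left hS h.η_nonneg
      have := η_BB_le h hjN
      nlinarith
    have := mul_le_mul_of_nonneg_right h1 nU
    linarith
  push Not at c0 c1 c2 c3
  have d0 := lt_of_scale hL (by positivity) g0 c0
  have d1 := lt_of_scale hL (by positivity) g1 c1
  have d2 := lt_of_scale hL one_pos (by rwa [mul_one]) c2
  rw [inv_one] at d2
  rw [mul_comm 2 l1, pow_mul, ← inv_pow] at d0
  have hN := near_bound (l := l) h hj hjN hl1 hb d0 d1 d2 c3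
  rw [← hSd, ← hGd] at hN
  have h1 : D.W0 X * S ≤ 16 * G + 1 := by nlinarith
  have h2 := mul_le_mul_of_nonneg_right h1 nU
  have h3 : kG D.k D.k D.k b γ0 γ1 γ2 (X - Y) ≤ γ0 * γ1 * γ2 * (4 * D.k (γ2 * (X - Y) 2)) := by
    unfold kG
    have b0 := h.ker.k_le (γ0 * L0 b (X - Y))
    have b1 := h.ker.k_le (γ1 * L1 b (X - Y))
    have : D.k (γ0 * L0 b (X - Y)) * D.k (γ1 * L1 b (X - Y)) ≤ 4 := by nlinarith
    gcongr
  have h4 := mul_le_mul_of_nonneg_left h3 G0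
  nlinarith

theorem ofReal_add5 (a b c d e : ℝ) : ENNReal.ofReal (a + b + c + d + e) ≤
    ENNReal.ofReal a + ENNReal.ofReal b + ENNReal.ofReal c + ENNReal.ofReal d +
      ENNReal.ofReal e := by
  refine ENNReal.ofReal_add_le.trans (add_le_add (ENNReal.ofReal_add_le.trans (add_le_add
    (ENNReal.ofReal_add_le.trans (add_le_add ENNReal.ofReal_add_le le_rfl)) le_rfl)) le_rfl)

theorem tail_le (h : D.Ok) {j : ℕ} (hjN : j ≤ D.N) {F : E3 → ℝ}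
    (hF : ∫⁻ X, ENNReal.ofReal (F X) ≤ ENNReal.ofReal D.η) :
    ∫⁻ X, ENNReal.ofReal (BB D j * F X) ≤ ENNReal.ofReal 1 := by
  simp only [ENNReal.ofReal_mul (BB_nonneg D j)]
  rw [lintegral_const_mul' _ _ ENNReal.ofReal_ne_top]
  calc _ ≤ ENNReal.ofReal (BB D j) * ENNReal.ofReal D.η := by gcongr
    _ ≤ _ := by
        rw [← ENNReal.ofReal_mul (BB_nonneg D j)]
        exact ENNReal.ofReal_le_ofReal (by rw [mul_comm]; exact η_BB_le h hjN)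

theorem main_int (h : D.Ok) (Q : Finset E2) (j l : ℕ) (T : Finset ℕ) {A γ : ℝ} (hA : 0 ≤ A)
    (hγ : 0 < γ) (y : ℝ) :
    ∫⁻ X : E3, ENNReal.ofReal (A * γ * ∑ p ∈ T, D.k (γ * X 2 - y) *
        ‖D.Gp Q j l p (v2 (L0 (bs D.K j p) X) (L1 (bs D.K j p) X))‖ ^ 2) =
      ENNReal.ofReal A * ∑ p ∈ T, ∫⁻ y, ENNReal.ofReal (‖D.Gp Q j l p y‖ ^ 2) := by
  have hk := h.ker.k_cont
  have hG : ∀ p, Measurable fun y => ENNReal.ofReal (‖D.Gp Q j l p y‖ ^ 2) := fun p => by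
    have := (continuous_Gp h Q j l p).measurable
    fun_prop
  have hκ : Measurable fun x : ℝ => ENNReal.ofReal (D.k (γ * x - y)) := by fun_prop
  have e : ∀ X : E3, ENNReal.ofReal (A * γ * ∑ p ∈ T, D.k (γ * X 2 - y) *
      ‖D.Gp Q j l p (v2 (L0 (bs D.K j p) X) (L1 (bs D.K j p) X))‖ ^ 2) =
      ENNReal.ofReal (A * γ) * ∑ p ∈ T, ENNReal.ofReal (D.k (γ * X 2 - y)) * ENNReal.ofReal
        (‖D.Gp Q j l p (v2 (L0 (bs D.K j p) X) (L1 (bs D.K j p) X))‖ ^ 2) := by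
    intro X
    rw [ENNReal.ofReal_mul (by positivity), ENNReal.ofReal_sum_of_nonneg
      fun p _ => mul_nonneg (h.ker.k_nonneg _) (sq_nonneg _)]
    simp only [ENNReal.ofReal_mul (h.ker.k_nonneg _)]
  simp only [e]
  rw [lintegral_const_mul' _ _ ENNReal.ofReal_ne_top, lintegral_finsetSum]
  · rw [sum_congr rfl fun p _ => slice (bs D.K j p) hκ (hG p), h.ker.lintegral_affine hγ,
      ← mul_sum, ← mul_assoc, ← ENNReal.ofReal_mul (by positivity), mul_assoc A,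
      mul_inv_cancel₀ hγ.ne', mul_one]
  · intro p _
    have h1 : Measurable fun X : E3 => v2 (L0 (bs D.K j p) X) (L1 (bs D.K j p) X) :=
      (continuous_v2 (continuous_L0 _) (continuous_L1 _)).measurable
    exact (hκ.comp (by fun_prop)).mul ((hG p).comp h1)

end Sup

open Sup in
theorem sup (hLoc : LocStmt) : SupStmt := by
  intro D j l l1 p1 b γ0 γ1 γ2 Y h hj hjN hl hlom hl1 hp1 hb g0 g1 g2 hg
  have hK : (1000 : ℝ) ≤ D.K := h.K_ge_1000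
  have hL : 0 < D.L := by have := h.L_ge; linarith
  have p0 : 0 < γ0 := lt_of_lt_of_le (by positivity) g0
  have p1' : 0 < γ1 := lt_of_lt_of_le (by positivity) g1
  have p2 : 0 < γ2 := lt_of_lt_of_le hL g2
  have mk := h.ker.k_cont.measurable
  have mt := measurable_kt h
  have nk := h.ker.k_nonneg
  have nt := kt_nonneg h
  have ik := h.ker.lintegral_k
  have it := lintegral_kt h
  have hδ := h.δ_pos
  have ht := tt_pos h.K_pos j
  have hM : 1 ≤ (tt D.K j / D.δ) ^ 2 * (tt D.K j / D.δ ^ 2) ^ D.u := by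
    have h1 : 1 ≤ tt D.K j / D.δ := (one_le_div hδ).2 (tt_anti h.K_pos hjN)
    have h2 : 1 ≤ tt D.K j / D.δ ^ 2 := by
      rw [one_le_div (by positivity)]
      have := h.δ_le_one
      have h3 : D.δ ≤ tt D.K j := tt_anti h.K_pos hjN
      nlinarith
    exact one_le_mul_of_one_le_of_one_le (one_le_pow₀ h1) (Real.one_le_rpow h2 h.u_pos.le)
  have i1 := hLoc D j l l1 p1 (QS D l1 p1 Y) h hj hjN hl hlom (QS_subset _ _ _ _) hl1 hp1
  have i2 := main_size h hj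
    (sum_nonneg fun z _ => cw_nonneg h.prune.nonneg (j - 2) (l1 + 1) l1 p1 z) hg
    (mass_le h Y hj hjN hl1 hp1)
  rw [mul_assoc ((D.K : ℝ) ^ 50)]
  set M := (tt D.K j / D.δ) ^ 2 * (tt D.K j / D.δ ^ 2) ^ D.u with hMd
  refine (lintegral_mono fun X => (ENNReal.ofReal_le_ofReal
    (pointwise (l := l) h X Y hj hjN hl1 hb g0 g1 g2)).trans (ofReal_add5 _ _ _ _ _)).trans ?_
  rw [lintegral_add_right _ ((measurable_kG mk mk mt b γ0 γ1 γ2 Y).const_mul _).ennreal_ofReal,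
    lintegral_add_right _ ((measurable_kG mk mt mk b γ0 γ1 γ2 Y).const_mul _).ennreal_ofReal,
    lintegral_add_right _ ((measurable_kG mt mk mk b γ0 γ1 γ2 Y).const_mul _).ennreal_ofReal,
    lintegral_add_right _ (measurable_kG mk mk mk b γ0 γ1 γ2 Y).ennreal_ofReal,
    main_int h _ j l _ (by positivity) p2, lintegral_kG mk mk mk nk nk b p0 p1' p2 Y, ik]
  have j0 := tail_le h hjN (F := fun X => kG (kt D) D.k D.k b γ0 γ1 γ2 (X - Y)) (by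
    rw [lintegral_kG mt mk mk nt nk b p0 p1' p2 Y, ik, mul_one, mul_one]; exact it)
  have j1 := tail_le h hjN (F := fun X => kG D.k (kt D) D.k b γ0 γ1 γ2 (X - Y)) (by
    rw [lintegral_kG mk mt mk nk nt b p0 p1' p2 Y, ik, mul_one, one_mul]; exact it)
  have j2 := tail_le h hjN (F := fun X => kG D.k D.k (kt D) b γ0 γ1 γ2 (X - Y)) (by
    rw [lintegral_kG mk mk mt nk nk b p0 p1' p2 Y, ik, mul_one, one_mul]; exact it)
  have j3 : ENNReal.ofReal (64 * (γ0 * γ1)) *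
      ∑ p ∈ ch D.K l1 p1 j, ∫⁻ y, ENNReal.ofReal (‖D.Gp (QS D l1 p1 Y) j l p y‖ ^ 2) ≤
      ENNReal.ofReal (192 * (D.K : ℝ) ^ 46 * M) := by
    refine (mul_le_mul_right i1 _).trans ?_
    rw [← ENNReal.ofReal_mul (by positivity)]
    exact ENNReal.ofReal_le_ofReal i2
  have hM0 : 0 ≤ 192 * (D.K : ℝ) ^ 46 * M := by positivity
  calc _ ≤ ENNReal.ofReal (192 * (D.K : ℝ) ^ 46 * M) + ENNReal.ofReal 1 + ENNReal.ofReal 1 +
        ENNReal.ofReal 1 + ENNReal.ofReal 1 := by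
        refine add_le_add (add_le_add (add_le_add (add_le_add j3 ?_) j0) j1) j2
        simp
    _ = ENNReal.ofReal (192 * (D.K : ℝ) ^ 46 * M + 1 + 1 + 1 + 1) := by
        rw [ENNReal.ofReal_add (by positivity) zero_le_one,
          ENNReal.ofReal_add (by positivity) zero_le_one,
          ENNReal.ofReal_add (by positivity) zero_le_one, ENNReal.ofReal_add hM0 zero_le_one]
    _ ≤ _ := by
        refine ENNReal.ofReal_le_ofReal ?_
        have h1 : (1 : ℝ) ≤ (D.K : ℝ) ^ 46 := one_le_pow₀ (by linarith)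
        have h2 : (1000 : ℝ) ≤ (D.K : ℝ) ^ 4 :=
          hK.trans (le_self_pow₀ (by linarith) (by norm_num))
        have h3 : 1 ≤ (D.K : ℝ) ^ 46 * M := one_le_mul_of_one_le_of_one_le h1 hM
        have h4 : (D.K : ℝ) ^ 50 * M = (D.K : ℝ) ^ 4 * ((D.K : ℝ) ^ 46 * M) := by ring
        rw [h4]; nlinarith

end Pool.Agent.MP_538dc4_an
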