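import Pool.Agent.MP_538dc4_an.Shear

/-! PROJECT FURST: geometry of planks. -/

open Finset

namespace Pool.Agent.MP_538dc4_an

namespace WGeo

/-- The angular width of level n. -/
noncomputable def sg (n : ℕ) : ℝ := ((2 : ℝ) ^ n)⁻¹

theorem sg_pos (n : ℕ) : 0 < sg n := by unfold sg; positivity

theorem sg_anti {m n : ℕ} (h : m ≤ n) : sg n ≤ sg m :=
  inv_anti₀ (by positivity) (pow_le_pow_right₀ (by norm_num) h)

theorem sg_add (m n : ℕ) : sg (m + n) = sg m * sg n := by unfold sg; rw [pow_add, mul_inv]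

theorem sg_le_one (n : ℕ) : sg n ≤ 1 := by simpa [sg] using sg_anti (Nat.zero_le n)

theorem four_pow (n : ℕ) : (4 : ℝ) ^ n = ((2 : ℝ) ^ n) ^ 2 := by
  rw [← pow_mul, mul_comm, pow_mul]; norm_num

theorem div2 (x : ℝ) (n : ℕ) : x / 2 ^ n = x * sg n := by unfold sg; rw [div_eq_mul_inv]

theorem div4 (x : ℝ) (n : ℕ) : x / 4 ^ n = x * sg n ^ 2 := by
  unfold sg; rw [four_pow, div_eq_mul_inv, inv_pow]

theorem mem_Pl {H : ℝ} {k n p : ℕ} {C : ℝ} {η : E3} : η ∈ Pl H k n p C ↔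
    |η 0 - H| ≤ H * sg k ^ 2 ∧ |l1 (bs 2 n p) η| ≤ C * H * sg n ∧
      |l2 (bs 2 n p) η| ≤ C * H * sg n ^ 2 := by
  simp only [Pl, Set.mem_ofPred_eq, div2, div4]

theorem mem_Box {H : ℝ} {j q n : ℕ} {ξ : E3} : ξ ∈ Box H j q n ↔
    |ξ 0| * sg j ^ 2 ≤ 1200 * H * sg n ^ 2 ∧ |l1 (bs 2 j q) ξ| * sg j ≤ 1200 * H * sg n ^ 2 ∧
      |l2 (bs 2 j q) ξ| ≤ 1200 * H * sg n ^ 2 := by
  have h := sg_pos j
  have e1 : (2 : ℝ) ^ j = (sg j)⁻¹ := by simp [sg]
  have a : 1200 * H * 4 ^ j / 4 ^ n = 1200 * H * sg n ^ 2 / sg j ^ 2 := by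
    rw [div4, four_pow, e1]; field_simp
  have b : 1200 * H * 2 ^ j / 4 ^ n = 1200 * H * sg n ^ 2 / sg j := by
    rw [div4, e1]; field_simp
  simp only [Box, Set.mem_ofPred_eq, a, b, div4]
  rw [le_div_iff₀ (by positivity), le_div_iff₀ h]

theorem bs_diff {j q n p : ℕ} (hj : j ≤ n) (hp : p ∈ ch 2 j q n) :
    0 ≤ bs 2 n p - bs 2 j q ∧ bs 2 n p - bs 2 j q < sg j := by
  simpa [sg] using bs_sub_of_mem_ch two_pos hj hp

theorem eta0 {H : ℝ} {k : ℕ} {x : ℝ} (hH : 0 < H) (h : |x - H| ≤ H * sg k ^ 2) :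
    0 ≤ x ∧ x ≤ 2 * H := by
  have h1 : sg k ^ 2 ≤ 1 := pow_le_one₀ (sg_pos k).le (sg_le_one k)
  have := abs_le.1 h
  constructor <;> nlinarith

theorem nr_of {n p p' : ℕ} (h : |bs 2 n p - bs 2 n p'| ≤ 5000 * sg n) : Nr p p' := by
  have e : bs 2 n p - bs 2 n p' = ((p : ℝ) - p') * sg n := by
    unfold bs sg; push_cast; field_simp
  rw [e, abs_mul, abs_of_pos (sg_pos n)] at h
  have h2 := abs_le.1 (le_of_mul_le_mul_right h (sg_pos n))
  constructor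
  · exact_mod_cast (by linarith : (p : ℝ) ≤ p' + 5000)
  · exact_mod_cast (by linarith : (p' : ℝ) ≤ p + 5000)

theorem abs_mul_le {a b A B : ℝ} (ha : |a| ≤ A) (hb : |b| ≤ B) : |a * b| ≤ A * B := by
  rw [abs_mul]; exact mul_le_mul ha hb (abs_nonneg _) ((abs_nonneg _).trans ha)

/-- Coordinates of a plank point relative to an ancestor cell. -/
theorem bio_one {H : ℝ} {k j q n p : ℕ} {η : E3} (hH : 0 < H) (hj : j ≤ n) (hk : n ≤ j + k)
    (hp : p ∈ ch 2 j q n) (hη : η ∈ Pl H k n p 14) :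
    |H * l2 (bs 2 j q) η - l1 (bs 2 j q) η ^ 2| ≤ 268 * (H * sg n) ^ 2 ∧
      |l1 (bs 2 j q) η - (bs 2 n p - bs 2 j q) * H| ≤ 15 * (H * sg n) := by
  obtain ⟨h0, h1, h2⟩ := mem_Pl.1 hη
  obtain ⟨d0, d1⟩ := bs_diff hj hp
  obtain ⟨e0, e1⟩ := eta0 hH h0
  have s1 := sg_pos n; have s2 := sg_pos j; have s3 := sg_pos k
  have s4 := sg_anti hj
  have s5 : sg j * sg k ≤ sg n := by rw [← sg_add]; exact sg_anti hk
  have s6 := sg_le_one k
  set a := bs 2 n p; set b := bs 2 j q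
  have hd : |a - b| ≤ sg j := abs_le.2 ⟨by linarith, d1.le⟩
  have he : |η 0| ≤ 2 * H := abs_le.2 ⟨by linarith, e1⟩
  constructor
  · have y1 : |l2 b η| ≤ 44 * H * sg j ^ 2 := by
      rw [l2_shift a b]
      have t1 := abs_mul_le hd h1
      have t2 := abs_mul_le (abs_mul_le hd hd) he
      have t3 : sg n ^ 2 ≤ sg j ^ 2 := by gcongr
      have t4 : sg j * (14 * H * sg n) ≤ 14 * H * sg j ^ 2 := by nlinarith [mul_pos s2 hH]
      have t5 : 14 * H * sg n ^ 2 ≤ 14 * H * sg j ^ 2 := by gcongr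
      rw [abs_le] at *
      constructor <;> nlinarith
    have y2 : |η 0 * l2 b η - l1 b η ^ 2| ≤ 224 * (H * sg n) ^ 2 := by
      rw [cone_inv, ← cone_inv a]
      have t1 := abs_mul_le he h2
      have t2 := abs_mul_le h1 h1
      rw [abs_le] at *
      constructor <;> nlinarith
    have y3 := abs_mul_le h0 y1
    have t : H * sg k ^ 2 * (44 * H * sg j ^ 2) ≤ 44 * (H * sg n) ^ 2 := by
      have : (sg j * sg k) ^ 2 ≤ sg n ^ 2 := by gcongr
      nlinarith [mul_le_mul_of_nonneg_left this (sq_nonneg H)]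
    rw [abs_le] at *
    constructor <;> nlinarith
  · rw [l1_shift a b]
    have t1 := abs_mul_le hd h0
    have t2 : sg j * (H * sg k ^ 2) ≤ H * sg n := by
      have : sg j * sg k * sg k ≤ sg n * 1 := by gcongr
      nlinarith [mul_le_mul_of_nonneg_left this hH.le]
    rw [abs_le] at *
    constructor <;> nlinarith

theorem three_pts {ξ : E3} {E g a1 a2 a3 : ℝ} (hg : 0 < g) (h12 : g ≤ a2 - a1)
    (h23 : g ≤ a3 - a2) (p1 : |l2 a1 ξ| ≤ E) (p2 : |l2 a2 ξ| ≤ E) (p3 : |l2 a3 ξ| ≤ E) :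
    |ξ 0| * g ^ 2 ≤ 2 * E ∧ |ξ 0 * ξ 2 - ξ 1 ^ 2| * g ^ 2 ≤ 6 * E ^ 2 := by
  set g1 := a2 - a1 with hg1; set g2 := a3 - a2 with hg2
  have hE : 0 ≤ E := (abs_nonneg _).trans p1
  have a1' : 0 < g1 := hg.trans_le h12
  have a2' : 0 < g2 := hg.trans_le h23
  have e1 : ξ 0 * (g1 * g2 * (g1 + g2)) =
      l2 a1 ξ * g2 - l2 a2 ξ * (g1 + g2) + l2 a3 ξ * g1 := by
    simp only [l2, hg1, hg2]; ring
  have b1 : |ξ 0| * (g1 * g2) ≤ 2 * E := by
    have : |ξ 0| * (g1 * g2) * (g1 + g2) ≤ 2 * E * (g1 + g2) := by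
      rw [mul_assoc, ← abs_of_pos (show 0 < g1 * g2 * (g1 + g2) by positivity), ← abs_mul, e1]
      have t1 := abs_mul_le p1 (abs_of_pos a2').le
      have t2 := abs_mul_le p2 (abs_of_pos (add_pos a1' a2')).le
      have t3 := abs_mul_le p3 (abs_of_pos a1').le
      rw [abs_le] at *
      constructor <;> linarith
    exact le_of_mul_le_mul_right this (add_pos a1' a2')
  have gg : g ^ 2 ≤ g1 * g2 := by rw [sq]; gcongr
  have b2 : |ξ 0| * g ^ 2 ≤ 2 * E := le_trans (by gcongr) b1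
  have e2 : l1 a1 ξ * (2 * g1) = ξ 0 * g1 ^ 2 + l2 a1 ξ - l2 a2 ξ := by
    simp only [l1, l2, hg1]; ring
  have b3 : |l1 a1 ξ| * g ≤ 2 * E := by
    have t0 : |l1 a1 ξ| * (2 * g1) ≤ |ξ 0| * g1 ^ 2 + 2 * E := by
      rw [← abs_of_pos (show 0 < 2 * g1 by positivity), ← abs_mul, e2]
      have t1 : |ξ 0 * g1 ^ 2| ≤ |ξ 0| * g1 ^ 2 := by rw [abs_mul, abs_of_pos (pow_pos a1' 2)]
      rw [abs_le] at *
      constructor <;> linarith
    have t2 : |ξ 0| * g1 * g ≤ 2 * E := by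
      have : |ξ 0| * g1 * g ≤ |ξ 0| * g1 * g2 := by gcongr
      linarith [mul_assoc |ξ 0| g1 g2]
    have t3 : |l1 a1 ξ| * g * (2 * g1) ≤ 2 * E * (2 * g1) := by
      have := mul_le_mul_of_nonneg_right t0 hg.le
      have := mul_le_mul_of_nonneg_right t2 a1'.le
      have : E * g ≤ E * g1 := by gcongr
      nlinarith
    exact le_of_mul_le_mul_right t3 (by positivity)
  refine ⟨b2, ?_⟩
  rw [← cone_inv a1]
  have t1 : |ξ 0 * l2 a1 ξ - l1 a1 ξ ^ 2| ≤ |ξ 0| * E + |l1 a1 ξ| ^ 2 := by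
    refine (abs_sub _ _).trans (add_le_add (abs_mul_le le_rfl p1) ?_)
    rw [abs_pow]
  have t2 : (|l1 a1 ξ| * g) ^ 2 ≤ (2 * E) ^ 2 := by gcongr
  have t3 := mul_le_mul_of_nonneg_right t1 (sq_nonneg g)
  have t4 := mul_le_mul_of_nonneg_right b2 hE
  nlinarith

theorem card_le_twelve (Q : Finset ℕ)
    (h : ∀ a ∈ Q, ∀ b ∈ Q, ∀ c ∈ Q, a + 6 ≤ b → b + 6 ≤ c → False) : Q.card ≤ 12 := by
  rcases Q.eq_empty_or_nonempty with rfl | hne
  · simp
  have : Q ⊆ Icc (Q.min' hne) (Q.min' hne + 5) ∪ Icc (Q.max' hne - 5) (Q.max' hne) := by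
    intro b hb
    have h1 := Q.min'_le b hb
    have h2 := Q.le_max' b hb
    have h3 := h _ (Q.min'_mem hne) b hb _ (Q.max'_mem hne)
    simp only [mem_union, mem_Icc]
    by_contra hc
    exact h3 (by omega) (by omega)
  refine (card_le_card this).trans ((card_union_le _ _).trans ?_)
  simp only [Nat.card_Icc]; omega

theorem diff_bounds {H : ℝ} {k n p : ℕ} {ξ : E3} (hH : 0 < H)
    (h : ∃ η ∈ Pl H k n p 14, ∃ η' ∈ Pl H k n p 14, ξ = η - η') :
    |ξ 0| ≤ 2 * H ∧ |l1 (bs 2 n p) ξ| ≤ 28 * H * sg n ∧ |l2 (bs 2 n p) ξ| ≤ 28 * H * sg n ^ 2 := by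
  obtain ⟨η, hη, η', hη', rfl⟩ := h
  obtain ⟨a0, a1, a2⟩ := mem_Pl.1 hη
  obtain ⟨b0, b1, b2⟩ := mem_Pl.1 hη'
  obtain ⟨e0, e1⟩ := eta0 hH a0
  obtain ⟨e2, e3⟩ := eta0 hH b0
  rw [l1_sub, l2_sub, PiLp.sub_apply]
  rw [abs_le] at *
  refine ⟨⟨?_, ?_⟩, ?_, ?_⟩ <;> first | linarith | (rw [abs_le]; constructor <;> linarith)

end WGeo

open WGeo

theorem plMono : PlMonoStmt := by
  intro H k n m q p hH hm hp η hη
  obtain ⟨h0, h1, h2⟩ := mem_Pl.1 hη
  obtain ⟨d0, d1⟩ := bs_diff hm hp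
  obtain ⟨e0, e1⟩ := eta0 hH h0
  have s1 := sg_pos n; have s2 := sg_pos m; have s4 := sg_anti hm
  set a := bs 2 n p; set b := bs 2 m q
  have hd : |a - b| ≤ sg m := abs_le.2 ⟨by linarith, d1.le⟩
  have he : |η 0| ≤ 2 * H := abs_le.2 ⟨by linarith, e1⟩
  refine mem_Pl.2 ⟨h0, ?_, ?_⟩
  · rw [l1_shift a b]
    have t1 := abs_mul_le hd he
    have t2 : H * sg n ≤ H * sg m := by gcongr
    have t3 := mul_pos hH s2
    rw [abs_le] at *
    constructor <;> nlinarith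
  · rw [l2_shift a b]
    have t1 := abs_mul_le hd h1
    have t2 := abs_mul_le (abs_mul_le hd hd) he
    have t4 : sg m * (4 * H * sg n) ≤ 4 * H * sg m ^ 2 := by nlinarith [mul_pos s2 hH]
    have t5 : 4 * H * sg n ^ 2 ≤ 4 * H * sg m ^ 2 := by gcongr
    rw [abs_le] at *
    constructor <;> nlinarith

theorem adj : AdjStmt := by
  intro H k j q m n p p' η η' hH hk hj hm hc hp hp' hη hη' hB
  obtain ⟨h0, h1, -⟩ := mem_Pl.1 hη
  obtain ⟨-, h1', -⟩ := mem_Pl.1 hη'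
  obtain ⟨b0, b1, -⟩ := mem_Box.1 hB
  obtain ⟨d0, d1⟩ := bs_diff (hj.trans hm) hp'
  have s1 := sg_pos n; have s2 := sg_pos j
  have s3 : sg m ^ 2 ≤ sg n * sg j := by
    rw [sq, ← sg_add, ← sg_add]; exact sg_anti (by omega)
  have s4 : sg k ≤ 1 / 2 := by simpa [sg] using sg_anti hk
  have s5 := sg_pos k
  set a := bs 2 n p; set a' := bs 2 n p'; set b := bs 2 j q
  have c0 : |(η - η') 0| * sg j ≤ 1200 * H * sg n := by
    refine le_of_mul_le_mul_right ?_ s2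
    nlinarith [mul_le_mul_of_nonneg_left s3 hH.le]
  have c1 : |l1 b (η - η')| ≤ 1200 * H * sg n := by
    refine le_of_mul_le_mul_right ?_ s2
    nlinarith [mul_le_mul_of_nonneg_left s3 hH.le]
  have c2 : |(a' - b) * (η - η') 0| ≤ 1200 * H * sg n := by
    refine (abs_mul_le (abs_le.2 ⟨by linarith, d1.le⟩) le_rfl).trans ?_
    linarith [mul_comm (sg j) |(η - η') 0|]
  have e : (a - a') * η 0 = l1 b (η - η') - (l1 a η - l1 a' η') - (a' - b) * (η - η') 0 := by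
    simp only [l1, PiLp.sub_apply]; ring
  have c3 : |(a - a') * η 0| ≤ 2428 * H * sg n := by
    rw [e]; rw [abs_le] at *; constructor <;> linarith
  have c4 : 3 / 4 * H ≤ η 0 := by
    have : sg k ^ 2 ≤ 1 / 4 := by nlinarith
    have := (abs_le.1 h0).1
    nlinarith
  refine nr_of (n := n) (le_of_mul_le_mul_right ?_ hH)
  rw [abs_mul, abs_of_pos (by linarith : 0 < η 0)] at c3
  nlinarith [mul_le_mul_of_nonneg_left c4 (abs_nonneg (a - a')), mul_pos hH s1]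

theorem bio : BioStmt := by
  intro H k j q n p1 p1' p2 p2' η1 η1' η2 η2' hH hj hk a1 a1' a2 a2' b1 b1' b2 b2' he
  obtain ⟨u1, v1⟩ := bio_one hH hj hk a1 b1
  obtain ⟨u1', v1'⟩ := bio_one hH hj hk a1' b1'
  obtain ⟨u2, v2⟩ := bio_one hH hj hk a2 b2
  obtain ⟨u2', v2'⟩ := bio_one hH hj hk a2' b2'
  set b := bs 2 j q
  have ex : l1 b η1 + l1 b η2 = l1 b η1' + l1 b η2' := by rw [← l1_add, ← l1_add, he]
  have ey : l2 b η1 + l2 b η2 = l2 b η1' + l2 b η2' := by rw [← l2_add, ← l2_add, he]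
  have hu : 0 < H * sg n := mul_pos hH (sg_pos n)
  set u := H * sg n with hu'
  have key : ∀ {p p' : ℕ} {x x' : ℝ}, |x - (bs 2 n p - b) * H| ≤ 15 * u →
      |x' - (bs 2 n p' - b) * H| ≤ 15 * u → |x - x'| ≤ 24 * u → Nr p p' := by
    intro p p' x x' h1 h2 h3
    refine nr_of (n := n) (le_of_mul_le_mul_right ?_ hH)
    rw [← abs_of_pos hH, ← abs_mul, abs_of_pos hH]
    rw [abs_le] at *
    constructor <;> nlinarith
  have hprod : |(l1 b η1 - l1 b η1') * (l1 b η1 - l1 b η2')| ≤ 536 * u ^ 2 := by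
    have e : 2 * ((l1 b η1 - l1 b η1') * (l1 b η1 - l1 b η2')) =
        (H * l2 b η1' - l1 b η1' ^ 2) + (H * l2 b η2' - l1 b η2' ^ 2) -
          (H * l2 b η1 - l1 b η1 ^ 2) - (H * l2 b η2 - l1 b η2 ^ 2) := by
      have h2 : l1 b η2 = l1 b η1' + l1 b η2' - l1 b η1 := by linarith
      have h3 : l2 b η2 = l2 b η1' + l2 b η2' - l2 b η1 := by linarith
      rw [h2, h3]; ring
    rw [abs_le] at *
    constructor <;> linarith
  by_cases h : |l1 b η1 - l1 b η1'| ≤ 24 * u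
  · refine Or.inl ⟨key v1 v1' h, key v2 v2' ?_⟩
    rwa [show l1 b η2 - l1 b η2' = -(l1 b η1 - l1 b η1') by linarith, abs_neg]
  · have h' : |l1 b η1 - l1 b η2'| ≤ 24 * u := by
      by_contra h'
      push Not at h h'
      rw [abs_mul] at hprod
      nlinarith [mul_lt_mul'' h h' (by positivity) (by positivity), mul_pos hu hu]
    refine Or.inr ⟨key v1 v2' h', key v2 v1' ?_⟩
    rwa [show l1 b η2 - l1 b η1' = -(l1 b η1 - l1 b η2') by linarith, abs_neg]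

theorem kak : KakStmt := by
  classical
  intro H k j q n ξ c hH hj hc
  have hnn : ∀ i q', 0 ≤ (Box H i q' n).indicator (fun _ => ‖∑ p ∈ ch 2 i q' n, c p‖ ^ 2) ξ :=
    fun i q' => Set.indicator_nonneg (fun _ _ => sq_nonneg _) _
  by_cases h0 : ∀ p ∈ ch 2 j q n, c p = 0
  · rw [sum_eq_zero h0]
    have : 0 ≤ ∑ i ∈ Icc j n, ∑ q' ∈ ch 2 j q i,
        (Box H i q' n).indicator (fun _ => ‖∑ p ∈ ch 2 i q' n, c p‖ ^ 2) ξ :=
      sum_nonneg fun i _ => sum_nonneg fun q' _ => hnn i q'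
    simp only [norm_zero]; nlinarith
  push Not at h0
  obtain ⟨p0, hp0, hc0⟩ := h0
  have s1 := sg_pos n
  set cn := ξ 0 * ξ 2 - ξ 1 ^ 2 with hcn
  have hex : ∃ i, j ≤ i ∧ |ξ 0| * sg i ^ 2 ≤ 840 * H * sg n ^ 2 ∧
      |cn| * sg i ^ 2 ≤ 840 * (H * sg n ^ 2) ^ 2 := by
    obtain ⟨a0, a1, a2⟩ := diff_bounds hH (hc p0 hp0 hc0)
    refine ⟨n, hj, by nlinarith [mul_pos hH (pow_pos s1 2), sq_nonneg (sg n)], ?_⟩
    have : |cn| ≤ 840 * (H * sg n) ^ 2 := by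
      rw [hcn, ← cone_inv (bs 2 n p0)]
      have t1 := abs_mul_le a0 a2
      have t2 := abs_mul_le a1 a1
      rw [abs_le] at *
      constructor <;> nlinarith
    nlinarith [mul_le_mul_of_nonneg_right this (sq_nonneg (sg n))]
  have hin : Nat.find hex ≤ n := by
    refine Nat.find_min' hex ?_
    obtain ⟨a0, a1, a2⟩ := diff_bounds hH (hc p0 hp0 hc0)
    refine ⟨hj, by nlinarith [mul_pos hH (pow_pos s1 2), sq_nonneg (sg n)], ?_⟩
    have : |cn| ≤ 840 * (H * sg n) ^ 2 := by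
      rw [hcn, ← cone_inv (bs 2 n p0)]
      have t1 := abs_mul_le a0 a2
      have t2 := abs_mul_le a1 a1
      rw [abs_le] at *
      constructor <;> nlinarith
    nlinarith [mul_le_mul_of_nonneg_right this (sq_nonneg (sg n))]
  obtain ⟨hji, g0, g1⟩ := Nat.find_spec hex
  have hmin := fun i' => Nat.find_min hex (m := i')
  set i := Nat.find hex
  have s2 := sg_pos i
  set Qs := (ch 2 j q i).filter fun q' => ∃ p ∈ ch 2 i q' n, c p ≠ 0 with hQs
  have hbox : ∀ q' ∈ Qs, ξ ∈ Box H i q' n := by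
    intro q' hq'
    obtain ⟨hq1, p, hp, hcp⟩ := mem_filter.1 hq'
    obtain ⟨-, a1, a2⟩ := diff_bounds hH (hc p (mem_ch_trans hji hin hq1 hp) hcp)
    obtain ⟨d0, d1⟩ := bs_diff hin hp
    set a := bs 2 n p; set b := bs 2 i q'
    have hd : |a - b| ≤ sg i := abs_le.2 ⟨by linarith, d1.le⟩
    set w := H * sg n ^ 2 with hw
    have hw0 : 0 < w := mul_pos hH (pow_pos s1 2)
    have a2' : |l2 a ξ| ≤ 28 * w := by rw [hw]; linarith
    have g0' : |ξ 0| * sg i ^ 2 ≤ 840 * w := by rw [hw]; linarith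
    have t1 : |l1 a ξ| * sg i ≤ 157 * w := by
      have e : l1 a ξ ^ 2 = ξ 0 * l2 a ξ - cn := by rw [hcn, ← cone_inv a]; ring
      have u1 : |l1 a ξ| ^ 2 ≤ |ξ 0| * (28 * w) + |cn| := by
        rw [sq_abs, e]
        have := abs_mul_le (le_refl |ξ 0|) a2'
        have := le_abs_self (ξ 0 * l2 a ξ); have := neg_abs_le cn
        linarith
      refine abs_le_of_sq_le_sq' ?_ (by positivity) |>.2
      nlinarith [mul_le_mul_of_nonneg_right u1 (sq_nonneg (sg i)),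
        mul_le_mul_of_nonneg_right g0' hw0.le]
    refine mem_Box.2 ⟨by linarith, ?_, ?_⟩
    · rw [l1_shift a b]
      have u1 := abs_mul_le hd (le_refl |ξ 0|)
      have u2 := mul_le_mul_of_nonneg_right ((abs_add_le _ _).trans (add_le_add_right u1 |l1 a ξ|)) s2.le
      nlinarith
    · rw [l2_shift a b]
      have u1 := abs_mul_le hd (le_refl |l1 a ξ|)
      have u2 := abs_mul_le (abs_mul_le hd hd) (le_refl |ξ 0|)
      rw [abs_le] at u1 u2 a2' ⊢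
      constructor <;> nlinarith
  have hcard : Qs.card ≤ 12 := by
    refine card_le_twelve Qs fun q1 h1 q2 h2 q3 h3 h12 h23 => ?_
    obtain ⟨k1, p1, m1, c1⟩ := mem_filter.1 h1
    obtain ⟨k2, p2, m2, c2⟩ := mem_filter.1 h2
    obtain ⟨k3, p3, m3, c3⟩ := mem_filter.1 h3
    have hlt : j < i := by
      refine lt_of_le_of_ne hji fun h => ?_
      have e1 := (mem_ch.1 k1).2
      have e2 := (mem_ch.1 k2).2
      rw [← h, Nat.sub_self, pow_zero, Nat.div_one] at e1 e2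
      omega
    have gap : ∀ {x y px py : ℕ}, px ∈ ch 2 i x n → py ∈ ch 2 i y n → x + 6 ≤ y →
        5 * sg i ≤ bs 2 n py - bs 2 n px := by
      intro x y px py hx hy hxy
      have e : bs 2 i y - bs 2 i x = ((y : ℝ) - x) * sg i := by
        unfold bs sg; push_cast; field_simp
      have : (x : ℝ) + 6 ≤ y := by exact_mod_cast hxy
      have := bs_diff hin hx; have := bs_diff hin hy
      nlinarith
    obtain ⟨r0, r1⟩ := three_pts (by positivity) (gap m1 m2 h12) (gap m2 m3 h23)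
      (diff_bounds hH (hc p1 (mem_ch_trans hji hin k1 m1) c1)).2.2
      (diff_bounds hH (hc p2 (mem_ch_trans hji hin k2 m2) c2)).2.2
      (diff_bounds hH (hc p3 (mem_ch_trans hji hin k3 m3) c3)).2.2
    have e : sg (i - 1) = 2 * sg i := by
      have : sg i = sg (i - 1) * sg 1 := by rw [← sg_add]; congr 1; omega
      rw [this]; simp only [sg]; ring
    refine hmin (i - 1) (by omega) ⟨by omega, ?_, ?_⟩
    · rw [e]; nlinarith [mul_pos hH (pow_pos s1 2)]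
    · rw [e]; nlinarith [pow_pos (mul_pos hH (pow_pos s1 2)) 2]
  have e1 : ∑ p ∈ ch 2 j q n, c p = ∑ q' ∈ Qs, ∑ p ∈ ch 2 i q' n, c p := by
    rw [sum_ch two_pos hji hin, hQs, sum_filter_of_ne]
    exact fun q' _ h => exists_ne_zero_of_sum_ne_zero h
  have e2 : ‖∑ p ∈ ch 2 j q n, c p‖ ^ 2 ≤ 12 * ∑ q' ∈ Qs, ‖∑ p ∈ ch 2 i q' n, c p‖ ^ 2 := by
    rw [e1]
    refine (pow_le_pow_left₀ (norm_nonneg _) (norm_sum_le _ _) 2).trans
      (sq_sum_le_card_mul_sum_sq.trans ?_)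
    gcongr
    exact_mod_cast hcard
  refine e2.trans (mul_le_mul_of_nonneg_left ?_ (by norm_num))
  refine le_trans ?_ (single_le_sum (f := fun i => ∑ q' ∈ ch 2 j q i,
    (Box H i q' n).indicator (fun _ => ‖∑ p ∈ ch 2 i q' n, c p‖ ^ 2) ξ)
    (fun i _ => sum_nonneg fun q' _ => hnn i q') (mem_Icc.2 ⟨hji, hin⟩))
  refine le_trans (le_of_eq (sum_congr rfl fun q' hq' => ?_))
    (sum_le_sum_of_subset_of_nonneg (filter_subset _ _ : Qs ⊆ _) fun q' _ _ => hnn i q')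
  rw [Set.indicator_of_mem (hbox q' hq')]

end Pool.Agent.MP_538dc4_an
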