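import Pool.Agent.MP_538dc4_an.Shear

/-! PROJECT FURST: induction on scales, and the passage from boxes to kernels. -/

open MeasureTheory Finset Filter
open scoped ENNReal FourierTransform ComplexConjugate RealInnerProductSpace Topology

namespace Pool.Agent.MP_538dc4_an

namespace WInd

theorem exists_k {C ε : ℝ} (hC : 1 ≤ C) (hε : 0 < ε) :
    ∃ k : ℕ, 1 ≤ k ∧ ∀ x : ℕ, k ≤ 2 * x → C * (2 * x + 1) ≤ ((2 : ℝ) ^ x) ^ ε := by
  have hr : (1 : ℝ) < 2 ^ ε := Real.one_lt_rpow (by norm_num) hε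
  have h := (tendsto_pow_const_div_const_pow_of_one_lt 1 hr).eventually
    (gt_mem_nhds (show (0 : ℝ) < 1 / (3 * C) by positivity))
  obtain ⟨x0, hx0⟩ := eventually_atTop.1 h
  refine ⟨2 * x0 + 2, by omega, fun x hx => ?_⟩
  have h1 := hx0 x (by omega)
  have h2 : (1 : ℝ) ≤ x := by exact_mod_cast (by omega : 1 ≤ x)
  have e : ((2 : ℝ) ^ x) ^ ε = (2 ^ ε) ^ x := by
    rw [← Real.rpow_natCast, ← Real.rpow_mul (by norm_num), mul_comm, Real.rpow_mul (by norm_num),
      Real.rpow_natCast]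
  rw [e]
  rw [pow_one, div_lt_div_iff₀ (by positivity) (by positivity)] at h1
  nlinarith

theorem ofReal_integral_le {α : Type*} [MeasurableSpace α] {μ : Measure α} {f : α → ℝ}
    (h : ∀ x, 0 ≤ f x) : ENNReal.ofReal (∫ x, f x ∂μ) ≤ ∫⁻ x, ENNReal.ofReal (f x) ∂μ := by
  by_cases hi : Integrable f μ
  · exact (ofReal_integral_eq_lintegral_ofReal hi (Eventually.of_forall h)).le
  · simp [integral_undef hi]

theorem sum_RR_le (H : ℝ) (f : ℕ → E3 → ℂ) {n j i : ℕ} (q : ℕ) (hj : j ≤ i) :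
    ∑ q' ∈ ch 2 j q i, RR H f n i q' n ≤ RR H f n j q n := by
  unfold RR
  rw [sum_comm]
  refine le_trans (le_of_eq (sum_congr rfl fun i' hi' => ?_))
    (sum_le_sum_of_subset (Icc_subset_Icc_left hj))
  exact (sum_ch two_pos hj (mem_Icc.1 hi').1 q _).symm

end WInd

open WInd

theorem wInd (h1 : WStepStmt) (h2 : WTopStmt) : WStmt := by
  intro ε hε
  obtain ⟨C, hC, hstep⟩ := h1
  obtain ⟨k, hk, hkx⟩ := exists_k hC hε
  refine ⟨k, C, hk, hC, fun H n f hH hW => ?_⟩
  have key : ∀ d m, n - m = d → m ≤ n → ∀ j q, j ≤ m →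
      QQ H f n j q m ≤ ENNReal.ofReal (C * ((2 : ℝ) ^ (n - m)) ^ ε) * RR H f n j q n := by
    intro d
    induction d using Nat.strong_induction_on with
    | _ d ih =>
      intro m hd hm j q hj
      by_cases hn : n ≤ j + max (2 * (m - j)) k
      · refine (hstep H k n f hH hk hW j q m n hj hm le_rfl (by omega)).trans ?_
        gcongr
        exact le_mul_of_one_le_right (by linarith)
          (Real.one_le_rpow (one_le_pow₀ (by norm_num)) hε.le)
      · set n2 := j + max (2 * (m - j)) k with hn2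
        have a1 : m < n2 := by omega
        have a2 : n2 ≤ n := by omega
        refine (hstep H k n f hH hk hW j q m n2 hj a1.le a2 (by omega)).trans ?_
        set B := ENNReal.ofReal (C * ((2 : ℝ) ^ (n - n2)) ^ ε) with hB
        have b1 : RR H f n j q n2 ≤ ((2 * (n2 - m) + 1 : ℕ) : ℝ≥0∞) * (B * RR H f n j q n) := by
          calc RR H f n j q n2 ≤ ∑ i ∈ Icc j n2, B * RR H f n j q n := by
                refine sum_le_sum fun i hi => ?_
                obtain ⟨i1, i2⟩ := mem_Icc.1 hi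
                refine (sum_le_sum fun q' _ => ih (n - n2) (by omega) n2 rfl a2 i q' i2).trans ?_
                rw [← mul_sum]
                gcongr
                exact sum_RR_le H f q i1
            _ ≤ _ := by
                rw [sum_const, nsmul_eq_mul, Nat.card_Icc]
                gcongr
                omega
        refine (mul_le_mul_right b1 _).trans ?_
        rw [← mul_assoc, ← mul_assoc]
        gcongr
        rw [← ENNReal.ofReal_natCast, ← ENNReal.ofReal_mul (by linarith), hB,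
          ← ENNReal.ofReal_mul (by positivity)]
        refine ENNReal.ofReal_le_ofReal ?_
        have c1 := hkx (n2 - m) (by omega)
        have c2 : ((2 : ℝ) ^ (n - m)) ^ ε = ((2 : ℝ) ^ (n2 - m)) ^ ε * ((2 : ℝ) ^ (n - n2)) ^ ε := by
          rw [← Real.mul_rpow (by positivity) (by positivity), ← pow_add]; congr 2; omega
        rw [c2]
        push_cast [Nat.cast_add, Nat.cast_mul] at c1 ⊢
        have c3 : 0 ≤ C * ((2 : ℝ) ^ (n - n2)) ^ ε := by positivity
        nlinarith [mul_le_mul_of_nonneg_right c1 c3]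
  exact (h2 H k n f hH hW).trans (key n 0 rfl (Nat.zero_le n) 0 0 le_rfl)

theorem box_stmt : BoxStmt := by
  intro k m c b γ0 γ1 γ2 g S hk h0 h1 h2 hgc hgi hg0 hS
  set U := kU k b γ0 γ1 γ2 with hU
  set M : E3 → ℝ := fun ξ => m (ξ 0 / γ0) * m (l1 b ξ / γ1) * m (l2 b ξ / γ2) with hM
  have hUc : Continuous U := hk.continuous_kU _ _ _ _
  have hUi : Integrable U := hk.integrable_kU b h0 h1 h2
  have hU0 : ∀ x, 0 ≤ U x := hk.kU_nonneg b h0 h1 h2
  have hF : (𝓕 (fun X => (U X : ℂ)) : E3 → ℂ) = fun ξ => (M ξ : ℂ) :=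
    funext fun ξ => hk.fourier_kU b h0 h1 h2 ξ
  have hM0 : ∀ ξ, 0 ≤ M ξ := fun ξ =>
    mul_nonneg (mul_nonneg (hk.m_nonneg _) (hk.m_nonneg _)) (hk.m_nonneg _)
  have hMi : Integrable M := by
    have e : ∀ {γ : ℝ}, 0 < γ → Integrable fun x : ℝ => m (x / γ) := fun hγ =>
      hk.m_int.comp_div hγ.ne'
    have := integrable_E3_prod (e h0) (e h1) (e h2)
    refine ((cov_fr3 b).integrable_iff M).1 ?_
    simpa only [hM, fr3_0, l1_fr3, l2_fr3] using this
  have hMc : Integrable fun ξ => (M ξ : ℂ) := hMi.ofReal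
  have hinv : ∀ w, (U w : ℂ) = ∫ ξ, ee ⟪ξ, w⟫ * (M ξ : ℂ) := fun w => by
    have := eq_fourierInv (f := fun X => (U X : ℂ)) (by fun_prop) hUi.ofReal (hF ▸ hMc) w
    rwa [hF] at this
  set G : E3 → ℂ := fun x => (g x : ℂ) with hG
  have hGi : Integrable G := hgi.ofReal
  have hGc := continuous_fourier hGi
  have hφ : Integrable fun ξ => (M ξ : ℂ) * conj (𝓕 G ξ) :=
    hMc.mul_bdd (c := ∫ x, ‖G x‖) (Complex.continuous_conj.comp hGc).aestronglyMeasurable
      (Eventually.of_forall fun ξ => by simpa using norm_fourier_le G ξ)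
  have hFφ : ∀ x, 𝓕 (fun ξ => (M ξ : ℂ) * conj (𝓕 G ξ)) x = ((∫ y, g y * U (y - x) : ℝ) : ℂ) := by
    intro x
    have e1 : ∀ ξ, conj (𝓕 G ξ) = ∫ y, ee ⟪y, ξ⟫ * G y := fun ξ => by
      rw [fourier_eq_ee, ← integral_conj]
      simp only [map_mul, conj_ee, neg_neg, hG, Complex.conj_ofReal]
    have hint : Integrable (Function.uncurry fun (ξ y : E3) =>
        ee (-⟪ξ, x⟫) * ((M ξ : ℂ) * (ee ⟪y, ξ⟫ * G y))) (volume.prod volume) := by
      refine ((hMc.mul_prod hGi).bdd_mul (c := 1)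
        (f := fun p : E3 × E3 => ee (-⟪p.1, x⟫) * ee ⟪p.2, p.1⟫) ?_ ?_).congr ?_
      · exact ((continuous_ee.comp (by fun_prop)).mul
          (continuous_ee.comp (by fun_prop))).aestronglyMeasurable
      · exact Eventually.of_forall fun p => by simp
      · exact Eventually.of_forall fun p => by simp only [Function.uncurry]; ring
    rw [fourier_eq_ee]
    simp only [e1, ← integral_const_mul]
    rw [integral_integral_swap hint, ← integral_complex_ofReal]
    congr 1; ext y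
    push_cast
    rw [hinv, ← integral_const_mul]
    congr 1; ext ξ
    rw [inner_sub_right, sub_eq_add_neg, ee_add, real_inner_comm ξ y]; ring
  have hmain : ∫ ξ, M ξ * ‖𝓕 G ξ‖ ^ 2 = ∫ x, g x * ∫ y, g y * U (y - x) := by
    have := integral_fourier_mul hGi hφ
    simp only [hFφ] at this
    have e3 : ∫ x, G x * ((∫ y, g y * U (y - x) : ℝ) : ℂ) =
        ((∫ x, g x * ∫ y, g y * U (y - x) : ℝ) : ℂ) := by
      simp only [hG, ← Complex.ofReal_mul, integral_complex_ofReal]
    refine Complex.ofReal_injective (Eq.trans ?_ (this.trans e3))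
    rw [← integral_complex_ofReal]
    congr 1; ext ξ
    rw [mul_left_comm, Complex.mul_conj, Complex.normSq_eq_norm_sq]; push_cast; rfl
  have hint2 : Integrable fun ξ => M ξ * ‖𝓕 G ξ‖ ^ 2 := by
    refine hMi.mul_bdd (c := (∫ x, ‖G x‖) ^ 2) (hGc.norm.pow 2).aestronglyMeasurable
      (Eventually.of_forall fun ξ => ?_)
    rw [Real.norm_of_nonneg (sq_nonneg _)]
    exact pow_le_pow_left₀ (norm_nonneg _) (norm_fourier_le G ξ) 2
  have hmeas : MeasurableSet {ξ : E3 | |ξ 0| ≤ c * γ0 ∧ |l1 b ξ| ≤ c * γ1 ∧ |l2 b ξ| ≤ c * γ2} := by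
    have := continuous_l1 b; have := continuous_l2 b
    refine IsClosed.measurableSet ?_
    simp only [Set.ofPred_and]
    refine (isClosed_le ?_ ?_).inter ((isClosed_le ?_ ?_).inter (isClosed_le ?_ ?_)) <;> fun_prop
  have low : ∀ {a γ : ℝ}, 0 < γ → |a| ≤ c * γ → 1 / 2 ≤ m (a / γ) := fun hγ ha =>
    hk.m_low _ (by rw [abs_div, abs_of_pos hγ, div_le_iff₀ hγ]; exact ha)
  calc _ ≤ ∫⁻ ξ in {ξ : E3 | |ξ 0| ≤ c * γ0 ∧ |l1 b ξ| ≤ c * γ1 ∧ |l2 b ξ| ≤ c * γ2},
        8 * ENNReal.ofReal (M ξ * ‖𝓕 G ξ‖ ^ 2) := by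
        refine setLIntegral_mono' hmeas fun ξ hξ => ?_
        rw [← ENNReal.ofReal_ofNat 8, ← ENNReal.ofReal_mul (by norm_num)]
        refine ENNReal.ofReal_le_ofReal ?_
        have a0 := low h0 hξ.1; have a1 := low h1 hξ.2.1; have a2 := low h2 hξ.2.2
        have : 1 / 2 * (1 / 2) * (1 / 2) ≤ M ξ := by
          simp only [hM]; gcongr
        nlinarith [sq_nonneg ‖𝓕 G ξ‖]
    _ ≤ ∫⁻ ξ, 8 * ENNReal.ofReal (M ξ * ‖𝓕 G ξ‖ ^ 2) := setLIntegral_le_lintegral _ _
    _ = 8 * ENNReal.ofReal (∫ x, g x * ∫ y, g y * U (y - x)) := by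
        rw [lintegral_const_mul' _ _ (by norm_num), ← hmain, ofReal_integral_eq_lintegral_ofReal hint2
          (Eventually.of_forall fun ξ => mul_nonneg (hM0 ξ) (sq_nonneg _))]
    _ ≤ 8 * ∫⁻ x, ENNReal.ofReal (g x) * S := by
        gcongr
        refine (ofReal_integral_le fun x =>
          mul_nonneg (hg0 x) (integral_nonneg fun y => mul_nonneg (hg0 y) (hU0 _))).trans
          (lintegral_mono fun x => ?_)
        rw [ENNReal.ofReal_mul (hg0 x)]
        gcongr
        exact (ofReal_integral_le fun y =>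
          mul_nonneg (hg0 y) (hU0 _)).trans (hS x)
    _ = _ := by rw [lintegral_mul_const _ hgc.measurable.ennreal_ofReal, mul_assoc]

end Pool.Agent.MP_538dc4_an
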