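import Pool.Agent.MP_538dc4_an.Shear

/-! PROJECT FURST: one step of the wave envelope estimate. -/

open MeasureTheory Finset
open scoped ENNReal FourierTransform ComplexConjugate RealInnerProductSpace Pointwise

namespace Pool.Agent.MP_538dc4_an

namespace WStep

theorem bdd_box (a M0 M1 M2 : ℝ) :
    Bornology.IsBounded {ξ : E3 | |ξ 0| ≤ M0 ∧ |l1 a ξ| ≤ M1 ∧ |l2 a ξ| ≤ M2} := by
  have hc : Continuous fun p : ℝ × ℝ × ℝ => fr3 a p.1 p.2.1 p.2.2 := by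
    unfold fr3; exact continuous_v3 (by fun_prop) (by fun_prop) (by fun_prop)
  have hK : IsCompact (Set.Icc (-M0) M0 ×ˢ Set.Icc (-M1) M1 ×ˢ Set.Icc (-M2) M2) :=
    isCompact_Icc.prod (isCompact_Icc.prod isCompact_Icc)
  refine (hK.image hc).isBounded.subset fun ξ hξ => ?_
  exact ⟨(ξ 0, l1 a ξ, l2 a ξ), ⟨abs_le.1 hξ.1, abs_le.1 hξ.2.1, abs_le.1 hξ.2.2⟩, fr3_eta a ξ⟩

theorem Pl_bdd (H : ℝ) (k n p : ℕ) (C : ℝ) : Bornology.IsBounded (Pl H k n p C) := by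
  refine (bdd_box (bs 2 n p) (H / 4 ^ k + |H|) _ _).subset fun η hη => ⟨?_, hη.2.1, hη.2.2⟩
  calc |η 0| = |(η 0 - H) + H| := by ring_nf
    _ ≤ |η 0 - H| + |H| := abs_add_le _ _
    _ ≤ _ := by have := hη.1; linarith

theorem measurableSet_Box (H : ℝ) (j q n : ℕ) : MeasurableSet (Box H j q n) := by
  have := continuous_l1 (bs 2 j q); have := continuous_l2 (bs 2 j q)
  refine IsClosed.measurableSet ?_
  unfold Box
  simp only [Set.ofPred_and]
  refine (isClosed_le ?_ ?_).inter ((isClosed_le ?_ ?_).inter (isClosed_le ?_ ?_)) <;> fun_prop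

/-- Continuous integrable functions with integrable Fourier transform. -/
structure Cl (G : E3 → ℂ) : Prop where
  cont : Continuous G
  int : Integrable G
  fint : Integrable (𝓕 G : E3 → ℂ)

theorem Cl.sum {ι : Type*} (s : Finset ι) {G : ι → E3 → ℂ} (h : ∀ i ∈ s, Cl (G i)) :
    Cl fun x => ∑ i ∈ s, G i x := by
  refine ⟨continuous_finsetSum _ fun i hi => (h i hi).cont,
    integrable_finsetSum _ fun i hi => (h i hi).int, ?_⟩
  have : (𝓕 (fun x => ∑ i ∈ s, G i x) : E3 → ℂ) = fun ξ => ∑ i ∈ s, 𝓕 (G i) ξ :=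
    funext fun ξ => fourier_sum s (fun i hi => (h i hi).int) ξ
  rw [this]
  exact integrable_finsetSum _ fun i hi => (h i hi).fint

theorem Cl.mul_conj_int {G G' : E3 → ℂ} (h : Cl G) (h' : Cl G') :
    Integrable fun x => G x * conj (G' x) := by
  obtain ⟨C, hC⟩ := bdd_of_fourier h'.cont h'.int h'.fint
  exact h.int.mul_bdd (c := C) (Complex.continuous_conj.comp h'.cont).aestronglyMeasurable
    (Filter.Eventually.of_forall fun x => by simpa using hC x)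

variable {H : ℝ} {k n : ℕ} {f : ℕ → E3 → ℂ}

/-- Products of two pieces of level m. -/
noncomputable def GG (f : ℕ → E3 → ℂ) (n m : ℕ) (π : ℕ × ℕ) (x : E3) : ℂ :=
  FS f n m π.1 x * conj (FS f n m π.2 x)

theorem GG_eq (m : ℕ) (π : ℕ × ℕ) : GG f n m π = fun x =>
    ∑ r ∈ ch 2 m π.1 n ×ˢ ch 2 m π.2 n, f r.1 x * conj (f r.2 x) := by
  ext x
  simp only [GG, FS, map_sum, sum_mul_sum, sum_product]

theorem FS_cont (hW : WHyp H k n f) (m q : ℕ) : Continuous (FS f n m q) :=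
  continuous_finsetSum _ fun p _ => hW.cont p

theorem GG_int (hW : WHyp H k n f) (m : ℕ) (π : ℕ × ℕ) : Integrable (GG f n m π) := by
  rw [GG_eq]; exact integrable_finsetSum _ fun r _ => hW.int _ _

theorem GG_supp (h1 : PlMonoStmt) (hH : 0 < H) (hW : WHyp H k n f) {m : ℕ} (hm : m ≤ n)
    (π : ℕ × ℕ) {ξ : E3} (h : 𝓕 (GG f n m π) ξ ≠ 0) :
    ∃ η ∈ Pl H k m π.1 14, ∃ η' ∈ Pl H k m π.2 14, ξ = η - η' := by
  rw [GG_eq, fourier_sum _ fun r _ => hW.int r.1 r.2] at h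
  obtain ⟨r, hr, h⟩ := exists_ne_zero_of_sum_ne_zero h
  obtain ⟨a, b⟩ := mem_product.1 hr
  obtain ⟨η, hη, η', hη', e⟩ := hW.spec _ (mem_ch.1 a).1 _ (mem_ch.1 b).1 ξ h
  exact ⟨η, h1 H k n m _ _ hH hm a hη, η', h1 H k n m _ _ hH hm b hη', e⟩

theorem GG_cl (h1 : PlMonoStmt) (hH : 0 < H) (hW : WHyp H k n f) {m : ℕ} (hm : m ≤ n)
    (π : ℕ × ℕ) : Cl (GG f n m π) := by
  refine ⟨(FS_cont hW _ _).mul (Complex.continuous_conj.comp (FS_cont hW _ _)), GG_int hW m π, ?_⟩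
  refine integrable_fourier_of_bounded (GG_int hW m π)
    ((Pl_bdd H k m π.1 14).sub (Pl_bdd H k m π.2 14)) fun ξ hξ => ?_
  by_contra h
  obtain ⟨η, hη, η', hη', e⟩ := GG_supp h1 hH hW hm π h
  exact hξ ⟨η, hη, η', hη', e.symm⟩

theorem norm_GG (m : ℕ) (π : ℕ × ℕ) (x : E3) :
    ‖GG f n m π x‖ = ‖FS f n m π.1 x‖ * ‖FS f n m π.2 x‖ := by simp [GG]

theorem SQ_diag (j q m : ℕ) (x : E3) :
    (SQ f n j q m x : ℂ) = ∑ θ ∈ ch 2 j q m, GG f n m (θ, θ) x := by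
  simp only [SQ, GG, Complex.mul_conj, Complex.normSq_eq_norm_sq]; push_cast; rfl

/-- The square function of level m as a sum over pairs of level n2. -/
theorem SQ_pairs {j m n2 : ℕ} (q : ℕ) (h1 : j ≤ m) (h2 : m ≤ n2) (h3 : n2 ≤ n) :
    ∃ Pr : Finset (ℕ × ℕ), Pr ⊆ ch 2 j q n2 ×ˢ ch 2 j q n2 ∧
      (fun x => (SQ f n j q m x : ℂ)) = fun x => ∑ π ∈ Pr, GG f n n2 π x := by
  classical
  refine ⟨(ch 2 j q m).biUnion fun q' => ch 2 m q' n2 ×ˢ ch 2 m q' n2, ?_, ?_⟩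
  · intro π hπ
    obtain ⟨q', hq', hπ⟩ := mem_biUnion.1 hπ
    obtain ⟨a, b⟩ := mem_product.1 hπ
    exact mem_product.2 ⟨mem_ch_trans h1 h2 hq' a, mem_ch_trans h1 h2 hq' b⟩
  · ext x
    rw [sum_biUnion, SQ_diag]
    · refine sum_congr rfl fun q' _ => ?_
      have : FS f n m q' x = ∑ θ ∈ ch 2 m q' n2, FS f n n2 θ x := sum_ch two_pos h2 h3 q' _
      simp only [GG, this, map_sum, sum_mul_sum, sum_product]
    · intro a _ b _ hab
      refine disjoint_left.2 fun π h h' => hab ?_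
      exact (mem_ch.1 (mem_product.1 h).1).2.symm.trans (mem_ch.1 (mem_product.1 h').1).2

open Classical in
/-- The sum over near pairs. -/
noncomputable def ww (a : ℕ → ℝ) (θ θ' : ℕ) : ℝ := if Nr θ θ' then a θ * a θ' else 0

theorem ww_nonneg {a : ℕ → ℝ} (ha : ∀ i, 0 ≤ a i) (θ θ' : ℕ) : 0 ≤ ww a θ θ' := by
  unfold ww; split_ifs
  · exact mul_nonneg (ha _) (ha _)
  · exact le_rfl

open Classical in
theorem card_near (T : Finset ℕ) (θ : ℕ) : ((T.filter fun θ' => Nr θ θ').card : ℝ) ≤ 10001 := by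
  have : T.filter (fun θ' => Nr θ θ') ⊆ Icc (θ - 5000) (θ + 5000) := by
    intro θ' h
    obtain ⟨a, b⟩ := (mem_filter.1 h).2
    rw [mem_Icc]; omega
  have h := card_le_card this
  rw [Nat.card_Icc] at h
  exact_mod_cast h.trans (by omega)

theorem Nr_symm {a b : ℕ} : Nr a b ↔ Nr b a := by unfold Nr; tauto

theorem sum_ww_le (a : ℕ → ℝ) (T : Finset ℕ) :
    ∑ θ ∈ T, ∑ θ' ∈ T, ww a θ θ' ≤ 10001 * ∑ θ ∈ T, a θ ^ 2 := by
  classical
  have key : ∑ θ ∈ T, ∑ θ' ∈ T, (if Nr θ θ' then a θ ^ 2 else 0) ≤ 10001 * ∑ θ ∈ T, a θ ^ 2 := by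
    rw [mul_sum]
    refine sum_le_sum fun θ _ => ?_
    rw [← sum_filter, sum_const, nsmul_eq_mul]
    exact mul_le_mul_of_nonneg_right (card_near T θ) (sq_nonneg _)
  have key' : ∑ θ ∈ T, ∑ θ' ∈ T, (if Nr θ θ' then a θ' ^ 2 else 0) ≤
      10001 * ∑ θ ∈ T, a θ ^ 2 := by
    rw [sum_comm]; simpa only [Nr_symm] using key
  have : ∑ θ ∈ T, ∑ θ' ∈ T, ww a θ θ' ≤ ∑ θ ∈ T, ∑ θ' ∈ T,
      ((if Nr θ θ' then a θ ^ 2 else 0) + (if Nr θ θ' then a θ' ^ 2 else 0)) / 2 := by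
    refine sum_le_sum fun θ _ => sum_le_sum fun θ' _ => ?_
    unfold ww; split_ifs
    · nlinarith [sq_nonneg (a θ - a θ')]
    · simp
  simp only [← sum_div, sum_add_distrib] at this
  linarith

/-- The square function of level n2 controls the envelope sum. -/
theorem sq_le_RR (h1 : PlMonoStmt) (h4 : KakStmt) (hH : 0 < H) (hW : WHyp H k n f) {j n2 : ℕ}
    (q : ℕ) (hj : j ≤ n2) (h3 : n2 ≤ n) :
    ∫⁻ x, ENNReal.ofReal (SQ f n j q n2 x ^ 2) ≤ 12 * RR H f n j q n2 := by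
  have e : ∀ i q', (fun x => (SQ f n i q' n2 x : ℂ)) =
      fun x => ∑ θ ∈ ch 2 i q' n2, GG f n n2 (θ, θ) x := fun i q' => funext (SQ_diag i q' n2)
  have hF : ∀ i q' ξ, 𝓕 (fun x => (SQ f n i q' n2 x : ℂ)) ξ =
      ∑ θ ∈ ch 2 i q' n2, 𝓕 (GG f n n2 (θ, θ)) ξ := fun i q' ξ => by
    rw [e, fourier_sum _ fun θ _ => GG_int hW n2 (θ, θ)]
  have hcl : ∀ i q', Cl fun x => (SQ f n i q' n2 x : ℂ) := fun i q' => by
    rw [e]; exact Cl.sum _ fun θ _ => GG_cl h1 hH hW h3 _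
  have hP := planch (hcl j q).cont (hcl j q).int (hcl j q).fint
  simp only [Complex.norm_real, Real.norm_eq_abs, sq_abs] at hP
  rw [← hP]
  have hm : ∀ i q', Measurable fun ξ => (Box H i q' n2).indicator (fun ξ =>
      ENNReal.ofReal (‖𝓕 (fun x => (SQ f n i q' n2 x : ℂ)) ξ‖ ^ 2)) ξ := fun i q' =>
    Measurable.indicator (((continuous_fourier (hcl i q').int).norm.pow 2).measurable.ennreal_ofReal)
      (measurableSet_Box _ _ _ _)
  unfold RR QQ
  simp only [← lintegral_indicator (measurableSet_Box _ _ _ _)]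
  simp only [← lintegral_finsetSum _ fun q' _ => hm _ q']
  rw [← lintegral_finsetSum _ fun i _ => Finset.measurable_sum _ fun q' _ => hm i q',
    ← lintegral_const_mul' _ _ (by norm_num)]
  refine lintegral_mono fun ξ => ?_
  have := h4 H k j q n2 ξ (fun θ => 𝓕 (GG f n n2 (θ, θ)) ξ) hH hj
    fun p _ hp => GG_supp h1 hH hW h3 (p, p) hp
  simp only [← hF] at this
  refine (ENNReal.ofReal_le_ofReal this).trans (le_of_eq ?_)
  rw [ENNReal.ofReal_mul (by norm_num), ENNReal.ofReal_sum_of_nonneg]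
  · congr 1
    · simp
    refine sum_congr rfl fun i _ => ?_
    rw [ENNReal.ofReal_sum_of_nonneg]
    · refine sum_congr rfl fun q' _ => ?_
      by_cases hξ : ξ ∈ Box H i q' n2 <;> simp [hξ]
    · exact fun q' _ => Set.indicator_nonneg (fun _ _ => sq_nonneg _) _
  · exact fun i _ => sum_nonneg fun q' _ => Set.indicator_nonneg (fun _ _ => sq_nonneg _) _

/-- Abbreviation for the near pair sum at the point x. -/
noncomputable def AA (f : ℕ → E3 → ℂ) (n j q n2 : ℕ) (x : E3) : ℝ :=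
  ∑ θ ∈ ch 2 j q n2, ∑ θ' ∈ ch 2 j q n2, ww (fun i => ‖FS f n n2 i x‖) θ θ'

theorem AA_nonneg (j q n2 : ℕ) (x : E3) : 0 ≤ AA f n j q n2 x :=
  sum_nonneg fun _ _ => sum_nonneg fun _ _ => ww_nonneg (fun _ => norm_nonneg _) _ _

theorem AA_le (j q n2 : ℕ) (x : E3) : AA f n j q n2 x ≤ 10001 * SQ f n j q n2 x :=
  sum_ww_le _ _

theorem case_adj (h1 : PlMonoStmt) (h2 : AdjStmt) (hH : 0 < H) (hk : 1 ≤ k) (hW : WHyp H k n f)
    {j m n2 : ℕ} (q : ℕ) (hj : j ≤ m) (hm : m ≤ n2) (h3 : n2 ≤ n) (hc : n2 + j ≤ 2 * m) :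
    QQ H f n j q m ≤ ∫⁻ x, ENNReal.ofReal (2 * AA f n j q n2 x ^ 2) := by
  classical
  obtain ⟨Pr, hPr, e⟩ := SQ_pairs (f := f) q hj hm h3
  set Pr' := Pr.filter fun π => Nr π.1 π.2 with hPr'
  have hint : Integrable fun x => ∑ π ∈ Pr', GG f n n2 π x :=
    integrable_finsetSum _ fun π _ => GG_int hW n2 π
  unfold QQ
  calc _ = ∫⁻ ξ in Box H j q m,
        ENNReal.ofReal (‖𝓕 (fun x => ∑ π ∈ Pr', GG f n n2 π x) ξ‖ ^ 2) := by
        refine setLIntegral_congr_fun (measurableSet_Box _ _ _ _) fun ξ hξ => ?_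
        rw [e, fourier_sum _ fun π _ => GG_int hW n2 π, fourier_sum _ fun π _ => GG_int hW n2 π,
          hPr', sum_filter_of_ne]
        intro π hπ hne
        obtain ⟨η, hη, η', hη', e'⟩ := GG_supp h1 hH hW h3 π hne
        obtain ⟨a, b⟩ := mem_product.1 (hPr hπ)
        exact h2 H k j q m n2 _ _ η η' hH hk hj hm hc a b hη hη' (e' ▸ hξ)
    _ ≤ ∫⁻ ξ, ENNReal.ofReal (‖𝓕 (fun x => ∑ π ∈ Pr', GG f n n2 π x) ξ‖ ^ 2) :=
        setLIntegral_le_lintegral _ _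
    _ ≤ _ := bessel hint
    _ ≤ _ := by
        refine lintegral_mono fun x => ENNReal.ofReal_le_ofReal ?_
        have h0 := AA_nonneg (f := f) (n := n) j q n2 x
        have : ‖∑ π ∈ Pr', GG f n n2 π x‖ ≤ AA f n j q n2 x := by
          refine (norm_sum_le _ _).trans ?_
          unfold AA
          rw [← sum_product', hPr', sum_filter]
          refine le_trans (le_of_eq (sum_congr rfl fun π _ => ?_))
            (sum_le_sum_of_subset_of_nonneg hPr fun π _ _ => ww_nonneg (fun _ => norm_nonneg _) _ _)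
          simp only [ww, norm_GG]
        nlinarith [norm_nonneg (∑ π ∈ Pr', GG f n n2 π x)]

theorem quad_le {a : ℕ → ℝ} (T : Finset ℕ) :
    ∑ π ∈ T ×ˢ T, ∑ ρ ∈ T ×ˢ T, (ww a π.1 π.2 * ww a ρ.2 ρ.1 + ww a π.1 ρ.1 * ww a ρ.2 π.2) =
      2 * (∑ θ ∈ T, ∑ θ' ∈ T, ww a θ θ') ^ 2 := by
  simp only [sum_add_distrib, sum_product]
  have e1 : ∑ x ∈ T, ∑ y ∈ T, ∑ z ∈ T, ∑ w ∈ T, ww a x y * ww a w z =
      (∑ θ ∈ T, ∑ θ' ∈ T, ww a θ θ') ^ 2 := by
    simp only [← mul_sum, ← sum_mul]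
    rw [sq]; congr 1; exact sum_comm
  have e2 : ∑ x ∈ T, ∑ y ∈ T, ∑ z ∈ T, ∑ w ∈ T, ww a x z * ww a w y =
      (∑ θ ∈ T, ∑ θ' ∈ T, ww a θ θ') ^ 2 := by
    rw [← e1]
    exact sum_congr rfl fun x _ => sum_comm
  rw [e1, e2]; ring

theorem case_bio (h1 : PlMonoStmt) (h2 : BioStmt) (hH : 0 < H) (hW : WHyp H k n f)
    {j m n2 : ℕ} (q : ℕ) (hj : j ≤ m) (hm : m ≤ n2) (h3 : n2 ≤ n) (hc : n2 ≤ j + k) :
    QQ H f n j q m ≤ ∫⁻ x, ENNReal.ofReal (2 * AA f n j q n2 x ^ 2) := by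
  classical
  obtain ⟨Pr, hPr, e⟩ := SQ_pairs (f := f) q hj hm h3
  have hcl : ∀ π, Cl (GG f n n2 π) := GG_cl h1 hH hW h3
  have hS : Cl fun x => ∑ π ∈ Pr, GG f n n2 π x := Cl.sum _ fun π _ => hcl π
  set good : ℕ × ℕ → ℕ × ℕ → Prop := fun π ρ =>
    (Nr π.1 π.2 ∧ Nr ρ.2 ρ.1) ∨ (Nr π.1 ρ.1 ∧ Nr ρ.2 π.2) with hgood
  have hzero : ∀ π ∈ Pr, ∀ ρ ∈ Pr, ¬ good π ρ →
      ∫ x, GG f n n2 π x * conj (GG f n n2 ρ x) = 0 := by
    intro π hπ ρ hρ hg
    rw [← parseval (hcl π).int (hcl ρ).cont (hcl ρ).int (hcl ρ).fint]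
    refine integral_eq_zero_of_ae (Filter.Eventually.of_forall fun ξ => ?_)
    by_contra hne
    have hne' := mul_ne_zero_iff.1 hne
    obtain ⟨η1, a1, η1', a1', e1⟩ := GG_supp h1 hH hW h3 π hne'.1
    obtain ⟨η2', a2', η2, a2, e2⟩ := GG_supp h1 hH hW h3 ρ (by simpa using hne'.2)
    obtain ⟨b1, b1'⟩ := mem_product.1 (hPr hπ)
    obtain ⟨b2', b2⟩ := mem_product.1 (hPr hρ)
    refine hg (h2 H k j q n2 _ _ _ _ η1 η1' η2 η2' hH (hj.trans hm) hc b1 b1' b2 b2' a1 a1' a2 a2' ?_)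
    have := e1.symm.trans e2
    rw [sub_eq_sub_iff_add_eq_add] at this
    rw [this, add_comm]
  set B : E3 → ℝ := fun x => ∑ π ∈ Pr, ∑ ρ ∈ Pr,
    if good π ρ then ‖GG f n n2 π x * conj (GG f n n2 ρ x)‖ else 0 with hB
  have hterm : ∀ π ρ, Integrable fun x =>
      if good π ρ then ‖GG f n n2 π x * conj (GG f n n2 ρ x)‖ else 0 := by
    intro π ρ
    by_cases hg : good π ρ
    · simpa only [hg, if_true] using ((hcl π).mul_conj_int (hcl ρ)).norm
    · simp [hg]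
  have hBint : Integrable B :=
    integrable_finsetSum _ fun π _ => integrable_finsetSum _ fun ρ _ => hterm π ρ
  have hB0 : ∀ x, 0 ≤ B x := fun x =>
    sum_nonneg fun _ _ => sum_nonneg fun _ _ => by split_ifs <;> positivity
  have hsq : Integrable fun x => ‖∑ π ∈ Pr, GG f n n2 π x‖ ^ 2 := by
    simpa only [sq, norm_mul, RCLike.norm_conj] using (hS.mul_conj_int hS).norm
  have hle : ∫ x, ‖∑ π ∈ Pr, GG f n n2 π x‖ ^ 2 ≤ ∫ x, B x := by
    have e1 : ((∫ x, ‖∑ π ∈ Pr, GG f n n2 π x‖ ^ 2 : ℝ) : ℂ) =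
        ∑ π ∈ Pr, ∑ ρ ∈ Pr, ∫ x, GG f n n2 π x * conj (GG f n n2 ρ x) := by
      rw [← integral_complex_ofReal]
      simp only [← integral_finsetSum _ fun ρ _ => (hcl _).mul_conj_int (hcl ρ)]
      rw [← integral_finsetSum _ fun π _ =>
        integrable_finsetSum _ fun ρ _ => (hcl π).mul_conj_int (hcl ρ)]
      congr 1; ext x
      rw [← sum_mul_sum, ← map_sum, Complex.mul_conj, Complex.normSq_eq_norm_sq]
    have e2 : ∫ x, B x = ∑ π ∈ Pr, ∑ ρ ∈ Pr, ∫ x,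
        if good π ρ then ‖GG f n n2 π x * conj (GG f n n2 ρ x)‖ else 0 := by
      rw [integral_finsetSum _ fun π _ => integrable_finsetSum _ fun ρ _ => hterm π ρ]
      exact sum_congr rfl fun π _ => integral_finsetSum _ fun ρ _ => hterm π ρ
    calc _ ≤ ‖((∫ x, ‖∑ π ∈ Pr, GG f n n2 π x‖ ^ 2 : ℝ) : ℂ)‖ := by
          rw [Complex.norm_real]; exact le_abs_self _
      _ ≤ _ := by
          rw [e1, e2]
          refine (norm_sum_le _ _).trans (sum_le_sum fun π hπ => (norm_sum_le _ _).trans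
            (sum_le_sum fun ρ hρ => ?_))
          by_cases hg : good π ρ
          · simpa only [hg, if_true] using norm_integral_le_integral_norm _
          · simp [hg, hzero π hπ ρ hρ hg]
  unfold QQ
  calc _ ≤ ∫⁻ ξ, ENNReal.ofReal (‖𝓕 (fun x => ∑ π ∈ Pr, GG f n n2 π x) ξ‖ ^ 2) := by
        rw [e]; exact setLIntegral_le_lintegral _ _
    _ ≤ _ := bessel hS.int
    _ = ENNReal.ofReal (∫ x, ‖∑ π ∈ Pr, GG f n n2 π x‖ ^ 2) :=
        (ofReal_integral_eq_lintegral_ofReal hsq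
          (Filter.Eventually.of_forall fun x => sq_nonneg _)).symm
    _ ≤ ENNReal.ofReal (∫ x, B x) := ENNReal.ofReal_le_ofReal hle
    _ = ∫⁻ x, ENNReal.ofReal (B x) :=
        ofReal_integral_eq_lintegral_ofReal hBint (Filter.Eventually.of_forall hB0)
    _ ≤ _ := by
        refine lintegral_mono fun x => ENNReal.ofReal_le_ofReal ?_
        unfold AA
        rw [← quad_le]
        have hw := ww_nonneg (a := fun i => ‖FS f n n2 i x‖) fun _ => norm_nonneg _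
        refine le_trans (sum_le_sum fun π _ => le_trans (sum_le_sum fun ρ _ => ?_)
          (sum_le_sum_of_subset_of_nonneg hPr fun ρ _ _ =>
            add_nonneg (mul_nonneg (hw π.1 π.2) (hw ρ.2 ρ.1)) (mul_nonneg (hw π.1 ρ.1) (hw ρ.2 π.2))))
          (sum_le_sum_of_subset_of_nonneg hPr fun π _ _ => sum_nonneg fun ρ _ =>
            add_nonneg (mul_nonneg (hw _ _) (hw _ _)) (mul_nonneg (hw _ _) (hw _ _)))
        split_ifs with hg
        · have hn : ‖GG f n n2 π x * conj (GG f n n2 ρ x)‖ = ‖FS f n n2 π.1 x‖ * ‖FS f n n2 π.2 x‖ *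
              (‖FS f n n2 ρ.1 x‖ * ‖FS f n n2 ρ.2 x‖) := by simp [norm_GG]
          rw [hn]
          rcases hg with ⟨g1, g2⟩ | ⟨g1, g2⟩
          · have := mul_nonneg (hw π.1 ρ.1) (hw ρ.2 π.2)
            simp only [ww, g1, g2, if_true] at this ⊢
            nlinarith
          · have := mul_nonneg (hw π.1 π.2) (hw ρ.2 ρ.1)
            simp only [ww, g1, g2, if_true] at this ⊢
            nlinarith
        · exact add_nonneg (mul_nonneg (hw _ _) (hw _ _)) (mul_nonneg (hw _ _) (hw _ _))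

end WStep

open WStep

theorem wStep (h1 : PlMonoStmt) (h2 : AdjStmt) (h3 : BioStmt) (h4 : KakStmt) : WStepStmt := by
  refine ⟨2 * 10001 ^ 2 * 12, by norm_num, fun H k n f hH hk hW j q m n2 hj hm hn hc => ?_⟩
  have key : QQ H f n j q m ≤ ∫⁻ x, ENNReal.ofReal (2 * AA f n j q n2 x ^ 2) :=
    hc.elim (case_adj h1 h2 hH hk hW q hj hm hn) (case_bio h1 h3 hH hW q hj hm hn)
  calc _ ≤ _ := key
    _ ≤ ∫⁻ x, ENNReal.ofReal (2 * 10001 ^ 2) * ENNReal.ofReal (SQ f n j q n2 x ^ 2) := by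
        refine lintegral_mono fun x => ?_
        rw [← ENNReal.ofReal_mul (by norm_num)]
        refine ENNReal.ofReal_le_ofReal ?_
        have a := AA_nonneg (f := f) (n := n) j q n2 x
        have b := AA_le (f := f) (n := n) j q n2 x
        nlinarith [pow_le_pow_left₀ a b 2]
    _ ≤ ENNReal.ofReal (2 * 10001 ^ 2) * (12 * RR H f n j q n2) := by
        rw [lintegral_const_mul' _ _ ENNReal.ofReal_ne_top]
        gcongr
        exact sq_le_RR h1 h4 hH hW q (hj.trans hm) hn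
    _ = _ := by
        rw [← mul_assoc, ENNReal.ofReal_mul (p := 2 * 10001 ^ 2) (by norm_num)]
        simp

theorem wTop (h1 : PlMonoStmt) : WTopStmt := by
  intro H k n f hH hW
  have hcl := GG_cl h1 hH hW (Nat.zero_le n) (0, 0)
  have e : (fun x => (SQ f n 0 0 0 x : ℂ)) = GG f n 0 (0, 0) := by
    ext x; rw [SQ_diag, ch_self (by norm_num), sum_singleton]
  unfold QQ
  rw [e, ← lintegral_indicator (measurableSet_Box _ _ _ _)]
  have hP := planch hcl.cont hcl.int hcl.fint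
  refine le_trans (le_of_eq ?_) (hP.symm.le.trans (lintegral_mono fun ξ => ?_))
  · congr 1; ext x
    rw [norm_GG]; simp only [FS, ch_zero]; congr 1; ring
  · by_cases hξ : ξ ∈ Box H 0 0 0
    · simp [hξ]
    · have : 𝓕 (GG f n 0 (0, 0)) ξ = 0 := by
        by_contra h
        obtain ⟨η, ⟨a0, a1, a2⟩, η', ⟨b0, b1, b2⟩, e'⟩ := GG_supp h1 hH hW (Nat.zero_le n) (0, 0) h
        have hk : H / 4 ^ k ≤ H := div_le_self hH.le (one_le_pow₀ (by norm_num))
        simp only [pow_zero, div_one] at a1 a2 b1 b2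
        refine hξ ⟨?_, ?_, ?_⟩ <;> simp only [e', pow_zero, div_one, mul_one, l1_sub, l2_sub,
          PiLp.sub_apply] <;> rw [abs_le] at * <;> constructor <;> linarith
      simp [this]

end Pool.Agent.MP_538dc4_an
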