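import Pool.Agent.MP_538dc4_an.Lim
import Pool.Agent.MP_538dc4_an.Ker
import Pool.Agent.MP_538dc4_an.WGeo
import Pool.Agent.MP_538dc4_an.WStep
import Pool.Agent.MP_538dc4_an.WInd
import Pool.Agent.MP_538dc4_an.Prune
import Pool.Agent.MP_538dc4_an.Desc
import Pool.Agent.MP_538dc4_an.Loc
import Pool.Agent.MP_538dc4_an.Sup
import Pool.Agent.MP_538dc4_an.L4
import Pool.Agent.MP_538dc4_an.High
import Pool.Agent.MP_538dc4_an.Count
import Pool.Agent.MP_538dc4_an.Disc1
import Pool.Agent.MP_538dc4_an.Disc2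
import Pool.Agent.MP_538dc4_an.Cont
import Pool.Agent.MP_538dc4_an.Red
import Pool.Agent.MP_538dc4_an.Circ
import Pool.Agent.MP_538dc4_an.Sine

/-! PROJECT FURST: assembly. -/

namespace Pool.Agent.MP_538dc4_an

theorem w_stmt : WStmt := wInd (wStep plMono adj bio kak) (wTop plMono)

theorem loc_stmt : LocStmt := loc (desc drop_stmt)

theorem red_stmt : RedStmt :=
  red (disc ker_stmt w_stmt prune_stmt
    (disc1 (l4 box_stmt loc_stmt (sup loc_stmt)) high (count sep) vol)) hcPos cover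

theorem main_stmt {u v : ℝ} (hu : 0 < u) (hu1 : u ≤ 1) (hv : 0 < v) (hv3 : v ≤ 3) {F : Set E2}
    (hF : IsCircFurst u v F ∨ IsSineFurst u v F) :
    ENNReal.ofReal (min (3 * u + v - 2) (u + 1)) ≤ dimH F :=
  main_of (circ_stmt red_stmt) (sine_stmt red_stmt) hu hu1 hv hv3 hF

end Pool.Agent.MP_538dc4_an
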