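import Pool.Agent.MP_538dc4_an.Basic

/-! PROJECT FURST: Fourier analysis library. -/

open MeasureTheory Finset
open scoped ENNReal FourierTransform ComplexConjugate RealInnerProductSpace ContDiff SchwartzMap

namespace Pool.Agent.MP_538dc4_an

theorem ee_eq_exp (x : ℝ) : ee x = Complex.exp (2 * Real.pi * x * Complex.I) := by
  unfold ee; rw [Real.fourierChar_apply]; push_cast; rfl

theorem ee_add (x y : ℝ) : ee (x + y) = ee x * ee y := by
  unfold ee; rw [AddChar.map_add_eq_mul]; rfl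

@[simp] theorem ee_zero : ee 0 = 1 := by simp [ee]

@[simp] theorem norm_ee (x : ℝ) : ‖ee x‖ = 1 := Circle.norm_coe _

theorem conj_ee (x : ℝ) : conj (ee x) = ee (-x) := by
  unfold ee; rw [AddChar.map_neg_eq_inv, Circle.coe_inv_eq_conj]

theorem continuous_ee : Continuous ee :=
  continuous_subtype_val.comp Real.continuous_fourierChar

theorem re_ee (x : ℝ) : (ee x).re = Real.cos (2 * Real.pi * x) := by
  rw [ee_eq_exp, show (2 * Real.pi * x * Complex.I : ℂ) = ((2 * Real.pi * x : ℝ) : ℂ) * Complex.I by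
    push_cast; ring, Complex.exp_ofReal_mul_I_re]

section General

variable {V : Type*} [NormedAddCommGroup V] [InnerProductSpace ℝ V] [FiniteDimensional ℝ V]
  [MeasurableSpace V] [BorelSpace V]

theorem fourier_eq_ee (f : V → ℂ) (ξ : V) : 𝓕 f ξ = ∫ x, ee (-⟪x, ξ⟫) * f x := by
  rw [Real.fourier_eq]; rfl

theorem fourierInv_eq_ee (f : V → ℂ) (x : V) : 𝓕⁻ f x = ∫ ξ, ee ⟪ξ, x⟫ * f ξ := by
  rw [Real.fourierInv_eq]; rfl

theorem continuous_fourier {f : V → ℂ} (hf : Integrable f) : Continuous (𝓕 f : V → ℂ) :=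
  VectorFourier.fourierIntegral_continuous Real.continuous_fourierChar (innerSL ℝ).continuous₂ hf

theorem norm_fourier_le (f : V → ℂ) (ξ : V) : ‖𝓕 f ξ‖ ≤ ∫ x, ‖f x‖ :=
  VectorFourier.norm_fourierIntegral_le_integral_norm _ _ _ _ _

theorem integrable_ee_mul {f : V → ℂ} (hf : Integrable f) {φ : V → ℝ} (hφ : Continuous φ) :
    Integrable fun x => ee (φ x) * f x :=
  hf.bdd_mul (c := 1) (continuous_ee.comp hφ).aestronglyMeasurable
    (Filter.Eventually.of_forall fun _ => (norm_ee _).le)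

theorem integrable_conj {α : Type*} [MeasurableSpace α] {μ : Measure α} {f : α → ℂ}
    (hf : Integrable f μ) : Integrable (fun x => conj (f x)) μ :=
  (Complex.conjCLE : ℂ →L[ℝ] ℂ).integrable_comp hf

theorem integrable_of_bounded_support {f : V → ℂ} (hf : Continuous f) {B : Set V}
    (hB : Bornology.IsBounded B) (h : ∀ ξ ∉ B, f ξ = 0) : Integrable f :=
  hf.integrable_of_hasCompactSupport
    (HasCompactSupport.intro hB.isCompact_closure fun ξ hξ => h ξ fun h' => hξ (subset_closure h'))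

theorem integrable_fourier_of_bounded {f : V → ℂ} (hf : Integrable f) {B : Set V}
    (hB : Bornology.IsBounded B) (h : ∀ ξ ∉ B, 𝓕 f ξ = 0) : Integrable (𝓕 f : V → ℂ) :=
  integrable_of_bounded_support (continuous_fourier hf) hB h

theorem fourier_add' {f g : V → ℂ} (hf : Integrable f) (hg : Integrable g) (ξ : V) :
    𝓕 (fun x => f x + g x) ξ = 𝓕 f ξ + 𝓕 g ξ := by
  simp only [fourier_eq_ee, mul_add]
  exact integral_add (integrable_ee_mul hf (by fun_prop)) (integrable_ee_mul hg (by fun_prop))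

theorem fourier_sum {ι : Type*} (s : Finset ι) {f : ι → V → ℂ} (hf : ∀ i ∈ s, Integrable (f i))
    (ξ : V) : 𝓕 (fun x => ∑ i ∈ s, f i x) ξ = ∑ i ∈ s, 𝓕 (f i) ξ := by
  simp only [fourier_eq_ee, mul_sum]
  exact integral_finsetSum _ fun i hi => integrable_ee_mul (hf i hi) (by fun_prop)

theorem fourier_const_mul (c : ℂ) (f : V → ℂ) (ξ : V) :
    𝓕 (fun x => c * f x) ξ = c * 𝓕 f ξ := by
  simp only [fourier_eq_ee, ← integral_const_mul]
  congr 1; ext x; ring

theorem fourier_conj (f : V → ℂ) (ξ : V) : 𝓕 (fun x => conj (f x)) ξ = conj (𝓕 f (-ξ)) := by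
  simp only [fourier_eq_ee, ← integral_conj, map_mul, conj_ee, inner_neg_right, neg_neg]

theorem fourier_mul_ee (f : V → ℂ) (v : V) (c : ℝ) (ξ : V) :
    𝓕 (fun x => f x * ee (⟪x, v⟫ + c)) ξ = ee c * 𝓕 f (ξ - v) := by
  simp only [fourier_eq_ee, ← integral_const_mul]
  congr 1; ext x
  rw [inner_sub_right, ee_add, show -(⟪x, ξ⟫ - ⟪x, v⟫) = -⟪x, ξ⟫ + ⟪x, v⟫ by ring, ee_add]; ring

/-- The multiplication formula. -/
theorem integral_fourier_mul {f g : V → ℂ} (hf : Integrable f) (hg : Integrable g) :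
    ∫ ξ, 𝓕 f ξ * g ξ = ∫ x, f x * 𝓕 g x := by
  have := VectorFourier.integral_fourierIntegral_smul_eq_flip (L := innerₗ V)
    (μ := volume) (ν := volume) Real.continuous_fourierChar continuous_inner hf hg
  rw [flip_innerₗ] at this
  exact this

theorem eq_fourierInv {f : V → ℂ} (hc : Continuous f) (hf : Integrable f)
    (hF : Integrable (𝓕 f : V → ℂ)) (x : V) : f x = ∫ ξ, ee ⟪ξ, x⟫ * 𝓕 f ξ := by
  rw [← fourierInv_eq_ee, hc.fourierInv_fourier_eq hf hF]

theorem bdd_of_fourier {f : V → ℂ} (hc : Continuous f) (hf : Integrable f)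
    (hF : Integrable (𝓕 f : V → ℂ)) : ∃ C, ∀ x, ‖f x‖ ≤ C := by
  refine ⟨∫ ξ, ‖𝓕 f ξ‖, fun x => ?_⟩
  rw [eq_fourierInv hc hf hF x]
  refine (norm_integral_le_integral_norm _).trans (le_of_eq ?_)
  simp

/-- Parseval. -/
theorem parseval {f g : V → ℂ} (hf : Integrable f) (hgc : Continuous g) (hg : Integrable g)
    (hG : Integrable (𝓕 g : V → ℂ)) :
    ∫ ξ, 𝓕 f ξ * conj (𝓕 g ξ) = ∫ x, f x * conj (g x) := by
  have hG' : Integrable fun ξ => conj (𝓕 g ξ) := integrable_conj hG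
  rw [integral_fourier_mul hf hG']
  congr 1; ext x
  rw [fourier_conj, ← Real.fourierInv_eq_fourier_neg, hgc.fourierInv_fourier_eq hg hG]

theorem L2_norm_sq (f : Lp (α := V) ℂ 2) : ‖f‖ ^ 2 = ∫ x, ‖f x‖ ^ 2 := by
  have h := congr_arg RCLike.re (L2.inner_def (𝕜 := ℂ) f f)
  rw [← integral_re (L2.integrable_inner f f)] at h
  rw [← inner_self_eq_norm_sq (𝕜 := ℂ), h]
  simp_rw [inner_self_eq_norm_sq (𝕜 := ℂ)]

theorem fourier_ae_eq {U : V → ℂ} (h1 : Integrable U) (h2 : MemLp U 2) :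
    (𝓕 U : V → ℂ) =ᵐ[volume] (𝓕 (h2.toLp U) : Lp (α := V) ℂ 2) := by
  have hc : Continuous (𝓕 U : V → ℂ) := continuous_fourier h1
  refine ae_eq_of_integral_contDiff_smul_eq hc.locallyIntegrable
    ((Lp.memLp _).locallyIntegrable (by norm_num)) fun g hg hgc => ?_
  have hg' : ContDiff ℝ ∞ (fun x => (g x : ℂ)) := Complex.ofRealCLM.contDiff.comp hg
  have hgc' : HasCompactSupport (fun x => (g x : ℂ)) := hgc.comp_left (g := fun t : ℝ => (t : ℂ)) rfl
  let G : 𝓢(V, ℂ) := hgc'.toSchwartzMap hg'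
  have hG : ∀ x, G x = (g x : ℂ) := fun x => rfl
  have e1 := congr_arg (fun T => T G) (Lp.fourier_toTemperedDistribution_eq (h2.toLp U))
  simp only [TemperedDistribution.fourier_apply, Lp.toTemperedDistribution_apply] at e1
  have e2 := VectorFourier.integral_fourierIntegral_smul_eq_flip (L := innerₗ V)
    (μ := volume) (ν := volume) Real.continuous_fourierChar continuous_inner G.integrable h1
  have e3 : ∫ x, (𝓕 G) x • (h2.toLp U) x = ∫ x, (𝓕 G) x • U x := by
    refine integral_congr_ae ?_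
    filter_upwards [h2.coeFn_toLp] with x hx
    rw [hx]
  rw [flip_innerₗ] at e2
  calc ∫ x, g x • (𝓕 U : V → ℂ) x = ∫ x, G x • (𝓕 U : V → ℂ) x := by
        simp_rw [hG, Complex.real_smul, smul_eq_mul]
    _ = ∫ x, (𝓕 G) x • U x := e2.symm
    _ = _ := by
        rw [← e3, e1]
        simp_rw [hG, Complex.real_smul, smul_eq_mul]

theorem plancherel {U : V → ℂ} (h1 : Integrable U) (h2 : MemLp U 2) :
    Integrable (fun ξ => ‖(𝓕 U : V → ℂ) ξ‖ ^ 2) ∧
      ∫ ξ, ‖(𝓕 U : V → ℂ) ξ‖ ^ 2 = ∫ x, ‖U x‖ ^ 2 := by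
  have hae := fourier_ae_eq h1 h2
  have hm : MemLp (𝓕 U : V → ℂ) 2 := (Lp.memLp _).ae_eq hae.symm
  refine ⟨(memLp_two_iff_integrable_sq_norm hm.1).1 hm, ?_⟩
  calc ∫ ξ, ‖(𝓕 U : V → ℂ) ξ‖ ^ 2 = ∫ ξ, ‖(𝓕 (h2.toLp U) : Lp ℂ 2 (volume : Measure V)) ξ‖ ^ 2 := by
        refine integral_congr_ae ?_
        filter_upwards [hae] with x hx
        rw [hx]
    _ = ‖h2.toLp U‖ ^ 2 := by rw [← L2_norm_sq, Lp.norm_fourier_eq]
    _ = _ := by
        rw [L2_norm_sq]
        refine integral_congr_ae ?_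
        filter_upwards [h2.coeFn_toLp] with x hx
        rw [hx]

/-- Bessel inequality for every integrable function. -/
theorem bessel {f : V → ℂ} (hf : Integrable f) :
    ∫⁻ ξ, ENNReal.ofReal (‖𝓕 f ξ‖ ^ 2) ≤ ∫⁻ x, ENNReal.ofReal (‖f x‖ ^ 2) := by
  by_cases h : ∫⁻ x, ENNReal.ofReal (‖f x‖ ^ 2) = ⊤
  · rw [h]; exact le_top
  have hi : Integrable fun x => ‖f x‖ ^ 2 :=
    (lintegral_ofReal_ne_top_iff_integrable (hf.1.norm.pow 2)
      (Filter.Eventually.of_forall fun x => sq_nonneg ‖f x‖)).1 h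
  have h2 : MemLp f 2 := (memLp_two_iff_integrable_sq_norm hf.1).2 hi
  obtain ⟨a, b⟩ := plancherel hf h2
  rw [← ofReal_integral_eq_lintegral_ofReal a (Filter.Eventually.of_forall fun x => by positivity),
    ← ofReal_integral_eq_lintegral_ofReal hi (Filter.Eventually.of_forall fun x => by positivity), b]

theorem besselInv {f : V → ℂ} (hf : Integrable f) :
    ∫⁻ x, ENNReal.ofReal (‖𝓕⁻ f x‖ ^ 2) ≤ ∫⁻ ξ, ENNReal.ofReal (‖f ξ‖ ^ 2) := by
  refine le_trans (le_of_eq ?_) (bessel hf)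
  simp only [Real.fourierInv_eq_fourier_neg]
  exact lintegral_neg_eq_self (fun x => ENNReal.ofReal (‖𝓕 f x‖ ^ 2))

/-- Plancherel for continuous integrable functions with integrable Fourier transform. -/
theorem planch {f : V → ℂ} (hc : Continuous f) (hf : Integrable f)
    (hF : Integrable (𝓕 f : V → ℂ)) :
    ∫⁻ ξ, ENNReal.ofReal (‖𝓕 f ξ‖ ^ 2) = ∫⁻ x, ENNReal.ofReal (‖f x‖ ^ 2) := by
  refine le_antisymm (bessel hf) ?_
  have := besselInv hF
  rwa [hc.fourierInv_fourier_eq hf hF] at this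

namespace Spec

variable {S T U : Set V} {f g : V → ℂ}

theorem integrable_mul (h : Spec S f) {W : V → ℂ} (hW : Integrable W) :
    Integrable fun x => W x * f x := by
  obtain ⟨C, hC⟩ := h.bdd
  exact hW.mul_bdd (c := C) h.cont.aestronglyMeasurable (Filter.Eventually.of_forall hC)

theorem support (h : Spec S f) {W : V → ℂ} (hW : Integrable W) {η : V}
    (hη : 𝓕 (fun x => W x * f x) η ≠ 0) : ∃ s ∈ S, 𝓕 W (η - s) ≠ 0 := by
  by_contra hc
  push Not at hc
  exact hη (h.test W hW η hc)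

theorem mono (h : Spec S f) (hST : S ⊆ T) : Spec T f :=
  ⟨h.cont, h.bdd, fun W hW η hη => h.test W hW η fun s hs => hη s (hST hs)⟩

theorem zero (S : Set V) : Spec S (fun _ => (0 : ℂ)) :=
  ⟨continuous_const, ⟨0, by simp⟩, fun W _ η _ => by simp [fourier_eq_ee]⟩

theorem add (hf : Spec S f) (hg : Spec S g) : Spec S fun x => f x + g x := by
  obtain ⟨C, hC⟩ := hf.bdd
  obtain ⟨C', hC'⟩ := hg.bdd
  refine ⟨hf.cont.add hg.cont, ⟨C + C', fun x => (norm_add_le _ _).trans (add_le_add (hC x) (hC' x))⟩,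
    fun W hW η hη => ?_⟩
  simp only [mul_add]
  rw [fourier_add' (hf.integrable_mul hW) (hg.integrable_mul hW), hf.test W hW η hη,
    hg.test W hW η hη, add_zero]

theorem sum {ι : Type*} (s : Finset ι) {F : ι → V → ℂ} (h : ∀ i ∈ s, Spec S (F i)) :
    Spec S fun x => ∑ i ∈ s, F i x := by
  classical
  induction s using Finset.induction_on with
  | empty => simpa using zero S
  | insert a s ha ih =>
    simp only [sum_insert ha]
    exact (h a (mem_insert_self _ _)).add (ih fun i hi => h i (mem_insert_of_mem hi))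

theorem const_mul (hf : Spec S f) (c : ℂ) : Spec S fun x => c * f x := by
  obtain ⟨C, hC⟩ := hf.bdd
  refine ⟨continuous_const.mul hf.cont, ⟨‖c‖ * C, fun x => ?_⟩, fun W hW η hη => ?_⟩
  · rw [norm_mul]; exact mul_le_mul_of_nonneg_left (hC x) (norm_nonneg _)
  · have : (fun x => W x * (c * f x)) = fun x => c * (W x * f x) := by ext x; ring
    rw [this, fourier_const_mul, hf.test W hW η hη, mul_zero]

theorem mul (hf : Spec S f) (hg : Spec T g) (hU : ∀ s ∈ S, ∀ t ∈ T, s + t ∈ U) :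
    Spec U fun x => f x * g x := by
  obtain ⟨C, hC⟩ := hf.bdd
  obtain ⟨C', hC'⟩ := hg.bdd
  refine ⟨hf.cont.mul hg.cont, ⟨C * C', fun x => ?_⟩, fun W hW η hη => ?_⟩
  · rw [norm_mul]
    exact mul_le_mul (hC x) (hC' x) (norm_nonneg _) ((norm_nonneg _).trans (hC x))
  · have : (fun x => W x * (f x * g x)) = fun x => (W x * f x) * g x := by ext x; ring
    rw [this]
    refine hg.test _ (hf.integrable_mul hW) η fun t ht => hf.test W hW _ fun s hs => ?_
    rw [sub_sub, add_comm]; exact hη _ (hU s hs t ht)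

theorem conj' (hf : Spec S f) (hT : ∀ s ∈ S, -s ∈ T) : Spec T fun x => conj (f x) := by
  obtain ⟨C, hC⟩ := hf.bdd
  refine ⟨Complex.continuous_conj.comp hf.cont, ⟨C, fun x => by simpa using hC x⟩,
    fun W hW η hη => ?_⟩
  have e : (fun x => W x * (starRingEnd ℂ) (f x)) =
      fun x => (starRingEnd ℂ) ((starRingEnd ℂ) (W x) * f x) := by ext x; simp
  have hW' : Integrable fun x => (starRingEnd ℂ) (W x) :=
    integrable_conj hW
  rw [e, fourier_conj, hf.test _ hW' _ fun s hs => ?_, map_zero]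
  rw [fourier_conj, show -(-η - s) = η - -s by abel, hη _ (hT s hs), map_zero]

theorem ee (v : V) (c : ℝ) : Spec {v} fun x => ee (⟪x, v⟫ + c) :=
  ⟨continuous_ee.comp (by fun_prop), ⟨1, fun x => (norm_ee _).le⟩, fun W _ η hη => by
    rw [fourier_mul_ee, hη v rfl, mul_zero]⟩

theorem ker {k m : ℝ → ℝ} {c : ℝ} (hk : Ker k m c) (v : V) (γ d : ℝ) :
    Spec {ξ | ∃ α : ℝ, |α| ≤ |γ| ∧ ξ = α • v} fun x => (k (γ * (⟪x, v⟫ - d)) : ℂ) := by
  have hkc := hk.k_cont
  have hmc := hk.m_cont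
  refine ⟨by fun_prop, ⟨2, fun x => ?_⟩, fun W hW η hη => ?_⟩
  · rw [Complex.norm_real, Real.norm_of_nonneg (hk.k_nonneg _)]; exact hk.k_le _
  have hm : Integrable fun a : ℝ => (m a : ℂ) :=
    integrable_of_bounded_support (by fun_prop) (Metric.isBounded_ball (x := (0 : ℝ)) (r := 1))
      fun a ha => by
        rw [hk.m_supp a (by simpa using ha)]; simp
  have hint : Integrable (Function.uncurry fun (x : V) (a : ℝ) =>
      MP_538dc4_an.ee (-⟪x, η⟫) * (W x * ((m a : ℂ) *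
        MP_538dc4_an.ee (a * (γ * (⟪x, v⟫ - d)))))) (volume.prod volume) := by
    refine ((hW.mul_prod hm).bdd_mul (c := 1) (f := fun p : V × ℝ => MP_538dc4_an.ee (-⟪p.1, η⟫) *
      MP_538dc4_an.ee (p.2 * (γ * (⟪p.1, v⟫ - d)))) ?_ ?_).congr ?_
    · exact ((continuous_ee.comp (by fun_prop)).mul
        (continuous_ee.comp (by fun_prop))).aestronglyMeasurable
    · exact Filter.Eventually.of_forall fun p => by simp
    · exact Filter.Eventually.of_forall fun p => by simp only [Function.uncurry]; ring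
  rw [fourier_eq_ee]
  simp only [hk.k_eq, ← integral_const_mul]
  rw [integral_integral_swap hint]
  refine integral_eq_zero_of_ae (Filter.Eventually.of_forall fun a => ?_)
  by_cases ha : 1 ≤ |a|
  · simp [hk.m_supp a ha]
  have h1 : 𝓕 W (η - (a * γ) • v) = 0 := hη _ ⟨a * γ, by
    rw [abs_mul]; nlinarith [abs_nonneg a, abs_nonneg γ], rfl⟩
  have h2 := fourier_mul_ee W ((a * γ) • v) (-(a * γ * d)) η
  rw [h1, mul_zero, fourier_eq_ee] at h2
  have h3 : ∀ x : V, MP_538dc4_an.ee (-⟪x, η⟫) * (W x * ((m a : ℂ) *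
      MP_538dc4_an.ee (a * (γ * (⟪x, v⟫ - d))))) = (m a : ℂ) * (MP_538dc4_an.ee (-⟪x, η⟫) *
        (W x * MP_538dc4_an.ee (⟪x, (a * γ) • v⟫ + -(a * γ * d)))) := by
    intro x
    rw [inner_smul_right, show a * γ * ⟪x, v⟫ + -(a * γ * d) = a * (γ * (⟪x, v⟫ - d)) by ring]
    ring
  simp only [h3]
  rw [integral_const_mul, h2, mul_zero]; rfl

end Spec

end General

end Pool.Agent.MP_538dc4_an
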