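import Pool.Agent.MP_538dc4_an.Basic

/-! PROJECT FURST: passage from strict to non-strict dimension hypotheses. -/

open Filter Topology
open scoped ENNReal

namespace Pool.Agent.MP_538dc4_an

theorem lim_bound {u v : ℝ} (hu : 0 < u) (hv : 0 < v) {d : ℝ≥0∞}
    (h : ∀ u' v' : ℝ, 0 < u' → u' < u → 0 < v' → v' < v →
      ENNReal.ofReal (min (3 * u' + v' - 2) (u' + 1)) ≤ d) :
    ENNReal.ofReal (min (3 * u + v - 2) (u + 1)) ≤ d := by
  have hc : Continuous fun s : ℝ =>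
      ENNReal.ofReal (min (3 * (s * u) + s * v - 2) (s * u + 1)) :=
    ENNReal.continuous_ofReal.comp (by fun_prop)
  have ht : Tendsto (fun s : ℝ => ENNReal.ofReal (min (3 * (s * u) + s * v - 2) (s * u + 1)))
      (𝓝[<] 1) (𝓝 (ENNReal.ofReal (min (3 * u + v - 2) (u + 1)))) := by
    have := (hc.tendsto 1).mono_left (nhdsWithin_le_nhds (s := Set.Iio 1))
    simpa only [one_mul] using this
  refine le_of_tendsto ht ?_
  filter_upwards [Ioo_mem_nhdsLT (show (0 : ℝ) < 1 by norm_num)] with s hs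
  exact h _ _ (mul_pos hs.1 hu) (by nlinarith [hs.2]) (mul_pos hs.1 hv) (by nlinarith [hs.2])

theorem main_of (hC : CircStmt) (hS : SineStmt) {u v : ℝ} (hu : 0 < u) (hu1 : u ≤ 1)
    (hv : 0 < v) (hv3 : v ≤ 3) {F : Set E2} (hF : IsCircFurst u v F ∨ IsSineFurst u v F) :
    ENNReal.ofReal (min (3 * u + v - 2) (u + 1)) ≤ dimH F := by
  refine lim_bound hu hv fun u' v' h1 h2 h3 h4 => ?_
  have a1 : ENNReal.ofReal u' < ENNReal.ofReal u := (ENNReal.ofReal_lt_ofReal_iff hu).2 h2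
  have a2 : ENNReal.ofReal v' < ENNReal.ofReal v := (ENNReal.ofReal_lt_ofReal_iff hv).2 h4
  rcases hF with ⟨E, hE, hd, hx⟩ | ⟨E, hd, hx⟩
  · exact hC u' v' E F h1 (by linarith) h3 (by linarith) hE (a2.trans_le hd)
      fun x hxE => a1.trans_le (hx x hxE)
  · exact hS u' v' E F h1 (by linarith) h3 (by linarith) (a2.trans_le hd)
      fun x hxE => a1.trans_le (hx x hxE)

end Pool.Agent.MP_538dc4_an
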