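import Pool.Agent.MP_538dc4_an.Defs

/-! PROJECT FURST: module statements. See /team-store/FURST_BLUEPRINT.md. -/

open MeasureTheory Finset
open scoped ENNReal FourierTransform ComplexConjugate RealInnerProductSpace

namespace Pool.Agent.MP_538dc4_an

def KerStmt : Prop :=
  ∃ k m c, Ker k m c ∧ ∀ q : ℕ, ∃ C : ℝ, 0 < C ∧ ∀ L : ℝ, 1 ≤ L → Tail k L (C / L ^ q)

/-! ### The wave envelope estimate -/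

def PlMonoStmt : Prop :=
  ∀ (H : ℝ) (k n m q p : ℕ), 0 < H → m ≤ n → p ∈ ch 2 m q n → Pl H k n p 4 ⊆ Pl H k m q 14

/-- Two indices are close. -/
def Nr (p p' : ℕ) : Prop := p ≤ p' + 5000 ∧ p' ≤ p + 5000

def AdjStmt : Prop :=
  ∀ (H : ℝ) (k j q m n p p' : ℕ) (η η' : E3), 0 < H → 1 ≤ k → j ≤ m → m ≤ n → n + j ≤ 2 * m →
    p ∈ ch 2 j q n → p' ∈ ch 2 j q n → η ∈ Pl H k n p 14 → η' ∈ Pl H k n p' 14 →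
    η - η' ∈ Box H j q m → Nr p p'

def BioStmt : Prop :=
  ∀ (H : ℝ) (k j q n p1 p1' p2 p2' : ℕ) (η1 η1' η2 η2' : E3), 0 < H → j ≤ n → n ≤ j + k →
    p1 ∈ ch 2 j q n → p1' ∈ ch 2 j q n → p2 ∈ ch 2 j q n → p2' ∈ ch 2 j q n →
    η1 ∈ Pl H k n p1 14 → η1' ∈ Pl H k n p1' 14 → η2 ∈ Pl H k n p2 14 →
    η2' ∈ Pl H k n p2' 14 → η1 + η2 = η1' + η2' →
    (Nr p1 p1' ∧ Nr p2 p2') ∨ (Nr p1 p2' ∧ Nr p2 p1')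

def KakStmt : Prop :=
  ∀ (H : ℝ) (k j q n : ℕ) (ξ : E3) (c : ℕ → ℂ), 0 < H → j ≤ n →
    (∀ p ∈ ch 2 j q n, c p ≠ 0 → ∃ η ∈ Pl H k n p 14, ∃ η' ∈ Pl H k n p 14, ξ = η - η') →
    ‖∑ p ∈ ch 2 j q n, c p‖ ^ 2 ≤ 12 * ∑ i ∈ Icc j n, ∑ q' ∈ ch 2 j q i,
      (Box H i q' n).indicator (fun _ => ‖∑ p ∈ ch 2 i q' n, c p‖ ^ 2) ξ

def WStepStmt : Prop :=
  ∃ C : ℝ, 1 ≤ C ∧ ∀ (H : ℝ) (k n : ℕ) (f : ℕ → E3 → ℂ), 0 < H → 1 ≤ k → WHyp H k n f →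
    ∀ j q m n2 : ℕ, j ≤ m → m ≤ n2 → n2 ≤ n → (n2 + j ≤ 2 * m ∨ n2 ≤ j + k) →
      QQ H f n j q m ≤ ENNReal.ofReal C * RR H f n j q n2

def WTopStmt : Prop :=
  ∀ (H : ℝ) (k n : ℕ) (f : ℕ → E3 → ℂ), 0 < H → WHyp H k n f →
    ∫⁻ x, ENNReal.ofReal (‖∑ p ∈ range (2 ^ n), f p x‖ ^ 4) ≤ QQ H f n 0 0 0

def WConc (ε : ℝ) (k : ℕ) (C : ℝ) : Prop :=
  ∀ (H : ℝ) (n : ℕ) (f : ℕ → E3 → ℂ), 0 < H → WHyp H k n f →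
    ∫⁻ x, ENNReal.ofReal (‖∑ p ∈ range (2 ^ n), f p x‖ ^ 4) ≤
      ENNReal.ofReal (C * ((2 : ℝ) ^ n) ^ ε) * RR H f n 0 0 n

def WStmt : Prop := ∀ ε : ℝ, 0 < ε → ∃ (k : ℕ) (C : ℝ), 1 ≤ k ∧ 1 ≤ C ∧ WConc ε k C

def BoxStmt : Prop :=
  ∀ (k m : ℝ → ℝ) (c b γ0 γ1 γ2 : ℝ) (g : E3 → ℝ) (S : ℝ≥0∞), Ker k m c →
    0 < γ0 → 0 < γ1 → 0 < γ2 → Continuous g → Integrable g → (∀ x, 0 ≤ g x) →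
    (∀ y, ∫⁻ x, ENNReal.ofReal (g x * kU k b γ0 γ1 γ2 (x - y)) ≤ S) →
    ∫⁻ ξ in {ξ : E3 | |ξ 0| ≤ c * γ0 ∧ |l1 b ξ| ≤ c * γ1 ∧ |l2 b ξ| ≤ c * γ2},
      ENNReal.ofReal (‖𝓕 (fun x => (g x : ℂ)) ξ‖ ^ 2) ≤ 8 * (∫⁻ x, ENNReal.ofReal (g x)) * S

/-! ### The data side -/

def PruneStmt : Prop :=
  ∀ (k m : ℝ → ℝ) (c e L η u : ℝ) (K N : ℕ) (P : Finset E2), Ker k m c → 0 ≤ e → 1 ≤ K →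
    1 ≤ L → 0 ≤ η → Tail k L η → ∃ χ, Prune e K N u L η P χ

def DropStmt : Prop :=
  ∀ (P : Finset E2) (w χ : E2 → ℝ) (B S S' : Set E2), Continuous χ → Integrable χ →
    (∀ z, |χ z| ≤ 1) → Bornology.IsBounded B → (∀ ω ∉ B, 𝓕 (fun z => (χ z : ℂ)) ω = 0) →
    MeasurableSet S → MeasurableSet S' → Bornology.IsBounded S' →
    (∀ ξ ∈ S, ∀ ω ∈ B, ξ - ω ∈ S') →
    ∫⁻ ξ in S, ENNReal.ofReal (‖ftp P (fun z => w z * χ z) ξ‖ ^ 2) ≤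
      ∫⁻ ξ in S', ENNReal.ofReal (‖ftp P w ξ‖ ^ 2)

def DescStmt : Prop :=
  ∀ (D : Dat) (j l1 p1 : ℕ) (h : ℝ) (Q : Finset E2), D.Ok → 4 ≤ j → j ≤ D.N → l1 ≤ j - 3 →
    p1 < D.K ^ l1 → (D.K : ℝ) ^ (2 * (j - 1)) ≤ h →
    ∑ θ ∈ ch D.K l1 p1 (j - 3), ∫⁻ ξ in Sec D.e D.K h (j - 3) θ 0,
        ENNReal.ofReal (‖ftp Q (cw D.K D.χ (j - 2) (j - 2) (j - 3) θ) ξ‖ ^ 2) ≤
      265 ^ D.N * ∫⁻ ξ in Sec D.e D.K h l1 p1 (1 / 4),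
        ENNReal.ofReal (‖ftp Q (cw D.K D.χ (j - 2) (l1 + 1) l1 p1) ξ‖ ^ 2)

def LocStmt : Prop :=
  ∀ (D : Dat) (j l l1 p1 : ℕ) (Q : Finset E2), D.Ok → 4 ≤ j → j ≤ D.N → 4 ≤ l →
    l * D.om j ≤ (D.K : ℝ) ^ (2 * j) → Q ⊆ D.P → l1 ≤ j - 3 → p1 < D.K ^ l1 →
    ∑ p ∈ ch D.K l1 p1 j, ∫⁻ y, ENNReal.ofReal (‖D.Gp Q j l p y‖ ^ 2) ≤
      ENNReal.ofReal ((D.K : ℝ) ^ 12 * (tt D.K j / (D.K : ℝ) ^ l1) *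
        (∑ z ∈ Q, cw D.K D.χ (j - 2) (l1 + 1) l1 p1 z) * Lam D.K D.N D.u (j - 2) l1)

def SupStmt : Prop :=
  ∀ (D : Dat) (j l l1 p1 : ℕ) (b γ0 γ1 γ2 : ℝ) (Y : E3), D.Ok → 4 ≤ j → j ≤ D.N → 4 ≤ l →
    l * D.om j ≤ (D.K : ℝ) ^ (2 * j) → l1 ≤ j - 3 → p1 < D.K ^ l1 →
    |b - bs D.K l1 p1| ≤ ((D.K : ℝ) ^ l1)⁻¹ → D.L * (D.K : ℝ) ^ (2 * l1) ≤ γ0 →
    D.L * (D.K : ℝ) ^ l1 ≤ γ1 → D.L ≤ γ2 → γ0 * γ1 ≤ (D.K : ℝ) ^ 20 * (D.K : ℝ) ^ (3 * l1) →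
    ∫⁻ X, ENNReal.ofReal ((D.W0 X * ∑ p ∈ ch D.K l1 p1 j, ‖D.gp j l p X‖ ^ 2) *
        kU D.k b γ0 γ1 γ2 (X - Y)) ≤
      ENNReal.ofReal ((D.K : ℝ) ^ 50 * (tt D.K j / D.δ) ^ 2 * (tt D.K j / D.δ ^ 2) ^ D.u)

def L4Stmt : Prop :=
  ∀ (D : Dat) (ε C : ℝ) (k0 b j l : ℕ), D.Ok → 0 < ε → 1 ≤ k0 → 1 ≤ C → WConc ε k0 C →
    D.K = 2 ^ b → 4 ≤ j → j ≤ D.N → 2 * 4 ^ k0 ≤ l → l * D.om j ≤ (D.K : ℝ) ^ (2 * j) →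
    ∫⁻ X, ENNReal.ofReal (D.W0 X ^ 2 * ‖D.Fl j l X‖ ^ 4) ≤
      ENNReal.ofReal (C * ((D.K : ℝ) ^ D.N) ^ ε * (D.K : ℝ) ^ 80 *
        (tt D.K j * (tt D.K j / D.δ) ^ 3 * (tt D.K j / D.δ ^ 2) ^ D.u * (tt D.K j / D.δ) ^ D.u) *
        D.P.card)

def HighStmt : Prop :=
  ∀ (D : Dat) (j l0 M : ℕ) (X X' : E3) (S : ℝ), D.Ok → 2 ≤ j → j ≤ D.N → GoodX D.e D.R X →
    (∀ i, |X' i - X i| ≤ tt D.K j) → 1 ≤ M → 7 * (4 * D.R + 7) * D.L * M ≤ (D.K : ℝ) ^ 2 →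
    0 ≤ S → (∀ l, l0 < l → l < M → ‖D.Fl j l X'‖ ≤ S) →
    D.c ^ 2 / 4 * D.Cnt j X ≤ S + (2 * l0 + 1) / M *
      (300 * D.R ^ 2 * D.L / D.c * D.Cnt (j - 1) X + ((D.K : ℝ) ^ (10 * D.N))⁻¹)

def SepStmt : Prop :=
  ∀ (u σ κ : ℝ) (A : Set ℝ), 0 < u → 0 < σ → 0 < κ → A ⊆ Set.Icc 0 1 →
    ENNReal.ofReal κ ≤ hc u A →
    ∃ Φ : Finset ℝ, (↑Φ : Set ℝ) ⊆ A ∧ (∀ x ∈ Φ, ∀ y ∈ Φ, x ≠ y → σ < |x - y|) ∧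
      κ ≤ Φ.card * (2 * σ) ^ u

def CountStmt : Prop :=
  ∀ (D : Dat) (X : E3) (A : Set ℝ) (κ : ℝ), D.Ok → GoodX D.e D.R X → A ⊆ Set.Ico 0 1 →
    (∀ φ ∈ A, ∃ z ∈ D.P, dist z (zpt D.e X φ) ≤ D.δ) → 0 < κ → ENNReal.ofReal κ ≤ hc D.u A →
    ∃ j < D.N, κ / (D.K : ℝ) ^ 4 * (tt D.K j / D.δ) * D.δ⁻¹ ^ D.u ≤ D.Cnt j X

def VolStmt : Prop :=
  ∀ (v t κ R : ℝ) (E : Set E3), 0 < v → 0 < t → 0 < κ → (∀ X ∈ E, ∀ i, |X i| ≤ R) →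
    ENNReal.ofReal κ ≤ hc v E →
    ENNReal.ofReal (κ * t ^ 3 / (2 * t) ^ v) ≤
      volume {X' : E3 | ∃ X ∈ E, ∀ i, |X' i - X i| < t}

def Disc1Stmt : Prop :=
  ∀ (D : Dat) (ε C v κ : ℝ) (k0 b : ℕ) (E : Set E3), D.Ok → 0 < ε → 1 ≤ k0 → 1 ≤ C →
    WConc ε k0 C → D.K = 2 ^ b → 0 < v → v ≤ 3 → D.δ ≤ κ → κ ≤ 1 →
    (4 * 4 ^ k0 + 1) * 10 ^ 6 * D.R ^ 3 ≤ D.c ^ 3 * D.L →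
    (∀ X ∈ E, GoodX D.e D.R X) → ENNReal.ofReal κ ≤ hc v E →
    (∀ X ∈ E, ENNReal.ofReal κ ≤
      hc D.u {φ | φ ∈ Set.Ico (0 : ℝ) 1 ∧ ∃ z ∈ D.P, dist z (zpt D.e X φ) ≤ D.δ}) →
    κ ^ 5 / (C * (D.K : ℝ) ^ 110 * D.L ^ (12 * D.N) * ((D.K : ℝ) ^ D.N) ^ ε) *
      (D.δ⁻¹ * D.δ⁻¹ ^ D.u * min 1 (D.δ ^ (3 - v - 2 * D.u))) ≤ D.P.card

def DiscStmt : Prop :=
  ∀ e u v R τ : ℝ, 0 ≤ e → e ≤ 1 → 0 < u → u ≤ 1 → 0 < v → v ≤ 3 → 1 ≤ R → 0 < τ →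
    ∃ (g : ℕ) (a : ℝ) (n0 : ℕ), 1 ≤ g ∧ 0 < a ∧ ∀ n ≥ n0, ∀ δ : ℝ, δ = ((2 : ℝ) ^ (g * n))⁻¹ →
      ∀ (E : Set E3) (P : Finset E2), (∀ X ∈ E, GoodX e R X) →
        ENNReal.ofReal (δ ^ a) ≤ hc v E →
        (∀ X ∈ E, ENNReal.ofReal (δ ^ a) ≤
          hc u {φ | φ ∈ Set.Ico (0 : ℝ) 1 ∧ ∃ z ∈ P, dist z (zpt e X φ) ≤ δ}) →
        δ⁻¹ ^ (min (3 * u + v - 2) (u + 1) - τ) ≤ P.card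

/-! ### Hausdorff dimension -/

def HcPosStmt : Prop :=
  ∀ (X : Type) [EMetricSpace X] (s : ℝ) (A : Set X), 0 < s → ENNReal.ofReal s < dimH A →
    0 < hc s A

def CoverStmt : Prop :=
  ∀ (F : Set E2) (s r : ℝ), 0 < s → 0 < r → dimH F < ENNReal.ofReal s →
    ∃ (x : ℕ → E2) (d : ℕ → ℝ), (∀ n, 0 < d n ∧ d n ≤ r) ∧ Summable (fun n => d n ^ s) ∧
      ∑' n, d n ^ s ≤ 2 ∧ F ⊆ ⋃ n, Metric.closedBall (x n) (d n)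

def RedStmt : Prop :=
  ∀ (e u v : ℝ) (E : Set E3) (F : Set E2), 0 ≤ e → e ≤ 1 → 0 < u → u ≤ 1 → 0 < v → v ≤ 3 →
    (∀ X ∈ E, 0 < X 2 + e * X 0) → ENNReal.ofReal v < dimH E →
    (∀ X ∈ E, ENNReal.ofReal u < dimH {φ | φ ∈ Set.Ico (0 : ℝ) 1 ∧ zpt e X φ ∈ F}) →
    ENNReal.ofReal (min (3 * u + v - 2) (u + 1)) ≤ dimH F

def CircStmt : Prop :=
  ∀ (u v : ℝ) (E : Set E3) (F : Set E2), 0 < u → u ≤ 1 → 0 < v → v ≤ 3 →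
    (∀ x ∈ E, 0 < x 2) → ENNReal.ofReal v < dimH E →
    (∀ x ∈ E, ENNReal.ofReal u < dimH (circ x ∩ F)) →
    ENNReal.ofReal (min (3 * u + v - 2) (u + 1)) ≤ dimH F

def SineStmt : Prop :=
  ∀ (u v : ℝ) (E : Set E3) (F : Set E2), 0 < u → u ≤ 1 → 0 < v → v ≤ 3 →
    ENNReal.ofReal v < dimH E →
    (∀ x ∈ E, ENNReal.ofReal u < dimH (sineWave x ∩ F)) →
    ENNReal.ofReal (min (3 * u + v - 2) (u + 1)) ≤ dimH F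

end Pool.Agent.MP_538dc4_an
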