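import Pool.Agent.MP_538dc4_an.Final

open Pool.Agent.MP_538dc4_an

namespace Pool.Agent.MP_538dc4_an.WaveEnvelopeBound

theorem result (u v : ℝ) (hu : 0 < u) (hu1 : u ≤ 1) (hv : 0 < v) (hv3 : v ≤ 3) (F : Set E2)
    (hF : IsCircFurst u v F ∨ IsSineFurst u v F) :
    ENNReal.ofReal (min (3 * u + v - 2) (u + 1)) ≤ dimH F :=
  main_stmt hu hu1 hv hv3 hF

end Pool.Agent.MP_538dc4_an.WaveEnvelopeBound
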